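import Pool.Agent.Helper53.MEI.Mom5

/-!
# Project MEI (M2): moments of the arcs by the walls, all edges
-/

namespace Helper53.MEI

open Set MeasureTheory Filter Topology Metric
open Helper80.CW Helper22.Wedge Helper22.Sig Helper14.CW Helper14.MEI2 Helper93.MEI
open Helper22.MEI (s t FD FD_pos)
open Helper21.Sec Helper21.Mom
open Pool.Agent.Helper95.MEI.Fub (Zp int_cont Zp_meas co_e)
open Pool.Agent.Helper73.MEI
open scoped RealInnerProductSpace ContDiff Real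

/-- the weight with profile `φ` on the edge cell of `0 1` -/
noncomputable def wF (φ : ℝ → ℝ) (a : Fin 4 → E3) (x : E3) : ℝ :=
  φ (eX a x) / (4 * Pool.Agent.Helper8.MEI.DD (eX a x) (eY a x) (eW a x))

/-! ### in a frame -/

section fr
variable {a : Fin 4 → E3} (ha : ∀ i j, i ≠ j → dist (a i) (a j) = 1)
  {K : Set E3} {σ : Measure (E3 × E3)} [IsFiniteMeasure σ] (h : PM K σ)
  (hcomp : ∀ p : E3, (∀ q ∈ K, dist p q ≤ 1) → p ∈ K)
  (hpl : ∀ x ∈ K, Pl a x) {b : OrthonormalBasis (Fin 3) ℝ E3} (hb : Fr a b)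
  {S : Fin 4 → ℝ} (hQ : ∀ x ∈ K, ∀ i, Qv a i x ≤ S i) (hS0 : ∀ i, 0 ≤ S i)

include ha hb in
omit [IsFiniteMeasure σ] in
theorem co_e53 (x : E3) : co b (cen a) x = (eX a x, eY a x, √2 / 4 + eW a x) := by
  obtain ⟨h0, h1, h2⟩ := frame_e (gram_of_dist ha) hb.1 hb.2.1 hb.2.2 x
  unfold co
  rw [h0, h1, h2]

include ha hpl hb in
omit [IsFiniteMeasure σ] in
theorem slab_co (x : E3) (hx : x ∈ K) : |(co b (cen a) x).1| + |(co b (cen a) x).2.1| +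
    √2 * ((co b (cen a) x).2.2 - √2 / 4) ≤ 1 / 2 := by
  have k := (pl_e (gram_of_dist ha) (hpl x hx)).1
  rw [co_e53 ha hb]
  simp only
  have e : √2 / 4 + eW a x - √2 / 4 = eW a x := by ring
  rw [e]
  exact k

include ha hb in
omit [IsFiniteMeasure σ] in
theorem wF_om (φ : ℝ → ℝ) (x : E3) : wF φ a x = omF φ (co b (cen a) x) := by
  rw [co_e53 ha hb]
  unfold wF omF FD Pool.Agent.Helper8.MEI.DD t
  simp only
  have e : √2 / 4 + eW a x - √2 / 4 = eW a x := by ring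
  rw [e]

omit [IsFiniteMeasure σ] in
theorem wF_cont {φ : ℝ → ℝ} (cφ : Continuous φ) (a : Fin 4 → E3) : Continuous (wF φ a) := by
  have h1 := Pool.Agent.Helper95.MEI.Fub.eX_cont a
  have h2 := Pool.Agent.Helper95.MEI.Fub.eY_cont a
  have h3 := Pool.Agent.Helper95.MEI.Fub.eW_cont a
  unfold wF
  refine Continuous.div (cφ.comp h1) ?_ fun x => ?_
  · unfold Pool.Agent.Helper8.MEI.DD
    fun_prop
  · have := Pool.Agent.Helper8.MEI.DD_pos (eX a x) (eY a x) (eW a x)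
    positivity

omit [IsFiniteMeasure σ] in
theorem wF_nn (i : Bool) (x : E3) :
    wF (nn (sg i)) a x = Helper37.MEI.wt a i x := by
  have e : ∀ (i : Bool) (y : ℝ), nn (sg i) y =
      1 / 2 + (if i then -(7 * y / 16) else 7 * y / 16) := by
    intro i y
    cases i
    · simp only [sg, nn, Bool.false_eq_true, if_false]
      ring
    · simp only [sg, nn, if_true]
      ring
  unfold wF Helper37.MEI.wt
  rw [e]

omit [IsFiniteMeasure σ] in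
theorem wF_fp (i : Bool) (x : E3) : wF (fp i) a x = Helper49.Cpl.wp a i x := by
  unfold wF fp Helper49.Cpl.wp
  rfl

omit [IsFiniteMeasure σ] in
theorem wF_fd (z : E3 × E3) : wF fd a z.1 = Helper49.Cpl.de a z := by
  unfold wF fd Helper49.Cpl.de Helper49.Cpl.rh
  rw [div_eq_mul_inv]

/-- volume term -/
noncomputable def Vb (φ : ℝ → ℝ) (a : Fin 4 → E3) (b : OrthonormalBasis (Fin 3) ℝ E3)
    (K : Set E3) (ε : ℝ) : ℝ := ∫ x in K ∩ EC b (cen a), dG φ ε (co b (cen a) x)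

include ha hcomp hpl hb hQ hS0 in
omit [IsFiniteMeasure σ] in
/-- the volume term is not negative -/
theorem Vb_nonneg {φ : ℝ → ℝ} (hφ : ∀ X : ℝ, |X| ≤ 1 / 2 → 0 ≤ φ X) (hKc : IsCompact K)
    {ε : ℝ} (hε : ε = 1 ∨ ε = -1) : 0 ≤ Vb φ a b K ε := by
  have hB := Helper21.Alp.bod ha hcomp hpl hb hQ hS0
  have hEm : MeasurableSet (EC b (cen a)) := by
    rw [← cel_eq]; exact (Cel_open _ _).measurableSet
  unfold Vb
  refine setIntegral_nonneg (hKc.isClosed.measurableSet.inter hEm) fun x hx => ?_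
  have h1 : |(co b (cen a) x).2.1| < s * ((co b (cen a) x).2.2 - t) := hx.2
  have hs : s = √2 / 2 := rfl
  rw [hs] at h1
  obtain ⟨h2, h3⟩ := abs_lt.1 h1
  have hD := FD_pos (co b (cen a) x)
  unfold dG
  refine mul_nonneg (hφ _ (hB.X_le x hx.1)) (div_nonneg ?_ (by positivity))
  rcases hε with h | h <;> rw [h] <;> linarith

include ha h hb in
/-- the flux of the coordinate is the difference of two moments -/
theorem flux_wF {φ : ℝ → ℝ} (cφ : Continuous φ) {k k' : Fin 4} {ε : ℝ} (hk : ks k ε k') :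
    ∫ z in {z : E3 × E3 | z.1 ∈ EC b (cen a)}, omF φ (co b (cen a) z.1) *
        ⟪be b ε, z.1 - z.2⟫ ∂σ =
      (∫ z in Zp a 2 3, wF φ a z.1 * bar a k z.1 ∂σ) -
        ∫ z in Zp a 2 3, wF φ a z.1 * bar a k z.2 ∂σ := by
  rw [← Helper21.Alp.Zp_eq ha hb]
  have hwc := wF_cont cφ a
  have hbc := Pool.Agent.Helper95.MEI.Fub.bar_cont a k
  have i1 : Integrable (fun z : E3 × E3 => wF φ a z.1 * bar a k z.2) σ :=
    int_cont h.cpt h.mem ((hwc.comp continuous_fst).mul (hbc.comp continuous_snd))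
  have i2 : Integrable (fun z : E3 × E3 => wF φ a z.1 * bar a k z.1) σ :=
    int_cont h.cpt h.mem ((hwc.comp continuous_fst).mul (hbc.comp continuous_fst))
  rw [← integral_sub i2.integrableOn i1.integrableOn]
  refine integral_congr_ae (Eventually.of_forall fun z => ?_)
  simp only
  rw [← wF_om ha hb φ z.1, bar_be ha hb hk]
  ring

include ha h hcomp hpl hb hQ hS0 in
/-- **weighted moment by the walls, upper bound, all terms** -/
theorem momF_le {φ : ℝ → ℝ} {φn : ℕ → ℝ → ℝ} (hw : Wgt φ φn) (cφ : Continuous φ)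
    {k k' : Fin 4} {ε : ℝ} (hk : ks k ε k') :
    ∫ z in Zp a 2 3, wF φ a z.1 * bar a k z.2 ∂σ ≤
      (∫ z in Zp a 2 3, wF φ a z.1 * bar a k z.1 ∂σ) - Vb φ a b K ε +
      3 / 2 * JGu φ (S k') - 1 / 2 * JGl φ (S 0) (S 1) := by
  have hB := Helper21.Alp.bod ha hcomp hpl hb hQ hS0
  have hε : ε = 1 ∧ S 3 ≤ S k' ∨ ε = -1 ∧ S 2 ≤ S k' := by
    rcases hk with ⟨_, h2, h3⟩ | ⟨_, h2, h3⟩
    · left; exact ⟨h2, by rw [h3]⟩
    · right; exact ⟨h2, by rw [h3]⟩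
  have h1 := fluxP_ge h.cpt h.mem h.flux hB (slab_co ha hpl hb) hw.sn hw.hn hw.hl (hS0 k') hε
  rw [flux_wF ha h hb cφ hk] at h1
  unfold Vb
  linarith

include ha h hcomp hpl hb hQ hS0 in
/-- **weighted moment by the walls, lower bound, all terms** -/
theorem momF_ge {φ : ℝ → ℝ} {φn : ℕ → ℝ → ℝ} (hw : Wgt φ φn) (cφ : Continuous φ)
    {k k' : Fin 4} {ε : ℝ} (hk : ks k ε k') :
    (∫ z in Zp a 2 3, wF φ a z.1 * bar a k z.1 ∂σ) - Vb φ a b K ε +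
      3 / 2 * JGl φ (S 0) (S 1) - 1 / 2 * JGu φ (S k) ≤
      ∫ z in Zp a 2 3, wF φ a z.1 * bar a k z.2 ∂σ := by
  have hB := Helper21.Alp.bod ha hcomp hpl hb hQ hS0
  have hε : ε = -1 ∧ S 3 ≤ S k ∨ ε = 1 ∧ S 2 ≤ S k := by
    rcases hk with ⟨h3, h2, _⟩ | ⟨h3, h2, _⟩
    · right; exact ⟨h2, by rw [h3]⟩
    · left; exact ⟨h2, by rw [h3]⟩
  have h1 := fluxP_le h.cpt h.mem h.flux hB (slab_co ha hpl hb) hw.sn hw.hn hw.hl (hS0 k) hε
  rw [flux_wF ha h hb cφ hk] at h1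
  unfold Vb
  linarith

include ha h in
omit [IsFiniteMeasure σ] in
/-- the moment of the first point is not positive -/
theorem momF_fst {φ : ℝ → ℝ} (hφ : ∀ X : ℝ, |X| ≤ 1 / 2 → 0 ≤ φ X)
    (hpl : ∀ x ∈ K, Pl a x) {k k' : Fin 4} {ε : ℝ} (hk : ks k ε k') :
    ∫ z in Zp a 2 3, wF φ a z.1 * bar a k z.1 ∂σ ≤ 0 := by
  have hG := gram_of_dist ha
  refine setIntegral_nonpos_of_ae_restrict ?_
  filter_upwards [ae_restrict_mem (Zp_meas a 2 3), ae_restrict_of_ae (s := Zp a 2 3) h.mem]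
    with z hz hm
  have hX := (pl_e hG (hpl _ hm.1)).2.1
  have hD := Pool.Agent.Helper8.MEI.DD_pos (eX a z.1) (eY a z.1) (eW a z.1)
  have hw0 : 0 ≤ wF φ a z.1 := div_nonneg (hφ _ hX) (by positivity)
  refine mul_nonpos_of_nonneg_of_nonpos hw0 ?_
  rcases hk with ⟨h3, _, _⟩ | ⟨h3, _, _⟩
  · rw [h3]; exact hz.1.le
  · rw [h3]; exact hz.2.le

include ha h hcomp hpl hb hQ hS0 in
/-- **weighted moment by the walls, upper bound** -/
theorem momF_up {φ : ℝ → ℝ} {φn : ℕ → ℝ → ℝ} (hw : Wgt φ φn) (cφ : Continuous φ)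
    (hφ : ∀ X : ℝ, |X| ≤ 1 / 2 → 0 ≤ φ X) {k k' : Fin 4} {ε : ℝ} (hk : ks k ε k') :
    ∫ z in Zp a 2 3, wF φ a z.1 * bar a k z.2 ∂σ ≤
      3 / 2 * JGu φ (S k') - 1 / 2 * JGl φ (S 0) (S 1) := by
  have h1 := momF_le ha h hcomp hpl hb hQ hS0 hw cφ hk
  have hε : ε = 1 ∨ ε = -1 := by
    rcases hk with ⟨_, h2, _⟩ | ⟨_, h2, _⟩
    · exact Or.inl h2
    · exact Or.inr h2
  have h2 := Vb_nonneg ha hcomp hpl hb hQ hS0 hφ h.cpt hε
  have h3 := momF_fst ha h hφ hpl hk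
  linarith

end fr

/-! ### numbers -/

theorem r2b : 1.41421 ≤ √2 ∧ √2 ≤ 1.41422 := by
  constructor
  · apply Real.le_sqrt_of_sq_le; norm_num
  · rw [Real.sqrt_le_left (by norm_num)]; norm_num

theorem gp_bd {τ : ℝ} (h0 : 0 ≤ τ) (h1 : τ ≤ 3 / 10) : 0 ≤ gp τ := by
  unfold gp
  have h3 : 0 ≤ τ ^ 3 := by positivity
  have h5 : 0 ≤ τ ^ 5 := by positivity
  have h4 : τ ^ 4 ≤ 3 / 10 * τ ^ 3 := by
    have : τ ^ 4 = τ * τ ^ 3 := by ring
    rw [this]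
    exact mul_le_mul_of_nonneg_right h1 h3
  linarith

/-- full weight -/
theorem num_nn {s' s1 s2 τ : ℝ} (hs' : 0 ≤ s') (h1 : 0 ≤ s1) (h2 : 0 ≤ s2) (t0 : 0 ≤ τ)
    (t1 : τ ≤ 3 / 10) (i : Bool) :
    3 / 2 * JGu (nn (sg i)) s' - 1 / 2 * JGl (nn (sg i)) s1 s2 ≤
      0.03561 + (0.2986 - 0.5798 * τ) * s' + 0.2942 * τ ^ 3 - 0.14 * τ ^ 4 + 0.1157 * τ ^ 5 +
      0.07317 * (if i then s2 else s1) + 0.05728 * (if i then s1 else s2) := by
  obtain ⟨r0, r1⟩ := r2b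
  have k1 := JGu_nn (η := sg i) hs' t0 t1
  have k2 := JGl_nn (sg i) s1 s2
  have hg := gp_bd t0 t1
  have hx : 0 ≤ s' * (3943878660643 / 9340531200000 - 0.82 * τ) + gp τ := by
    have : 0 ≤ s' * (3943878660643 / 9340531200000 - 0.82 * τ) :=
      mul_nonneg hs' (by linarith)
    linarith
  have k3 := mul_le_mul_of_nonneg_right r1 hx
  have k4 := mul_le_mul_of_nonneg_right r1 h1
  have k5 := mul_le_mul_of_nonneg_right r1 h2
  have k6 := mul_le_mul_of_nonneg_right r0 h1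
  have k7 := mul_le_mul_of_nonneg_right r0 h2
  have k8 : 0 ≤ s' * τ := mul_nonneg hs' t0
  have k9 : 0 ≤ τ ^ 3 := by positivity
  have k10 : 0 ≤ τ ^ 4 := by positivity
  have k11 : 0 ≤ τ ^ 5 := by positivity
  rw [k2]
  unfold gp at k1 k3
  cases i
  · simp only [sg, Bool.false_eq_true, if_false] at k1 ⊢
    linarith
  · simp only [sg, if_true] at k1 ⊢
    linarith

/-- the part `(7/8) x⁺` -/
theorem num_fp {s' s1 s2 τ : ℝ} (hs' : 0 ≤ s') (h1 : 0 ≤ s1) (h2 : 0 ≤ s2) (t0 : 0 ≤ τ)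
    (t1 : τ ≤ 3 / 10) (i : Bool) :
    3 / 2 * JGu (fp i) s' - 1 / 2 * JGl (fp i) s1 s2 ≤
      0.005832 + (0.06639 - 0.2536 * τ + 0.2537 * τ ^ 2) * s' +
      0.1288 * τ ^ 3 - 0.0612 * τ ^ 4 + 0.0507 * τ ^ 5 +
      0.02191 * (if i then s2 else s1) + 0.00602 * (if i then s1 else s2) := by
  obtain ⟨r0, r1⟩ := r2b
  have k1 := JGu_fp (i := i) hs' t0 t1
  have k2 := JGl_fp i s1 s2
  have hg := gp_bd t0 t1
  have k8 : 0 ≤ s' * τ := mul_nonneg hs' t0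
  have k8b : 0 ≤ s' * τ ^ 2 := mul_nonneg hs' (by positivity)
  have hx : 0 ≤ s' * (149504412607 / 1393459200000 - 0.82 * (τ / 2 - τ ^ 2 / 2)) +
        1 / 2 * gp τ := by
    have : 0 ≤ s' * (149504412607 / 1393459200000 - 0.82 * (τ / 2 - τ ^ 2 / 2)) :=
      mul_nonneg hs' (by nlinarith)
    linarith
  have k3 := mul_le_mul_of_nonneg_right r1 hx
  have k4 := mul_le_mul_of_nonneg_right r1 h1
  have k5 := mul_le_mul_of_nonneg_right r1 h2
  have k6 := mul_le_mul_of_nonneg_right r0 h1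
  have k7 := mul_le_mul_of_nonneg_right r0 h2
  have k9 : 0 ≤ τ ^ 3 := by positivity
  have k10 : 0 ≤ τ ^ 4 := by positivity
  have k11 : 0 ≤ τ ^ 5 := by positivity
  rw [k2]
  unfold gp at k1 k3
  cases i
  · simp only [Bool.false_eq_true, if_false] at k1 ⊢
    linarith
  · simp only [if_true] at k1 ⊢
    linarith

/-- the coupling density -/
theorem num_fd {s' s1 s2 τ : ℝ} (hs' : 0 ≤ s') (h1 : 0 ≤ s1) (h2 : 0 ≤ s2) (t0 : 0 ≤ τ)
    (t1 : τ ≤ 3 / 10) :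
    3 / 2 * JGu fd s' - 1 / 2 * JGl fd s1 s2 ≤
      0.05955 + (0.4644 - 0.6523 * τ - 0.5073 * τ ^ 2) * s' +
      √2 * ((9 / 16 + 7 / 8 * τ) * gp τ) + 0.10255 * (s1 + s2) := by
  obtain ⟨r0, r1⟩ := r2b
  have k1 := JGu_fd hs' t0 t1
  have k2 := JGl_fd s1 s2
  have k8 : 0 ≤ s' * τ := mul_nonneg hs' t0
  have k8b : 0 ≤ s' * τ ^ 2 := mul_nonneg hs' (by positivity)
  have hx : 0 ≤ s' * (3943878660643 / 9340531200000 -
      7 / 8 * (149504412607 / 1393459200000) - 0.82 * (τ - 7 / 8 * (τ / 2 - τ ^ 2 / 2))) :=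
    mul_nonneg hs' (by nlinarith)
  have k3 := mul_le_mul_of_nonneg_right r1 hx
  have k4 := mul_le_mul_of_nonneg_right r1 h1
  have k5 := mul_le_mul_of_nonneg_right r1 h2
  rw [k2]
  linarith

/-! ### all six edges -/

section six
variable {a : Fin 4 → E3} {K : Set E3} {σ : Measure (E3 × E3)}

/-- generic weight, upper bound -/
theorem momF_all [IsFiniteMeasure σ] (h : PM K σ) (ha : ∀ i j, i ≠ j → dist (a i) (a j) = 1)
    (hull : ∀ p, (∀ q ∈ K, ‖p - q‖ ≤ 1) → p ∈ K) (hp : ∀ x ∈ K, Pl a x)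
    {B : Fin 3 → Bool → OrthonormalBasis (Fin 3) ℝ E3}
    (hB : ∀ m e, Fr (fun i => a (pr m e i)) (B m e)) {S : Fin 4 → ℝ} (hS0 : ∀ i, 0 ≤ S i)
    (hQ : ∀ i, ∀ q ∈ K, Qv a i q ≤ S i) {φ : ℝ → ℝ} {φn : ℕ → ℝ → ℝ} (hw : Wgt φ φn)
    (cφ : Continuous φ) (hφ : ∀ X : ℝ, |X| ≤ 1 / 2 → 0 ≤ φ X)
    (m : Fin 3) (e : Bool) {k k' : Fin 4} (hk : k = 2 ∧ k' = 3 ∨ k = 3 ∧ k' = 2) :
    ∫ z in Helper37.MEI.EE a m e, wF φ (Helper37.MEI.ap a m e) z.1 *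
      bar a (pf m e k) z.2 ∂σ ≤ 3 / 2 * JGu φ (S (pf m e k')) -
        1 / 2 * JGl φ (S (pf m e 0)) (S (pf m e 1)) := by
  have ha' := Helper37.MEI.hap ha m e
  have hb : Fr (Helper37.MEI.ap a m e) (B m e) := hB m e
  have hcomp : ∀ p : E3, (∀ q ∈ K, dist p q ≤ 1) → p ∈ K := fun p hpp =>
    hull p fun q hq => by rw [← dist_eq_norm]; exact hpp q hq
  have hp' : ∀ x ∈ K, Pl (Helper37.MEI.ap a m e) x := fun x hx => Pl_perm _ (hp x hx)
  have hQ' : ∀ x ∈ K, ∀ j, Qv (Helper37.MEI.ap a m e) j x ≤ S (pf m e j) :=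
    fun x hx j => hQ (pf m e j) x hx
  have hS' : ∀ j, 0 ≤ S (pf m e j) := fun j => hS0 _
  obtain ⟨ε, hks⟩ : ∃ ε : ℝ, ks k ε k' := by
    rcases hk with ⟨h1, h2⟩ | ⟨h1, h2⟩
    · exact ⟨1, Or.inl ⟨h1, rfl, h2⟩⟩
    · exact ⟨-1, Or.inr ⟨h1, rfl, h2⟩⟩
  have h1 := momF_up ha' h hcomp hp' hb hQ' hS' hw cφ hφ hks
  have hbk : ∀ x, bar (Helper37.MEI.ap a m e) k x = bar a (pf m e k) x := fun x =>
    bar_perm (pr m e) k x
  simp only [hbk] at h1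
  exact h1

variable [IsFiniteMeasure σ] (h : PM K σ) (ha : ∀ i j, i ≠ j → dist (a i) (a j) = 1)
    (hull : ∀ p, (∀ q ∈ K, ‖p - q‖ ≤ 1) → p ∈ K) (hp : ∀ x ∈ K, Pl a x)
    {B : Fin 3 → Bool → OrthonormalBasis (Fin 3) ℝ E3}
    (hB : ∀ m e, Fr (fun i => a (pr m e i)) (B m e)) {S : Fin 4 → ℝ} (hS0 : ∀ i, 0 ≤ S i)
    (hQ : ∀ i, ∀ q ∈ K, Qv a i q ≤ S i) {τ : ℝ} (t0 : 0 ≤ τ) (t1 : τ ≤ 3 / 10)
    (m : Fin 3) (e i : Bool) {k k' : Fin 4} (hk : k = 2 ∧ k' = 3 ∨ k = 3 ∧ k' = 2)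

include h ha hull hp hB hS0 hQ t0 t1 hk in
/-- **first moments of the arcs, full density, slab form** -/
theorem mom_wt : ∫ z in Helper37.MEI.EE a m e, Helper37.MEI.wt (Helper37.MEI.ap a m e) i z.1 *
      bar a (pf m e k) z.2 ∂σ ≤
    0.03561 + (0.2986 - 0.5798 * τ) * S (pf m e k') +
      0.2942 * τ ^ 3 - 0.14 * τ ^ 4 + 0.1157 * τ ^ 5 +
      0.07317 * S (pf m e (if i then 1 else 0)) +
      0.05728 * S (pf m e (if i then 0 else 1)) := by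
  have h1 := momF_all h ha hull hp hB hS0 hQ (wgt_nn (sg_abs i)) (by unfold nn; fun_prop)
    (fun X hX => (nn_bd (sg_abs i) hX).1) m e hk
  simp only [wF_nn] at h1
  have h2 := num_nn (hS0 (pf m e k')) (hS0 (pf m e 0)) (hS0 (pf m e 1)) t0 t1 i
  refine (h1.trans h2).trans (le_of_eq ?_)
  cases i <;> simp

include h ha hull hp hB hS0 hQ t0 t1 hk in
/-- **first moments, part `(7/8) x⁺`** -/
theorem mom_wp : ∫ z in Helper37.MEI.EE a m e, Helper49.Cpl.wp (Helper37.MEI.ap a m e) i z.1 *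
      bar a (pf m e k) z.2 ∂σ ≤
    0.005832 + (0.06639 - 0.2536 * τ + 0.2537 * τ ^ 2) * S (pf m e k') +
      0.1288 * τ ^ 3 - 0.0612 * τ ^ 4 + 0.0507 * τ ^ 5 +
      0.02191 * S (pf m e (if i then 1 else 0)) +
      0.00602 * S (pf m e (if i then 0 else 1)) := by
  have h1 := momF_all h ha hull hp hB hS0 hQ (wgt_fp i) (fp_cont i)
    (fun X _ => by unfold fp; positivity) m e hk
  simp only [wF_fp] at h1
  have h2 := num_fp (hS0 (pf m e k')) (hS0 (pf m e 0)) (hS0 (pf m e 1)) t0 t1 i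
  refine (h1.trans h2).trans (le_of_eq ?_)
  cases i <;> simp

include h ha hull hp hB hS0 hQ t0 t1 hk in
/-- **first moments, coupling density** -/
theorem mom_de : ∫ z in Helper37.MEI.EE a m e, Helper49.Cpl.de (Helper37.MEI.ap a m e) z *
      bar a (pf m e k) z.2 ∂σ ≤
    0.05955 + (0.4644 - 0.6523 * τ - 0.5073 * τ ^ 2) * S (pf m e k') +
      √2 * ((9 / 16 + 7 / 8 * τ) * gp τ) + 0.10255 * (S (pf m e 0) + S (pf m e 1)) := by
  have h1 := momF_all h ha hull hp hB hS0 hQ wgt_fd fd_cont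
    (fun X hX => by unfold fd; linarith) m e hk
  simp only [wF_fd] at h1
  exact h1.trans (num_fd (hS0 (pf m e k')) (hS0 (pf m e 0)) (hS0 (pf m e 1)) t0 t1)

end six

end Helper53.MEI
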