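import Pool.Agent.Helper53.MEI.Mass3
import Pool.Agent.Helper41.MEI.ArcS

/-!
# Project MEI (M2): the mass of the arcs, new constants
-/

namespace Helper53.MEI

open Set Metric MeasureTheory Helper80.CW Helper14.CW Helper14.MEI2
open Helper22.MEI (t s Fa Fb Fc FD FD_pos)
open Helper22.Wedge (co fld EC ib ibv norm_co)
open Helper22.Sig (dvg)
open Helper93.MEI Helper37.MEI
open Pool.Agent.Helper8.MEI (DD DD_pos DD_ge divF NU)
open Pool.Agent.Helper73.MEI (PM TE pf pf_bij pr pr_apply beE EC_Ze)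
open Pool.Agent.Helper95.MEI.Fub (Zp exn Zp_meas)
open Pool.Agent.Helper95.MEI.Cst (AsE AxE dvE fAs vAs AsE_eq int_dvE_As vol_AsE om phm_om om_hi
  om_lo sqrt2_lo)
open scoped ContDiff RealInnerProductSpace Real

theorem fAs_hi : fAs < 0.0320973 := by
  unfold fAs
  rw [phm_om]
  linarith [om_hi, Real.pi_gt_d6]

theorem fAs_lo : 0.032096 < fAs := by
  unfold fAs
  rw [phm_om]
  linarith [om_lo, Real.pi_lt_d6]

theorem vAs_lo : 0.0067766 < vAs := by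
  unfold vAs
  rw [phm_om]
  linarith [om_lo, Real.pi_lt_d6, sqrt2_lo]

/-- the number of the lens: `.0597` -/
theorem lens_num : 3.716 * fAs - 8.791 * vAs ≤ 0.0597 := by
  unfold fAs vAs
  rw [phm_om]
  linarith [om_lo, om_hi, Real.pi_lt_d6, Real.pi_gt_d6, sqrt2_lo]

/-- the number of the `k`-term: `.0212` -/
theorem lens_k : 41 * vAs - 8 * fAs ≤ 0.0212 := by
  linarith [fAs_lo, Pool.Agent.Helper95.MEI.Cst.vAs_bd.2]

/-- sign of the vertex -/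
def sg (i : Bool) : ℝ := if i then -1 else 1

theorem sg_sq (i : Bool) : sg i ^ 2 = 1 := by
  unfold sg
  split_ifs <;> norm_num

/-- the `k`-term -/
noncomputable def kk (i : Bool) (s1 s2 : ℝ) : ℝ :=
  max (49 / 64 * (sg i * (s1 - s2)) / (1 - 2 * (s1 + s2))) 0

section
variable {a : Fin 4 → E3} {K : Set E3} {σ : Measure (E3 × E3)}

/-- **the mass of the full weight of one arc** -/
theorem wt_mass3 (ha : ∀ i j, i ≠ j → dist (a i) (a j) = 1)
    {B : Fin 3 → Bool → OrthonormalBasis (Fin 3) ℝ E3} [IsFiniteMeasure σ]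
    (h : PM K σ) (hp : ∀ x ∈ K, Pl a x)
    (hB : ∀ m e, Fr (fun i => a (pr m e i)) (B m e)) {s : Fin 4 → ℝ} (hs : ∀ i, 0 ≤ s i)
    (hs5 : ∀ i, s i ≤ 1 / 5)
    (hQ : ∀ i, ∀ q ∈ K, Qv a i q ≤ s i) (m : Fin 3) (e i : Bool)
    (hm : 0 < 1 - 2 * (s (pf m e 0) + s (pf m e 1)))
    (hc : 49 * (s (pf m e 0) - s (pf m e 1)) ^ 2 + 7 * |s (pf m e 0) - s (pf m e 1)| ≤
      16 * (s (pf m e 0) + s (pf m e 1)) * (1 - 2 * (s (pf m e 0) + s (pf m e 1))))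
    (hd : |s (pf m e 0) - s (pf m e 1)| ≤ 0.31 * (1 - 2 * (s (pf m e 0) + s (pf m e 1)))) :
    (1 - 2 * (s (pf m e 0) + s (pf m e 1))) * ∫ z in EE a m e, wt (ap a m e) i z.1 ∂σ ≤
      0.0597 + 0.0212 * kk i (s (pf m e 0)) (s (pf m e 1)) +
      (8.14 + 5.44 * kk i (s (pf m e 0)) (s (pf m e 1))) *
        ((0.0393 + 0.2358 * s (pf m e 2)) * s (pf m e 2) +
          (0.0393 + 0.2358 * s (pf m e 3)) * s (pf m e 3)) := by
  have ha' := hap ha m e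
  have hb : Fr (ap a m e) (B m e) := hB m e
  have hp' : ∀ x ∈ K, Pl (ap a m e) x := fun x hx => Pl_perm _ (hp x hx)
  have ht : √2 / 4 = t := by unfold t; ring
  obtain ⟨v0, v1, v2, v3⟩ := co_vert ha' hb
  rw [ht] at v0 v1 v2 v3
  have hpr : ∀ᵐ z ∂σ, z.1 ∈ K ∧ z.2 ∈ K ∧ ‖z.1 - z.2‖ = 1 := by
    filter_upwards [h.ae] with z hz using ⟨hz.1, hz.2.1, hz.2.2.1⟩
  have hX : ∀ x ∈ K, |(co (B m e) (cen (ap a m e)) x).1| ≤ 1 / 2 := by
    intro x hx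
    have h1 := (pl_e (hgp ha m e) (hp' x hx)).2.1
    have h2 := (frame_e (hgp ha m e) hb.1 hb.2.1 hb.2.2 x).1
    have h3 : (co (B m e) (cen (ap a m e)) x).1 = ⟪B m e 0, x - cen (ap a m e)⟫ := rfl
    rw [h3, h2]
    exact h1
  have hq : ∀ j, ∀ x ∈ K, ‖x - ap a m e j‖ ^ 2 - 1 ≤ s (pf m e j) :=
    fun j x hx => hQ (pf m e j) x hx
  set s1 := s (pf m e 0) with hs1
  set s2 := s (pf m e 1) with hs2
  set M := 1 - 2 * (s1 + s2) with hM
  set β : ℝ := 7 / 4 * (s1 - s2) / M with hβ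
  have hβ1 : β * M = 7 / 4 * (s1 - s2) := by rw [hβ]; field_simp
  have hβ2 : |β| ≤ 11 / 20 := by
    rw [hβ, abs_div, abs_of_pos hm, div_le_iff₀ hm, abs_mul, abs_of_pos (by norm_num : (0 : ℝ) < 7 / 4)]
    linarith
  have hk : max (sg i * (7 / 16) * β) 0 = kk i s1 s2 := by
    unfold kk
    rw [hβ, hM]
    congr 1
    ring
  have h1 := mass3 (b := B m e) (c := cen (ap a m e)) (σ := σ) h.cpt hpr h.flux hX v0 v1 v2 v3
    (hq 0) (hq 1) (hq 2) (hq 3) (hs _) (hs _) (hs5 _) (hs5 _) hm hc (sg_sq i) hβ1 hβ2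
  rw [hk] at h1
  have hk0 : 0 ≤ kk i s1 s2 := le_max_right _ _
  have hA := Ast_AsE ha' hb
  have e1 : ∫ x in Ast (B m e) (cen (ap a m e)) (ap a m e 2) (ap a m e 3),
      dvF (B m e) (cen (ap a m e)) x = fAs := by
    rw [hA]
    exact int_dvE_As _ _
  have e2 : volume.real (Ast (B m e) (cen (ap a m e)) (ap a m e 2) (ap a m e 3)) = vAs := by
    rw [hA, Measure.real, vol_AsE, ENNReal.toReal_ofReal Pool.Agent.Helper95.MEI.Cst.vAs_nonneg]
  rw [e1, e2, Pool.Agent.Helper73.MEI.EC_Zp ha' hb] at h1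
  have h2 : volume.real (Rg (B m e) (cen (ap a m e)) (ap a m e 2) (ap a m e 3)
      (s (pf m e 2)) (s (pf m e 3))) ≤
      (0.0393 + 0.2358 * s (pf m e 2)) * s (pf m e 2) +
        (0.0393 + 0.2358 * s (pf m e 3)) * s (pf m e 3) := by
    unfold Rg
    rw [hA]
    apply Helper72.MEI.beta_gen ha' hb _ (hs _) (hs _)
    · intro q hq
      exact hq.2.1
    · intro q hq
      exact hq.2.2
    · intro q hq
      have h3 := hq.1
      have h4 := (frame_e (hgp ha m e) hb.1 hb.2.1 hb.2.2 q).1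
      have h5 : (co (B m e) (cen (ap a m e)) q).1 = ⟪B m e 0, q - cen (ap a m e)⟫ := rfl
      rw [h5, h4] at h3
      exact h3
  have e3 : ∀ x, wD (B m e) (cen (ap a m e)) (sg i) x = wt (ap a m e) i x := by
    intro x
    obtain ⟨w0, w1⟩ := wt_wD (hgp ha m e) hb x
    unfold sg
    cases i
    · simp only [Bool.false_eq_true, if_false]
      exact w0.symm
    · simp only [if_true]
      exact w1.symm
  simp only [e3] at h1
  unfold EE
  have h6 := mul_le_mul_of_nonneg_left h2 (by linarith : 0 ≤ 8.14 + 5.44 * kk i s1 s2)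
  have h7 := mul_le_mul_of_nonneg_left lens_k hk0
  have h8 := lens_num
  linarith

/-- **mass of one arc**, general losses of helper41 -/
theorem sm_mass3 (ha : ∀ i j, i ≠ j → dist (a i) (a j) = 1)
    {l : Fin 3 → Bool → Bool → E3 × E3 → ℝ}
    {B : Fin 3 → Bool → OrthonormalBasis (Fin 3) ℝ E3} [IsFiniteMeasure σ]
    (hl : Helper41.MEI.Lok a l) (h : PM K σ) (hp : ∀ x ∈ K, Pl a x)
    (hB : ∀ m e, Fr (fun i => a (pr m e i)) (B m e)) {s : Fin 4 → ℝ} (hs : ∀ i, 0 ≤ s i)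
    (hs5 : ∀ i, s i ≤ 1 / 5)
    (hQ : ∀ i, ∀ q ∈ K, Qv a i q ≤ s i) (m : Fin 3) (e i : Bool)
    (hm : 0 < 1 - 2 * (s (pf m e 0) + s (pf m e 1)))
    (hc : 49 * (s (pf m e 0) - s (pf m e 1)) ^ 2 + 7 * |s (pf m e 0) - s (pf m e 1)| ≤
      16 * (s (pf m e 0) + s (pf m e 1)) * (1 - 2 * (s (pf m e 0) + s (pf m e 1))))
    (hd : |s (pf m e 0) - s (pf m e 1)| ≤ 0.31 * (1 - 2 * (s (pf m e 0) + s (pf m e 1)))) :
    (1 - 2 * (s (pf m e 0) + s (pf m e 1))) * Helper41.MEI.sm σ a l m e i ≤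
      0.0597 + 0.0212 * kk i (s (pf m e 0)) (s (pf m e 1)) +
      (8.14 + 5.44 * kk i (s (pf m e 0)) (s (pf m e 1))) *
        ((0.0393 + 0.2358 * s (pf m e 2)) * s (pf m e 2) +
          (0.0393 + 0.2358 * s (pf m e 3)) * s (pf m e 3)) :=
  (mul_le_mul_of_nonneg_left (Helper41.MEI.sm_le ha hl h.cpt h.mem hp m e i) hm.le).trans
    (wt_mass3 ha h hp hB hs hs5 hQ m e i hm hc hd)

/-- the two conditions hold for all levels `≤ .108` -/
theorem cond_ok {s1 s2 : ℝ} (h1 : 0 ≤ s1) (h2 : 0 ≤ s2) (k1 : s1 ≤ 0.108) (k2 : s2 ≤ 0.108) :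
    0 < 1 - 2 * (s1 + s2) ∧
    49 * (s1 - s2) ^ 2 + 7 * |s1 - s2| ≤ 16 * (s1 + s2) * (1 - 2 * (s1 + s2)) ∧
    |s1 - s2| ≤ 0.31 * (1 - 2 * (s1 + s2)) := by
  refine ⟨by linarith, ?_, ?_⟩
  · rcases abs_cases (s1 - s2) with ⟨h, _⟩ | ⟨h, _⟩
    · rw [h]
      nlinarith [mul_nonneg h1 h2, mul_nonneg h1 (sub_nonneg.2 k1), mul_nonneg h2 (sub_nonneg.2 k1),
        mul_nonneg h2 (sub_nonneg.2 k2)]
    · rw [h]
      nlinarith [mul_nonneg h1 h2, mul_nonneg h1 (sub_nonneg.2 k1), mul_nonneg h2 (sub_nonneg.2 k2),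
        mul_nonneg h1 (sub_nonneg.2 k2)]
  · rw [abs_le]
    constructor <;> linarith

end

end Helper53.MEI
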