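import Pool.Agent.Helper53.MEI.Wall

/-!
# Project MEI (M2): the first moments of an arc by the walls of its cell

The coordinate `b₃` is affine and not positive on the edge cell, so the weighted moment of the
second point is at most the flux of a constant field, i.e. an integral over the walls.
-/

namespace Helper53.MEI

open Set MeasureTheory Filter Topology Metric
open Helper80.CW Helper22.Wedge Helper22.Sig Helper14.CW Helper14.MEI2 Helper93.MEI
open Helper22.MEI (s t FD FD_pos)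
open Helper21.Sec Helper21.Mom
open Pool.Agent.Helper95.MEI.Fub (Zp int_cont Zp_meas)
open Pool.Agent.Helper73.MEI
open scoped RealInnerProductSpace ContDiff Real

/-! ### the derivative of the weight -/

theorem FD_eq (q : ℝ × ℝ × ℝ) : FD q = 1 / 4 + q.1 ^ 2 / 8 + (q.2.1 ^ 2 + (q.2.2 - t) ^ 2) := rfl

/-- the axial derivative of the weight -/
noncomputable def omz (η : ℝ) (q : ℝ × ℝ × ℝ) : ℝ :=
  -((1 / 2 + η * (7 / 16) * q.1) * (q.2.2 - t) / (2 * FD q ^ 2))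

theorem E3_om (η : ℝ) (q : ℝ × ℝ × ℝ) : Helper22.MEI.E3 (om η) q = omz η q := by
  refine Helper22.MEI.E3_of (om_cd η) ?_
  have hD := FD_pos q
  have h1 : HasDerivAt (fun a : ℝ => 4 * FD (q.1, q.2.1, a)) (4 * (2 * (q.2.2 - t))) q.2.2 := by
    have h2 := (((((hasDerivAt_id q.2.2).sub_const t).pow 2).const_add (q.2.1 ^ 2)).const_add
      (1 / 4 + q.1 ^ 2 / 8)).const_mul 4
    refine h2.congr_deriv ?_
    simp only [id]
    norm_num
  have h2 := (hasDerivAt_const q.2.2 (1 / 2 + η * (7 / 16) * q.1)).div h1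
    (by have : FD (q.1, q.2.1, q.2.2) = FD q := rfl
        rw [this]; positivity)
  refine h2.congr_deriv ?_
  have h3 : FD (q.1, q.2.1, q.2.2) = FD q := rfl
  unfold omz
  rw [h3]
  field_simp
  ring

/-- direction of the coordinate `b₃` (`ε = 1`) or `b₄` (`ε = -1`) -/
noncomputable def be (b : OrthonormalBasis (Fin 3) ℝ E3) (ε : ℝ) : E3 := ε • b 1 - (√2 / 2) • b 2

variable (b : OrthonormalBasis (Fin 3) ℝ E3) (c : E3)

theorem fd_be (η ε : ℝ) (x : E3) : fderiv ℝ (fun y => om η (co b c y)) x (be b ε) =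
    ε * omy η (co b c x) - √2 / 2 * omz η (co b c x) := by
  obtain ⟨⟨i00, i01, i02⟩, ⟨i10, i11, i12⟩, ⟨i20, i21, i22⟩⟩ := ibv b
  rw [fd_co b c (om_cd η)]
  have e : (⟪b 0, be b ε⟫, ⟪b 1, be b ε⟫, ⟪b 2, be b ε⟫) =
      ε • ((0, 1, 0) : ℝ × ℝ × ℝ) + (-(√2 / 2)) • ((0, 0, 1) : ℝ × ℝ × ℝ) := by
    unfold be
    simp only [inner_sub_right, real_inner_smul_right, i01, i02, i11, i12, i21, i22]
    ext <;> simp
  rw [e, map_add, map_smul, map_smul]
  have e2 := E2_om η (co b c x)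
  have e3 := E3_om η (co b c x)
  unfold Helper22.MEI.E2 at e2
  unfold Helper22.MEI.E3 at e3
  rw [e2, e3, smul_eq_mul, smul_eq_mul]
  ring

/-- the derivative of the weight in the direction of the coordinate is not negative on the cell -/
theorem fd_be_nonneg {η : ℝ} (hη : |η| ≤ 1) {ε : ℝ} (hε : ε = 1 ∨ ε = -1) {x : E3}
    (hX : |(co b c x).1| ≤ 1 / 2) (hx : x ∈ EC b c) :
    0 ≤ fderiv ℝ (fun y => om η (co b c y)) x (be b ε) := by
  rw [fd_be]
  unfold omy omz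
  have hn := (nn_bd hη hX).1
  unfold nn at hn
  have hD := FD_pos (co b c x)
  have h1 : |(co b c x).2.1| < s * ((co b c x).2.2 - t) := hx
  have hs : s = √2 / 2 := rfl
  rw [hs] at h1
  obtain ⟨h2, h3⟩ := abs_lt.1 h1
  have e : ε * -((1 / 2 + η * (7 / 16) * (co b c x).1) * (co b c x).2.1 / (2 * FD (co b c x) ^ 2)) -
      √2 / 2 * -((1 / 2 + η * (7 / 16) * (co b c x).1) * ((co b c x).2.2 - t) /
        (2 * FD (co b c x) ^ 2)) =
      (1 / 2 + η * (7 / 16) * (co b c x).1) / (2 * FD (co b c x) ^ 2) *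
        (√2 / 2 * ((co b c x).2.2 - t) - ε * (co b c x).2.1) := by ring
  rw [e]
  refine mul_nonneg (div_nonneg hn (by positivity)) ?_
  rcases hε with h | h <;> rw [h] <;> linarith

/-! ### the flux of the coordinate -/

/-- upper bound of a wall integral (section of the body by the wall where the fourth sphere is
met) -/
noncomputable def ju (s' : ℝ) : ℝ := √2 * (301530503 / 11975040000 + 1514903 / 9797760 * s')

/-- lower bound of a wall integral -/
noncomputable def jl (η s1 s2 : ℝ) : ℝ :=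
  √2 * (10777 / 432000 - 23 / 144 * (0.5774 * (s1 + s2)) - 259 / 23040 * (η * (s1 - s2)))

variable {b c} in
/-- **flux of the coordinate through the cell** -/
theorem flux_be {σ : Measure (E3 × E3)} [IsFiniteMeasure σ] {K : Set E3} (hK : IsCompact K)
    (hσ : ∀ᵐ z ∂σ, z.1 ∈ K ∧ z.2 ∈ K)
    (hU : ∀ G : E3 → E3, ContDiff ℝ ∞ G → ∫ z, ⟪G z.1, z.1 - z.2⟫ ∂σ = ∫ x in K, dvg G x)
    {s1 s2 s3 s4 s' : ℝ} (h : Bod b c K s1 s2 s3 s4) (hs' : 0 ≤ s') {η : ℝ} (hη : |η| ≤ 1)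
    {ε : ℝ} (hε : ε = 1 ∧ s4 ≤ s' ∨ ε = -1 ∧ s3 ≤ s') :
    (∫ x in K ∩ EC b c, fderiv ℝ (fun y => om η (co b c y)) x (be b ε)) -
      3 / 2 * ju s' + 1 / 2 * jl η s1 s2 ≤
      ∫ z in {z | z.1 ∈ EC b c}, om η (co b c z.1) * ⟪be b ε, z.1 - z.2⟫ ∂σ := by
  have hom : ContDiff ℝ ∞ (fun x => om η (co b c x)) := (om_cd η).comp (co_cdn b c)
  have hl := fluxg_lim b c hK hσ hU hom (be b ε)
  rw [cel_eq] at hl
  have hε1 : ε = 1 ∨ ε = -1 := by
    rcases hε with h | h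
    · exact Or.inl h.1
    · exact Or.inr h.1
  have hε' : -ε = 1 ∨ -ε = -1 := by
    rcases hε1 with h | h
    · right; rw [h]
    · left; rw [h]; norm_num
  have hJ : ∀ (ε : ℝ) (m : ℕ), (ε = 1 ∨ ε = -1) →
      ∫ x in K, om η (co b c x) * jk (m + 1) (Tw b c ε x) = Jw b c η K ε m := by
    intro ε m hε
    unfold Jw
    rw [← int_Tw b c hε K (fun p => omh η p * jk (m + 1) p)]
    simp only [om_omh b c η hε]
  have hn := nuw_b b
  have r := r2
  have n0 : ⟪nuw b 0, be b ε⟫ = -ε - 1 / 2 := by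
    unfold be
    rw [inner_sub_right, real_inner_smul_right, real_inner_smul_right, (hn 0).1, (hn 0).2.1]
    linear_combination (-1 / 4) * r
  have n1 : ⟪nuw b 1, be b ε⟫ = ε - 1 / 2 := by
    unfold be
    rw [inner_sub_right, real_inner_smul_right, real_inner_smul_right, (hn 1).1, (hn 0).2.2]
    linear_combination (-1 / 4) * r
  have hl2 : Tendsto (fun m : ℕ => 1 / 2 * Jw b c η K (-ε) m - 3 / 2 * Jw b c η K ε m) atTop
      (𝓝 ((∫ z in {z | z.1 ∈ EC b c}, om η (co b c z.1) * ⟪be b ε, z.1 - z.2⟫ ∂σ) -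
        ∫ x in K ∩ EC b c, fderiv ℝ (fun y => om η (co b c y)) x (be b ε))) := by
    refine hl.congr fun m => ?_
    rw [hJ 1 m (Or.inl rfl), hJ (-1) m (Or.inr rfl), n0, n1]
    rcases hε1 with h | h <;> rw [h]
    · ring
    · rw [neg_neg]; ring
  have h1 := lim_inv
  have hlim : Tendsto (fun m : ℕ => 1 / 2 * (√2 * (10777 / 432000 - 23 / 144 *
      (0.5774 * (s1 + s2) + 2 * (1 / ((m : ℝ) + 1)))
      - 259 / 23040 * (η * (s1 - s2))) - √2 * (1 / ((m : ℝ) + 1)) / 2 -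
        3 * (1 / ((m : ℝ) + 1))) -
      3 / 2 * (√2 * (301530503 / 11975040000 + 1514903 / 9797760 *
      (s' + 2 * (1 / ((m : ℝ) + 1)))) + 2 * (1 / ((m : ℝ) + 1)) *
        (1 + √2 / 3 * (s' + 2 * (1 / ((m : ℝ) + 1)))))) atTop
      (𝓝 (1 / 2 * jl η s1 s2 - 3 / 2 * ju s')) := by
    have hc : Continuous (fun u : ℝ => 1 / 2 * (√2 * (10777 / 432000 - 23 / 144 *
      (0.5774 * (s1 + s2) + 2 * u)
      - 259 / 23040 * (η * (s1 - s2))) - √2 * u / 2 - 3 * u) -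
      3 / 2 * (√2 * (301530503 / 11975040000 + 1514903 / 9797760 *
      (s' + 2 * u)) + 2 * u * (1 + √2 / 3 * (s' + 2 * u)))) := by fun_prop
    have h2 := (hc.tendsto 0).comp h1
    refine h2.congr' ?_ |>.trans (le_of_eq ?_)
    · exact Eventually.of_forall fun m => rfl
    · congr 1
      unfold jl ju
      ring
  have h3 := le_of_tendsto_of_tendsto' hlim hl2 fun m => by
    have k1 := Jw_up hK h hs' hη hε m
    have k2 := Jw_lo hK h hη hε' m
    linarith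
  linarith

/-! ### the moments -/

section main
variable {a : Fin 4 → E3} (ha : ∀ i j, i ≠ j → dist (a i) (a j) = 1)
  {K : Set E3} {σ : Measure (E3 × E3)} [IsFiniteMeasure σ] (h : PM K σ)
  (hcomp : ∀ p : E3, (∀ q ∈ K, dist p q ≤ 1) → p ∈ K)
  (hpl : ∀ x ∈ K, Pl a x) {b : OrthonormalBasis (Fin 3) ℝ E3} (hb : Fr a b)
  {S : Fin 4 → ℝ} (hQ : ∀ x ∈ K, ∀ i, Qv a i x ≤ S i) (hS0 : ∀ i, 0 ≤ S i)

/-- index and sign: `b₃` and the sphere of the fourth vertex, or conversely -/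
def ks (k : Fin 4) (ε : ℝ) (k' : Fin 4) : Prop := (k = 2 ∧ ε = 1 ∧ k' = 3) ∨ (k = 3 ∧ ε = -1 ∧ k' = 2)

include ha hb in
omit [IsFiniteMeasure σ] in
theorem bar_be {k k' : Fin 4} {ε : ℝ} (hk : ks k ε k') (p q : E3) :
    ⟪be b ε, p - q⟫ = bar a k p - bar a k q := by
  have hG := gram_of_dist ha
  have f := fun x => frame_e hG hb.1 hb.2.1 hb.2.2 x
  have e : ⟪be b ε, p - q⟫ = ε * (⟪b 1, p - cen a⟫ - ⟪b 1, q - cen a⟫) -
      √2 / 2 * (⟪b 2, p - cen a⟫ - ⟪b 2, q - cen a⟫) := by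
    unfold be
    rw [inner_sub_left, real_inner_smul_left, real_inner_smul_left]
    simp only [inner_sub_right]
    ring
  rw [e, (f p).2.1, (f q).2.1, (f p).2.2, (f q).2.2]
  have s2 := s2s
  have r := r2
  unfold eY eW
  rcases hk with ⟨h1, h2, _⟩ | ⟨h1, h2, _⟩
  · rw [h1, h2]
    linear_combination (1 / 4) * (bar a 2 p + bar a 3 p - bar a 2 q - bar a 3 q) * r
  · rw [h1, h2]
    linear_combination (1 / 4) * (bar a 2 p + bar a 3 p - bar a 2 q - bar a 3 q) * r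

include ha h hcomp hpl hb hQ hS0 in
/-- **moment of an arc by the walls, with the volume term** -/
theorem momw_id (i : Bool) {k k' : Fin 4} {ε : ℝ} (hk : ks k ε k') :
    ∫ z in Zp a 2 3, Helper37.MEI.wt a i z.1 * bar a k z.2 ∂σ ≤
      (∫ z in Zp a 2 3, Helper37.MEI.wt a i z.1 * bar a k z.1 ∂σ) -
      (∫ x in K ∩ EC b (cen a), fderiv ℝ (fun y => om (sg i) (co b (cen a) y)) x (be b ε)) +
      3 / 2 * ju (S k') - 1 / 2 * jl (sg i) (S 0) (S 1) := by
  have hG := gram_of_dist ha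
  have hB := Helper21.Alp.bod ha hcomp hpl hb hQ hS0
  have hε : ε = 1 ∧ S 3 ≤ S k' ∨ ε = -1 ∧ S 2 ≤ S k' := by
    rcases hk with ⟨_, h2, h3⟩ | ⟨_, h2, h3⟩
    · left; exact ⟨h2, by rw [h3]⟩
    · right; exact ⟨h2, by rw [h3]⟩
  have h1 := flux_be h.cpt h.mem h.flux hB (hS0 k') (sg_abs i) hε
  rw [← Helper21.Alp.Zp_eq ha hb] at h1
  have hwc := Helper37.MEI.wt_cont a i
  have hbc := Pool.Agent.Helper95.MEI.Fub.bar_cont a k
  have i1 : Integrable (fun z : E3 × E3 => Helper37.MEI.wt a i z.1 * bar a k z.2) σ :=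
    int_cont h.cpt h.mem ((hwc.comp continuous_fst).mul (hbc.comp continuous_snd))
  have i2 : Integrable (fun z : E3 × E3 => Helper37.MEI.wt a i z.1 * bar a k z.1) σ :=
    int_cont h.cpt h.mem ((hwc.comp continuous_fst).mul (hbc.comp continuous_fst))
  have e1 : ∫ z in Zp a 2 3, om (sg i) (co b (cen a) z.1) * ⟪be b ε, z.1 - z.2⟫ ∂σ =
      (∫ z in Zp a 2 3, Helper37.MEI.wt a i z.1 * bar a k z.1 ∂σ) -
        ∫ z in Zp a 2 3, Helper37.MEI.wt a i z.1 * bar a k z.2 ∂σ := by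
    rw [← integral_sub i2.integrableOn i1.integrableOn]
    refine integral_congr_ae (Eventually.of_forall fun z => ?_)
    simp only
    rw [← wt_om ha hb i z.1, bar_be ha hb hk]
    ring
  rw [e1] at h1
  linarith

include ha h hcomp hpl hb hQ hS0 in
/-- **moment of an arc by the walls** -/
theorem momw (i : Bool) {k k' : Fin 4} {ε : ℝ} (hk : ks k ε k') :
    ∫ z in Zp a 2 3, Helper37.MEI.wt a i z.1 * bar a k z.2 ∂σ ≤
      3 / 2 * ju (S k') - 1 / 2 * jl (sg i) (S 0) (S 1) := by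
  have hG := gram_of_dist ha
  have h1 := momw_id ha h hcomp hpl hb hQ hS0 i hk
  have hB := Helper21.Alp.bod ha hcomp hpl hb hQ hS0
  have h2 : ∫ z in Zp a 2 3, Helper37.MEI.wt a i z.1 * bar a k z.1 ∂σ ≤ 0 := by
    refine setIntegral_nonpos_of_ae_restrict ?_
    filter_upwards [ae_restrict_mem (Zp_meas a 2 3), ae_restrict_of_ae (s := Zp a 2 3) h.mem]
      with z hz hm
    have hw0 := Helper37.MEI.wt_nonneg hG i (hpl _ hm.1)
    refine mul_nonpos_of_nonneg_of_nonpos hw0 ?_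
    rcases hk with ⟨h3, _, _⟩ | ⟨h3, _, _⟩
    · rw [h3]; exact hz.1.le
    · rw [h3]; exact hz.2.le
  have hε : ε = 1 ∨ ε = -1 := by
    rcases hk with ⟨_, h2, _⟩ | ⟨_, h2, _⟩
    · exact Or.inl h2
    · exact Or.inr h2
  have hEm : MeasurableSet (EC b (cen a)) := by
    rw [← cel_eq]; exact (Cel_open _ _).measurableSet
  have h3 : 0 ≤ ∫ x in K ∩ EC b (cen a),
      fderiv ℝ (fun y => om (sg i) (co b (cen a) y)) x (be b ε) := by
    refine setIntegral_nonneg (h.cpt.isClosed.measurableSet.inter hEm) fun x hx => ?_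
    exact fd_be_nonneg b (cen a) (sg_abs i) hε (hB.X_le x hx.1) hx.2
  linarith

end main

/-! ### numbers -/

/-- **the number**: `.03578 + .328 S_{k'}` and the two vertices of the edge -/
theorem mom_num {s' s1 s2 : ℝ} (hs' : 0 ≤ s') (h1 : 0 ≤ s1) (h2 : 0 ≤ s2) (i : Bool) :
    3 / 2 * ju s' - 1 / 2 * jl (sg i) s1 s2 ≤ 0.03578 + 0.328 * s' +
      0.07317 * (if i then s2 else s1) + 0.05728 * (if i then s1 else s2) := by
  have s2l : 1.41421 < √2 := by
    rw [Real.lt_sqrt (by norm_num)]; norm_num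
  have s2u : √2 < 1.41422 := by
    rw [Real.sqrt_lt' (by norm_num)]; norm_num
  have e : 3 / 2 * ju s' - 1 / 2 * jl (sg i) s1 s2 = √2 * (3 / 2 * (301530503 / 11975040000) -
      1 / 2 * (10777 / 432000)) + √2 * (3 / 2 * (1514903 / 9797760) * s') +
      √2 * (1 / 2 * (23 / 144 * 0.5774) * (s1 + s2)) +
      √2 * (1 / 2 * (259 / 23040) * (sg i * (s1 - s2))) := by
    unfold ju jl
    ring
  rw [e]
  have k1 : √2 * (3 / 2 * (301530503 / 11975040000) - 1 / 2 * (10777 / 432000)) ≤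
      1.41422 * (3 / 2 * (301530503 / 11975040000) - 1 / 2 * (10777 / 432000)) :=
    mul_le_mul_of_nonneg_right s2u.le (by norm_num)
  have k2 : √2 * (3 / 2 * (1514903 / 9797760) * s') ≤
      1.41422 * (3 / 2 * (1514903 / 9797760) * s') :=
    mul_le_mul_of_nonneg_right s2u.le (by positivity)
  have k3 : √2 * s1 ≤ 1.41422 * s1 := mul_le_mul_of_nonneg_right s2u.le h1
  have k4 : √2 * s2 ≤ 1.41422 * s2 := mul_le_mul_of_nonneg_right s2u.le h2
  have k5 : 1.41421 * s1 ≤ √2 * s1 := mul_le_mul_of_nonneg_right s2l.le h1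
  have k6 : 1.41421 * s2 ≤ √2 * s2 := mul_le_mul_of_nonneg_right s2l.le h2
  cases i
  · simp only [sg, Bool.false_eq_true, if_false]
    linarith
  · simp only [sg, if_true]
    linarith

/-! ### all six edges -/

section six
variable {a : Fin 4 → E3} {K : Set E3} {σ : Measure (E3 × E3)}

/-- **first moments of the arcs, full density** -/
theorem momw_all [IsFiniteMeasure σ] (h : PM K σ) (ha : ∀ i j, i ≠ j → dist (a i) (a j) = 1)
    (hull : ∀ p, (∀ q ∈ K, ‖p - q‖ ≤ 1) → p ∈ K) (hp : ∀ x ∈ K, Pl a x)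
    {B : Fin 3 → Bool → OrthonormalBasis (Fin 3) ℝ E3}
    (hB : ∀ m e, Fr (fun i => a (pr m e i)) (B m e)) {S : Fin 4 → ℝ} (hS0 : ∀ i, 0 ≤ S i)
    (hQ : ∀ i, ∀ q ∈ K, Qv a i q ≤ S i)
    (m : Fin 3) (e i : Bool) {k k' : Fin 4} (hk : k = 2 ∧ k' = 3 ∨ k = 3 ∧ k' = 2) :
    ∫ z in Helper37.MEI.EE a m e, Helper37.MEI.wt (Helper37.MEI.ap a m e) i z.1 *
      bar a (pf m e k) z.2 ∂σ ≤ 0.03578 + 0.328 * S (pf m e k') +
        0.07317 * S (pf m e (if i then 1 else 0)) + 0.05728 * S (pf m e (if i then 0 else 1)) := by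
  have ha' := Helper37.MEI.hap ha m e
  have hb : Fr (Helper37.MEI.ap a m e) (B m e) := hB m e
  have hcomp : ∀ p : E3, (∀ q ∈ K, dist p q ≤ 1) → p ∈ K := fun p hpp =>
    hull p fun q hq => by rw [← dist_eq_norm]; exact hpp q hq
  have hp' : ∀ x ∈ K, Pl (Helper37.MEI.ap a m e) x := fun x hx => Pl_perm _ (hp x hx)
  have hQ' : ∀ x ∈ K, ∀ j, Qv (Helper37.MEI.ap a m e) j x ≤ S (pf m e j) :=
    fun x hx j => hQ (pf m e j) x hx
  have hS' : ∀ j, 0 ≤ S (pf m e j) := fun j => hS0 _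
  obtain ⟨ε, hks⟩ : ∃ ε : ℝ, ks k ε k' := by
    rcases hk with ⟨h1, h2⟩ | ⟨h1, h2⟩
    · exact ⟨1, Or.inl ⟨h1, rfl, h2⟩⟩
    · exact ⟨-1, Or.inr ⟨h1, rfl, h2⟩⟩
  have h1 := momw ha' h hcomp hp' hb hQ' hS' i hks
  have hbk : ∀ x, bar (Helper37.MEI.ap a m e) k x = bar a (pf m e k) x := fun x =>
    bar_perm (pr m e) k x
  simp only [hbk] at h1
  have h2 := mom_num (hS' k') (hS' 0) (hS' 1) i
  have h3 : ∫ z in Helper37.MEI.EE a m e, Helper37.MEI.wt (Helper37.MEI.ap a m e) i z.1 *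
      bar a (pf m e k) z.2 ∂σ ≤ _ := h1.trans h2
  refine h3.trans (le_of_eq ?_)
  cases i <;> simp

end six

end Helper53.MEI
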