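import Pool.Agent.Helper37.MEI.LossG

/-!
# Project MEI (M2): the fields `P(x) F / D` of the edge cell, `P(x) = u + v x + k x ^ 2`
-/

namespace Helper53.MEI

open Set Metric MeasureTheory Helper80.CW
open Helper22.MEI (t s Fa Fb Fc FD FD_pos dv E1 E2 E3 E1_of E2_of E3_of)
open Helper22.Wedge (co fld EC ib ibv norm_co)
open Helper22.Sig (dvg)
open Helper93.MEI Helper37.MEI
open Pool.Agent.Helper8.MEI (DD DD_pos DD_ge divF NU)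
open scoped ContDiff RealInnerProductSpace Real

/-- the polynomial -/
noncomputable def PuF (u v k x : ℝ) : ℝ := u + v * x + k * x ^ 2

noncomputable def Ja (u v k : ℝ) (q : ℝ × ℝ × ℝ) : ℝ := PuF u v k q.1 * (Fa q / FD q)
noncomputable def Jb (u v k : ℝ) (q : ℝ × ℝ × ℝ) : ℝ := PuF u v k q.1 * (Fb q / FD q)
noncomputable def Jc (u v k : ℝ) (q : ℝ × ℝ × ℝ) : ℝ := PuF u v k q.1 * (Fc q / FD q)

theorem Pu_cd {n : WithTop ℕ∞} (u v k : ℝ) :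
    ContDiff ℝ n (fun q : ℝ × ℝ × ℝ => PuF u v k q.1) := by unfold PuF; fun_prop

theorem Ja_cd {n : WithTop ℕ∞} (u v k : ℝ) : ContDiff ℝ n (Ja u v k) :=
  (Pu_cd u v k).mul (Fa_cdn.div FD_cdn fun q => (FD_pos q).ne')

theorem Jb_cd {n : WithTop ℕ∞} (u v k : ℝ) : ContDiff ℝ n (Jb u v k) :=
  (Pu_cd u v k).mul (Fb_cdn.div FD_cdn fun q => (FD_pos q).ne')

theorem Jc_cd {n : WithTop ℕ∞} (u v k : ℝ) : ContDiff ℝ n (Jc u v k) :=
  (Pu_cd u v k).mul (Fc_cdn.div FD_cdn fun q => (FD_pos q).ne')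

/-- numerator of `div (F / D)` -/
noncomputable def NV (x y w : ℝ) : ℝ := 41 / 128 + 5 / 256 * x ^ 2 - 23 / 32 * (y ^ 2 + w ^ 2)

/-- `div (F / D)` -/
noncomputable def AV (x y w : ℝ) : ℝ := NV x y w / DD x y w ^ 3

/-- `F_x / D` -/
noncomputable def BV (x y w : ℝ) : ℝ := 9 / 32 * x / DD x y w ^ 2

/-- even and odd part of the divergence -/
noncomputable def gE (u k : ℝ) (q : ℝ × ℝ × ℝ) : ℝ :=
  (u + k * q.1 ^ 2) * AV q.1 q.2.1 (q.2.2 - t) + 2 * k * q.1 * BV q.1 q.2.1 (q.2.2 - t)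
noncomputable def gO (q : ℝ × ℝ × ℝ) : ℝ :=
  q.1 * AV q.1 q.2.1 (q.2.2 - t) + BV q.1 q.2.1 (q.2.2 - t)
noncomputable def gJ (u v k : ℝ) (q : ℝ × ℝ × ℝ) : ℝ := gE u k q + v * gO q

theorem dv_J (u v k : ℝ) (q : ℝ × ℝ × ℝ) : dv (Ja u v k) (Jb u v k) (Jc u v k) q = gJ u v k q := by
  have hD := DD_pos q.1 q.2.1 (q.2.2 - t)
  have hP : HasDerivAt (fun x : ℝ => PuF u v k x) (v + 2 * k * q.1) q.1 := by
    unfold PuF
    have h1 := ((hasDerivAt_id' q.1).const_mul v).const_add u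
    have h2 := (hasDerivAt_pow 2 q.1).const_mul k
    refine (h1.add h2).congr_deriv ?_
    push_cast
    ring
  have hDx : HasDerivAt (fun x => DD x q.2.1 (q.2.2 - t)) (q.1 / 4) q.1 := by
    unfold DD
    have h2 := ((hasDerivAt_pow 2 q.1).div_const 8).const_add (1 / 4 : ℝ)
    have h3 := h2.add_const (q.2.1 ^ 2 + (q.2.2 - t) ^ 2)
    refine h3.congr_deriv ?_
    norm_num
    ring
  have hDy : HasDerivAt (fun y => DD q.1 y (q.2.2 - t)) (2 * q.2.1) q.2.1 := by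
    unfold DD
    have h2 := ((hasDerivAt_pow 2 q.2.1).add_const ((q.2.2 - t) ^ 2)).const_add
      (1 / 4 + q.1 ^ 2 / 8 : ℝ)
    refine h2.congr_deriv ?_
    norm_num
  have hDw : HasDerivAt (fun z => DD q.1 q.2.1 (z - t)) (2 * (q.2.2 - t)) q.2.2 := by
    have h0 : HasDerivAt (fun w => DD q.1 q.2.1 w) (2 * (q.2.2 - t)) (q.2.2 - t) := by
      unfold DD
      have h2 := ((hasDerivAt_pow 2 (q.2.2 - t)).const_add (q.2.1 ^ 2)).const_add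
        (1 / 4 + q.1 ^ 2 / 8 : ℝ)
      refine h2.congr_deriv ?_
      norm_num
    exact h0.comp_sub_const q.2.2 t
  have e1 : E1 (Ja u v k) q = (v + 2 * k * q.1) * (Fa q / FD q) + PuF u v k q.1 *
      (((9 / 32 / DD q.1 q.2.1 (q.2.2 - t)
        - 9 / 32 * q.1 * (q.1 / 4) / DD q.1 q.2.1 (q.2.2 - t) ^ 2) * DD q.1 q.2.1 (q.2.2 - t) -
        Fa q * (q.1 / 4)) / DD q.1 q.2.1 (q.2.2 - t) ^ 2) := by
    refine E1_of (Ja_cd u v k) ?_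
    have h1 := Pool.Agent.Helper8.MEI.hasDeriv_x q.1 q.2.1 (q.2.2 - t)
    exact hP.mul (h1.div hDx hD.ne')
  have e2 : E2 (Jb u v k) q = PuF u v k q.1 *
      (((1 / 2 / DD q.1 q.2.1 (q.2.2 - t)
        - 1 / 2 * q.2.1 * (2 * q.2.1) / DD q.1 q.2.1 (q.2.2 - t) ^ 2) * DD q.1 q.2.1 (q.2.2 - t) -
        Fb q * (2 * q.2.1)) / DD q.1 q.2.1 (q.2.2 - t) ^ 2) := by
    refine E2_of (Jb_cd u v k) ?_
    have h1 := Pool.Agent.Helper8.MEI.hasDeriv_y q.1 q.2.1 (q.2.2 - t)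
    exact (h1.div hDy hD.ne').const_mul (PuF u v k q.1)
  have e3 : E3 (Jc u v k) q = PuF u v k q.1 *
      (((1 / 2 / DD q.1 q.2.1 (q.2.2 - t)
        - 1 / 2 * (q.2.2 - t) * (2 * (q.2.2 - t)) / DD q.1 q.2.1 (q.2.2 - t) ^ 2) *
        DD q.1 q.2.1 (q.2.2 - t) -
        Fc q * (2 * (q.2.2 - t))) / DD q.1 q.2.1 (q.2.2 - t) ^ 2) := by
    refine E3_of (Jc_cd u v k) ?_
    have h1 := (Pool.Agent.Helper8.MEI.hasDeriv_w q.1 q.2.1 (q.2.2 - t)).comp_sub_const q.2.2 t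
    exact (h1.div hDw hD.ne').const_mul (PuF u v k q.1)
  unfold dv
  rw [e1, e2, e3]
  have eD : FD q = DD q.1 q.2.1 (q.2.2 - t) := rfl
  unfold gJ gE gO AV BV Fa Fb Fc PuF NV
  rw [eD]
  have eD2 : DD q.1 q.2.1 (q.2.2 - t) = 1 / 4 + q.1 ^ 2 / 8 + (q.2.1 ^ 2 + (q.2.2 - t) ^ 2) := rfl
  set D := DD q.1 q.2.1 (q.2.2 - t) with hDd
  have hw : (q.2.2 - t) ^ 2 = D - 1 / 4 - q.1 ^ 2 / 8 - q.2.1 ^ 2 := by linarith
  field_simp
  rw [hw]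
  ring

/-! ### pointwise bounds -/

/-- `x² (A + 9 / (16 D²))`, the even part of the `k`-term -/
theorem gE_eq (u k : ℝ) (q : ℝ × ℝ × ℝ) : gE u k q = u * AV q.1 q.2.1 (q.2.2 - t) +
    k * (q.1 ^ 2 * (NV q.1 q.2.1 (q.2.2 - t) + 9 / 16 * DD q.1 q.2.1 (q.2.2 - t)) /
      DD q.1 q.2.1 (q.2.2 - t) ^ 3) := by
  have hD := DD_pos q.1 q.2.1 (q.2.2 - t)
  unfold gE AV BV
  field_simp
  ring

theorem ineq1 {X r : ℝ} (X0 : 0 ≤ X) (r0 : 0 ≤ r) (h : X + r ^ 2 + 1.414 * r ≤ 1 / 4) :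
    1 / 2 * (41 / 128 + 5 / 256 * X - 23 / 32 * r ^ 2) ≤
      3.716 * (41 / 128 + 23 / 256 * X + 9 / 32 * r ^ 2) * (1 / 4 + X / 8 + r ^ 2)
        - 8.791 * (1 / 4 + X / 8 + r ^ 2) ^ 3 := by
  have h1 : 0 ≤ 1 / 4 - X - 1.414 * r := by nlinarith
  have h2 : r ≤ 0.177 := by nlinarith
  have h3 : X ≤ 1 / 4 := by nlinarith
  have k1 := mul_nonneg X0 h1
  have k2 := mul_nonneg (mul_nonneg X0 X0) h1
  have k3 := mul_nonneg (mul_nonneg X0 r0) h1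
  have k4 := mul_nonneg (mul_nonneg r0 r0) h1
  have k5 := mul_nonneg (mul_nonneg r0 r0) (sub_nonneg.2 h2)
  have k6 := mul_nonneg (mul_nonneg (mul_nonneg r0 r0) r0) (sub_nonneg.2 h2)
  have k7 := mul_nonneg (mul_nonneg X0 (mul_nonneg r0 r0)) h1
  have k8 := mul_nonneg (mul_nonneg (mul_nonneg r0 r0) (mul_nonneg r0 r0)) (sub_nonneg.2 h2)
  nlinarith [mul_nonneg X0 r0, mul_nonneg X0 (mul_nonneg r0 r0)]

theorem ineq2 {X R : ℝ} (X0 : 0 ≤ X) (R0 : 0 ≤ R) (hX : X ≤ 1 / 4) :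
    X * (41 / 128 + 5 / 256 * X - 23 / 32 * R + 9 / 16 * (1 / 4 + X / 8 + R)) ≤
      5.44 * (1 / 4 + X / 8 + R) ^ 3 := by
  have h1 := sub_nonneg.2 hX
  nlinarith [mul_nonneg X0 R0, mul_nonneg X0 h1, mul_nonneg (mul_nonneg X0 X0) h1, mul_nonneg h1 h1,
    mul_nonneg (mul_nonneg h1 h1) h1, pow_nonneg R0 3, mul_nonneg R0 R0,
    mul_nonneg (mul_nonneg R0 R0) X0, mul_nonneg (mul_nonneg X0 X0) R0,
    mul_nonneg (mul_nonneg X0 h1) h1]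

/-- in the lens -/
theorem A_lens {x y w : ℝ} (hw : 0 ≤ w) (hy : √2 * |y| ≤ w)
    (h : x ^ 2 + y ^ 2 + w ^ 2 + √2 * w + |y| ≤ 1 / 4) :
    1 / 2 * AV x y w ≤ 3.716 * divF x y w - 8.791 := by
  have hD := DD_pos x y w
  unfold AV divF NV NU
  have e : 3.716 * ((41 / 128 + 23 / 256 * x ^ 2 + 9 / 32 * (y ^ 2 + w ^ 2)) / DD x y w ^ 2)
      - 8.791 = (3.716 * (41 / 128 + 23 / 256 * x ^ 2 + 9 / 32 * (y ^ 2 + w ^ 2)) * DD x y w
        - 8.791 * DD x y w ^ 3) / DD x y w ^ 3 := by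
    field_simp
  rw [e, mul_div_assoc', div_le_div_iff_of_pos_right (by positivity)]
  have eD : DD x y w = 1 / 4 + x ^ 2 / 8 + (y ^ 2 + w ^ 2) := rfl
  rw [eD]
  set r := √(y ^ 2 + w ^ 2) with hr
  have r0 : 0 ≤ r := Real.sqrt_nonneg _
  have r2 : r ^ 2 = y ^ 2 + w ^ 2 := Real.sq_sqrt (by positivity)
  have h2 : √2 ^ 2 = 2 := Real.sq_sqrt (by norm_num)
  have h20 : 0 ≤ √2 := Real.sqrt_nonneg _
  have h21 : (1.414 : ℝ) ≤ √2 := Real.le_sqrt_of_sq_le (by norm_num)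
  have hy0 := abs_nonneg y
  have hcs : √2 * r ≤ √2 * w + |y| := by
    apply le_of_sq_le_sq _ (by positivity)
    have e1 : |y| ^ 2 = y ^ 2 := sq_abs y
    have e2 : (√2 * r) ^ 2 = 2 * (y ^ 2 + w ^ 2) := by rw [mul_pow, h2, r2]
    have e3 : (√2 * w + |y|) ^ 2 = 2 * w ^ 2 + 2 * (√2 * |y|) * w + y ^ 2 := by
      rw [add_sq, mul_pow, h2, e1]; ring
    rw [e2, e3]
    have e4 : (√2 * |y|) ^ 2 = 2 * y ^ 2 := by rw [mul_pow, h2, e1]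
    have e5 : 0 ≤ √2 * |y| := by positivity
    nlinarith [mul_le_mul_of_nonneg_left hy e5]
  have h5 : x ^ 2 + r ^ 2 + 1.414 * r ≤ 1 / 4 := by
    have := mul_le_mul_of_nonneg_right h21 r0
    rw [r2]
    linarith
  have h6 := ineq1 (sq_nonneg x) r0 h5
  rw [r2] at h6
  exact h6

/-- in the lens, `k`-term -/
theorem Y_lens (x y w : ℝ) :
    x ^ 2 * (NV x y w + 9 / 16 * DD x y w) / DD x y w ^ 3 ≤ 41 - 8 * divF x y w := by
  have hD := DD_pos x y w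
  unfold divF NV NU
  have e : 41 - 8 * ((41 / 128 + 23 / 256 * x ^ 2 + 9 / 32 * (y ^ 2 + w ^ 2)) / DD x y w ^ 2)
      = (41 * DD x y w ^ 3 - 8 * (41 / 128 + 23 / 256 * x ^ 2 + 9 / 32 * (y ^ 2 + w ^ 2)) *
        DD x y w) / DD x y w ^ 3 := by
    field_simp
  rw [e, div_le_div_iff_of_pos_right (by positivity)]
  have eD : DD x y w = 1 / 4 + x ^ 2 / 8 + (y ^ 2 + w ^ 2) := rfl
  rw [eD]
  set X := x ^ 2 with hX
  set R := y ^ 2 + w ^ 2 with hR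
  have X0 : 0 ≤ X := sq_nonneg x
  have R0 : 0 ≤ R := by positivity
  nlinarith [mul_nonneg X0 R0, mul_nonneg X0 X0, mul_nonneg R0 R0, mul_nonneg (mul_nonneg X0 X0) R0,
    mul_nonneg (mul_nonneg X0 R0) R0, pow_nonneg X0 3, pow_nonneg R0 3]

/-- everywhere -/
theorem Y_all {x y w : ℝ} (hx : x ^ 2 ≤ 1 / 4) :
    x ^ 2 * (NV x y w + 9 / 16 * DD x y w) / DD x y w ^ 3 ≤ 5.44 := by
  have hD := DD_pos x y w
  rw [div_le_iff₀ (by positivity)]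
  have eD : DD x y w = 1 / 4 + x ^ 2 / 8 + (y ^ 2 + w ^ 2) := rfl
  unfold NV
  rw [eD]
  exact ineq2 (sq_nonneg x) (by positivity) hx

/-- outside of the lens -/
theorem A_out {x y w : ℝ} (h : 1 / 4 < x ^ 2 + y ^ 2 + w ^ 2 + √2 * w + |y|) :
    1 / 2 * AV x y w ≤ 8.14 := by
  have hD := DD_pos x y w
  unfold AV
  rw [mul_div_assoc', div_le_iff₀ (by positivity)]
  set r := √(y ^ 2 + w ^ 2) with hr
  have r0 : 0 ≤ r := Real.sqrt_nonneg _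
  have r2 : r ^ 2 = y ^ 2 + w ^ 2 := Real.sq_sqrt (by positivity)
  have h3 : √3 ^ 2 = 3 := Real.sq_sqrt (by norm_num)
  have h30 : 0 ≤ √3 := Real.sqrt_nonneg _
  have h2 : √2 ^ 2 = 2 := Real.sq_sqrt (by norm_num)
  have h20 : 0 ≤ √2 := Real.sqrt_nonneg _
  have hcs : √2 * w + |y| ≤ √3 * r := by
    apply le_of_sq_le_sq _ (by positivity)
    have e1 : |y| ^ 2 = y ^ 2 := sq_abs y
    nlinarith [sq_nonneg (w - √2 * |y|)]
  set z := √3 * r with hz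
  have z2 : z ^ 2 = 3 * (y ^ 2 + w ^ 2) := by rw [hz, mul_pow, h3, r2]
  have hc : 1 / 4 < x ^ 2 + z ^ 2 / 3 + z := by
    rw [z2]; linarith
  have eD : DD x y w = 1 / 4 + x ^ 2 / 8 + z ^ 2 / 3 := by
    rw [z2]; unfold DD; ring
  have eN : NV x y w = 41 / 128 + 5 / 256 * x ^ 2 - 23 / 96 * z ^ 2 := by
    rw [z2]; unfold NV; ring
  rw [eN]
  have k2 : 3 * 0.2685 ^ 2 * DD x y w - 2 * 0.2685 ^ 3 ≤ DD x y w ^ 3 := by
    nlinarith [mul_nonneg (sq_nonneg (DD x y w - 0.2685)) (by linarith : 0 ≤ DD x y w + 2 * 0.2685)]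
  have k3 : 1 / 2 * (41 / 128 + 5 / 256 * x ^ 2 - 23 / 96 * z ^ 2) ≤
      8.14 * (3 * 0.2685 ^ 2 * DD x y w - 2 * 0.2685 ^ 3) := by
    rw [eD]
    nlinarith [sq_nonneg (z - 0.165)]
  linarith

theorem NV_ge {x y w : ℝ} (h : y ^ 2 + w ^ 2 ≤ 1 / 10) : 0.248 ≤ NV x y w := by
  unfold NV
  nlinarith [sq_nonneg x]

/-- positivity of the divergence, `P = (1 + b x) (1/2 + 7 ε x / 16)` -/
theorem gJ_nonneg {ε b : ℝ} (hε : ε ^ 2 = 1) (hb : |b| ≤ 11 / 20) {q : ℝ × ℝ × ℝ}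
    (hq : |q.1| ≤ 1 / 2) (h : q.2.1 ^ 2 + (q.2.2 - t) ^ 2 ≤ 1 / 10) :
    0 ≤ gJ (1 / 2) (b / 2 + ε * (7 / 16)) (ε * (7 / 16) * b) q := by
  have hD := DD_pos q.1 q.2.1 (q.2.2 - t)
  have hN := NV_ge (x := q.1) h
  have hD2 : DD q.1 q.2.1 (q.2.2 - t) ≤ 0.382 := by
    obtain ⟨k1, k2⟩ := abs_le.1 hq
    unfold DD
    nlinarith
  have hε1 : |ε| = 1 := abs_one_of_sq hε
  set ξ := ε * q.1 with hξ
  set β := ε * b with hβ
  have hξ2 : |ξ| ≤ 1 / 2 := by rw [hξ, abs_mul, hε1, one_mul]; exact hq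
  have hβ2 : |β| ≤ 11 / 20 := by rw [hβ, abs_mul, hε1, one_mul]; exact hb
  obtain ⟨m1, m2⟩ := abs_le.1 hξ2
  obtain ⟨n1, n2⟩ := abs_le.1 hβ2
  have ebx : b * q.1 = β * ξ := by
    rw [hξ, hβ]
    linear_combination (-(b * q.1)) * hε
  have e1 : gJ (1 / 2) (b / 2 + ε * (7 / 16)) (ε * (7 / 16) * b) q =
      ((1 + β * ξ) * (1 / 2 + 7 / 16 * ξ) * NV q.1 q.2.1 (q.2.2 - t) +
        9 / 32 * (β * ξ * (1 / 2 + 7 / 16 * ξ) + (1 + β * ξ) * (7 / 16 * ξ)) *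
          DD q.1 q.2.1 (q.2.2 - t)) / DD q.1 q.2.1 (q.2.2 - t) ^ 3 := by
    rw [← ebx, hξ]
    unfold gJ gE gO AV BV
    field_simp
    ring
  rw [e1]
  apply div_nonneg _ (by positivity)
  have p1 : 0.2 ≤ (1 + β * ξ) * (1 / 2 + 7 / 16 * ξ) := by
    have h1 : 29 / 40 ≤ 1 + β * ξ := by
      have h2 := neg_abs_le (β * ξ)
      rw [abs_mul] at h2
      have h3 := mul_le_mul hβ2 hξ2 (abs_nonneg ξ) (by norm_num)
      linarith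
    have h4 : 9 / 32 ≤ 1 / 2 + 7 / 16 * ξ := by linarith
    have h5 := mul_le_mul h1 h4 (by norm_num) (by linarith)
    linarith
  have p2 : -0.25 ≤ β * ξ * (1 / 2 + 7 / 16 * ξ) + (1 + β * ξ) * (7 / 16 * ξ) := by
    have h1 : 0 ≤ (11 / 20 - β) * (11 / 20 + β) := mul_nonneg (by linarith) (by linarith)
    nlinarith [mul_nonneg (by linarith : 0 ≤ ξ + 1 / 2) (by linarith : 0 ≤ 11 / 20 - β),
      mul_nonneg (by linarith : 0 ≤ ξ + 1 / 2) (by linarith : 0 ≤ 11 / 20 + β),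
      mul_nonneg (by linarith : 0 ≤ 1 / 2 - ξ) (by linarith : 0 ≤ 11 / 20 - β),
      mul_nonneg (by linarith : 0 ≤ 1 / 2 - ξ) (by linarith : 0 ≤ 11 / 20 + β),
      mul_nonneg (mul_nonneg (by linarith : 0 ≤ 1 / 2 - ξ) (by linarith : 0 ≤ ξ + 1 / 2))
        (by linarith : 0 ≤ 11 / 20 - β),
      mul_nonneg (mul_nonneg (by linarith : 0 ≤ 1 / 2 - ξ) (by linarith : 0 ≤ ξ + 1 / 2))
        (by linarith : 0 ≤ 11 / 20 + β), sq_nonneg ξ, sq_nonneg (ξ + 1 / 2)]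
  have p3 := mul_le_mul_of_nonneg_right p1 (by linarith : 0 ≤ NV q.1 q.2.1 (q.2.2 - t))
  have p4 := mul_le_mul_of_nonneg_right p2 hD.le
  nlinarith

end Helper53.MEI
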