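import Pool.Agent.Helper53.MEI.Wall3

/-!
# Project MEI (M2): weighted flux of the coordinates `b₃`, `b₄` through an edge cell

General weight `φ(x)/(4 D)`; `φ` is a limit of smooth functions, for example `a + b x + c |x|`.
-/

namespace Helper53.MEI

open Set MeasureTheory Filter Topology Metric
open Helper80.CW Helper22.Wedge Helper22.Sig
open Helper21.Sec Helper21.Mom
open Helper22.MEI (s t FD FD_pos)
open scoped RealInnerProductSpace ContDiff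

/-! ### the weight and its derivative -/

/-- the weight -/
noncomputable def omF (φ : ℝ → ℝ) (q : ℝ × ℝ × ℝ) : ℝ := φ q.1 / (4 * FD q)

theorem omF_cd {n : WithTop ℕ∞} {φ : ℝ → ℝ} (h : ContDiff ℝ n φ) : ContDiff ℝ n (omF φ) := by
  have h1 := Helper37.MEI.FD_cdn (n := n)
  unfold omF
  exact ContDiff.div (h.comp contDiff_fst) (contDiff_const.mul h1) fun q => by
    have := FD_pos q
    positivity

theorem E2_omF {φ : ℝ → ℝ} (h : ContDiff ℝ 1 φ) (q : ℝ × ℝ × ℝ) :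
    Helper22.MEI.E2 (omF φ) q = -(φ q.1 * q.2.1 / (2 * FD q ^ 2)) := by
  refine Helper22.MEI.E2_of (omF_cd h) ?_
  have hD := FD_pos q
  have h1 : HasDerivAt (fun a : ℝ => 4 * FD (q.1, a, q.2.2)) (4 * (2 * q.2.1)) q.2.1 := by
    have h2 := (((hasDerivAt_pow 2 q.2.1).add_const ((q.2.2 - t) ^ 2)).const_add
      (1 / 4 + q.1 ^ 2 / 8)).const_mul 4
    have h3 : 4 * (((2 : ℕ) : ℝ) * q.2.1 ^ (2 - 1)) = 4 * (2 * q.2.1) := by norm_num
    rw [h3] at h2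
    exact h2
  have h2 := (hasDerivAt_const q.2.1 (φ q.1)).div h1
    (by have : FD (q.1, q.2.1, q.2.2) = FD q := rfl
        rw [this]; positivity)
  refine h2.congr_deriv ?_
  have h3 : FD (q.1, q.2.1, q.2.2) = FD q := rfl
  rw [h3]
  field_simp
  ring

theorem E3_omF {φ : ℝ → ℝ} (h : ContDiff ℝ 1 φ) (q : ℝ × ℝ × ℝ) :
    Helper22.MEI.E3 (omF φ) q = -(φ q.1 * (q.2.2 - t) / (2 * FD q ^ 2)) := by
  refine Helper22.MEI.E3_of (omF_cd h) ?_
  have hD := FD_pos q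
  have h1 : HasDerivAt (fun a : ℝ => 4 * FD (q.1, q.2.1, a)) (4 * (2 * (q.2.2 - t))) q.2.2 := by
    have h2 := (((((hasDerivAt_id q.2.2).sub_const t).pow 2).const_add (q.2.1 ^ 2)).const_add
      (1 / 4 + q.1 ^ 2 / 8)).const_mul 4
    refine h2.congr_deriv ?_
    simp only [id]
    norm_num
  have h2 := (hasDerivAt_const q.2.2 (φ q.1)).div h1
    (by have : FD (q.1, q.2.1, q.2.2) = FD q := rfl
        rw [this]; positivity)
  refine h2.congr_deriv ?_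
  have h3 : FD (q.1, q.2.1, q.2.2) = FD q := rfl
  rw [h3]
  field_simp
  ring

/-- derivative of the weight in the direction of the coordinate -/
noncomputable def dG (φ : ℝ → ℝ) (ε : ℝ) (q : ℝ × ℝ × ℝ) : ℝ :=
  φ q.1 * ((√2 / 2 * (q.2.2 - t) - ε * q.2.1) / (2 * FD q ^ 2))

variable (b : OrthonormalBasis (Fin 3) ℝ E3) (c : E3)

theorem fd_beG {φ : ℝ → ℝ} (h : ContDiff ℝ 1 φ) (ε : ℝ) (x : E3) :
    fderiv ℝ (fun y => omF φ (co b c y)) x (be b ε) = dG φ ε (co b c x) := by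
  obtain ⟨⟨i00, i01, i02⟩, ⟨i10, i11, i12⟩, ⟨i20, i21, i22⟩⟩ := ibv b
  rw [fd_co b c (omF_cd h)]
  have e : (⟪b 0, be b ε⟫, ⟪b 1, be b ε⟫, ⟪b 2, be b ε⟫) =
      ε • ((0, 1, 0) : ℝ × ℝ × ℝ) + (-(√2 / 2)) • ((0, 0, 1) : ℝ × ℝ × ℝ) := by
    unfold be
    simp only [inner_sub_right, real_inner_smul_right, i01, i02, i11, i12, i21, i22]
    ext <;> simp
  rw [e, map_add, map_smul, map_smul]
  have e2 := E2_omF h (co b c x)
  have e3 := E3_omF h (co b c x)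
  unfold Helper22.MEI.E2 at e2
  unfold Helper22.MEI.E3 at e3
  rw [e2, e3, smul_eq_mul, smul_eq_mul]
  unfold dG
  ring

theorem omF_omG (φ : ℝ → ℝ) {ε : ℝ} (hε : ε = 1 ∨ ε = -1) (x : E3) :
    omF φ (co b c x) = omG φ (Tw b c ε x) := by
  unfold omF omG Tw FD t
  simp only
  have e : (√2 / 2 * ((co b c x).2.2 - √2 / 4) -
      (√2 / 2 * ((co b c x).2.2 - √2 / 4) - ε * (co b c x).2.1)) ^ 2 = (co b c x).2.1 ^ 2 := by
    rcases hε with h | h <;> rw [h] <;> ring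
  rw [e]
  congr 1
  ring

/-! ### the flux, smooth weight -/

section
variable {b : OrthonormalBasis (Fin 3) ℝ E3} {c : E3} {σ : Measure (E3 × E3)}
  [IsFiniteMeasure σ] {K : Set E3} (hK : IsCompact K)
  (hσ : ∀ᵐ z ∂σ, z.1 ∈ K ∧ z.2 ∈ K)
  (hU : ∀ G : E3 → E3, ContDiff ℝ ∞ G → ∫ z, ⟪G z.1, z.1 - z.2⟫ ∂σ = ∫ x in K, dvg G x)
  {s1 s2 s3 s4 : ℝ} (h : Bod b c K s1 s2 s3 s4)
  (hSl : ∀ x ∈ K, |(co b c x).1| + |(co b c x).2.1| + √2 * ((co b c x).2.2 - √2 / 4) ≤ 1 / 2)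

include hK hσ hU in
theorem fluxG_lim {φ : ℝ → ℝ} (sφ : ContDiff ℝ ∞ φ) {ε : ℝ} (hε : ε = 1 ∨ ε = -1) :
    Tendsto (fun m : ℕ => 1 / 2 * JG b c φ K (-ε) m - 3 / 2 * JG b c φ K ε m) atTop
      (𝓝 ((∫ z in {z | z.1 ∈ EC b c}, omF φ (co b c z.1) * ⟪be b ε, z.1 - z.2⟫ ∂σ) -
        ∫ x in K ∩ EC b c, dG φ ε (co b c x))) := by
  have hom : ContDiff ℝ ∞ (fun x => omF φ (co b c x)) := (omF_cd sφ).comp (co_cdn b c)
  have hl := fluxg_lim b c hK hσ hU hom (be b ε)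
  rw [cel_eq] at hl
  simp only [fd_beG b c (sφ.of_le (by exact_mod_cast le_top)) ε] at hl
  have hJ : ∀ (ε : ℝ) (m : ℕ), (ε = 1 ∨ ε = -1) →
      ∫ x in K, omF φ (co b c x) * jk (m + 1) (Tw b c ε x) = JG b c φ K ε m := by
    intro ε m hε
    unfold JG
    rw [← int_Tw b c hε K (fun p => omG φ p * jk (m + 1) p)]
    simp only [omF_omG b c φ hε]
  have hn := nuw_b b
  have r := r2
  have n0 : ⟪nuw b 0, be b ε⟫ = -ε - 1 / 2 := by
    unfold be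
    rw [inner_sub_right, real_inner_smul_right, real_inner_smul_right, (hn 0).1, (hn 0).2.1]
    linear_combination (-1 / 4) * r
  have n1 : ⟪nuw b 1, be b ε⟫ = ε - 1 / 2 := by
    unfold be
    rw [inner_sub_right, real_inner_smul_right, real_inner_smul_right, (hn 1).1, (hn 0).2.2]
    linear_combination (-1 / 4) * r
  refine hl.congr fun m => ?_
  rw [hJ 1 m (Or.inl rfl), hJ (-1) m (Or.inr rfl), n0, n1]
  rcases hε with h | h <;> rw [h]
  · ring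
  · rw [neg_neg]; ring

include hK hσ hU h hSl in
/-- **flux of the coordinate, lower bound** (smooth weight) -/
theorem fluxG_ge {φ : ℝ → ℝ} (sφ : ContDiff ℝ ∞ φ)
    (hφ : ∀ X : ℝ, |X| ≤ 1 / 2 → 0 ≤ φ X ∧ φ X ≤ 1) {s' : ℝ} (hs' : 0 ≤ s') {ε : ℝ}
    (hε : ε = 1 ∧ s4 ≤ s' ∨ ε = -1 ∧ s3 ≤ s') :
    (∫ x in K ∩ EC b c, dG φ ε (co b c x)) - 3 / 2 * JGu φ s' + 1 / 2 * JGl φ s1 s2 ≤
      ∫ z in {z | z.1 ∈ EC b c}, omF φ (co b c z.1) * ⟪be b ε, z.1 - z.2⟫ ∂σ := by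
  have hε1 : ε = 1 ∨ ε = -1 := by
    rcases hε with h | h
    · exact Or.inl h.1
    · exact Or.inr h.1
  have hε' : -ε = 1 ∨ -ε = -1 := by
    rcases hε1 with h | h
    · right; rw [h]
    · left; rw [h]; norm_num
  have hl2 := fluxG_lim (b := b) (c := c) hK hσ hU sφ hε1
  have h1 := lim_inv
  have hlim : Tendsto (fun m : ℕ => 1 / 2 * (JGl φ s1 s2 - √2 * (1 / ((m : ℝ) + 1)) -
      √2 * (1 / ((m : ℝ) + 1)) - 4 * (1 / ((m : ℝ) + 1))) -
      3 / 2 * (JGu φ s' + √2 * (1 / ((m : ℝ) + 1)) + 2 * (1 / ((m : ℝ) + 1)) *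
      (1 + 1 / ((m : ℝ) + 1)))) atTop
      (𝓝 (1 / 2 * JGl φ s1 s2 - 3 / 2 * JGu φ s')) := by
    have hc : Continuous (fun u : ℝ => 1 / 2 * (JGl φ s1 s2 - √2 * u - √2 * u - 4 * u) -
      3 / 2 * (JGu φ s' + √2 * u + 2 * u * (1 + u))) := by fun_prop
    have h2 := (hc.tendsto 0).comp h1
    refine h2.congr' ?_ |>.trans (le_of_eq ?_)
    · exact Eventually.of_forall fun m => rfl
    · congr 1
      ring
  have h3 := le_of_tendsto_of_tendsto' hlim hl2 fun m => by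
    have k1 := JG_up sφ.continuous hφ hK h hs' hSl hε m
    have k2 := JG_lo sφ.continuous hφ hK h hε' m
    linarith
  linarith

include hK hσ hU h hSl in
/-- **flux of the coordinate, upper bound** (smooth weight) -/
theorem fluxG_le {φ : ℝ → ℝ} (sφ : ContDiff ℝ ∞ φ)
    (hφ : ∀ X : ℝ, |X| ≤ 1 / 2 → 0 ≤ φ X ∧ φ X ≤ 1) {s' : ℝ} (hs' : 0 ≤ s') {ε : ℝ}
    (hε : ε = -1 ∧ s4 ≤ s' ∨ ε = 1 ∧ s3 ≤ s') :
    ∫ z in {z | z.1 ∈ EC b c}, omF φ (co b c z.1) * ⟪be b ε, z.1 - z.2⟫ ∂σ ≤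
      (∫ x in K ∩ EC b c, dG φ ε (co b c x)) - 3 / 2 * JGl φ s1 s2 + 1 / 2 * JGu φ s' := by
  have hε1 : ε = 1 ∨ ε = -1 := by
    rcases hε with h | h
    · exact Or.inr h.1
    · exact Or.inl h.1
  have hε' : -ε = 1 ∧ s4 ≤ s' ∨ -ε = -1 ∧ s3 ≤ s' := by
    rcases hε with h | h
    · left; exact ⟨by rw [h.1]; norm_num, h.2⟩
    · right; exact ⟨by rw [h.1], h.2⟩
  have hl2 := fluxG_lim (b := b) (c := c) hK hσ hU sφ hε1
  have h1 := lim_inv
  have hlim : Tendsto (fun m : ℕ => 1 / 2 * (JGu φ s' + √2 * (1 / ((m : ℝ) + 1)) +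
      2 * (1 / ((m : ℝ) + 1)) * (1 + 1 / ((m : ℝ) + 1))) -
      3 / 2 * (JGl φ s1 s2 - √2 * (1 / ((m : ℝ) + 1)) -
      √2 * (1 / ((m : ℝ) + 1)) - 4 * (1 / ((m : ℝ) + 1)))) atTop
      (𝓝 (1 / 2 * JGu φ s' - 3 / 2 * JGl φ s1 s2)) := by
    have hc : Continuous (fun u : ℝ => 1 / 2 * (JGu φ s' + √2 * u + 2 * u * (1 + u)) -
      3 / 2 * (JGl φ s1 s2 - √2 * u - √2 * u - 4 * u)) := by fun_prop
    have h2 := (hc.tendsto 0).comp h1
    refine h2.congr' ?_ |>.trans (le_of_eq ?_)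
    · exact Eventually.of_forall fun m => rfl
    · congr 1
      ring
  have h3 := le_of_tendsto_of_tendsto' hl2 hlim fun m => by
    have k1 := JG_up sφ.continuous hφ hK h hs' hSl hε' m
    have k2 := JG_lo sφ.continuous hφ hK h hε1 m
    linarith
  linarith

end

/-! ### limits of weights -/

/-- limit of an integral against the weight -/
theorem lim_w {α : Type} [MeasurableSpace α] {μ : Measure α} {f g : α → ℝ}
    (hf : AEMeasurable f μ) (hg : Integrable g μ) (hb : ∀ᵐ z ∂μ, |f z| ≤ 1 / 2)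
    {φ : ℝ → ℝ} {φn : ℕ → ℝ → ℝ} (cn : ∀ n, Continuous (φn n))
    (hn : ∀ n, ∀ X : ℝ, |X| ≤ 1 / 2 → 0 ≤ φn n X ∧ φn n X ≤ 1)
    (hl : ∀ x, Tendsto (fun n => φn n x) atTop (𝓝 (φ x))) :
    Tendsto (fun n => ∫ z, φn n (f z) * g z ∂μ) atTop (𝓝 (∫ z, φ (f z) * g z ∂μ)) := by
  refine tendsto_integral_of_dominated_convergence (fun z => |g z|) (fun n => ?_) hg.abs
    (fun n => ?_) (Eventually.of_forall fun z => (hl (f z)).mul_const _)
  · exact ((cn n).measurable.comp_aemeasurable hf).aestronglyMeasurable.mul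
      hg.aestronglyMeasurable
  · filter_upwards [hb] with z hz
    obtain ⟨h0, h1⟩ := hn n (f z) hz
    rw [Real.norm_eq_abs, abs_mul, abs_of_nonneg h0]
    exact mul_le_of_le_one_left (abs_nonneg _) h1

theorem lim_J {φ : ℝ → ℝ} {φn : ℕ → ℝ → ℝ} (cn : ∀ n, Continuous (φn n))
    (hn : ∀ n, ∀ X : ℝ, |X| ≤ 1 / 2 → 0 ≤ φn n X ∧ φn n X ≤ 1)
    (hl : ∀ x, Tendsto (fun n => φn n x) atTop (𝓝 (φ x))) {E : ℝ → ℝ} (hE : Continuous E) :
    Tendsto (fun n => ∫ x in (-(1 / 2) : ℝ)..(1 / 2), φn n x * E x) atTop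
      (𝓝 (∫ x in (-(1 / 2) : ℝ)..(1 / 2), φ x * E x)) := by
  simp only [intervalIntegral.integral_of_le (show (-(1 / 2) : ℝ) ≤ 1 / 2 by norm_num)]
  refine lim_w (f := fun x : ℝ => x) aemeasurable_id'
    ((hE.continuousOn.integrableOn_compact isCompact_Icc).mono_set Ioc_subset_Icc_self) ?_ cn hn hl
  filter_upwards [ae_restrict_mem measurableSet_Ioc] with x hx
  exact abs_le.2 ⟨hx.1.le, hx.2⟩

theorem lim_JGu {φ : ℝ → ℝ} {φn : ℕ → ℝ → ℝ} (cn : ∀ n, Continuous (φn n))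
    (hn : ∀ n, ∀ X : ℝ, |X| ≤ 1 / 2 → 0 ≤ φn n X ∧ φn n X ≤ 1)
    (hl : ∀ x, Tendsto (fun n => φn n x) atTop (𝓝 (φ x))) (s' : ℝ) :
    Tendsto (fun n => JGu (φn n) s') atTop (𝓝 (JGu φ s')) := by
  have cZ := Zu_cont
  have cr := rr_cont
  have cg := gg_cont
  have cE : Continuous fun x => Zu x * min (s' * rr x) (gg x) := by fun_prop
  exact ((lim_J cn hn hl Pu2_cont).const_mul _).add ((lim_J cn hn hl cE).const_mul _)

theorem lim_JGl {φ : ℝ → ℝ} {φn : ℕ → ℝ → ℝ} (cn : ∀ n, Continuous (φn n))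
    (hn : ∀ n, ∀ X : ℝ, |X| ≤ 1 / 2 → 0 ≤ φn n X ∧ φn n X ≤ 1)
    (hl : ∀ x, Tendsto (fun n => φn n x) atTop (𝓝 (φ x))) (s1 s2 : ℝ) :
    Tendsto (fun n => JGl (φn n) s1 s2) atTop (𝓝 (JGl φ s1 s2)) := by
  have cE : Continuous fun x : ℝ =>
    (0.5774 * (s1 + s2) + (s1 - s2) * x) * (1 - x ^ 2 / 2) := by fun_prop
  exact ((lim_J cn hn hl Plo2_cont).const_mul _).sub ((lim_J cn hn hl cE).const_mul _)

section
variable {b : OrthonormalBasis (Fin 3) ℝ E3} {c : E3} {σ : Measure (E3 × E3)}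
  [IsFiniteMeasure σ] {K : Set E3} (hK : IsCompact K)
  (hσ : ∀ᵐ z ∂σ, z.1 ∈ K ∧ z.2 ∈ K)
  (hU : ∀ G : E3 → E3, ContDiff ℝ ∞ G → ∫ z, ⟪G z.1, z.1 - z.2⟫ ∂σ = ∫ x in K, dvg G x)
  {s1 s2 s3 s4 : ℝ} (h : Bod b c K s1 s2 s3 s4)
  (hSl : ∀ x ∈ K, |(co b c x).1| + |(co b c x).2.1| + √2 * ((co b c x).2.2 - √2 / 4) ≤ 1 / 2)
  {φ : ℝ → ℝ} {φn : ℕ → ℝ → ℝ} (sn : ∀ n, ContDiff ℝ ∞ (φn n))
  (hn : ∀ n, ∀ X : ℝ, |X| ≤ 1 / 2 → 0 ≤ φn n X ∧ φn n X ≤ 1)
  (hl : ∀ x, Tendsto (fun n => φn n x) atTop (𝓝 (φ x)))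

include hK hσ h sn hn hl in
theorem lim_cell (ε : ℝ) :
    Tendsto (fun n => ∫ z in {z | z.1 ∈ EC b c}, omF (φn n) (co b c z.1) *
      ⟪be b ε, z.1 - z.2⟫ ∂σ) atTop
      (𝓝 (∫ z in {z | z.1 ∈ EC b c}, omF φ (co b c z.1) * ⟪be b ε, z.1 - z.2⟫ ∂σ)) := by
  have hcc := (co_cd b c).continuous
  have hFD : Continuous (fun z : E3 × E3 => FD (co b c z.1)) :=
    (Helper37.MEI.FD_cdn (n := 0)).continuous.comp (hcc.comp continuous_fst)
  have hg : Continuous (fun z : E3 × E3 => 1 / (4 * FD (co b c z.1)) *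
      ⟪be b ε, z.1 - z.2⟫) := by
    refine Continuous.mul (Continuous.div continuous_const (continuous_const.mul hFD) fun z => ?_)
      (by fun_prop)
    have := FD_pos (co b c z.1)
    positivity
  obtain ⟨B1, hB1⟩ := (hK.prod hK).bddAbove_image (hg.abs).continuousOn
  have hgi : Integrable (fun z : E3 × E3 => 1 / (4 * FD (co b c z.1)) *
      ⟪be b ε, z.1 - z.2⟫) σ := by
    refine Integrable.of_bound hg.aestronglyMeasurable B1 ?_
    filter_upwards [hσ] with z hz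
    exact hB1 ⟨z, ⟨hz.1, hz.2⟩, rfl⟩
  have e : ∀ (ψ : ℝ → ℝ) (z : E3 × E3), omF ψ (co b c z.1) * ⟪be b ε, z.1 - z.2⟫ =
      ψ (co b c z.1).1 * (1 / (4 * FD (co b c z.1)) * ⟪be b ε, z.1 - z.2⟫) := by
    intro ψ z
    unfold omF
    ring
  simp only [e]
  refine lim_w (f := fun z : E3 × E3 => (co b c z.1).1) ?_ hgi.integrableOn ?_
    (fun n => (sn n).continuous) hn hl
  · exact (continuous_fst.comp (hcc.comp continuous_fst)).measurable.aemeasurable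
  · filter_upwards [ae_restrict_of_ae hσ] with z hz
    exact h.X_le _ hz.1

include hK h sn hn hl in
theorem lim_vol (ε : ℝ) :
    Tendsto (fun n => ∫ x in K ∩ EC b c, dG (φn n) ε (co b c x)) atTop
      (𝓝 (∫ x in K ∩ EC b c, dG φ ε (co b c x))) := by
  have hcc := (co_cd b c).continuous
  have hFD : Continuous (fun x : E3 => FD (co b c x)) :=
    (Helper37.MEI.FD_cdn (n := 0)).continuous.comp hcc
  have hg : Continuous (fun x : E3 => (√2 / 2 * ((co b c x).2.2 - t) - ε * (co b c x).2.1) /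
      (2 * FD (co b c x) ^ 2)) := by
    refine Continuous.div ?_ (continuous_const.mul (hFD.pow 2)) fun z => ?_
    · have h1 := continuous_snd.comp (continuous_snd.comp hcc)
      have h2 := continuous_fst.comp (continuous_snd.comp hcc)
      exact (continuous_const.mul (h1.sub continuous_const)).sub (continuous_const.mul h2)
    · have := FD_pos (co b c z)
      positivity
  have hgi : IntegrableOn (fun x : E3 => (√2 / 2 * ((co b c x).2.2 - t) -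
      ε * (co b c x).2.1) / (2 * FD (co b c x) ^ 2)) (K ∩ EC b c) :=
    (hg.continuousOn.integrableOn_compact hK).mono_set inter_subset_left
  refine lim_w (f := fun x : E3 => (co b c x).1) ?_ hgi ?_ (fun n => (sn n).continuous) hn hl
  · exact (continuous_fst.comp hcc).measurable.aemeasurable
  · have hEm : MeasurableSet (EC b c) := by
      rw [← cel_eq]; exact (Cel_open _ _).measurableSet
    filter_upwards [ae_restrict_mem (hK.isClosed.measurableSet.inter hEm)] with x hx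
    exact h.X_le _ hx.1

include hK hσ hU h hSl sn hn hl in
/-- **flux of the coordinate, lower bound** -/
theorem fluxP_ge {s' : ℝ} (hs' : 0 ≤ s') {ε : ℝ} (hε : ε = 1 ∧ s4 ≤ s' ∨ ε = -1 ∧ s3 ≤ s') :
    (∫ x in K ∩ EC b c, dG φ ε (co b c x)) - 3 / 2 * JGu φ s' + 1 / 2 * JGl φ s1 s2 ≤
      ∫ z in {z | z.1 ∈ EC b c}, omF φ (co b c z.1) * ⟪be b ε, z.1 - z.2⟫ ∂σ := by
  have cn : ∀ n, Continuous (φn n) := fun n => (sn n).continuous
  refine le_of_tendsto_of_tendsto' (((lim_vol hK h sn hn hl ε).sub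
    ((lim_JGu cn hn hl s').const_mul (3 / 2))).add ((lim_JGl cn hn hl s1 s2).const_mul (1 / 2)))
    (lim_cell hK hσ h sn hn hl ε) fun n => ?_
  exact fluxG_ge hK hσ hU h hSl (sn n) (hn n) hs' hε

include hK hσ hU h hSl sn hn hl in
/-- **flux of the coordinate, upper bound** -/
theorem fluxP_le {s' : ℝ} (hs' : 0 ≤ s') {ε : ℝ} (hε : ε = -1 ∧ s4 ≤ s' ∨ ε = 1 ∧ s3 ≤ s') :
    ∫ z in {z | z.1 ∈ EC b c}, omF φ (co b c z.1) * ⟪be b ε, z.1 - z.2⟫ ∂σ ≤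
      (∫ x in K ∩ EC b c, dG φ ε (co b c x)) - 3 / 2 * JGl φ s1 s2 + 1 / 2 * JGu φ s' := by
  have cn : ∀ n, Continuous (φn n) := fun n => (sn n).continuous
  refine le_of_tendsto_of_tendsto' (lim_cell hK hσ h sn hn hl ε) (((lim_vol hK h sn hn hl ε).sub
    ((lim_JGl cn hn hl s1 s2).const_mul (3 / 2))).add ((lim_JGu cn hn hl s').const_mul (1 / 2)))
    fun n => ?_
  exact fluxG_le hK hσ hU h hSl (sn n) (hn n) hs' hε

end

end Helper53.MEI
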