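import Pool.Agent.Helper53.MEI.Fld

/-!
# Project MEI (M2): the mass of the edge weight, field `(1 + β x) w F / D`
-/

namespace Helper53.MEI

open Set Metric MeasureTheory Helper80.CW Helper14.CW Helper14.MEI2
open Helper22.MEI (t s Fa Fb Fc FD FD_pos)
open Helper22.Wedge (co fld EC ib ibv norm_co)
open Helper22.Sig (dvg)
open Helper93.MEI Helper37.MEI
open Pool.Agent.Helper8.MEI (DD DD_pos DD_ge divF NU)
open scoped ContDiff RealInnerProductSpace Real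

section
variable (b : OrthonormalBasis (Fin 3) ℝ E3) (c : E3)

theorem dvg_J (u v k : ℝ) (x : E3) :
    dvg (fld b c (Ja u v k) (Jb u v k) (Jc u v k)) x = gJ u v k (co b c x) := by
  rw [Helper22.Sig.dvg_fld b c (Ja_cd u v k) (Jb_cd u v k) (Jc_cd u v k), dv_J]

theorem fld_J (u v k : ℝ) (x : E3) : fld b c (Ja u v k) (Jb u v k) (Jc u v k) x =
    (PuF u v k (co b c x).1 / FD (co b c x)) • fld b c Fa Fb Fc x := by
  have e : ∀ f : ℝ × ℝ × ℝ → ℝ, PuF u v k (co b c x).1 * (f (co b c x) / FD (co b c x)) =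
      PuF u v k (co b c x).1 / FD (co b c x) * f (co b c x) := fun f => by ring
  unfold fld Ja Jb Jc
  simp only [smul_add, smul_smul, e]

theorem AV_cont : Continuous (fun x => AV (co b c x).1 (co b c x).2.1 ((co b c x).2.2 - t)) := by
  have h := co_cont b c
  unfold AV NV
  refine Continuous.div (by fun_prop) ?_ fun x => ?_
  · unfold DD; fun_prop
  · exact pow_ne_zero 3 (DD_pos _ _ _).ne'

theorem BV_cont : Continuous (fun x => BV (co b c x).1 (co b c x).2.1 ((co b c x).2.2 - t)) := by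
  have h := co_cont b c
  unfold BV
  refine Continuous.div (by fun_prop) ?_ fun x => ?_
  · unfold DD; fun_prop
  · exact pow_ne_zero 2 (DD_pos _ _ _).ne'

theorem gE_cont (u k : ℝ) : Continuous (fun x => gE u k (co b c x)) := by
  have h := co_cont b c
  have h1 := AV_cont b c
  have h2 := BV_cont b c
  unfold gE
  fun_prop

theorem gO_cont : Continuous (fun x => gO (co b c x)) := by
  have h := co_cont b c
  have h1 := AV_cont b c
  have h2 := BV_cont b c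
  unfold gO
  fun_prop

theorem gJ_cont (u v k : ℝ) : Continuous (fun x => gJ u v k (co b c x)) := by
  have h1 := gE_cont b c u k
  have h2 := gO_cont b c
  unfold gJ
  fun_prop

theorem gO_odd (x y z : ℝ) : gO (-x, y, z) = - gO (x, y, z) := by
  have e1 : AV (-x) y (z - t) = AV x y (z - t) := by
    unfold AV NV DD
    ring_nf
  have e2 : BV (-x) y (z - t) = - BV x y (z - t) := by
    unfold BV DD
    ring
  unfold gO
  simp only
  rw [e1, e2]
  ring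

theorem int_odd {S : Set E3} (hS : Rr b c ⁻¹' S = S) : ∫ x in S, gO (co b c x) = 0 := by
  have h1 := (Rr_mp b c).setIntegral_preimage_emb (Rr b c).measurableEmbedding
    (fun x => gO (co b c x)) S
  rw [hS] at h1
  have h2 : ∀ x, gO (co b c (Rr b c x)) = - gO (co b c x) := by
    intro x
    rw [co_Rr]
    exact gO_odd _ _ _
  simp only [h2] at h1
  rw [integral_neg] at h1
  linarith

/-- the integral of the divergence over a symmetric set -/
theorem int_sym {S : Set E3} (hS : Rr b c ⁻¹' S = S) {u v k : ℝ}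
    (i1 : IntegrableOn (fun x => gE u k (co b c x)) S)
    (i2 : IntegrableOn (fun x => gO (co b c x)) S) :
    ∫ x in S, gJ u v k (co b c x) = ∫ x in S, gE u k (co b c x) := by
  have e1 : ∀ x, gJ u v k (co b c x) = gE u k (co b c x) + v * gO (co b c x) := fun x => rfl
  simp only [e1]
  rw [integral_add i1 (i2.const_mul v), integral_const_mul, int_odd b c hS, mul_zero, add_zero]

end

section
variable {b : OrthonormalBasis (Fin 3) ℝ E3} {c : E3} {K : Set E3} {a1 a2 a3 a4 : E3}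
  {s1 s2 s3 s4 : ℝ} {σ : Measure (E3 × E3)}

/-- radius in the outer region -/
theorem r_le (ha3 : co b c a3 = (0, 1 / 2, -t)) (ha4 : co b c a4 = (0, -(1 / 2), -t))
    {x : E3} (hx : x ∈ EC b c) (h3 : ‖x - a3‖ ^ 2 - 1 ≤ s3) (h4 : ‖x - a4‖ ^ 2 - 1 ≤ s4)
    (hs3 : s3 ≤ 1 / 5) (hs4 : s4 ≤ 1 / 5) :
    (co b c x).2.1 ^ 2 + ((co b c x).2.2 - t) ^ 2 ≤ 1 / 10 := by
  have d3 := Helper78.MEI.d3_eq b c (p := x) ha3
  have d4 := Helper78.MEI.d4_eq b c (p := x) ha4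
  have hw := Helper78.MEI.EC_w b c hx
  have hx' : |(co b c x).2.1| < s * ((co b c x).2.2 - t) := hx
  set y := (co b c x).2.1
  set w := (co b c x).2.2 - t
  have hs : s ^ 2 = 1 / 2 := by
    unfold s
    rw [div_pow, Real.sq_sqrt (by norm_num)]
    norm_num
  have hs0 : 0 < s := by unfold s; positivity
  have hy : y ^ 2 ≤ 1 / 2 * w ^ 2 := by
    have h1 := mul_self_le_mul_self (abs_nonneg y) hx'.le
    have h2 : |y| * |y| = y ^ 2 := by rw [abs_mul_abs_self]; ring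
    have h3 : s * w * (s * w) = 1 / 2 * w ^ 2 := by rw [← hs]; ring
    linarith
  have h21 : (1.414 : ℝ) ≤ √2 := Real.le_sqrt_of_sq_le (by norm_num)
  have h5 := mul_le_mul_of_nonneg_right h21 hw.le
  have h6 : y ^ 2 + w ^ 2 + 1.414 * w ≤ 0.45 := by
    linarith [sq_nonneg (co b c x).1]
  by_contra hc
  rw [not_le] at hc
  have h7 : 0.2 / 3 < w ^ 2 := by linarith
  have h8 : 0.258 < w := by
    by_contra h9
    rw [not_lt] at h9
    have := mul_self_le_mul_self hw.le h9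
    nlinarith
  linarith

theorem Rg_refl' (ha3 : co b c a3 = (0, 1 / 2, -t)) (ha4 : co b c a4 = (0, -(1 / 2), -t)) :
    Rr b c ⁻¹' Rg b c a3 a4 s3 s4 = Rg b c a3 a4 s3 s4 := Rg_refl ha3 ha4 s3 s4

/-- volume side -/
theorem vol_side_3 (hK : IsCompact K) (hX : ∀ x ∈ K, |(co b c x).1| ≤ 1 / 2)
    (ha3 : co b c a3 = (0, 1 / 2, -t)) (ha4 : co b c a4 = (0, -(1 / 2), -t))
    (h3 : ∀ x ∈ K, ‖x - a3‖ ^ 2 - 1 ≤ s3) (h4 : ∀ x ∈ K, ‖x - a4‖ ^ 2 - 1 ≤ s4)
    (hs3 : s3 ≤ 1 / 5) (hs4 : s4 ≤ 1 / 5) {ε β : ℝ} (hε : ε ^ 2 = 1) (hβ : |β| ≤ 11 / 20) :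
    ∫ x in K ∩ EC b c, gJ (1 / 2) (β / 2 + ε * (7 / 16)) (ε * (7 / 16) * β) (co b c x) ≤
      3.716 * (∫ x in Ast b c a3 a4, dvF b c x) - 8.791 * volume.real (Ast b c a3 a4) +
        max (ε * (7 / 16) * β) 0 * (41 * volume.real (Ast b c a3 a4) -
          8 * ∫ x in Ast b c a3 a4, dvF b c x) +
        (8.14 + 5.44 * max (ε * (7 / 16) * β) 0) * volume.real (Rg b c a3 a4 s3 s4) := by
  set k := ε * (7 / 16) * β with hk
  set v := β / 2 + ε * (7 / 16) with hv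
  set kp := max k 0 with hkp
  have kp0 : 0 ≤ kp := le_max_right _ _
  have hm := Ast_meas b c a3 a4
  have hKB : K ⊆ Bx b c a3 a4 s3 s4 := fun x hx => ⟨hX x hx, h3 x hx, h4 x hx⟩
  have hJ := gJ_cont b c (1 / 2) v k
  have hE := gE_cont b c (1 / 2) k
  have hO := gO_cont b c
  have hKZ : IntegrableOn (fun x => gJ (1 / 2) v k (co b c x)) (K ∩ EC b c) :=
    (hJ.continuousOn.integrableOn_compact hK).mono_set inter_subset_left
  have hcl : Ast b c a3 a4 ⊆ closedBall a3 1 := by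
    intro x hx
    rw [mem_closedBall, dist_eq_norm]
    exact hx.2.1
  have hA : ∀ {f : E3 → ℝ}, Continuous f → IntegrableOn f (Ast b c a3 a4) := fun hf =>
    (hf.continuousOn.integrableOn_compact (isCompact_closedBall a3 1)).mono_set hcl
  have hR : ∀ {f : E3 → ℝ}, Continuous f → IntegrableOn f (Rg b c a3 a4 s3 s4) := fun hf =>
    (hf.continuousOn.integrableOn_compact (Bx_cpt b c a3 a4 s3 s4)).mono_set
      (sdiff_subset.trans inter_subset_left)
  have hAf := Ast_fin b c a3 a4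
  have hd : volume (Rg b c a3 a4 s3 s4) ≠ ⊤ :=
    ((measure_mono (sdiff_subset.trans inter_subset_left)).trans_lt
      (Bx_cpt b c a3 a4 s3 s4).measure_lt_top).ne
  -- positivity
  have pA : ∀ x ∈ Ast b c a3 a4, 0 ≤ gJ (1 / 2) v k (co b c x) := by
    intro x hx
    refine gJ_nonneg hε hβ (Ast_X b c ha3 ha4 hx) ?_
    exact r_le ha3 ha4 hx.1 (s3 := 0) (s4 := 0)
      (by nlinarith [norm_nonneg (x - a3), hx.2.1]) (by nlinarith [norm_nonneg (x - a4), hx.2.2])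
      (by norm_num) (by norm_num)
  have pR : ∀ x ∈ Rg b c a3 a4 s3 s4, 0 ≤ gJ (1 / 2) v k (co b c x) := by
    intro x hx
    exact gJ_nonneg hε hβ hx.1.1.1 (r_le ha3 ha4 hx.1.2 hx.1.1.2.1 hx.1.1.2.2 hs3 hs4)
  have h1 := integral_inter_add_sdiff hm hKZ
  rw [← h1]
  have s1 : ∫ x in (K ∩ EC b c) ∩ Ast b c a3 a4, gJ (1 / 2) v k (co b c x) ≤
      ∫ x in Ast b c a3 a4, gE (1 / 2) k (co b c x) := by
    rw [← int_sym b c (Rr_Ast b c ha3 ha4) (v := v) (hA hE) (hA hO)]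
    apply setIntegral_mono_set (hA hJ)
    · filter_upwards [ae_restrict_mem hm] with x hx using pA x hx
    · exact LE.le.eventuallyLE inter_subset_right
  have s2 : ∫ x in (K ∩ EC b c) \ Ast b c a3 a4, gJ (1 / 2) v k (co b c x) ≤
      ∫ x in Rg b c a3 a4 s3 s4, gE (1 / 2) k (co b c x) := by
    rw [← int_sym b c (Rg_refl ha3 ha4 s3 s4) (v := v) (hR hE) (hR hO)]
    apply setIntegral_mono_set (hR hJ)
    · filter_upwards [ae_restrict_mem (Rg_meas b c a3 a4 s3 s4)] with x hx using pR x hx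
    · exact LE.le.eventuallyLE fun x hx => ⟨⟨hKB hx.1.1, hx.1.2⟩, hx.2⟩
  -- the lens
  have hdv := dvF_cont b c
  have s3' : ∫ x in Ast b c a3 a4, gE (1 / 2) k (co b c x) ≤
      ∫ x in Ast b c a3 a4, ((3.716 - 8 * kp) * dvF b c x + (41 * kp - 8.791)) := by
    apply setIntegral_mono_on (hA hE) (hA (by fun_prop)) hm
    intro x hx
    have hX2 := Ast_X b c ha3 ha4 hx
    obtain ⟨k1, k2⟩ := abs_le.1 hX2
    have hw := Helper78.MEI.EC_w b c hx.1
    have hx' : |(co b c x).2.1| < s * ((co b c x).2.2 - t) := hx.1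
    have hst := Helper78.MEI.star_r b c (p := x) ha3 ha4 (η := 0)
      (by nlinarith [norm_nonneg (x - a3), hx.2.1]) (by nlinarith [norm_nonneg (x - a4), hx.2.2])
    have hy : √2 * |(co b c x).2.1| ≤ (co b c x).2.2 - t := by
      have h9 := mul_le_mul_of_nonneg_left hx'.le (Real.sqrt_nonneg 2)
      have h8 : √2 * (s * ((co b c x).2.2 - t)) = (co b c x).2.2 - t := by
        have h7 : √2 * √2 = 2 := Real.mul_self_sqrt (by norm_num)
        unfold s
        linear_combination ((co b c x).2.2 - t) / 2 * h7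
      linarith
    have hA1 := A_lens hw.le hy (x := (co b c x).1) (by linarith)
    have hY1 := Y_lens (co b c x).1 (co b c x).2.1 ((co b c x).2.2 - t)
    have hN := NV_ge (x := (co b c x).1) (r_le ha3 ha4 hx.1 (s3 := 0) (s4 := 0)
      (by nlinarith [norm_nonneg (x - a3), hx.2.1]) (by nlinarith [norm_nonneg (x - a4), hx.2.2])
      (by norm_num) (by norm_num))
    have hD := DD_pos (co b c x).1 (co b c x).2.1 ((co b c x).2.2 - t)
    rw [gE_eq]
    have e7 : dvF b c x = divF (co b c x).1 (co b c x).2.1 ((co b c x).2.2 - t) := rfl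
    rw [e7]
    set Y := (co b c x).1 ^ 2 * (NV (co b c x).1 (co b c x).2.1 ((co b c x).2.2 - t) + 9 / 16 *
      DD (co b c x).1 (co b c x).2.1 ((co b c x).2.2 - t)) /
      DD (co b c x).1 (co b c x).2.1 ((co b c x).2.2 - t) ^ 3 with hYd
    have hY0 : 0 ≤ Y := by
      rw [hYd]
      apply div_nonneg (mul_nonneg (sq_nonneg _) (by linarith)) (by positivity)
    have h10 : k * Y ≤ kp * Y := mul_le_mul_of_nonneg_right (le_max_left _ _) hY0
    have h11 := mul_le_mul_of_nonneg_left hY1 kp0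
    linarith
  have s4' : ∫ x in Ast b c a3 a4, ((3.716 - 8 * kp) * dvF b c x + (41 * kp - 8.791)) =
      (3.716 - 8 * kp) * (∫ x in Ast b c a3 a4, dvF b c x) +
        (41 * kp - 8.791) * volume.real (Ast b c a3 a4) := by
    rw [integral_add ((hA hdv).const_mul _) (integrableOn_const hAf), integral_const_mul,
      setIntegral_const, smul_eq_mul]
    ring
  -- outer region
  have s5 : ∫ x in Rg b c a3 a4 s3 s4, gE (1 / 2) k (co b c x) ≤
      ∫ x in Rg b c a3 a4 s3 s4, (8.14 + 5.44 * kp : ℝ) := by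
    apply setIntegral_mono_on (hR hE) (integrableOn_const hd) (Rg_meas b c a3 a4 s3 s4)
    intro x hx
    obtain ⟨k1, k2⟩ := abs_le.1 hx.1.1.1
    have hA1 := A_out (x := (co b c x).1) (y := (co b c x).2.1) (w := (co b c x).2.2 - t)
      (by linarith [out_lens ha3 ha4 hx.1.2 hx.2])
    have hY1 := Y_all (x := (co b c x).1) (y := (co b c x).2.1) (w := (co b c x).2.2 - t)
      (by nlinarith)
    have hN := NV_ge (x := (co b c x).1)
      (r_le ha3 ha4 hx.1.2 hx.1.1.2.1 hx.1.1.2.2 hs3 hs4)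
    have hD := DD_pos (co b c x).1 (co b c x).2.1 ((co b c x).2.2 - t)
    rw [gE_eq]
    set Y := (co b c x).1 ^ 2 * (NV (co b c x).1 (co b c x).2.1 ((co b c x).2.2 - t) + 9 / 16 *
      DD (co b c x).1 (co b c x).2.1 ((co b c x).2.2 - t)) /
      DD (co b c x).1 (co b c x).2.1 ((co b c x).2.2 - t) ^ 3 with hYd
    have hY0 : 0 ≤ Y := by
      rw [hYd]
      apply div_nonneg (mul_nonneg (sq_nonneg _) (by linarith)) (by positivity)
    have h10 : k * Y ≤ kp * Y := mul_le_mul_of_nonneg_right (le_max_left _ _) hY0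
    have h11 := mul_le_mul_of_nonneg_left hY1 kp0
    linarith
  have s6 : ∫ x in Rg b c a3 a4 s3 s4, (8.14 + 5.44 * kp : ℝ) =
      (8.14 + 5.44 * kp) * volume.real (Rg b c a3 a4 s3 s4) := by
    rw [setIntegral_const, smul_eq_mul, mul_comm]
  linarith

/-- pointwise bound -/
theorem wD_le3 {z : E3 × E3} (hX : |(co b c z.1).1| ≤ 1 / 2) (hz : ‖z.1 - z.2‖ = 1)
    (ha1 : co b c a1 = (1 / 2, 0, t)) (ha2 : co b c a2 = (-(1 / 2), 0, t))
    (h1 : ‖z.2 - a1‖ ^ 2 - 1 ≤ s1) (h2 : ‖z.2 - a2‖ ^ 2 - 1 ≤ s2) (p1 : 0 ≤ s1) (p2 : 0 ≤ s2)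
    (hm : 0 < 1 - 2 * (s1 + s2))
    (hc : 49 * (s1 - s2) ^ 2 + 7 * |s1 - s2| ≤ 16 * (s1 + s2) * (1 - 2 * (s1 + s2)))
    {ε β : ℝ} (hε : ε ^ 2 = 1) (hβ : β * (1 - 2 * (s1 + s2)) = 7 / 4 * (s1 - s2))
    (hβ1 : |β| ≤ 11 / 20) :
    (1 - 2 * (s1 + s2)) * wD b c ε z.1 ≤
      ⟪fld b c (Ja (1 / 2) (β / 2 + ε * (7 / 16)) (ε * (7 / 16) * β))
        (Jb (1 / 2) (β / 2 + ε * (7 / 16)) (ε * (7 / 16) * β))
        (Jc (1 / 2) (β / 2 + ε * (7 / 16)) (ε * (7 / 16) * β)) z.1, z.1 - z.2⟫ := by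
  rw [fld_J, inner_smul_left, Helper78.MEI.edge_id b c hz ha1 ha2]
  obtain ⟨k1, k2⟩ := abs_le.1 hX
  have hDpos := FD_pos (co b c z.1)
  have hDe : FD (co b c z.1) = 1 / 4 + (co b c z.1).1 ^ 2 / 8 +
      ((co b c z.1).2.1 ^ 2 + ((co b c z.1).2.2 - t) ^ 2) := rfl
  set X := (co b c z.1).1 with hXd
  set D := FD (co b c z.1) with hDd
  set e1 := 1 - ‖z.2 - a1‖ ^ 2 with he1
  set e2 := 1 - ‖z.2 - a2‖ ^ 2 with he2
  set m := 1 - 2 * (s1 + s2) with hmd
  set w := 1 / 2 + ε * (7 / 16) * X with hw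
  have hεX : |ε * X| ≤ 1 / 2 := by
    rw [abs_mul]
    have : |ε| = 1 := abs_one_of_sq hε
    rw [this, one_mul]
    exact hX
  obtain ⟨m1, m2⟩ := abs_le.1 hεX
  have hw0 : 0 ≤ w := by rw [hw]; nlinarith
  have eP : (starRingEnd ℝ) (PuF (1 / 2) (β / 2 + ε * (7 / 16)) (ε * (7 / 16) * β) X / D) =
      (1 + β * X) * w / D := by
    rw [conj_trivial, hw]
    unfold PuF
    ring
  rw [eP]
  have e5 : wD b c ε z.1 = w / (4 * D) := rfl
  rw [e5]
  have hβX : 29 / 40 ≤ 1 + β * X := by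
    have h3 := neg_abs_le (β * X)
    rw [abs_mul] at h3
    have h4 := mul_le_mul hβ1 hX (abs_nonneg X) (by norm_num)
    linarith
  have g1 : (1 / 2 + 7 / 16 * X) * (-s1) ≤ (1 / 2 + 7 / 16 * X) * e1 :=
    mul_le_mul_of_nonneg_left (by linarith) (by linarith)
  have g2 : (1 / 2 - 7 / 16 * X) * (-s2) ≤ (1 / 2 - 7 / 16 * X) * e2 :=
    mul_le_mul_of_nonneg_left (by linarith) (by linarith)
  have g3 : 1 / 4 + X ^ 2 / 8 ≤ D := by
    rw [hDe]
    nlinarith [sq_nonneg (co b c z.1).2.1, sq_nonneg ((co b c z.1).2.2 - t)]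
  have g4 : 0 ≤ (1 / 2 + 7 / 16 * X) * s1 + (1 / 2 - 7 / 16 * X) * s2 :=
    add_nonneg (mul_nonneg (by linarith) p1) (mul_nonneg (by linarith) p2)
  -- the one variable inequality
  have key : m * (1 / 4 + X ^ 2 / 8) ≤ (1 + β * X) * (1 / 4 + X ^ 2 / 8 -
      ((1 / 2 + 7 / 16 * X) * s1 + (1 / 2 - 7 / 16 * X) * s2)) := by
    have h5 : m * ((1 + β * X) * (1 / 4 + X ^ 2 / 8 -
        ((1 / 2 + 7 / 16 * X) * s1 + (1 / 2 - 7 / 16 * X) * s2)) - m * (1 / 4 + X ^ 2 / 8)) =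
        X ^ 2 / 64 * (16 * (s1 + s2) * m + 14 * (s1 - s2) * X - 49 * (s1 - s2) ^ 2) := by
      have h6 : s1 + s2 = (1 - m) / 2 := by rw [hmd]; ring
      have h7 : (1 / 2 + 7 / 16 * X) * s1 + (1 / 2 - 7 / 16 * X) * s2 =
          (s1 + s2) / 2 + 7 / 16 * X * (s1 - s2) := by ring
      rw [h7, h6]
      linear_combination (X * (1 / 4 + X ^ 2 / 8 - ((1 - m) / 2 / 2 +
        7 / 16 * X * (s1 - s2)))) * hβ
    have h8 : 0 ≤ 16 * (s1 + s2) * m + 14 * (s1 - s2) * X - 49 * (s1 - s2) ^ 2 := by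
      have h9 : -(|s1 - s2| * (1 / 2)) ≤ (s1 - s2) * X := by
        have h10 := neg_abs_le ((s1 - s2) * X)
        rw [abs_mul] at h10
        have h11 := mul_le_mul_of_nonneg_left hX (abs_nonneg (s1 - s2))
        linarith
      linarith
    have h12 : 0 ≤ X ^ 2 / 64 * (16 * (s1 + s2) * m + 14 * (s1 - s2) * X - 49 * (s1 - s2) ^ 2) :=
      mul_nonneg (by positivity) h8
    rw [← h5] at h12
    have h13 := nonneg_of_mul_nonneg_right h12 hm
    linarith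
  have key2 : m * D ≤ (1 + β * X) * (D + ((1 / 2 + 7 / 16 * X) * e1 + (1 / 2 - 7 / 16 * X) * e2)) := by
    have h14 : 0 ≤ (1 + β * X - m) * (D - (1 / 4 + X ^ 2 / 8)) ∨ 1 + β * X < m := by
      rcases le_or_gt m (1 + β * X) with h | h
      · left; exact mul_nonneg (by linarith) (by linarith)
      · right; exact h
    have h15 := mul_le_mul_of_nonneg_left (by linarith : -((1 / 2 + 7 / 16 * X) * s1 +
      (1 / 2 - 7 / 16 * X) * s2) ≤ (1 / 2 + 7 / 16 * X) * e1 + (1 / 2 - 7 / 16 * X) * e2)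
      (by linarith : 0 ≤ 1 + β * X)
    rcases h14 with h | h
    · nlinarith
    · exfalso
      have h16 : (1 + β * X) * (1 / 4 + X ^ 2 / 8 -
        ((1 / 2 + 7 / 16 * X) * s1 + (1 / 2 - 7 / 16 * X) * s2)) ≤
          (1 + β * X) * (1 / 4 + X ^ 2 / 8) := mul_le_mul_of_nonneg_left (by linarith)
            (by linarith)
      have h17 : (1 + β * X) * (1 / 4 + X ^ 2 / 8) < m * (1 / 4 + X ^ 2 / 8) :=
        mul_lt_mul_of_pos_right h (by positivity)
      linarith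
  have e6 : (1 + β * X) * w / D * (1 / 4 + ((1 / 2 + 7 / 16 * X) * e1 +
      (1 / 2 - 7 / 16 * X) * e2) / (4 * D)) = w / (4 * D ^ 2) *
      ((1 + β * X) * (D + ((1 / 2 + 7 / 16 * X) * e1 + (1 / 2 - 7 / 16 * X) * e2))) := by
    field_simp
  have e7 : m * (w / (4 * D)) = w / (4 * D ^ 2) * (m * D) := by
    field_simp
  rw [e6, e7]
  exact mul_le_mul_of_nonneg_left key2 (by positivity)

/-- **MASS LEMMA** with the field `(1 + β x) w F / D` -/
theorem mass3 [IsFiniteMeasure σ] (hK : IsCompact K)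
    (hpr : ∀ᵐ z ∂σ, z.1 ∈ K ∧ z.2 ∈ K ∧ ‖z.1 - z.2‖ = 1)
    (hU : ∀ G : E3 → E3, ContDiff ℝ ∞ G → ∫ z, ⟪G z.1, z.1 - z.2⟫ ∂σ = ∫ x in K, dvg G x)
    (hX : ∀ x ∈ K, |(co b c x).1| ≤ 1 / 2)
    (ha1 : co b c a1 = (1 / 2, 0, t)) (ha2 : co b c a2 = (-(1 / 2), 0, t))
    (ha3 : co b c a3 = (0, 1 / 2, -t)) (ha4 : co b c a4 = (0, -(1 / 2), -t))
    (h1 : ∀ x ∈ K, ‖x - a1‖ ^ 2 - 1 ≤ s1) (h2 : ∀ x ∈ K, ‖x - a2‖ ^ 2 - 1 ≤ s2)
    (h3 : ∀ x ∈ K, ‖x - a3‖ ^ 2 - 1 ≤ s3) (h4 : ∀ x ∈ K, ‖x - a4‖ ^ 2 - 1 ≤ s4)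
    (p1 : 0 ≤ s1) (p2 : 0 ≤ s2) (hs3 : s3 ≤ 1 / 5) (hs4 : s4 ≤ 1 / 5)
    (hm : 0 < 1 - 2 * (s1 + s2))
    (hc : 49 * (s1 - s2) ^ 2 + 7 * |s1 - s2| ≤ 16 * (s1 + s2) * (1 - 2 * (s1 + s2)))
    {ε β : ℝ} (hε : ε ^ 2 = 1) (hβ : β * (1 - 2 * (s1 + s2)) = 7 / 4 * (s1 - s2))
    (hβ1 : |β| ≤ 11 / 20) :
    (1 - 2 * (s1 + s2)) * (∫ z in {z : E3 × E3 | z.1 ∈ EC b c}, wD b c ε z.1 ∂σ) ≤
      3.716 * (∫ x in Ast b c a3 a4, dvF b c x) - 8.791 * volume.real (Ast b c a3 a4) +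
        max (ε * (7 / 16) * β) 0 * (41 * volume.real (Ast b c a3 a4) -
          8 * ∫ x in Ast b c a3 a4, dvF b c x) +
        (8.14 + 5.44 * max (ε * (7 / 16) * β) 0) * volume.real (Rg b c a3 a4 s3 s4) := by
  set k := ε * (7 / 16) * β with hk
  set v := β / 2 + ε * (7 / 16) with hv
  have hσ : ∀ᵐ z ∂σ, z.1 ∈ K ∧ z.2 ∈ K := by
    filter_upwards [hpr] with z hz using ⟨hz.1, hz.2.1⟩
  have hfl := EC_flux (b := b) (c := c) hK hσ hU
    (ψ := fun q => PuF (1 / 2) v k q.1 * (1 / 2 / FD q / FD q)) (Ja_cd (1 / 2) v k)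
    (Jb_cd (1 / 2) v k) (Jc_cd (1 / 2) v k)
    (fun q => by unfold Jb Fb; ring) (fun q => by unfold Jc Fc; ring)
  have e1 : ∫ x in K ∩ EC b c, dvg (fld b c (Ja (1 / 2) v k) (Jb (1 / 2) v k)
      (Jc (1 / 2) v k)) x = ∫ x in K ∩ EC b c, gJ (1 / 2) v k (co b c x) := by
    apply setIntegral_congr_fun (hK.measurableSet.inter (EC_open b c).measurableSet)
    intro x _
    exact dvg_J b c (1 / 2) v k x
  rw [e1] at hfl
  have h5 := vol_side_3 (b := b) (c := c) hK hX ha3 ha4 h3 h4 hs3 hs4 hε hβ1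
  rw [← hk, ← hv, ← hfl] at h5
  refine le_trans ?_ h5
  rw [← integral_const_mul]
  have i1 : Integrable (fun z : E3 × E3 => (1 - 2 * (s1 + s2)) * wD b c ε z.1) σ := by
    apply cont_int hK hσ
    have := wD_cont (b := b) (c := c) ε
    fun_prop
  have i2 : Integrable (fun z : E3 × E3 =>
      ⟪fld b c (Ja (1 / 2) v k) (Jb (1 / 2) v k) (Jc (1 / 2) v k) z.1, z.1 - z.2⟫) σ := by
    apply cont_int hK hσ
    have : Continuous (fld b c (Ja (1 / 2) v k) (Jb (1 / 2) v k) (Jc (1 / 2) v k)) :=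
      (Helper22.Sig.fld_cd b c (n := ∞) (Ja_cd _ _ _) (Jb_cd _ _ _) (Jc_cd _ _ _)).continuous
    fun_prop
  apply integral_mono_ae i1.integrableOn i2.integrableOn
  filter_upwards [ae_restrict_of_ae hpr] with z hz
  exact wD_le3 (hX _ hz.1) hz.2.2 ha1 ha2 (h1 _ hz.2.1) (h2 _ hz.2.1) p1 p2 hm hc hε hβ hβ1

end

end Helper53.MEI
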