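import Pool.Agent.Helper53.MEI.Mom6
import Pool.Agent.Helper41.MEI.ArcT

/-!
# Project MEI (M2): plain fluxes through an edge cell

Weight `nn (± 1)` (no denominator): the flux of the axial vector (rows F1) and the flux of
`x e_x` (row F2) of the mass bound.
-/

namespace Helper53.MEI.MG

open Set MeasureTheory Filter Topology Metric
open Helper80.CW Helper22.Wedge Helper22.Sig Helper14.CW Helper14.MEI2 Helper93.MEI
open Helper22.MEI (s t FD FD_pos)
open Helper21.Sec Helper21.Mom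
open Pool.Agent.Helper95.MEI.Fub (Zp int_cont Zp_meas)
open Pool.Agent.Helper73.MEI
open Pool.Agent.Helper95.MEI.Cst (AsE As cs sh vol_AsE vAs vAs_bd vAs_nonneg AsE_meas)
open Helper53.MEI
open scoped RealInnerProductSpace ContDiff Real

/-- **upper plain wall integral** -/
noncomputable def JPu (φ : ℝ → ℝ) (s' : ℝ) : ℝ :=
  ∫ x in (-(1 / 2) : ℝ)..(1 / 2), φ x * (W0 x + √2 / 3 * min (s' * rr x) (gg x))

section
variable {φ : ℝ → ℝ} (cφ : Continuous φ) (hφ : ∀ X : ℝ, |X| ≤ 1 / 2 → 0 ≤ φ X ∧ φ X ≤ 1)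

include cφ hφ in
theorem WupP_int {s' u : ℝ} (hs : 0 ≤ s') (hu : 0 ≤ u) :
    ∫ r in Wup2 (s' + 2 * u) u, φ r.1 ≤ JPu φ s' + √2 * u := by
  have he : 0 ≤ s' + 2 * u := by positivity
  have hH : Continuous (fun r : ℝ × ℝ => φ r.1) := cφ.comp continuous_fst
  obtain ⟨hi, hint⟩ := int_reg (f := fun _ => (0 : ℝ)) (g := VV (s' + 2 * u) u)
    (s := Icc (-(1 / 2)) (1 / 2)) continuous_const (VV_cont _ _)
    measurableSet_Icc hH (Wup2_bdd _ hu)
  have hW : Wup2 (s' + 2 * u) u = regionBetween (fun _ => (0 : ℝ)) (VV (s' + 2 * u) u)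
    (Icc (-(1 / 2)) (1 / 2)) := rfl
  rw [hW, hint]
  have cr := rr_cont
  have cg := gg_cont
  have cW := W0_cont
  have c1 : Continuous fun x : ℝ => φ x * (W0 x + √2 / 3 * min (s' * rr x) (gg x)) := by
    fun_prop
  have h2 : ∫ x in Icc (-(1 / 2) : ℝ) (1 / 2), ∫ y in Ioo 0 (VV (s' + 2 * u) u x),
      φ (x, y).1 ≤ ∫ x in Icc (-(1 / 2) : ℝ) (1 / 2),
      (φ x * (W0 x + √2 / 3 * min (s' * rr x) (gg x)) + √2 * u) := by
    refine setIntegral_mono_on hi
      ((c1.add continuous_const).continuousOn.integrableOn_compact isCompact_Icc)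
      measurableSet_Icc fun x hx => ?_
    have hX : |x| ≤ 1 / 2 := abs_le.2 hx
    simp only
    rw [setIntegral_const, Real.volume_real_Ioo, smul_eq_mul]
    obtain ⟨v0, v1⟩ := VV_bd he hu hX
    obtain ⟨y, hy, hy0, -⟩ := y0_bd2 hX
    have hW0 : 0 ≤ W0 x := by rw [hy]; positivity
    obtain ⟨n0, n1⟩ := hφ x hX
    obtain ⟨r0, r1⟩ := rr_bd hX
    have hmin : min ((s' + 2 * u) * rr x) (gg x + u) ≤ min (s' * rr x) (gg x) + 3 * u := by
      rw [← min_add_add_right]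
      refine min_le_min ?_ (by linarith)
      have := mul_le_mul_of_nonneg_left r1 (show 0 ≤ 2 * u by linarith)
      linarith
    have h3 : max (VV (s' + 2 * u) u x - 0) 0 ≤
        W0 x + √2 / 3 * min (s' * rr x) (gg x) + √2 * u := by
      rw [sub_zero, max_eq_left (hW0.trans v0)]
      have h4 := mul_le_mul_of_nonneg_left hmin (show 0 ≤ √2 / 3 by positivity)
      linarith
    have h5 := mul_le_mul_of_nonneg_right h3 n0
    have h6 : √2 * u * φ x ≤ √2 * u * 1 := mul_le_mul_of_nonneg_left n1 (by positivity)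
    linarith
  refine h2.trans (le_of_eq ?_)
  rw [integral_Icc_eq_integral_Ioc, ← intervalIntegral.integral_of_le (by norm_num)]
  rw [intervalIntegral.integral_add (c1.intervalIntegrable _ _) (by simp),
    intervalIntegral.integral_const]
  unfold JPu
  simp only [smul_eq_mul]
  ring

end

/-- plain wall integral -/
noncomputable def JP (b : OrthonormalBasis (Fin 3) ℝ E3) (c : E3) (φ : ℝ → ℝ) (K : Set E3)
    (ε : ℝ) (m : ℕ) : ℝ := ∫ p in Tw b c ε '' K, φ p.1.1 * jk (m + 1) p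

section
variable {b : OrthonormalBasis (Fin 3) ℝ E3} {c : E3} {φ : ℝ → ℝ} (cφ : Continuous φ)
  (hφ : ∀ X : ℝ, |X| ≤ 1 / 2 → 0 ≤ φ X ∧ φ X ≤ 1) {K : Set E3} (hK : IsCompact K)
  {s1 s2 s3 s4 : ℝ} (h : Bod b c K s1 s2 s3 s4)

include cφ hφ hK h in
theorem JP_up {s' : ℝ} (hs' : 0 ≤ s')
    (hSl : ∀ x ∈ K, |(co b c x).1| + |(co b c x).2.1| + √2 * ((co b c x).2.2 - √2 / 4) ≤ 1 / 2)
    {ε : ℝ} (hε : ε = 1 ∧ s4 ≤ s' ∨ ε = -1 ∧ s3 ≤ s') (m : ℕ) :
    JP b c φ K ε m ≤ JPu φ s' + √2 * (1 / ((m : ℝ) + 1)) := by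
  have hM : (0 : ℝ) < m + 1 := by positivity
  have hu : (0 : ℝ) ≤ 1 / ((m : ℝ) + 1) := by positivity
  refine le_trans ?_ (WupP_int cφ hφ hs' hu)
  unfold JP
  refine wall_upper_w hM (hK.image (Tw_cont b c ε)) (Wup2_meas _ _) (Wup2_bdd _ hu)
    (g := fun p => φ p.1.1) (H := fun r => φ r.1)
    (cφ.comp (continuous_fst.comp continuous_fst)) (cφ.comp continuous_fst)
    (fun r hr => (hφ _ (abs_le.2 hr.1)).1) ?_
  rintro ⟨X, W⟩ l ⟨hl0, hl1⟩ ⟨x, hxK, hx⟩ hlW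
  have h2 := r2
  simp only at hlW
  have hεε : ε * ε = 1 := by rcases hε with h | h <;> rw [h.1] <;> norm_num
  have hεa : |ε| = 1 := by rcases hε with h | h <;> rw [h.1] <;> simp
  have e1 : (co b c x).1 = X := congrArg (fun q : (ℝ × ℝ) × ℝ => q.1.1) hx
  have e2 : (co b c x).2.2 - √2 / 4 = W := congrArg (fun q : (ℝ × ℝ) × ℝ => q.1.2) hx
  have e3 : √2 / 2 * ((co b c x).2.2 - √2 / 4) - ε * (co b c x).2.1 = l :=
    congrArg (fun q : (ℝ × ℝ) × ℝ => q.2) hx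
  rw [e2] at e3
  have hX := h.X_le x hxK
  have hW := h.W_le x hxK
  have hSx := hSl x hxK
  have hQ : (co b c x).1 ^ 2 + (co b c x).2.1 ^ 2 + ((co b c x).2.2 - √2 / 4) ^ 2
    + ε * (co b c x).2.1 + √2 * ((co b c x).2.2 - √2 / 4) - 1 / 4 ≤ s' := by
    rcases hε with ⟨h3, h4⟩ | ⟨h3, h4⟩
    · have := h.Q4 x hxK
      rw [h3]; linarith
    · have := h.Q3 x hxK
      rw [h3]; linarith
  rw [e1] at hX hQ hSx
  rw [e2] at hW hQ hSx
  set Y := (co b c x).2.1 with hY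
  have hYl : ε * Y = √2 / 2 * W - l := by linarith
  have hYa : √2 / 2 * W - l ≤ |Y| := by
    have h5 := le_abs_self (ε * Y)
    rw [abs_mul, hεa, one_mul, hYl] at h5
    exact h5
  have hY2 : Y ^ 2 = (√2 / 2 * W - l) ^ 2 := by
    rw [← hYl]; linear_combination -(Y ^ 2) * hεε
  rw [hY2, hYl] at hQ
  have hlM : l * (1 + √2 * W) ≤ 3 / 2 * l := by
    have : l * (1 + √2 * W) ≤ l * (1 + 1 / 2) := mul_le_mul_of_nonneg_left (by linarith) hl0.le
    linarith
  have hqw : qw X W ≤ 1 / 4 + (s' + 3 / 2 * (1 / ((m : ℝ) + 1))) := by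
    have h5 : qw X W = (X ^ 2 + (√2 / 2 * W - l) ^ 2 + W ^ 2 + (√2 / 2 * W - l) + √2 * W - 1 / 4)
        + 1 / 4 + l * (1 + √2 * W) - l ^ 2 := by
      unfold qw
      linear_combination -(W ^ 2) / 4 * h2
    have h6 : 0 ≤ l ^ 2 := sq_nonneg l
    have h7 : 3 / 2 * l ≤ 3 / 2 * (1 / ((m : ℝ) + 1)) := by linarith
    linarith
  have hpos : (0 : ℝ) < 1 / ((m : ℝ) + 1) := by positivity
  have hup := up_in2 (e' := s' + 2 * (1 / ((m : ℝ) + 1))) hX (by positivity)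
    (by linarith) hqw
  have hW0 : 0 < W := by
    by_contra hcon
    rw [not_lt] at hcon
    have : √2 * W ≤ 0 := mul_nonpos_of_nonneg_of_nonpos (by positivity) hcon
    linarith
  have hup2 : W < √2 / 3 * (1 / 2 - |X| + 1 / ((m : ℝ) + 1)) := by
    have h8 : 3 * (√2 / 2) * W < 1 / 2 - |X| + 1 / ((m : ℝ) + 1) := by linarith
    have h9 := mul_lt_mul_of_pos_left h8 (show 0 < √2 / 3 by positivity)
    have e4 : √2 / 3 * (3 * (√2 / 2) * W) = W := by linear_combination W / 2 * h2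
    rwa [e4] at h9
  refine ⟨?_, le_rfl⟩
  unfold Wup2 regionBetween VV
  simp only [mem_ofPred_eq, mem_Ioo]
  exact ⟨abs_le.1 hX, hW0, lt_min hup hup2⟩

end

/-! ### the two fluxes -/

section
variable (b : OrthonormalBasis (Fin 3) ℝ E3) (c : E3)

/-- derivative of a function of the first coordinate -/
theorem fd_fX {f : ℝ → ℝ} {f' : ℝ} (x v : E3) (hf : HasDerivAt f f' (co b c x).1) :
    fderiv ℝ (fun y => f (co b c y).1) x v = f' * ⟪b 0, v⟫ := by
  have e : (fun y : E3 => (co b c y).1) = fun y => ⟪b 0, y⟫ - ⟪b 0, c⟫ := by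
    funext y
    show ⟪b 0, y - c⟫ = _
    rw [inner_sub_right]
  have h : HasFDerivAt (fun y : E3 => (co b c y).1) (innerSL ℝ (b 0)) x := by
    rw [e]
    exact ((innerSL ℝ (b 0)).hasFDerivAt).sub_const _
  have h2 := hf.comp_hasFDerivAt x h
  have h3 : (fun y => f (co b c y).1) = f ∘ fun y => (co b c y).1 := rfl
  rw [h3, h2.fderiv]
  rfl

variable {b c} {σ : Measure (E3 × E3)}
  [IsFiniteMeasure σ] {K : Set E3} (hK : IsCompact K)
  (hσ : ∀ᵐ z ∂σ, z.1 ∈ K ∧ z.2 ∈ K)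
  (hU : ∀ G : E3 → E3, ContDiff ℝ ∞ G → ∫ z, ⟪G z.1, z.1 - z.2⟫ ∂σ = ∫ x in K, dvg G x)
  {s1 s2 s3 s4 : ℝ} (h : Bod b c K s1 s2 s3 s4)
  (hSl : ∀ x ∈ K, |(co b c x).1| + |(co b c x).2.1| + √2 * ((co b c x).2.2 - √2 / 4) ≤ 1 / 2)

include hK hσ hU h hSl in
/-- **F1: flux of the axial vector** -/
theorem fluxW {η : ℝ} (hη : |η| ≤ 1) (hs3 : 0 ≤ s3) (hs4 : 0 ≤ s4) :
    ∫ z in {z : E3 × E3 | z.1 ∈ EC b c}, nn η (co b c z.1).1 * ⟪b 2, z.1 - z.2⟫ ∂σ ≤
      √2 / 2 * (JPu (nn η) s3 + JPu (nn η) s4) := by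
  have sφ : ContDiff ℝ ∞ (nn η) := by unfold nn; fun_prop
  have hg : ContDiff ℝ ∞ (fun y => nn η (co b c y).1) :=
    sφ.comp (contDiff_fst.comp (co_cdn b c))
  have hl := fluxg_lim b c hK hσ hU hg (b 2)
  rw [cel_eq] at hl
  obtain ⟨⟨i00, i01, i02⟩, ⟨i10, i11, i12⟩, ⟨i20, i21, i22⟩⟩ := ibv b
  have hd : ∀ x : E3, fderiv ℝ (fun y => nn η (co b c y).1) x (b 2) = 0 := by
    intro x
    rw [fd_fX b c x (b 2) ((sφ.differentiable (by simp)) _).hasDerivAt, i02, mul_zero]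
  have hJ : ∀ (ε : ℝ) (m : ℕ), (ε = 1 ∨ ε = -1) →
      ∫ x in K, nn η (co b c x).1 * jk (m + 1) (Tw b c ε x) = JP b c (nn η) K ε m := by
    intro ε m hε
    unfold JP
    rw [← int_Tw b c hε K (fun p => nn η p.1.1 * jk (m + 1) p)]
    rfl
  have n0 : ⟪nuw b 0, b 2⟫ = √2 / 2 := by
    show ⟪(√2 / 2) • b 2 - b 1, b 2⟫ = _
    rw [inner_sub_left, real_inner_smul_left, i22, i12]; ring
  have n1 : ⟪nuw b 1, b 2⟫ = √2 / 2 := by
    show ⟪(√2 / 2) • b 2 + b 1, b 2⟫ = _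
    rw [inner_add_left, real_inner_smul_left, i22, i12]; ring
  simp only [hd, integral_zero, sub_zero, n0, n1] at hl
  have h1 := lim_inv
  have hlim : Tendsto (fun m : ℕ => √2 / 2 * (JPu (nn η) s4 + √2 * (1 / ((m : ℝ) + 1))) +
      √2 / 2 * (JPu (nn η) s3 + √2 * (1 / ((m : ℝ) + 1)))) atTop
      (𝓝 (√2 / 2 * (JPu (nn η) s3 + JPu (nn η) s4))) := by
    have hc : Continuous (fun u : ℝ => √2 / 2 * (JPu (nn η) s4 + √2 * u) +
      √2 / 2 * (JPu (nn η) s3 + √2 * u)) := by fun_prop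
    have h2 := (hc.tendsto 0).comp h1
    refine h2.congr' ?_ |>.trans (le_of_eq ?_)
    · exact Eventually.of_forall fun m => rfl
    · congr 1
      ring
  refine le_of_tendsto_of_tendsto' hl hlim fun m => ?_
  rw [hJ 1 m (Or.inl rfl), hJ (-1) m (Or.inr rfl)]
  have hφ : ∀ X : ℝ, |X| ≤ 1 / 2 → 0 ≤ nn η X ∧ nn η X ≤ 1 := fun X hX =>
    ⟨(nn_bd hη hX).1, (nn_bd hη hX).2.trans (by norm_num)⟩
  have k1 := JP_up sφ.continuous hφ hK h hs4 hSl (Or.inl ⟨rfl, le_rfl⟩) m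
  have k2 := JP_up sφ.continuous hφ hK h hs3 hSl (Or.inr ⟨rfl, le_rfl⟩) m
  have hs : (0 : ℝ) ≤ √2 / 2 := by positivity
  have k3 := mul_le_mul_of_nonneg_left k1 hs
  have k4 := mul_le_mul_of_nonneg_left k2 hs
  linarith

include hK hσ hU in
/-- **F2: flux of `x e_x`** -/
theorem fluxXn (η : ℝ) :
    ∫ z in {z : E3 × E3 | z.1 ∈ EC b c}, ((co b c z.1).1 * nn η (co b c z.1).1) *
      ⟪b 0, z.1 - z.2⟫ ∂σ =
      ∫ x in K ∩ EC b c, (1 / 2 + η * (7 / 8) * (co b c x).1) := by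
  have sφ : ContDiff ℝ ∞ (fun x : ℝ => x * nn η x) := by unfold nn; fun_prop
  have hg : ContDiff ℝ ∞ (fun y => (co b c y).1 * nn η (co b c y).1) :=
    sφ.comp (contDiff_fst.comp (co_cdn b c))
  have hl := fluxg_lim b c hK hσ hU hg (b 0)
  rw [cel_eq, Helper41.ArcT.nuw_b0, Helper41.ArcT.nuw_b0] at hl
  obtain ⟨⟨i00, i01, i02⟩, ⟨i10, i11, i12⟩, ⟨i20, i21, i22⟩⟩ := ibv b
  have hd : ∀ x : E3, fderiv ℝ (fun y => (co b c y).1 * nn η (co b c y).1) x (b 0) =
      1 / 2 + η * (7 / 8) * (co b c x).1 := by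
    intro x
    have h1 : HasDerivAt (fun x : ℝ => x * nn η x) (1 / 2 + η * (7 / 8) * (co b c x).1)
        (co b c x).1 := by
      have h2 : HasDerivAt (nn η) (η * (7 / 16)) (co b c x).1 := by
        unfold nn
        have h3 := ((hasDerivAt_id (co b c x).1).const_mul (η * (7 / 16))).const_add (1 / 2)
        rw [mul_one] at h3
        exact h3
      refine ((hasDerivAt_id (co b c x).1).mul h2).congr_deriv ?_
      unfold nn
      simp only [id]
      ring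
    rw [fd_fX b c x (b 0) h1, i00, mul_one]
  simp only [zero_mul, add_zero, hd] at hl
  have h1 := tendsto_nhds_unique hl tendsto_const_nhds
  linarith

end

/-! ### numbers -/

theorem int_rr : ∫ x in (0 : ℝ)..(1 / 2), rr x = 273221 / 600000 := by
  have hd : ∀ x ∈ uIcc (0 : ℝ) (1 / 2), HasDerivAt (fun x : ℝ =>
      0.87075625 * x ^ 1 + (0.42395 / 3) * x ^ 3 + (0.3721 / 5) * x ^ 5) (rr x) x := by
    intro x _
    have k := ((hpow 0 0.87075625 x).add (hpow 2 (0.42395 / 3) x)).add (hpow 4 (0.3721 / 5) x)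
    refine k.congr_deriv ?_
    unfold rr
    push_cast
    ring
  rw [intervalIntegral.integral_eq_sub_of_hasDerivAt hd
    (rr_cont.intervalIntegrable _ _)]
  norm_num

theorem rr_low {X : ℝ} (hX : |X| ≤ 1 / 2) (hX2 : 1 / 5 ≤ |X|) : 0.888 ≤ rr X := by
  obtain ⟨h0, h1⟩ := h_bd hX
  have h2 : 1 / 4 - X ^ 2 ≤ 0.21 := by
    have := sq_abs X
    nlinarith
  unfold rr
  nlinarith

/-- quality of the slab family -/
noncomputable def qI (s' τ : ℝ) : ℝ :=
  s' * (273221 / 600000 - 0.888 * τ) + (4 / 9 * τ ^ 3 - 0.2116 * τ ^ 4 + 0.1747 * τ ^ 5)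

theorem int_min {e τ : ℝ} (he : 0 ≤ e) (h0 : 0 ≤ τ) (h1 : τ ≤ 3 / 10) :
    ∫ x in (0 : ℝ)..(1 / 2), min (e * rr x) (gg x) ≤ qI e τ := by
  have cr := rr_cont
  have cg := gg_cont
  have hc : Continuous fun x => min (e * rr x) (gg x) := by fun_prop
  have hc2 : Continuous fun x => e * rr x := by fun_prop
  rw [← intervalIntegral.integral_add_adjacent_intervals (b := 1 / 2 - τ)
    (hc.intervalIntegrable _ _) (hc.intervalIntegrable _ _)]
  have p1 : ∫ x in (0 : ℝ)..(1 / 2 - τ), min (e * rr x) (gg x) ≤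
      e * ∫ x in (0 : ℝ)..(1 / 2 - τ), rr x := by
    rw [← intervalIntegral.integral_const_mul]
    exact intervalIntegral.integral_mono_on (by linarith) (hc.intervalIntegrable _ _)
      (hc2.intervalIntegrable _ _) fun x hx => min_le_left _ _
  have p2 : ∫ x in (0 : ℝ)..(1 / 2 - τ), rr x ≤ 273221 / 600000 - 0.888 * τ := by
    have h2 := intervalIntegral.integral_add_adjacent_intervals (μ := volume)
      (f := rr) (a := 0) (b := 1 / 2 - τ) (c := 1 / 2)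
      (cr.intervalIntegrable _ _) (cr.intervalIntegrable _ _)
    rw [int_rr] at h2
    have h3 : ∫ x in (1 / 2 - τ : ℝ)..(1 / 2), (0.888 : ℝ) ≤
        ∫ x in (1 / 2 - τ : ℝ)..(1 / 2), rr x := by
      refine intervalIntegral.integral_mono_on (by linarith) intervalIntegrable_const
        (cr.intervalIntegrable _ _) fun x hx => ?_
      have h4 : 0 ≤ x := by linarith [hx.1]
      exact rr_low (abs_le.2 ⟨by linarith [hx.1], hx.2⟩) (by rw [abs_of_nonneg h4]; linarith [hx.1])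
    rw [intervalIntegral.integral_const] at h3
    simp only [smul_eq_mul] at h3
    linarith
  have p3 : ∫ x in (1 / 2 - τ : ℝ)..(1 / 2), min (e * rr x) (gg x) ≤
      4 / 9 * τ ^ 3 - 0.2116 * τ ^ 4 + 0.1747 * τ ^ 5 := by
    refine le_trans ?_ (int_gap h0 h1)
    have hc3 : Continuous fun x : ℝ => ((1 / 2 - x) ^ 2 + 1 / 3 * (1 / 4 - x ^ 2) ^ 2 -
      0.18 * (1 / 4 - x ^ 2) ^ 3) := by fun_prop
    refine intervalIntegral.integral_mono_on (by linarith) (hc.intervalIntegrable _ _)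
      (hc3.intervalIntegrable _ _) fun x hx => ?_
    have h4 : 0 ≤ x := by linarith [hx.1]
    refine (min_le_right _ _).trans (le_of_eq ?_)
    unfold gg
    rw [abs_of_nonneg h4]
  have p5 := mul_le_mul_of_nonneg_left p2 he
  unfold qI
  linarith

theorem cz_le : cz ≤ 0.10461 := by
  unfold cz
  have h3 : (1.73205 : ℝ) ≤ √3 := by
    apply Real.le_sqrt_of_sq_le; norm_num
  have h4 : Real.pi / (3 * √3) ≤ 3.1416 / (3 * 1.73205) := by
    apply div_le_div₀ (by norm_num) (by linarith [Real.pi_lt_d4]) (by norm_num) (by linarith)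
  have h5 : (3.1416 : ℝ) / (3 * 1.73205) ≤ 0.60461 := by norm_num
  linarith

theorem JPu_nn {η s' τ : ℝ} (hs : 0 ≤ s') (h0 : 0 ≤ τ) (h1 : τ ≤ 3 / 10) :
    JPu (nn η) s' ≤ √2 / 4 * cz + √2 / 3 * qI s' τ := by
  have cr := rr_cont
  have cg := gg_cont
  have cW := W0_cont
  have cE : Continuous fun x => W0 x + √2 / 3 * min (s' * rr x) (gg x) := by fun_prop
  have cm : Continuous fun x => √2 / 3 * min (s' * rr x) (gg x) := by fun_prop
  have ew : ∀ x, W0 (-x) = W0 x := fun x => by unfold W0; rw [neg_sq]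
  have ev : ∀ x, W0 (-x) + √2 / 3 * min (s' * rr (-x)) (gg (-x)) =
      W0 x + √2 / 3 * min (s' * rr x) (gg x) := by
    intro x
    have e2 : rr (-x) = rr x := by unfold rr; rw [neg_sq]
    have e3 : gg (-x) = gg x := by unfold gg; rw [neg_sq, abs_neg]
    rw [ew, e2, e3]
  unfold JPu
  rw [int_even cE ev η]
  have e1 : ∫ x in (0 : ℝ)..(1 / 2), W0 x = √2 / 4 * cz := by
    rw [← int_even W0_cont ew 0]
    have e2 : ∫ x in (-(1 / 2) : ℝ)..(1 / 2), nn 0 x * W0 x =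
        ∫ x in (-(1 / 2) : ℝ)..(1 / 2), 1 / 2 * W0 x := by
      refine intervalIntegral.integral_congr fun x _ => ?_
      unfold nn
      ring
    rw [e2, intervalIntegral.integral_const_mul, int_W0]
    ring
  rw [intervalIntegral.integral_add (cW.intervalIntegrable _ _) (cm.intervalIntegrable _ _), e1,
    intervalIntegral.integral_const_mul]
  have h2 := mul_le_mul_of_nonneg_left (int_min hs h0 h1) (show 0 ≤ √2 / 3 by positivity)
  linarith

/-- **F1, number** -/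
theorem F1_num {η s3 s4 τ τ' : ℝ} (hs3 : 0 ≤ s3) (hs4 : 0 ≤ s4) (h0 : 0 ≤ τ) (h1 : τ ≤ 3 / 10)
    (h0' : 0 ≤ τ') (h1' : τ' ≤ 3 / 10) :
    √2 / 2 * (JPu (nn η) s3 + JPu (nn η) s4) ≤ 0.052305 + 1 / 3 * (qI s3 τ + qI s4 τ') := by
  have k1 := JPu_nn (η := η) hs3 h0 h1
  have k2 := JPu_nn (η := η) hs4 h0' h1'
  have r := r2
  have k3 := mul_le_mul_of_nonneg_left (add_le_add k1 k2) (show 0 ≤ √2 / 2 by positivity)
  refine k3.trans ?_
  have e : √2 / 2 * (√2 / 4 * cz + √2 / 3 * qI s3 τ + (√2 / 4 * cz + √2 / 3 * qI s4 τ')) =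
      cz / 2 + 1 / 3 * (qI s3 τ + qI s4 τ') := by
    linear_combination (cz / 4 + (qI s3 τ + qI s4 τ') / 6) * r
  rw [e]
  linarith [cz_le]

/-! ### the volume row -/

section
variable (b : OrthonormalBasis (Fin 3) ℝ E3) (c : E3)

theorem int_As : ∫ p in As, p.1 = 0 := by
  have hmp : MeasurePreserving (Prod.map (fun x : ℝ => -x) (id : ℝ × ℝ → ℝ × ℝ))
      volume volume :=
    (Measure.measurePreserving_neg volume).prod (MeasurePreserving.id volume)
  have hemb : MeasurableEmbedding (Prod.map (fun x : ℝ => -x) (id : ℝ × ℝ → ℝ × ℝ)) :=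
    ((Homeomorph.neg ℝ).prodCongr (Homeomorph.refl (ℝ × ℝ))).measurableEmbedding
  have h := hmp.setIntegral_preimage_emb hemb (fun p => p.1) As
  have e1 : (Prod.map (fun x : ℝ => -x) (id : ℝ × ℝ → ℝ × ℝ)) ⁻¹' As = As := by
    ext p
    unfold As
    simp only [mem_preimage, mem_ofPred_eq, Prod.map_fst, Prod.map_snd, id, neg_sq]
  rw [e1] at h
  simp only [Prod.map_fst] at h
  rw [integral_neg] at h
  linarith

theorem int_AsE : ∫ x in AsE b c, (co b c x).1 = 0 := by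
  have h := (Pool.Agent.Helper95.MEI.Cst.cs_mp b c).setIntegral_preimage_emb
    (Pool.Agent.Helper95.MEI.Cst.cs_emb b c) (fun p => p.1) As
  rw [int_As] at h
  exact h

end

/-! ### in the frame of a tetrahedron -/

section fr
variable {a : Fin 4 → E3} (ha : ∀ i j, i ≠ j → dist (a i) (a j) = 1)
  {K : Set E3} {σ : Measure (E3 × E3)} [IsFiniteMeasure σ] (h : PM K σ)
  (hcomp : ∀ p : E3, (∀ q ∈ K, dist p q ≤ 1) → p ∈ K)
  (hpl : ∀ x ∈ K, Pl a x) {b : OrthonormalBasis (Fin 3) ℝ E3} (hb : Fr a b)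
  {S : Fin 4 → ℝ} (hQ : ∀ x ∈ K, ∀ i, Qv a i x ≤ S i) (hS0 : ∀ i, 0 ≤ S i)

include ha h hcomp hpl hb hQ hS0 in
/-- **row F1** -/
theorem F1_fr (i : Bool) {τ τ' : ℝ} (h0 : 0 ≤ τ) (h1 : τ ≤ 3 / 10) (h0' : 0 ≤ τ')
    (h1' : τ' ≤ 3 / 10) :
    ∫ z in Zp a 2 3, nn (sg i) (eX a z.1) * ⟪b 2, z.1 - z.2⟫ ∂σ ≤
      0.052305 + 1 / 3 * (qI (S 2) τ + qI (S 3) τ') := by
  have hB := Helper21.Alp.bod ha hcomp hpl hb hQ hS0
  have k := fluxW h.cpt h.mem h.flux hB (slab_co ha hpl hb) (sg_abs i) (hS0 2) (hS0 3)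
  rw [← Helper21.Alp.Zp_eq ha hb] at k
  have e : ∀ x, (co b (cen a) x).1 = eX a x := fun x => by rw [co_e53 ha hb]
  simp only [e] at k
  exact k.trans (F1_num (hS0 2) (hS0 3) h0 h1 h0' h1')

include ha h hpl hb hQ hS0 in
/-- **row F2** -/
theorem F2_fr (i : Bool) :
    ∫ z in Zp a 2 3, (eX a z.1 * nn (sg i) (eX a z.1)) * ⟪b 0, z.1 - z.2⟫ ∂σ ≤
      0.003389 + 15 / 16 * ((0.0393 + 0.2358 * S 2) * S 2 + (0.0393 + 0.2358 * S 3) * S 3) := by
  have hG := gram_of_dist ha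
  have k := fluxXn (b := b) (c := cen a) h.cpt h.mem h.flux (sg i)
  rw [← Helper21.Alp.Zp_eq ha hb] at k
  have e : ∀ x, (co b (cen a) x).1 = eX a x := fun x => by rw [co_e53 ha hb]
  have hXK : ∀ q ∈ K, |eX a q| ≤ 1 / 2 := fun q hq => (pl_e hG (hpl q hq)).2.1
  have hbeta := Helper72.MEI.beta_gen ha hb hXK (hS0 2) (hS0 3) (fun q hq => hQ q hq 2)
    (fun q hq => hQ q hq 3)
  have hAE := int_AsE b (cen a)
  simp only [e] at k hAE
  rw [k]
  set g : E3 → ℝ := fun x => 1 / 2 + sg i * (7 / 8) * eX a x with hg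
  have hη := abs_le.1 (sg_abs i)
  have hsg : sg i = 1 ∨ sg i = -1 := by cases i <;> simp [sg]
  have hg01 : ∀ x, |eX a x| ≤ 1 / 2 → 0 ≤ g x ∧ g x ≤ 15 / 16 := by
    intro x hx
    obtain ⟨x0, x1⟩ := abs_le.1 hx
    simp only [hg]
    rcases hsg with h' | h' <;> rw [h'] <;> constructor <;> linarith
  have hgc : Continuous g := by
    have := Pool.Agent.Helper95.MEI.Fub.eX_cont a
    simp only [hg]
    fun_prop
  have hAm : MeasurableSet (AsE b (cen a)) := AsE_meas b (cen a)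
  have hEm : MeasurableSet (EC b (cen a)) := by
    rw [← cel_eq]; exact (Cel_open _ _).measurableSet
  have hTm : MeasurableSet (K ∩ EC b (cen a)) := h.cpt.isClosed.measurableSet.inter hEm
  have hAf : volume (AsE b (cen a)) ≠ ⊤ := by
    rw [vol_AsE]; exact ENNReal.ofReal_ne_top
  have hvA : volume.real (AsE b (cen a)) = vAs := by
    rw [Measure.real, vol_AsE, ENNReal.toReal_ofReal vAs_nonneg]
  have hAX : ∀ x ∈ AsE b (cen a), |eX a x| ≤ 1 / 2 := by
    intro x hx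
    rw [← e]
    have h1 : |(cs b (cen a) x).2.1| < √2 / 2 * (cs b (cen a) x).2.2 ∧
      (cs b (cen a) x).1 ^ 2 + (cs b (cen a) x).2.1 ^ 2 + (cs b (cen a) x).2.2 ^ 2 +
        √2 * (cs b (cen a) x).2.2 + |(cs b (cen a) x).2.1| ≤ 1 / 4 := hx
    have h2 : (cs b (cen a) x).1 = (co b (cen a) x).1 := rfl
    rw [h2] at h1
    obtain ⟨h3, h4⟩ := h1
    have h5 := abs_nonneg (cs b (cen a) x).2.1
    have h6 : 0 ≤ √2 * (cs b (cen a) x).2.2 := by linarith
    apply abs_le_of_sq_le_sq _ (by norm_num)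
    have h7 := sq_nonneg (cs b (cen a) x).2.1
    have h8 := sq_nonneg (cs b (cen a) x).2.2
    linarith
  have hgA : IntegrableOn g (AsE b (cen a)) := by
    refine Measure.integrableOn_of_bounded (M := 15 / 16) hAf hgc.aestronglyMeasurable ?_
    filter_upwards [ae_restrict_mem hAm] with x hx
    obtain ⟨g0, g1⟩ := hg01 x (hAX x hx)
    rw [Real.norm_eq_abs, abs_of_nonneg g0]
    exact g1
  have hgT : IntegrableOn g (K ∩ EC b (cen a)) :=
    (hgc.continuousOn.integrableOn_compact h.cpt).mono_set inter_subset_left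
  have hsp := integral_inter_add_sdiff hAm hgT
  have p1 : ∫ x in K ∩ EC b (cen a) ∩ AsE b (cen a), g x ≤ ∫ x in AsE b (cen a), g x := by
    refine setIntegral_mono_set hgA ?_ inter_subset_right.eventuallyLE
    filter_upwards [ae_restrict_mem hAm] with x hx
    exact (hg01 x (hAX x hx)).1
  have p2 : ∫ x in AsE b (cen a), g x = 1 / 2 * vAs := by
    have c1 : IntegrableOn (fun _ : E3 => (1 / 2 : ℝ)) (AsE b (cen a)) :=
      integrableOn_const hAf
    have hXi : IntegrableOn (fun x => sg i * (7 / 8) * eX a x) (AsE b (cen a)) := by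
      have := hgA.sub c1
      refine this.congr_fun (fun x _ => ?_) hAm
      simp only [hg, Pi.sub_apply]
      ring
    have e2 : ∫ x in AsE b (cen a), g x =
        (∫ x in AsE b (cen a), (1 / 2 : ℝ)) + ∫ x in AsE b (cen a), sg i * (7 / 8) * eX a x :=
      integral_add c1 hXi
    rw [e2, integral_const_mul, hAE, setIntegral_const, hvA, smul_eq_mul]
    ring
  have p3 : ∫ x in (K ∩ EC b (cen a)) \ AsE b (cen a), g x ≤
      15 / 16 * volume.real ((K ∩ EC b (cen a)) \ AsE b (cen a)) := by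
    have hfin : volume ((K ∩ EC b (cen a)) \ AsE b (cen a)) ≠ ⊤ :=
      (lt_of_le_of_lt (measure_mono fun x hx => hx.1.1) h.cpt.measure_lt_top).ne
    have e3 : 15 / 16 * volume.real ((K ∩ EC b (cen a)) \ AsE b (cen a)) =
        ∫ x in (K ∩ EC b (cen a)) \ AsE b (cen a), (15 / 16 : ℝ) := by
      rw [setIntegral_const, smul_eq_mul]; ring
    rw [e3]
    refine setIntegral_mono_on (hgT.mono_set sdiff_subset) (integrableOn_const hfin)
      (hTm.diff hAm) fun x hx => ?_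
    exact (hg01 x (hXK x hx.1.1)).2
  have hv := vAs_bd.2
  have p4 := mul_le_mul_of_nonneg_left hbeta (show (0 : ℝ) ≤ 15 / 16 by norm_num)
  linarith

end fr

end Helper53.MEI.MG
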