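import Pool.Agent.Helper53.MEI.Flx
import Pool.Agent.Helper49.MEI.Cpl2

/-!
# Project MEI (M2): moments of the arcs by the walls, sharper numbers

Full weight, the part `(7/8) x⁺/(4D)` and the coupling density `(1 - 7|x|/8)/(4D)`.
-/

namespace Helper53.MEI

open Set MeasureTheory Filter Topology Metric
open Helper80.CW Helper22.Wedge Helper22.Sig Helper14.CW Helper14.MEI2 Helper93.MEI
open Helper22.MEI (s t FD FD_pos)
open Helper21.Sec Helper21.Mom
open Pool.Agent.Helper95.MEI.Fub (Zp int_cont Zp_meas co_e)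
open Pool.Agent.Helper73.MEI
open scoped RealInnerProductSpace ContDiff Real

/-! ### integrals over half of the edge -/

theorem int_Pu2h : ∫ x in (0 : ℝ)..(1 / 2), Pu2 x = 782457293 / 31135104000 := by
  have hd : ∀ x ∈ uIcc (0 : ℝ) (1 / 2), HasDerivAt (fun x : ℝ =>
      (11617 / 153600) * x ^ 1 + 
      ((-(423419 / 4147200))) * x ^ 3 + 
      (9131 / 13824000) * x ^ 5 + 
      (11449 / 1209600) * x ^ 7 + 
      ((-(8047 / 777600))) * x ^ 9 + 
      (203 / 23760) * x ^ 11 + 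
      ((-(1237 / 140400))) * x ^ 13) (Pu2 x) x := by
    intro x _
    have k := (((((((hpow 0 (11617 / 153600) x)).add (hpow 2 ((-(423419 / 4147200))) x)).add (hpow 4 (9131 / 13824000) x)).add (hpow 6 (11449 / 1209600) x)).add (hpow 8 ((-(8047 / 777600))) x)).add (hpow 10 (203 / 23760) x)).add (hpow 12 ((-(1237 / 140400))) x)
    refine k.congr_deriv ?_
    unfold Pu2
    push_cast
    ring
  rw [intervalIntegral.integral_eq_sub_of_hasDerivAt hd
    ((by unfold Pu2; fun_prop : Continuous fun x : ℝ => Pu2 x).intervalIntegrable _ _)]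
  ring

theorem int_Plo2h : ∫ x in (0 : ℝ)..(1 / 2), Plo2 x = 681479 / 27216000 := by
  have hd : ∀ x ∈ uIcc (0 : ℝ) (1 / 2), HasDerivAt (fun x : ℝ =>
      (483 / 6400) * x ^ 1 + 
      ((-(53089 / 518400))) * x ^ 3 + 
      (161 / 72000) * x ^ 5 + 
      (1 / 1680) * x ^ 7 + 
      (397 / 24300) * x ^ 9) (Plo2 x) x := by
    intro x _
    have k := (((((hpow 0 (483 / 6400) x)).add (hpow 2 ((-(53089 / 518400))) x)).add (hpow 4 (161 / 72000) x)).add (hpow 6 (1 / 1680) x)).add (hpow 8 (397 / 24300) x)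
    refine k.congr_deriv ?_
    unfold Plo2
    push_cast
    ring
  rw [intervalIntegral.integral_eq_sub_of_hasDerivAt hd
    ((by unfold Plo2; fun_prop : Continuous fun x : ℝ => Plo2 x).intervalIntegrable _ _)]
  ring

theorem int_xPu2 : ∫ x in (0 : ℝ)..(1 / 2), x * Pu2 x = 174698351 / 37158912000 := by
  have hd : ∀ x ∈ uIcc (0 : ℝ) (1 / 2), HasDerivAt (fun x : ℝ =>
      (11617 / 307200) * x ^ 2 + 
      ((-(423419 / 5529600))) * x ^ 4 + 
      (9131 / 16588800) * x ^ 6 + 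
      (11449 / 1382400) * x ^ 8 + 
      ((-(8047 / 864000))) * x ^ 10 + 
      (203 / 25920) * x ^ 12 + 
      ((-(1237 / 151200))) * x ^ 14) (x * Pu2 x) x := by
    intro x _
    have k := (((((((hpow 1 (11617 / 307200) x)).add (hpow 3 ((-(423419 / 5529600))) x)).add (hpow 5 (9131 / 16588800) x)).add (hpow 7 (11449 / 1382400) x)).add (hpow 9 ((-(8047 / 864000))) x)).add (hpow 11 (203 / 25920) x)).add (hpow 13 ((-(1237 / 151200))) x)
    refine k.congr_deriv ?_
    unfold Pu2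
    push_cast
    ring
  rw [intervalIntegral.integral_eq_sub_of_hasDerivAt hd
    ((by unfold Pu2; fun_prop : Continuous fun x : ℝ => x * Pu2 x).intervalIntegrable _ _)]
  ring

theorem int_xPlo2 : ∫ x in (0 : ℝ)..(1 / 2), x * Plo2 x = 517423 / 110592000 := by
  have hd : ∀ x ∈ uIcc (0 : ℝ) (1 / 2), HasDerivAt (fun x : ℝ =>
      (483 / 12800) * x ^ 2 + 
      ((-(53089 / 691200))) * x ^ 4 + 
      (161 / 86400) * x ^ 6 + 
      (1 / 1920) * x ^ 8 + 
      (397 / 27000) * x ^ 10) (x * Plo2 x) x := by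
    intro x _
    have k := (((((hpow 1 (483 / 12800) x)).add (hpow 3 ((-(53089 / 691200))) x)).add (hpow 5 (161 / 86400) x)).add (hpow 7 (1 / 1920) x)).add (hpow 9 (397 / 27000) x)
    refine k.congr_deriv ?_
    unfold Plo2
    push_cast
    ring
  rw [intervalIntegral.integral_eq_sub_of_hasDerivAt hd
    ((by unfold Plo2; fun_prop : Continuous fun x : ℝ => x * Plo2 x).intervalIntegrable _ _)]
  ring

theorem int_xZR : ∫ x in (0 : ℝ)..(1 / 2), x * (Zu x * rr x) = 149504412607 / 1393459200000 := by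
  have hd : ∀ x ∈ uIcc (0 : ℝ) (1 / 2), HasDerivAt (fun x : ℝ =>
      (675567529 / 1658880000) * x ^ 2 + 
      (22716811 / 207360000) * x ^ 4 + 
      ((-(1497229 / 19440000))) * x ^ 6 + 
      ((-(640253 / 10368000))) * x ^ 8 + 
      (270457 / 4050000) * x ^ 10 + 
      (19337 / 486000) * x ^ 12 + 
      (3721 / 113400) * x ^ 14) (x * (Zu x * rr x)) x := by
    intro x _
    have k := (((((((hpow 1 (675567529 / 1658880000) x)).add (hpow 3 (22716811 / 207360000) x)).add (hpow 5 ((-(1497229 / 19440000))) x)).add (hpow 7 ((-(640253 / 10368000))) x)).add (hpow 9 (270457 / 4050000) x)).add (hpow 11 (19337 / 486000) x)).add (hpow 13 (3721 / 113400) x)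
    refine k.congr_deriv ?_
    unfold Zu rr
    push_cast
    ring
  rw [intervalIntegral.integral_eq_sub_of_hasDerivAt hd
    ((by unfold Zu rr; fun_prop : Continuous fun x : ℝ => x * (Zu x * rr x)).intervalIntegrable _ _)]
  ring


theorem int_k0 : ∫ x in (0 : ℝ)..(1 / 2), (1 - x ^ 2 / 2) = 23 / 48 := by
  have hd : ∀ x ∈ uIcc (0 : ℝ) (1 / 2), HasDerivAt (fun x : ℝ =>
      1 * x ^ 1 + (-(1 / 6)) * x ^ 3) (1 - x ^ 2 / 2) x := by
    intro x _
    have k := (hpow 0 1 x).add (hpow 2 (-(1 / 6)) x)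
    refine k.congr_deriv ?_
    push_cast
    ring
  rw [intervalIntegral.integral_eq_sub_of_hasDerivAt hd
    ((by fun_prop : Continuous fun x : ℝ => (1 - x ^ 2 / 2)).intervalIntegrable _ _)]
  ring

theorem int_k12 (c d : ℝ) : ∫ x in (0 : ℝ)..(1 / 2), x * ((c + d * x) * (1 - x ^ 2 / 2)) =
    15 / 128 * c + 37 / 960 * d := by
  have hd : ∀ x ∈ uIcc (0 : ℝ) (1 / 2), HasDerivAt (fun x : ℝ =>
      (1 / 2 * c) * x ^ 2 + (1 / 3 * d) * x ^ 3 + (-(1 / 8) * c) * x ^ 4 +
      (-(1 / 10) * d) * x ^ 5) (x * ((c + d * x) * (1 - x ^ 2 / 2))) x := by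
    intro x _
    have k := (((hpow 1 (1 / 2 * c) x).add (hpow 2 (1 / 3 * d) x)).add
      (hpow 3 (-(1 / 8) * c) x)).add (hpow 4 (-(1 / 10) * d) x)
    refine k.congr_deriv ?_
    push_cast
    ring
  rw [intervalIntegral.integral_eq_sub_of_hasDerivAt hd
    ((by fun_prop : Continuous fun x : ℝ =>
      x * ((c + d * x) * (1 - x ^ 2 / 2))).intervalIntegrable _ _)]
  ring

/-- the integral of the gap -/
theorem int_gap {τ : ℝ} (h0 : 0 ≤ τ) (h1 : τ ≤ 3 / 10) :
    ∫ x in (1 / 2 - τ : ℝ)..(1 / 2), ((1 / 2 - x) ^ 2 + 1 / 3 * (1 / 4 - x ^ 2) ^ 2 -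
      0.18 * (1 / 4 - x ^ 2) ^ 3) ≤ 4 / 9 * τ ^ 3 - 0.2116 * τ ^ 4 + 0.1747 * τ ^ 5 := by
  have hd : ∀ x ∈ uIcc (1 / 2 - τ : ℝ) (1 / 2), HasDerivAt (fun x : ℝ =>
      (-(4 / 9)) * (1 / 2 - x) ^ 3 + (1 / 6 + 0.045) * (1 / 2 - x) ^ 4 +
      (-(1 / 15 + 0.108)) * (1 / 2 - x) ^ 5 + 0.09 * (1 / 2 - x) ^ 6 +
      (-(9 / 350)) * (1 / 2 - x) ^ 7) ((1 / 2 - x) ^ 2 + 1 / 3 * (1 / 4 - x ^ 2) ^ 2 -
      0.18 * (1 / 4 - x ^ 2) ^ 3) x := by
    intro x _
    have hu : HasDerivAt (fun x : ℝ => 1 / 2 - x) (-1) x :=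
      (hasDerivAt_id x).const_sub (1 / 2)
    have k := (((((hu.pow 3).const_mul (-(4 / 9))).add ((hu.pow 4).const_mul
      (1 / 6 + 0.045))).add ((hu.pow 5).const_mul (-(1 / 15 + 0.108)))).add
      ((hu.pow 6).const_mul 0.09)).add ((hu.pow 7).const_mul (-(9 / 350)))
    refine k.congr_deriv ?_
    push_cast
    ring
  rw [intervalIntegral.integral_eq_sub_of_hasDerivAt hd
    ((by fun_prop : Continuous fun x : ℝ => ((1 / 2 - x) ^ 2 + 1 / 3 * (1 / 4 - x ^ 2) ^ 2 -
      0.18 * (1 / 4 - x ^ 2) ^ 3)).intervalIntegrable _ _)]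
  have e : (1 / 2 - (1 / 2 - τ)) = τ := by ring
  rw [e]
  have h4 : 0 ≤ τ ^ 4 := by positivity
  have h6 : 0 ≤ τ ^ 6 := by positivity
  have h5 : 0 ≤ τ ^ 5 := by positivity
  have h7 : τ ^ 7 ≤ 3 / 10 * τ ^ 6 := by
    have : τ ^ 7 = τ * τ ^ 6 := by ring
    rw [this]
    exact mul_le_mul_of_nonneg_right h1 h6
  norm_num
  linarith

/-- the excess integral near the end of the edge -/
theorem int_end {e τ : ℝ} {κ : ℝ → ℝ} (cκ : Continuous κ) {κ1 : ℝ} (hκ1 : 0 ≤ κ1)
    (hκ : ∀ x : ℝ, 1 / 2 - τ ≤ x → x ≤ 1 / 2 → 0 ≤ κ x ∧ κ x ≤ κ1) (h0 : 0 ≤ τ)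
    (h1 : τ ≤ 3 / 10) :
    ∫ x in (1 / 2 - τ : ℝ)..(1 / 2), κ x * (Zu x * min (e * rr x) (gg x)) ≤
      κ1 * (0.936 * (4 / 9 * τ ^ 3 - 0.2116 * τ ^ 4 + 0.1747 * τ ^ 5)) := by
  have cZ := Zu_cont
  have cr := rr_cont
  have cg := gg_cont
  have hc : Continuous fun x => κ x * (Zu x * min (e * rr x) (gg x)) := by fun_prop
  have hc3 : Continuous fun x : ℝ => ((1 / 2 - x) ^ 2 + 1 / 3 * (1 / 4 - x ^ 2) ^ 2 -
      0.18 * (1 / 4 - x ^ 2) ^ 3) := by fun_prop
  have p3 : ∫ x in (1 / 2 - τ : ℝ)..(1 / 2), κ x * (Zu x * min (e * rr x) (gg x)) ≤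
      ∫ x in (1 / 2 - τ : ℝ)..(1 / 2), (κ1 * 0.936) * ((1 / 2 - x) ^ 2 +
        1 / 3 * (1 / 4 - x ^ 2) ^ 2 - 0.18 * (1 / 4 - x ^ 2) ^ 3) := by
    refine intervalIntegral.integral_mono_on (by linarith) (hc.intervalIntegrable _ _)
      ((hc3.const_mul _).intervalIntegrable _ _) fun x hx => ?_
    have h4 : 0 ≤ x := by linarith [hx.1]
    have hX : |x| ≤ 1 / 2 := abs_le.2 ⟨by linarith [hx.1], hx.2⟩
    obtain ⟨z0, z1⟩ := Zu_bd hX
    obtain ⟨k0, k1⟩ := hκ x hx.1 hx.2
    have hg0 := gg_nonneg hX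
    have h2 : Zu x * min (e * rr x) (gg x) ≤ 0.936 * gg x :=
      (mul_le_mul_of_nonneg_left (min_le_right _ _) z0).trans
        (mul_le_mul_of_nonneg_right z1 hg0)
    have h3 := (mul_le_mul_of_nonneg_left h2 k0).trans
      (mul_le_mul_of_nonneg_right k1 (show 0 ≤ 0.936 * gg x by positivity))
    have h8 : gg x = (1 / 2 - x) ^ 2 + 1 / 3 * (1 / 4 - x ^ 2) ^ 2 -
      0.18 * (1 / 4 - x ^ 2) ^ 3 := by
      unfold gg
      rw [abs_of_nonneg h4]
    rw [← h8]
    linarith
  refine p3.trans ?_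
  rw [intervalIntegral.integral_const_mul]
  have h2 := mul_le_mul_of_nonneg_left (int_gap h0 h1) (show 0 ≤ κ1 * 0.936 by positivity)
  linarith

/-- **the excess integral**, for every `τ` -/
theorem int_ex {e τ : ℝ} (he : 0 ≤ e) (h0 : 0 ≤ τ) (h1 : τ ≤ 3 / 10) :
    ∫ x in (0 : ℝ)..(1 / 2), Zu x * min (e * rr x) (gg x) ≤
      e * (3943878660643 / 9340531200000 - 0.82 * τ) +
        0.936 * (4 / 9 * τ ^ 3 - 0.2116 * τ ^ 4 + 0.1747 * τ ^ 5) := by
  have cZ := Zu_cont
  have cr := rr_cont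
  have cg := gg_cont
  have hc : Continuous fun x => Zu x * min (e * rr x) (gg x) := by fun_prop
  have hc2 : Continuous fun x => Zu x * rr x := cZ.mul cr
  rw [← intervalIntegral.integral_add_adjacent_intervals (b := 1 / 2 - τ)
    (hc.intervalIntegrable _ _) (hc.intervalIntegrable _ _)]
  have p1 : ∫ x in (0 : ℝ)..(1 / 2 - τ), Zu x * min (e * rr x) (gg x) ≤
      e * ∫ x in (0 : ℝ)..(1 / 2 - τ), Zu x * rr x := by
    rw [← intervalIntegral.integral_const_mul]
    refine intervalIntegral.integral_mono_on (by linarith) (hc.intervalIntegrable _ _)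
      ((hc2.const_mul e).intervalIntegrable _ _) fun x hx => ?_
    have hX : |x| ≤ 1 / 2 := abs_le.2 ⟨by linarith [hx.1], by linarith [hx.2]⟩
    have h2 := mul_le_mul_of_nonneg_left (min_le_left (e * rr x) (gg x)) (Zu_bd hX).1
    have e1 : e * (Zu x * rr x) = Zu x * (e * rr x) := by ring
    rw [e1]
    exact h2
  have p2 : ∫ x in (0 : ℝ)..(1 / 2 - τ), Zu x * rr x ≤
      3943878660643 / 9340531200000 - 0.82 * τ := by
    have h2 := intervalIntegral.integral_add_adjacent_intervals (μ := volume)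
      (f := fun x => Zu x * rr x) (a := 0) (b := 1 / 2 - τ) (c := 1 / 2)
      (hc2.intervalIntegrable _ _) (hc2.intervalIntegrable _ _)
    rw [int_ZR] at h2
    have h3 : ∫ x in (1 / 2 - τ : ℝ)..(1 / 2), (0.82 : ℝ) ≤
        ∫ x in (1 / 2 - τ : ℝ)..(1 / 2), Zu x * rr x := by
      refine intervalIntegral.integral_mono_on (by linarith) intervalIntegrable_const
        (hc2.intervalIntegrable _ _) fun x hx => ?_
      have h4 : 0 ≤ x := by linarith [hx.1]
      exact ZR_low (abs_le.2 ⟨by linarith [hx.1], hx.2⟩) (by rw [abs_of_nonneg h4]; linarith [hx.1])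
    rw [intervalIntegral.integral_const] at h3
    simp only [smul_eq_mul] at h3
    linarith
  have p3 := int_end (e := e) (κ := fun _ => 1) continuous_const (κ1 := 1) zero_le_one
    (fun _ _ _ => ⟨zero_le_one, le_rfl⟩) h0 h1
  simp only [one_mul] at p3
  have p5 := mul_le_mul_of_nonneg_left p2 he
  linarith

/-- the excess integral with the factor `x` -/
theorem int_exx {e τ : ℝ} (he : 0 ≤ e) (h0 : 0 ≤ τ) (h1 : τ ≤ 3 / 10) :
    ∫ x in (0 : ℝ)..(1 / 2), x * (Zu x * min (e * rr x) (gg x)) ≤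
      e * (149504412607 / 1393459200000 - 0.82 * (τ / 2 - τ ^ 2 / 2)) +
        1 / 2 * (0.936 * (4 / 9 * τ ^ 3 - 0.2116 * τ ^ 4 + 0.1747 * τ ^ 5)) := by
  have cZ := Zu_cont
  have cr := rr_cont
  have cg := gg_cont
  have hc : Continuous fun x => x * (Zu x * min (e * rr x) (gg x)) := by fun_prop
  have hc2 : Continuous fun x => x * (Zu x * rr x) := by fun_prop
  rw [← intervalIntegral.integral_add_adjacent_intervals (b := 1 / 2 - τ)
    (hc.intervalIntegrable _ _) (hc.intervalIntegrable _ _)]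
  have p1 : ∫ x in (0 : ℝ)..(1 / 2 - τ), x * (Zu x * min (e * rr x) (gg x)) ≤
      e * ∫ x in (0 : ℝ)..(1 / 2 - τ), x * (Zu x * rr x) := by
    rw [← intervalIntegral.integral_const_mul]
    refine intervalIntegral.integral_mono_on (by linarith) (hc.intervalIntegrable _ _)
      ((hc2.const_mul e).intervalIntegrable _ _) fun x hx => ?_
    have hX : |x| ≤ 1 / 2 := abs_le.2 ⟨by linarith [hx.1], by linarith [hx.2]⟩
    have h2 := mul_le_mul_of_nonneg_left (mul_le_mul_of_nonneg_left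
      (min_le_left (e * rr x) (gg x)) (Zu_bd hX).1) hx.1
    have e1 : e * (x * (Zu x * rr x)) = x * (Zu x * (e * rr x)) := by ring
    rw [e1]
    exact h2
  have p2 : ∫ x in (0 : ℝ)..(1 / 2 - τ), x * (Zu x * rr x) ≤
      149504412607 / 1393459200000 - 0.82 * (τ / 2 - τ ^ 2 / 2) := by
    have h2 := intervalIntegral.integral_add_adjacent_intervals (μ := volume)
      (f := fun x => x * (Zu x * rr x)) (a := 0) (b := 1 / 2 - τ) (c := 1 / 2)
      (hc2.intervalIntegrable _ _) (hc2.intervalIntegrable _ _)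
    rw [int_xZR] at h2
    have h3 : ∫ x in (1 / 2 - τ : ℝ)..(1 / 2), (0.82 : ℝ) * x ≤
        ∫ x in (1 / 2 - τ : ℝ)..(1 / 2), x * (Zu x * rr x) := by
      refine intervalIntegral.integral_mono_on (by linarith)
        ((by fun_prop : Continuous fun x : ℝ => (0.82 : ℝ) * x).intervalIntegrable _ _)
        (hc2.intervalIntegrable _ _) fun x hx => ?_
      have h4 : 0 ≤ x := by linarith [hx.1]
      have h5 := ZR_low (abs_le.2 ⟨by linarith [hx.1], hx.2⟩)
        (by rw [abs_of_nonneg h4]; linarith [hx.1])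
      have h6 := mul_le_mul_of_nonneg_left h5 h4
      linarith
    rw [intervalIntegral.integral_const_mul, integral_id] at h3
    linarith
  have p3 := int_end (e := e) (κ := fun x => x) continuous_id' (κ1 := 1 / 2) (by norm_num)
    (fun x hx hx2 => ⟨by linarith, hx2⟩) h0 h1
  have p5 := mul_le_mul_of_nonneg_left p2 he
  linarith

/-- the excess integral with the factor `1 - 7 x / 8` -/
theorem int_exd {e τ : ℝ} (he : 0 ≤ e) (h0 : 0 ≤ τ) (h1 : τ ≤ 3 / 10) :
    ∫ x in (0 : ℝ)..(1 / 2), (1 - 7 / 8 * x) * (Zu x * min (e * rr x) (gg x)) ≤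
      e * (3943878660643 / 9340531200000 - 7 / 8 * (149504412607 / 1393459200000) -
        0.82 * (τ - 7 / 8 * (τ / 2 - τ ^ 2 / 2))) +
        (9 / 16 + 7 / 8 * τ) *
          (0.936 * (4 / 9 * τ ^ 3 - 0.2116 * τ ^ 4 + 0.1747 * τ ^ 5)) := by
  have cZ := Zu_cont
  have cr := rr_cont
  have cg := gg_cont
  have hc : Continuous fun x => (1 - 7 / 8 * x) * (Zu x * min (e * rr x) (gg x)) := by fun_prop
  have hc2 : Continuous fun x => (1 - 7 / 8 * x) * (Zu x * rr x) := by fun_prop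
  rw [← intervalIntegral.integral_add_adjacent_intervals (b := 1 / 2 - τ)
    (hc.intervalIntegrable _ _) (hc.intervalIntegrable _ _)]
  have p1 : ∫ x in (0 : ℝ)..(1 / 2 - τ), (1 - 7 / 8 * x) * (Zu x * min (e * rr x) (gg x)) ≤
      e * ∫ x in (0 : ℝ)..(1 / 2 - τ), (1 - 7 / 8 * x) * (Zu x * rr x) := by
    rw [← intervalIntegral.integral_const_mul]
    refine intervalIntegral.integral_mono_on (by linarith) (hc.intervalIntegrable _ _)
      ((hc2.const_mul e).intervalIntegrable _ _) fun x hx => ?_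
    have hX : |x| ≤ 1 / 2 := abs_le.2 ⟨by linarith [hx.1], by linarith [hx.2]⟩
    have h2 := mul_le_mul_of_nonneg_left (mul_le_mul_of_nonneg_left
      (min_le_left (e * rr x) (gg x)) (Zu_bd hX).1) (show 0 ≤ 1 - 7 / 8 * x by linarith [hx.2])
    have e1 : e * ((1 - 7 / 8 * x) * (Zu x * rr x)) = (1 - 7 / 8 * x) * (Zu x * (e * rr x)) := by
      ring
    rw [e1]
    exact h2
  have hZ2 : Continuous fun x => Zu x * rr x := by fun_prop
  have hx2 : Continuous fun x => x * (Zu x * rr x) := by fun_prop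
  have tot : ∫ x in (0 : ℝ)..(1 / 2), (1 - 7 / 8 * x) * (Zu x * rr x) =
      3943878660643 / 9340531200000 - 7 / 8 * (149504412607 / 1393459200000) := by
    rw [← int_ZR, ← int_xZR, ← intervalIntegral.integral_const_mul,
      ← intervalIntegral.integral_sub (hZ2.intervalIntegrable _ _)
        ((hx2.const_mul _).intervalIntegrable _ _)]
    refine intervalIntegral.integral_congr fun x _ => ?_
    ring
  have p2 : ∫ x in (0 : ℝ)..(1 / 2 - τ), (1 - 7 / 8 * x) * (Zu x * rr x) ≤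
      3943878660643 / 9340531200000 - 7 / 8 * (149504412607 / 1393459200000) -
        0.82 * (τ - 7 / 8 * (τ / 2 - τ ^ 2 / 2)) := by
    have h2 := intervalIntegral.integral_add_adjacent_intervals (μ := volume)
      (f := fun x => (1 - 7 / 8 * x) * (Zu x * rr x)) (a := 0) (b := 1 / 2 - τ) (c := 1 / 2)
      (hc2.intervalIntegrable _ _) (hc2.intervalIntegrable _ _)
    rw [tot] at h2
    have hcl : Continuous fun x : ℝ => (0.82 : ℝ) * (1 - 7 / 8 * x) := by fun_prop
    have h3 : ∫ x in (1 / 2 - τ : ℝ)..(1 / 2), (0.82 : ℝ) * (1 - 7 / 8 * x) ≤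
        ∫ x in (1 / 2 - τ : ℝ)..(1 / 2), (1 - 7 / 8 * x) * (Zu x * rr x) := by
      refine intervalIntegral.integral_mono_on (by linarith) (hcl.intervalIntegrable _ _)
        (hc2.intervalIntegrable _ _) fun x hx => ?_
      have h4 : 0 ≤ x := by linarith [hx.1]
      have h5 := ZR_low (abs_le.2 ⟨by linarith [hx.1], hx.2⟩)
        (by rw [abs_of_nonneg h4]; linarith [hx.1])
      have h6 := mul_le_mul_of_nonneg_left h5 (show 0 ≤ 1 - 7 / 8 * x by linarith [hx.2])
      linarith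
    have hci : Continuous fun x : ℝ => (7 / 8 : ℝ) * x := by fun_prop
    rw [intervalIntegral.integral_const_mul, intervalIntegral.integral_sub
      intervalIntegrable_const (hci.intervalIntegrable _ _), intervalIntegral.integral_const_mul,
      integral_id, intervalIntegral.integral_const] at h3
    simp only [smul_eq_mul] at h3
    linarith
  have p3 := int_end (e := e) (κ := fun x => 1 - 7 / 8 * x) (by fun_prop)
    (κ1 := 9 / 16 + 7 / 8 * τ) (by positivity)
    (fun x hx hx2 => ⟨by linarith, by linarith⟩) h0 h1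
  have p5 := mul_le_mul_of_nonneg_left p2 he
  linarith

/-! ### the three weights -/

/-- `(7/8) x⁺` towards the vertex -/
noncomputable def fp (i : Bool) (x : ℝ) : ℝ := 7 / 8 * max (if i then -x else x) 0

/-- the coupling density -/
noncomputable def fd (x : ℝ) : ℝ := 1 - 7 / 8 * |x|

/-- smooth approximation -/
noncomputable def apx (a b' c' : ℝ) (n : ℕ) (x : ℝ) : ℝ :=
  a + b' * x + c' * √(x ^ 2 + (1 / ((n : ℝ) + 1)) ^ 2)

theorem apx_cd (a b' c' : ℝ) (n : ℕ) : ContDiff ℝ ∞ (apx a b' c' n) := by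
  unfold apx
  refine ContDiff.add (by fun_prop) (contDiff_const.mul (ContDiff.sqrt (by fun_prop) fun x => ?_))
  have : 0 < (1 / ((n : ℝ) + 1)) ^ 2 := by positivity
  have := sq_nonneg x
  linarith

theorem apx_lim (a b' c' : ℝ) (x : ℝ) :
    Tendsto (fun n => apx a b' c' n x) atTop (𝓝 (a + b' * x + c' * |x|)) := by
  have h1 : Continuous fun u : ℝ => a + b' * x + c' * √(x ^ 2 + u ^ 2) := by fun_prop
  have h2 := (h1.tendsto 0).comp lim_inv
  have e : √(x ^ 2 + 0 ^ 2) = |x| := by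
    rw [zero_pow (by norm_num), add_zero, Real.sqrt_sq_eq_abs]
  rw [e] at h2
  exact h2

theorem sqrt_bd {x : ℝ} (hx : |x| ≤ 1 / 2) (n : ℕ) :
    |x| ≤ √(x ^ 2 + (1 / ((n : ℝ) + 1)) ^ 2) ∧ √(x ^ 2 + (1 / ((n : ℝ) + 1)) ^ 2) ≤ 1.12 := by
  have h1 := sq_le_of_abs hx
  have hu : 1 / ((n : ℝ) + 1) ≤ 1 := by
    rw [div_le_one (by positivity)]
    have : (0 : ℝ) ≤ n := Nat.cast_nonneg n
    linarith
  have hu0 : 0 ≤ 1 / ((n : ℝ) + 1) := by positivity
  have hu2 : (1 / ((n : ℝ) + 1)) ^ 2 ≤ 1 := by nlinarith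
  constructor
  · apply Real.le_sqrt_of_sq_le
    rw [sq_abs]
    have : 0 ≤ (1 / ((n : ℝ) + 1)) ^ 2 := by positivity
    linarith
  · apply Real.sqrt_le_iff.2
    constructor
    · norm_num
    · nlinarith

theorem fp_eq (i : Bool) (x : ℝ) : fp i x = 0 + (if i then -(7 / 16) else 7 / 16) * x +
    7 / 16 * |x| := by
  unfold fp
  cases i
  · simp only [Bool.false_eq_true, if_false]
    rcases le_total 0 x with h | h
    · rw [max_eq_left h, abs_of_nonneg h]; ring
    · rw [max_eq_right h, abs_of_nonpos h]; ring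
  · simp only [if_true]
    rcases le_total 0 x with h | h
    · rw [max_eq_right (by linarith), abs_of_nonneg h]; ring
    · rw [max_eq_left (by linarith), abs_of_nonpos h]; ring

theorem fd_eq' (x : ℝ) : fd x = 1 + 0 * x + (-(7 / 8)) * |x| := by
  unfold fd
  ring

/-- a weight which is a limit of smooth weights -/
structure Wgt (φ : ℝ → ℝ) (φn : ℕ → ℝ → ℝ) : Prop where
  sn : ∀ n, ContDiff ℝ ∞ (φn n)
  hn : ∀ n, ∀ X : ℝ, |X| ≤ 1 / 2 → 0 ≤ φn n X ∧ φn n X ≤ 1
  hl : ∀ x, Tendsto (fun n => φn n x) atTop (𝓝 (φ x))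

theorem wgt_nn {η : ℝ} (hη : |η| ≤ 1) : Wgt (nn η) (fun _ => nn η) where
  sn _ := by unfold nn; fun_prop
  hn _ X hX := ⟨(nn_bd hη hX).1, (nn_bd hη hX).2.trans (by norm_num)⟩
  hl _ := tendsto_const_nhds

theorem wgt_fp (i : Bool) :
    Wgt (fp i) (apx 0 (if i then -(7 / 16) else 7 / 16) (7 / 16)) where
  sn n := apx_cd _ _ _ n
  hn n X hX := by
    obtain ⟨h1, h2⟩ := sqrt_bd hX n
    obtain ⟨h3, h4⟩ := abs_le.1 hX
    have h5 := le_abs_self X
    have h6 := neg_abs_le X
    unfold apx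
    cases i
    · simp only [Bool.false_eq_true, if_false]
      constructor <;> linarith
    · simp only [if_true]
      constructor <;> linarith
  hl x := by
    rw [fp_eq]
    exact apx_lim _ _ _ x

theorem wgt_fd : Wgt fd (apx 1 0 (-(7 / 8))) where
  sn n := apx_cd _ _ _ n
  hn n X hX := by
    obtain ⟨h1, h2⟩ := sqrt_bd hX n
    have h5 := abs_nonneg X
    unfold apx
    constructor <;> linarith
  hl x := by
    rw [fd_eq']
    exact apx_lim _ _ _ x

theorem fp_cont (i : Bool) : Continuous (fp i) := by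
  unfold fp
  cases i <;> simp <;> fun_prop

theorem fd_cont : Continuous fd := by unfold fd; fun_prop

/-! ### integrals against the weights -/

/-- integral against `(7/8) x⁺` -/
theorem int_fp {E : ℝ → ℝ} (hE : Continuous E) (i : Bool) :
    ∫ x in (-(1 / 2) : ℝ)..(1 / 2), fp i x * E x =
      7 / 8 * ∫ x in (0 : ℝ)..(1 / 2), x * E (if i then -x else x) := by
  have hc : Continuous fun x => fp i x * E x := (fp_cont i).mul hE
  rw [← intervalIntegral.integral_add_adjacent_intervals (b := 0) (hc.intervalIntegrable _ _)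
    (hc.intervalIntegrable _ _)]
  cases i
  · have h1 : ∫ x in (-(1 / 2) : ℝ)..0, fp false x * E x = 0 := by
      have h0 : ∫ x in (-(1 / 2) : ℝ)..0, fp false x * E x =
          ∫ x in (-(1 / 2) : ℝ)..0, (0 : ℝ) := by
        refine intervalIntegral.integral_congr fun x hx => ?_
        rw [uIcc_of_le (by norm_num)] at hx
        unfold fp
        simp only [Bool.false_eq_true, if_false]
        rw [max_eq_right hx.2]
        ring
      rw [h0]
      simp
    have h2 : ∫ x in (0 : ℝ)..(1 / 2), fp false x * E x =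
        ∫ x in (0 : ℝ)..(1 / 2), 7 / 8 * (x * E x) := by
      refine intervalIntegral.integral_congr fun x hx => ?_
      rw [uIcc_of_le (by norm_num)] at hx
      unfold fp
      simp only [Bool.false_eq_true, if_false]
      rw [max_eq_left hx.1]
      ring
    rw [h1, h2, zero_add, intervalIntegral.integral_const_mul]
    simp
  · have h1 : ∫ x in (0 : ℝ)..(1 / 2), fp true x * E x = 0 := by
      have h0 : ∫ x in (0 : ℝ)..(1 / 2), fp true x * E x =
          ∫ x in (0 : ℝ)..(1 / 2), (0 : ℝ) := by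
        refine intervalIntegral.integral_congr fun x hx => ?_
        rw [uIcc_of_le (by norm_num)] at hx
        unfold fp
        simp only [if_true]
        rw [max_eq_right (by linarith [hx.1])]
        ring
      rw [h0]
      simp
    have h2 : ∫ x in (-(1 / 2) : ℝ)..0, fp true x * E x =
        ∫ x in (0 : ℝ)..(1 / 2), fp true (-x) * E (-x) := by
      rw [intervalIntegral.integral_comp_neg (fun x => fp true x * E x), neg_zero]
    have h3 : ∫ x in (0 : ℝ)..(1 / 2), fp true (-x) * E (-x) =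
        ∫ x in (0 : ℝ)..(1 / 2), 7 / 8 * (x * E (-x)) := by
      refine intervalIntegral.integral_congr fun x hx => ?_
      rw [uIcc_of_le (by norm_num)] at hx
      unfold fp
      simp only [if_true, neg_neg]
      rw [max_eq_left hx.1]
      ring
    rw [h1, h2, h3, add_zero, intervalIntegral.integral_const_mul]
    simp

theorem Pu2_even (x : ℝ) : Pu2 (-x) = Pu2 x := by
  have e : (-x) ^ 4 = x ^ 4 := by ring
  unfold Pu2; rw [neg_sq, e]

theorem Plo2_even (x : ℝ) : Plo2 (-x) = Plo2 x := by unfold Plo2; rw [neg_sq]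

theorem ex_even (s' x : ℝ) : Zu (-x) * min (s' * rr (-x)) (gg (-x)) =
    Zu x * min (s' * rr x) (gg x) := by
  have e1 : Zu (-x) = Zu x := by unfold Zu; rw [neg_sq]
  have e2 : rr (-x) = rr x := by unfold rr; rw [neg_sq]
  have e3 : gg (-x) = gg x := by unfold gg; rw [neg_sq, abs_neg]
  rw [e1, e2, e3]

/-- polynomial of the slab family -/
noncomputable def gp (τ : ℝ) : ℝ := 0.936 * (4 / 9 * τ ^ 3 - 0.2116 * τ ^ 4 + 0.1747 * τ ^ 5)

theorem JGu_nn {η s' τ : ℝ} (hs : 0 ≤ s') (h0 : 0 ≤ τ) (h1 : τ ≤ 3 / 10) :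
    JGu (nn η) s' ≤ √2 * (782457293 / 31135104000) +
      √2 / 3 * (s' * (3943878660643 / 9340531200000 - 0.82 * τ) + gp τ) := by
  have cZ := Zu_cont
  have cr := rr_cont
  have cg := gg_cont
  have cE : Continuous fun x => Zu x * min (s' * rr x) (gg x) := by fun_prop
  unfold JGu
  rw [int_even cE (fun x => ex_even s' x) η, int_Pu2]
  have h2 := mul_le_mul_of_nonneg_left (int_ex hs h0 h1) (show 0 ≤ √2 / 3 by positivity)
  unfold gp
  linarith

theorem JGl_nn (η s1 s2 : ℝ) : JGl (nn η) s1 s2 = √2 * (681479 / 27216000) -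
    √2 / 3 * (23 / 48 * (0.5774 * (s1 + s2)) + 259 / 7680 * (η * (s1 - s2))) := by
  unfold JGl
  rw [int_lin, int_Plo2]

theorem JGu_fp {i : Bool} {s' τ : ℝ} (hs : 0 ≤ s') (h0 : 0 ≤ τ) (h1 : τ ≤ 3 / 10) :
    JGu (fp i) s' ≤ 7 / 8 * (√2 * (174698351 / 37158912000) +
      √2 / 3 * (s' * (149504412607 / 1393459200000 - 0.82 * (τ / 2 - τ ^ 2 / 2)) +
        1 / 2 * gp τ)) := by
  have cZ := Zu_cont
  have cr := rr_cont
  have cg := gg_cont
  have cE : Continuous fun x => Zu x * min (s' * rr x) (gg x) := by fun_prop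
  unfold JGu
  rw [int_fp cE i, int_fp Pu2_cont i]
  have e1 : ∫ x in (0 : ℝ)..(1 / 2), x * Pu2 (if i then -x else x) =
      ∫ x in (0 : ℝ)..(1 / 2), x * Pu2 x := by
    refine intervalIntegral.integral_congr fun x _ => ?_
    cases i
    · simp
    · simp [Pu2_even]
  have e2 : ∫ x in (0 : ℝ)..(1 / 2), x * (Zu (if i then -x else x) *
      min (s' * rr (if i then -x else x)) (gg (if i then -x else x))) =
      ∫ x in (0 : ℝ)..(1 / 2), x * (Zu x * min (s' * rr x) (gg x)) := by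
    refine intervalIntegral.integral_congr fun x _ => ?_
    cases i
    · simp
    · simp only [if_true]
      rw [ex_even]
  rw [e1, e2, int_xPu2]
  have h2 := mul_le_mul_of_nonneg_left (int_exx hs h0 h1) (show 0 ≤ √2 / 3 by positivity)
  unfold gp
  linarith

theorem JGl_fp (i : Bool) (s1 s2 : ℝ) : JGl (fp i) s1 s2 = 7 / 8 * (√2 * (517423 / 110592000) -
    √2 / 3 * (15 / 128 * (0.5774 * (s1 + s2)) +
      37 / 960 * (if i then s2 - s1 else s1 - s2))) := by
  have cE : Continuous fun x : ℝ =>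
    (0.5774 * (s1 + s2) + (s1 - s2) * x) * (1 - x ^ 2 / 2) := by fun_prop
  unfold JGl
  rw [int_fp cE i, int_fp Plo2_cont i]
  have e1 : ∫ x in (0 : ℝ)..(1 / 2), x * Plo2 (if i then -x else x) =
      ∫ x in (0 : ℝ)..(1 / 2), x * Plo2 x := by
    refine intervalIntegral.integral_congr fun x _ => ?_
    cases i
    · simp
    · simp [Plo2_even]
  have e2 : ∫ x in (0 : ℝ)..(1 / 2), x * ((0.5774 * (s1 + s2) +
      (s1 - s2) * (if i then -x else x)) * (1 - (if i then -x else x) ^ 2 / 2)) =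
      15 / 128 * (0.5774 * (s1 + s2)) + 37 / 960 * (if i then s2 - s1 else s1 - s2) := by
    rw [← int_k12]
    refine intervalIntegral.integral_congr fun x _ => ?_
    cases i
    · simp
    · simp only [if_true]
      ring
  rw [e1, e2, int_xPlo2]
  ring


/-- even functions against the coupling density -/
theorem int_fd {E : ℝ → ℝ} (hE : Continuous E) (hev : ∀ x, E (-x) = E x) :
    ∫ x in (-(1 / 2) : ℝ)..(1 / 2), fd x * E x =
      2 * ∫ x in (0 : ℝ)..(1 / 2), (1 - 7 / 8 * x) * E x := by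
  have hc : Continuous fun x => fd x * E x := fd_cont.mul hE
  rw [← intervalIntegral.integral_add_adjacent_intervals (b := 0) (hc.intervalIntegrable _ _)
    (hc.intervalIntegrable _ _)]
  have h2 : ∫ x in (0 : ℝ)..(1 / 2), fd x * E x =
      ∫ x in (0 : ℝ)..(1 / 2), (1 - 7 / 8 * x) * E x := by
    refine intervalIntegral.integral_congr fun x hx => ?_
    rw [uIcc_of_le (by norm_num)] at hx
    unfold fd
    rw [abs_of_nonneg hx.1]
  have h1 : ∫ x in (-(1 / 2) : ℝ)..0, fd x * E x = ∫ x in (0 : ℝ)..(1 / 2), fd x * E x := by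
    have h3 := intervalIntegral.integral_comp_neg (a := 0) (b := 1 / 2) (fun x => fd x * E x)
    rw [neg_zero] at h3
    rw [← h3]
    refine intervalIntegral.integral_congr fun x _ => ?_
    unfold fd
    rw [abs_neg, hev]
  rw [h1, h2]
  ring

theorem JGu_fd {s' τ : ℝ} (hs : 0 ≤ s') (h0 : 0 ≤ τ) (h1 : τ ≤ 3 / 10) :
    JGu fd s' ≤ 2 * (√2 * (782457293 / 31135104000 - 7 / 8 * (174698351 / 37158912000)) +
      √2 / 3 * (s' * (3943878660643 / 9340531200000 - 7 / 8 * (149504412607 / 1393459200000) -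
        0.82 * (τ - 7 / 8 * (τ / 2 - τ ^ 2 / 2))) + (9 / 16 + 7 / 8 * τ) * gp τ)) := by
  have cZ := Zu_cont
  have cr := rr_cont
  have cg := gg_cont
  have cP := Pu2_cont
  have cE : Continuous fun x => Zu x * min (s' * rr x) (gg x) := by fun_prop
  unfold JGu
  rw [int_fd cE (fun x => ex_even s' x), int_fd Pu2_cont Pu2_even]
  have e1 : ∫ x in (0 : ℝ)..(1 / 2), (1 - 7 / 8 * x) * Pu2 x =
      782457293 / 31135104000 - 7 / 8 * (174698351 / 37158912000) := by
    have hx2 : Continuous fun x => x * Pu2 x := by fun_prop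
    rw [← int_Pu2h, ← int_xPu2, ← intervalIntegral.integral_const_mul,
      ← intervalIntegral.integral_sub (cP.intervalIntegrable _ _)
        ((hx2.const_mul _).intervalIntegrable _ _)]
    refine intervalIntegral.integral_congr fun x _ => ?_
    ring
  rw [e1]
  have h2 := mul_le_mul_of_nonneg_left (int_exd hs h0 h1) (show 0 ≤ √2 / 3 * 2 by positivity)
  unfold gp
  linarith

theorem JGl_fd (s1 s2 : ℝ) : JGl fd s1 s2 =
    2 * (√2 * (681479 / 27216000 - 7 / 8 * (517423 / 110592000)) -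
    √2 / 3 * ((23 / 48 - 7 / 8 * (15 / 128)) * (0.5774 * (s1 + s2)))) := by
  have cP := Plo2_cont
  have cE : Continuous fun x : ℝ =>
    (0.5774 * (s1 + s2) + (s1 - s2) * x) * (1 - x ^ 2 / 2) := by fun_prop
  have cE0 : Continuous fun x : ℝ => (0.5774 * (s1 + s2)) * (1 - x ^ 2 / 2) := by fun_prop
  unfold JGl
  rw [int_fd Plo2_cont Plo2_even]
  have e1 : ∫ x in (0 : ℝ)..(1 / 2), (1 - 7 / 8 * x) * Plo2 x =
      681479 / 27216000 - 7 / 8 * (517423 / 110592000) := by
    have hx2 : Continuous fun x => x * Plo2 x := by fun_prop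
    rw [← int_Plo2h, ← int_xPlo2, ← intervalIntegral.integral_const_mul,
      ← intervalIntegral.integral_sub (cP.intervalIntegrable _ _)
        ((hx2.const_mul _).intervalIntegrable _ _)]
    refine intervalIntegral.integral_congr fun x _ => ?_
    ring
  have e2 : ∫ x in (-(1 / 2) : ℝ)..(1 / 2), fd x * ((0.5774 * (s1 + s2) +
      (s1 - s2) * x) * (1 - x ^ 2 / 2)) =
      ∫ x in (-(1 / 2) : ℝ)..(1 / 2), fd x * ((0.5774 * (s1 + s2)) * (1 - x ^ 2 / 2)) := by
    have cf := fd_cont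
    have c1 : Continuous fun x : ℝ => fd x * ((0.5774 * (s1 + s2)) * (1 - x ^ 2 / 2)) := by
      fun_prop
    have c2 : Continuous fun x : ℝ => fd x * (((s1 - s2) * x) * (1 - x ^ 2 / 2)) := by
      fun_prop
    have h3 : ∫ x in (-(1 / 2) : ℝ)..(1 / 2), fd x * ((0.5774 * (s1 + s2) +
      (s1 - s2) * x) * (1 - x ^ 2 / 2)) =
      (∫ x in (-(1 / 2) : ℝ)..(1 / 2), fd x * ((0.5774 * (s1 + s2)) * (1 - x ^ 2 / 2))) +
      ∫ x in (-(1 / 2) : ℝ)..(1 / 2), fd x * (((s1 - s2) * x) * (1 - x ^ 2 / 2)) := by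
      rw [← intervalIntegral.integral_add (c1.intervalIntegrable _ _)
        (c2.intervalIntegrable _ _)]
      refine intervalIntegral.integral_congr fun x _ => ?_
      ring
    have h4 : ∫ x in (-(1 / 2) : ℝ)..(1 / 2), fd x * (((s1 - s2) * x) * (1 - x ^ 2 / 2)) =
        -∫ x in (-(1 / 2) : ℝ)..(1 / 2), fd x * (((s1 - s2) * x) * (1 - x ^ 2 / 2)) := by
      have h5 := intervalIntegral.integral_comp_neg (a := -(1 / 2)) (b := 1 / 2)
        (fun x => fd x * (((s1 - s2) * x) * (1 - x ^ 2 / 2)))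
      rw [neg_neg] at h5
      rw [← intervalIntegral.integral_neg]
      refine Eq.trans h5.symm ?_
      refine intervalIntegral.integral_congr fun x _ => ?_
      unfold fd
      rw [abs_neg]
      ring
    rw [h3]
    linarith
  rw [e2, int_fd cE0 (fun x => by rw [neg_sq]), e1]
  have e3 : ∫ x in (0 : ℝ)..(1 / 2), (1 - 7 / 8 * x) *
      ((0.5774 * (s1 + s2)) * (1 - x ^ 2 / 2)) =
      (23 / 48 - 7 / 8 * (15 / 128)) * (0.5774 * (s1 + s2)) := by
    have k1 := int_k12 1 0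
    have ca : Continuous fun x : ℝ => (1 - x ^ 2 / 2) := by fun_prop
    have cb : Continuous fun x : ℝ => x * ((1 + 0 * x) * (1 - x ^ 2 / 2)) := by fun_prop
    have e4 : (23 / 48 - 7 / 8 * (15 / 128)) * (0.5774 * (s1 + s2)) =
      (0.5774 * (s1 + s2)) * ((23 / 48) - 7 / 8 * (15 / 128 * 1 + 37 / 960 * 0)) := by ring
    rw [e4, ← k1, ← int_k0, ← intervalIntegral.integral_const_mul,
      ← intervalIntegral.integral_sub (ca.intervalIntegrable _ _)
        ((cb.const_mul _).intervalIntegrable _ _), ← intervalIntegral.integral_const_mul]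
    refine intervalIntegral.integral_congr fun x _ => ?_
    ring
  rw [e3]
  ring

end Helper53.MEI
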