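import Pool.Agent.Helper99.MEI.WT1

/-!
# Project MEI (M2), w-term: the dropped apex with the tent `e = (s0 - ζ.R)⁺`

`apex_Z`: `lam alP (s0 - ζ.R) ≤ eh alP`, `eh = lam e`; `apex_dec`: with the decay of the weight for a
class of the apex; `ET_tent`: what is dropped in a load, the apex as a function of `t`.
-/

set_option autoImplicit false

namespace Helper53.MEI.TentR

open Set Metric MeasureTheory Helper80.CW Helper82.CW Helper14.CW Helper93.MEI Helper78.MEI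
open Helper82.M2 Helper14.MEI2 Pool.Agent.Helper52.MEI Pool.Agent.Helper73.MEI Helper41.MEI
open Helper37.MEI Helper99.MEI
open Pool.Agent.Helper55.Sx (Sim)
open Pool.Agent.Helper55.Mass (LN LN_nonneg vv vv_nonneg vv_le Id)
open Pool.Agent.Helper55.Apex (nc vt_vv)
open Pool.Agent.Helper55.ApexP (PN alP alP_nonneg alP_zeta alP_le xx_mu mu_bal)
open Pool.Agent.Helper55.Fill (xx rr rr_nonneg xx_nonneg xx_le xx_feas)
open Pool.Agent.Helper73.MEI.SideP (flP flP_nonneg flP_zero flP_pair)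
open Pool.Agent.Helper96.Kap (kap kap_nonneg kap_add)
open Pool.Agent.Helper31.SR
open Helper75.MEI2 (mu vt)
open scoped RealInnerProductSpace ENNReal

section abs
variable {N : Fin 3 → Fin 3 → ℝ} (hN : ∀ k m, 0 ≤ N k m) (hd : ∀ k, N k k = 0) {c : ℝ}
  (hc : c < 1) (hcol : ∀ m, nc N m ≤ c)

/-- the dropped apex against the tent -/
theorem apex_Z {ζp : Fin 3 → ℝ} (hζp : ∀ k, 0 < ζp k) {lam g e : ℝ} (hl0 : 0 ≤ lam)
    (hg : g ≤ e) (t : ℝ × ℝ) : lam * alP N ζp t * g ≤ lam * e * alP N ζp t := by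
  have h0 := mul_nonneg hl0 (alP_nonneg (N := N) hζp t)
  have := mul_le_mul_of_nonneg_left hg h0
  linarith

include hN hd hc hcol in
/-- the weight of the apex is at most one -/
theorem alP_one {ζp : Fin 3 → ℝ} (hζp : ∀ k, 0 < ζp k) (hs : 1 ≤ ζp 0 + ζp 1 + ζp 2)
    {t : ℝ × ℝ} (ht : t ∈ Sim) : alP N ζp t ≤ 1 := by
  have h := drop_apex hN hd hc hcol hζp (lam := 1) (g := 1) (r := 1) zero_le_one zero_le_one
    (by linarith) ht
  linarith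

/-- decay of the weight: class `prt ∈ [p0, p1]`, `B0 ≤ b_j⁺ + b_k⁺` -/
theorem alP_dec {al bj bk x y p0 p1 ax ay B0 : ℝ} (h0 : 0 ≤ al) (hB : B0 ≤ pp bj + pp bk)
    (hx : prt bj bk * (al * (pp bj + pp bk)) ≤ x)
    (hy : (1 - prt bj bk) * (al * (pp bj + pp bk)) ≤ y)
    (hp0 : p0 ≤ prt bj bk) (hp1 : prt bj bk ≤ p1)
    (ha0 : 0 ≤ ax) (hb0 : 0 ≤ ay)
    (h1 : 1 ≤ ax * p0 + ay * (1 - p0)) (h2 : 1 ≤ ax * p1 + ay * (1 - p1)) :
    al * B0 ≤ ax * x + ay * y := by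
  have hAB : 0 ≤ al * (pp bj + pp bk) :=
    mul_nonneg h0 (add_nonneg (pp_nonneg _) (pp_nonneg _))
  have hp : 1 ≤ ax * prt bj bk + ay * (1 - prt bj bk) := by
    rcases le_total ay ax with h | h
    · have := mul_le_mul_of_nonneg_left hp0 (sub_nonneg.2 h)
      linarith
    · have := mul_le_mul_of_nonneg_left hp1 (sub_nonneg.2 h)
      linarith
  have k1 := mul_le_mul_of_nonneg_left hB h0
  have k2 := mul_le_mul_of_nonneg_right hp hAB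
  have k3 := mul_le_mul_of_nonneg_left hx ha0
  have k4 := mul_le_mul_of_nonneg_left hy hb0
  linarith

/-- **the dropped apex: tent with decay**, affine in `(x, y)` and in `eh = lam e` -/
theorem apex_dec {al lam g e bj bk x y p0 p1 ax ay B0 th : ℝ} (h0 : 0 ≤ al) (h1' : al ≤ 1)
    (hl0 : 0 ≤ lam) (he : 0 ≤ e) (hg : g ≤ e) (hB0 : 0 < B0) (hB : B0 ≤ pp bj + pp bk)
    (hx : prt bj bk * (al * (pp bj + pp bk)) ≤ x)
    (hy : (1 - prt bj bk) * (al * (pp bj + pp bk)) ≤ y)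
    (hp0 : p0 ≤ prt bj bk) (hp1 : prt bj bk ≤ p1)
    (ha0 : 0 ≤ ax) (hb0 : 0 ≤ ay)
    (h1 : 1 ≤ ax * p0 + ay * (1 - p0)) (h2 : 1 ≤ ax * p1 + ay * (1 - p1))
    (ht0 : 0 ≤ th) (ht1 : th ≤ 1) :
    lam * al * g ≤ lam * e * (th + (1 - th) * ((ax * x + ay * y) / B0)) := by
  have k1 := alP_dec h0 hB hx hy hp0 hp1 ha0 hb0 h1 h2
  have k2 : al ≤ (ax * x + ay * y) / B0 := (le_div_iff₀ hB0).2 k1
  have k3 : al ≤ th + (1 - th) * ((ax * x + ay * y) / B0) := by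
    have a1 := mul_le_mul_of_nonneg_left h1' ht0
    have a2 := mul_le_mul_of_nonneg_left k2 (sub_nonneg.2 ht1)
    linarith
  have k4 := mul_le_mul_of_nonneg_left hg (mul_nonneg hl0 h0)
  have k5 := mul_le_mul_of_nonneg_left k3 (mul_nonneg hl0 he)
  linarith

include hN hd hc hcol

/-- **the parts dropped in a load**, the apex as a number `Z` -/
theorem ETZ_le {A' φ lam : ℝ} (hφ : 0 < φ) (hA' : 0 < A')
    {ζ ζp β ρ : Fin 3 → ℝ}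
    (hβ0 : ∀ p, 0 ≤ β p) (hβ1 : ∀ p, β p ≤ 1)
    (hK : ∀ p, β p * ρ p ≤ A' * Id (fun t => kap N (vv t) p))
    (hF : ∀ p, (1 - β p) * ρ p ≤ φ * (A' * Id (flP (PN N) p)))
    {M : Fin 3 → Fin 3 → ℝ} (hM0 : ∀ l k, 0 ≤ M l k) (hMl : ∀ l, M l l = 0)
    (hMρ : ∀ l k, M l k ≤ ρ l) {E R S : Fin 3 → ℝ} {s0 g g1 V Z : ℝ}
    (hE : ∀ p, E p ≤ g * ρ p)
    (hE1 : ∀ p, E p - (M p 0 * R 0 + M p 1 * R 1 + M p 2 * R 2) ≤ g1 * ρ p)
    (hg : 0 ≤ g) (hg1 : 0 ≤ g1) (hV0 : 0 ≤ V) (hV : ∀ k, S k ≤ V)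
    {θZ θA : ℝ} (hZ1 : θZ ≤ 1) (hA1 : θA ≤ 1)
    {t : ℝ × ℝ} (ht : t ∈ Sim)
    (hZ : lam * alP N ζp t * (s0 - (ζ 0 * R 0 + ζ 1 * R 1 + ζ 2 * R 2)) ≤ Z)
    {i j k : Fin 3} (hij : i ≠ j) (hik : i ≠ k) (hjk : j ≠ k) :
    PV A' N ζp lam φ β (fun _ => 0)
        ((1 - θZ) * (s0 - (ζ 0 * R 0 + ζ 1 * R 1 + ζ 2 * R 2)))
        (fun l => (1 - θA) * (E l - (M l 0 * R 0 + M l 1 * R 1 + M l 2 * R 2)))
        (fun l => (1 - θA) * (E l + (M l 0 * S 0 + M l 1 * S 1 + M l 2 * S 2))) t ≤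
      (1 - θZ) * Z + (1 - θA) * (φ * g1 * (xx N (vv t) j + xx N (vv t) k)
        + (g + 2 * V) * (rr N (vv t) j + rr N (vv t) k)) := by
  have a1 := mul_le_mul_of_nonneg_left hZ (sub_nonneg.2 hZ1)
  have hb : ∀ k, 0 ≤ vv t k := fun k => vv_nonneg ht k
  have a2 := mul_le_mul_of_nonneg_left
    (drop_arc hN hd hc hcol hφ hA' hβ1 hF hg1 hE1 ht hij hik hjk) (sub_nonneg.2 hA1)
  have m1 := mul_le_mul_of_nonneg_left (mul_le_mul_of_nonneg_left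
    (min_le_left (xx N (vv t) j + xx N (vv t) k) (1 / 2)) (mul_nonneg hφ.le hg1))
    (sub_nonneg.2 hA1)
  have c2 : ∀ p, E p + (M p 0 * S 0 + M p 1 * S 1 + M p 2 * S 2) ≤ (g + 2 * V) * ρ p :=
    fun p => by
    have k0 := mul_le_mul_of_nonneg_left (hV 0) (hM0 p 0)
    have k1 := mul_le_mul_of_nonneg_left (hV 1) (hM0 p 1)
    have k2 := mul_le_mul_of_nonneg_left (hV 2) (hM0 p 2)
    have m0 := mul_le_mul_of_nonneg_right (hMρ p 0) hV0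
    have m1 := mul_le_mul_of_nonneg_right (hMρ p 1) hV0
    have m2 := mul_le_mul_of_nonneg_right (hMρ p 2) hV0
    have md := hMl p
    have := hE p
    fin_cases p
    · simp only [Fin.zero_eta] at k0 k1 k2 m0 m1 m2 md this ⊢
      rw [md] at k0 ⊢
      linarith
    · simp only [Fin.mk_one] at k0 k1 k2 m0 m1 m2 md this ⊢
      rw [md] at k1 ⊢
      linarith
    · simp only [Fin.reduceFinMk] at k0 k1 k2 m0 m1 m2 md this ⊢
      rw [md] at k2 ⊢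
      linarith
  have a3 := mul_le_mul_of_nonneg_left
    (drop_res hN hc hcol hA' hβ0 hK (by linarith) c2 ht hij hik hjk) (sub_nonneg.2 hA1)
  unfold PV
  linarith

end abs

section body
variable {a : Fin 4 → E3} {σ : Measure (E3 × E3)} {K : Set E3} {S : Fin 4 → ℝ}
  {c : Fin 4 → E3} {z : Fin 4 → Fin 4 → E3} {l : Fin 3 → Bool → Bool → E3 × E3 → ℝ}

/-- **the parts dropped in a load**, on the body -/
theorem ETZ_body (h : CN K σ a c) (v : Viol K a S) (hz : CV a K z)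
    (τ : Equiv.Perm (Fin 4)) {A' : ℝ} (hA' : 0 < A')
    {ρ β : Fin 3 → ℝ} (hρ : ∀ p, 0 < ρ p) (hMρ : ∀ p k, k ≠ p → MA σ a l τ p k ≤ ρ p)
    {N : Fin 3 → Fin 3 → ℝ} (hNd : N = NM (fun i => a (τ i)) (fun i j => z (τ i) (τ j)))
    {R : Fin 3 → ℝ} {ζ ζp : Fin 3 → ℝ} {φ lam : ℝ} (hφ : 0 < φ)
    (hβ0 : ∀ p, 0 ≤ β p) (hβ1 : ∀ p, β p ≤ 1)
    (hK : ∀ p, β p * ρ p ≤ A' * Id (fun t => kap N (vv t) p))
    (hF : ∀ p, (1 - β p) * ρ p ≤ φ * (A' * Id (flP (PN N) p)))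
    {E : Fin 3 → ℝ} {s0 g g1 V Z Cer : ℝ} (hE : ∀ p, E p ≤ g * ρ p)
    (hE1 : ∀ p, E p - (MB σ a l τ p 0 * R 0 + MB σ a l τ p 1 * R 1
      + MB σ a l τ p 2 * R 2) ≤ g1 * ρ p)
    (hg : 0 ≤ g) (hg1 : 0 ≤ g1) (hV0 : 0 ≤ V)
    (hV : ∀ k : Fin 3, S (τ k.succ) ≤ V)
    (hCer : 0 ≤ Cer) (hC2 : (∀ p, β p = 0) ∨ g + 2 * V ≤ Cer)
    {θZ θA : ℝ} (hZ1 : θZ ≤ 1) (hA1 : θA ≤ 1)
    {t : ℝ × ℝ} (ht : t ∈ Sim)
    (hZ : lam * alP N ζp t * (s0 - (ζ 0 * R 0 + ζ 1 * R 1 + ζ 2 * R 2)) ≤ Z)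
    {i j k : Fin 3} (hij : i ≠ j) (hik : i ≠ k) (hjk : j ≠ k) :
    PV A' N ζp lam φ β (fun _ => 0)
        ((1 - θZ) * (s0 - (ζ 0 * R 0 + ζ 1 * R 1 + ζ 2 * R 2)))
        (fun p => (1 - θA) * (E p - (MB σ a l τ p 0 * R 0 + MB σ a l τ p 1 * R 1
          + MB σ a l τ p 2 * R 2)))
        (fun p => (1 - θA) * (E p + (MB σ a l τ p 0 * S (τ 1) + MB σ a l τ p 1 * S (τ 2)
          + MB σ a l τ p 2 * S (τ 3)))) t ≤
      (1 - θZ) * Z + (1 - θA) * (φ * g1 * (xx N (vv t) j + xx N (vv t) k)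
        + Cer * (rr N (vv t) j + rr N (vv t) k)) := by
  have h' := h.perm τ
  have v' := viol_perm v τ
  have hz' := hz.perm τ
  have hN : ∀ k m, 0 ≤ N k m := fun k m => by
    rw [hNd]
    exact NM_nonneg h' v' hz' k m
  have hd : ∀ k, N k k = 0 := fun k => by
    rw [hNd]
    exact NM_diag k
  have hcol : ∀ m, nc N m ≤ 9 / 10 := fun m => by
    rw [hNd]
    exact nc_le h' v' hz' m
  have hc : (9 / 10 : ℝ) < 1 := by norm_num
  have hM0 : ∀ l' k, 0 ≤ MB σ a l τ l' k := fun l' k => MB_nonneg τ l' k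
  have hMl : ∀ p, MB σ a l τ p p = 0 := fun p => MB_diag τ p
  have hb : ∀ k, 0 ≤ vv t k := fun k => vv_nonneg ht k
  have hMB : ∀ p k, MB σ a l τ p k ≤ ρ p := fun p k => by
    unfold MB
    split_ifs with e
    · exact (hρ p).le
    · exact hMρ p k e
  rcases hC2 with hz0 | hC2
  · -- no residual arcs
    have a1 := mul_le_mul_of_nonneg_left hZ (sub_nonneg.2 hZ1)
    have a2 := mul_le_mul_of_nonneg_left
      (drop_arc hN hd hc hcol hφ hA' hβ1 hF hg1 hE1 ht hij hik hjk) (sub_nonneg.2 hA1)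
    have m1 := mul_le_mul_of_nonneg_left (mul_le_mul_of_nonneg_left
      (min_le_left (xx N (vv t) j + xx N (vv t) k) (1 / 2)) (mul_nonneg hφ.le hg1))
      (sub_nonneg.2 hA1)
    have e : ∀ p, gw A' N β p t = 0 := fun p => by
      unfold gw ast
      rw [hz0 p, zero_mul]
    have r0 := mul_nonneg (sub_nonneg.2 hA1) (mul_nonneg hCer
      (add_nonneg (rr_nonneg hN hc hcol hb j) (rr_nonneg hN hc hcol hb k)))
    unfold PV
    rw [e, e, e]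
    linarith
  · have k1 := ETZ_le hN hd hc hcol hφ hA' hβ0 hβ1 hK hF hM0 hMl hMB
      (S := fun k => S (τ k.succ)) hE hE1 hg hg1 hV0 hV hZ1 hA1 ht hZ hij hik hjk
    have r0 := mul_le_mul_of_nonneg_left (mul_le_mul_of_nonneg_right hC2
      (add_nonneg (rr_nonneg hN hc hcol hb j) (rr_nonneg hN hc hcol hb k)))
      (sub_nonneg.2 hA1)
    have u1 : τ (Fin.succ 0) = τ 1 := rfl
    have u2 : τ (Fin.succ 1) = τ 2 := rfl
    have u3 : τ (Fin.succ 2) = τ 3 := rfl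
    beta_reduce at k1
    rw [u1, u2, u3] at k1
    linarith

/-- **a load at the corner `i`**: shares `θZ` of the apex, `θA` of the arcs, `κ` of the leaks;
`ν` bounds the residual masses; dropped apex `Z`, dropped arcs `g1` (share), `g` (residual) -/
theorem loadZ [IsFiniteMeasure σ] (h : CN K σ a c) (v : Viol K a S) (hz : CV a K z)
    (τ : Equiv.Perm (Fin 4)) {A' : ℝ} (hA' : 0 < A') (hl : Lok a l)
    {δ dE dm : Fin 3 → ℝ} (hδ : ∀ p, MA σ a l τ p p ≤ δ p) (hdE : ∀ p, 0 ≤ dE p)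
    (hdm : ∀ p, 0 ≤ dm p) (hdd : ∀ p, δ p ^ 2 ≤ dE p * dm p)
    {ρ β : Fin 3 → ℝ} (hρ : ∀ p, 0 < ρ p)
    (hMρ : ∀ p k, k ≠ p → MA σ a l τ p k ≤ ρ p)
    {x : E3} (hx : x ∈ K)
    {N : Fin 3 → Fin 3 → ℝ} (hNd : N = NM (fun i => a (τ i)) (fun i j => z (τ i) (τ j)))
    {R : Fin 3 → ℝ}
    (hRd : ∀ k, R k ≤ RM (fun i => a (τ i)) (fun i j => z (τ i) (τ j)) k)
    (hxs : Qv a (τ 0) x = S (τ 0) ∨ (S (τ 0) = 0 ∧ ∀ k, R k = 0))
    {ζ ζp : Fin 3 → ℝ} (hζd : ζ = zc (fun i => a (τ i)) N x) (hζp : ∀ k, 0 < ζp k)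
    (hζ : ∀ k, ζ k ≤ ζp k)
    {φ lam : ℝ} (hφ : 0 < φ) (hl0 : 0 ≤ lam) (hl1 : lam ≤ 1 - φ)
    (hβ0 : ∀ p, 0 ≤ β p) (hβ1 : ∀ p, β p ≤ 1)
    (hK : ∀ p, β p * ρ p ≤ A' * Id (fun t => kap N (vv t) p))
    (hF : ∀ p, (1 - β p) * ρ p ≤ φ * (A' * Id (flP (PN N) p)))
    {θZ θA : ℝ} (hZ0 : 0 ≤ θZ) (hZ1 : θZ ≤ 1) (hA0 : 0 ≤ θA) (hA1 : θA ≤ 1)
    {κ hh : ℝ} (hκ : (κ = 2 / 3 ∧ hh = 0) ∨ (κ = 1 / 2 ∧ hh = 1))
    {cN : ℝ} (hcN : ∀ m, nc N m ≤ cN) (hcN1 : cN ≤ 1 / 2)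
    {s χ ω η : ℝ} (hS : ∀ i, S i ≤ s) (hχ0 : 0 ≤ χ) (hχ : 3 / 2 + 2 * s ≤ χ ^ 2)
    (hω0 : 0 ≤ ω) (hω : (1 - ω) * χ ≤ 1) (hη0 : 0 ≤ η) (hη : ∀ p, dm p ≤ η * ρ p)
    {Ca Cr : ℝ} (hC1 : φ * (2 * ω + η + 2 * (1 - κ) * cN) ≤ Ca) (hCr : 0 ≤ Cr)
    (hC2 : (∀ p, β p = 0) ∨ 2 * ω + η ≤ Cr)
    {g g1 V Z Cer : ℝ} (hE : ∀ p, aE σ a l (τ 0) (τ p.succ) - dE p ≤ g * ρ p) (hg : 0 ≤ g)
    (hE1 : ∀ p, (aE σ a l (τ 0) (τ p.succ) - dE p) - (MB σ a l τ p 0 * R 0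
      + MB σ a l τ p 1 * R 1 + MB σ a l τ p 2 * R 2) ≤ g1 * ρ p) (hg1 : 0 ≤ g1)
    (hV0 : 0 ≤ V) (hV : ∀ k : Fin 3, S (τ k.succ) ≤ V)
    (hCer : 0 ≤ Cer) (hC3 : (∀ p, β p = 0) ∨ g + 2 * V ≤ Cer)
    {t : ℝ × ℝ} (ht : t ∈ Sim)
    (hZ : lam * alP N ζp t * (S (τ 0) - (ζ 0 * R 0 + ζ 1 * R 1 + ζ 2 * R 2)) ≤ Z)
    {i j k : Fin 3} (hij : i ≠ j) (hik : i ≠ k) (hjk : j ≠ k)
    {ν : ℝ} (hν : rr N (vv t) j + rr N (vv t) k ≤ ν * (vv t j + vv t k))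
    {q : E3} (hq : q ∈ K) :
    GM A' N ζ ζp lam (fun p t => φ * flP (PN N) p t) (fun p t => kap N (vv t) p) β
        (MB σ a l τ) (fun p => aE σ a l (τ 0) (τ p.succ) - dE p) R
        (fun k => S (τ k.succ)) (S (τ 0)) t
      + (1 - (κ * (min (vv t j + vv t k) (nc N i) + nc N j * vv t j + nc N k * vv t k)
        + θA * ((Ca + Cr * ν) * (vv t j + vv t k))
        + θZ * (lam / 2 * (bet (Zd (2 / 3 * cN) (-bar (fun i => a (τ i)) 0 x)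
            (b3 (fun i => a (τ i)) x))
            (b3 (fun i => a (τ i)) x j) (b3 (fun i => a (τ i)) x k) *
          (alP N ζp t * (pp (b3 (fun i => a (τ i)) x j) + pp (b3 (fun i => a (τ i)) x k)))))))
        * ‖a (τ 0) - q‖ ^ 2
      - ((1 - θZ) * Z + (1 - θA) * ((φ * g1 + Cer * ν) * (vv t j + vv t k))
        + hh * (V / 6) * (min (vv t j + vv t k) (nc N i) + nc N j * vv t j
          + nc N k * vv t k)) ≤
      Yt (fun i => a (τ i)) t q := by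
  have h' := h.perm τ
  have v' := viol_perm v τ
  have hz' := hz.perm τ
  have hN : ∀ k m, 0 ≤ N k m := fun k m => by
    rw [hNd]
    exact NM_nonneg h' v' hz' k m
  have hd : ∀ k, N k k = 0 := fun k => by
    rw [hNd]
    exact NM_diag k
  have hcol : ∀ m, nc N m ≤ 9 / 10 := fun m => by
    rw [hNd]
    exact nc_le h' v' hz' m
  have hc : (9 / 10 : ℝ) < 1 := by norm_num
  have hb : ∀ k, 0 ≤ vv t k := fun k => vv_nonneg ht k
  have hh0 : 0 ≤ hh := by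
    rcases hκ with h | h <;> rw [h.2] <;> norm_num
  have hκ0 : 0 ≤ κ := by
    rcases hκ with h | h <;> rw [h.1] <;> norm_num
  have hκ1 : κ ≤ 1 := by
    rcases hκ with h | h <;> rw [h.1] <;> norm_num
  obtain ⟨w, hw⟩ : ∃ w, w = ‖a (τ 0) - q‖ ^ 2 := ⟨_, rfl⟩
  have hw0 : 0 ≤ w := by rw [hw]; exact sq_nonneg _
  have u1 : τ (Fin.succ 0) = τ 1 := rfl
  have u2 : τ (Fin.succ 1) = τ 2 := rfl
  have u3 : τ (Fin.succ 2) = τ 3 := rfl
  -- the residual masses and the nodes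
  have xr : ∀ k, xx N (vv t) k ≤ vv t k := fun k => xx_le hN hc hcol hb k
  have xj := xr j
  have xk := xr k
  have n1 := node_corner hN hd hc hcol (κ := 1) zero_le_one ht hij hik hjk
  have n2 : xx N (vv t) 0 * nc N 0 + xx N (vv t) 1 * nc N 1 + xx N (vv t) 2 * nc N 2 ≤
      min (vv t j + vv t k) (nc N i) + nc N j * vv t j + nc N k * vv t k := by linarith
  have n3 := mul_le_mul_of_nonneg_left n2 (mul_nonneg hh0 (show 0 ≤ V / 6 by linarith))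
  have d := DT2 h v hz τ hA' hl hρ hMρ hx hNd hζd hζp hφ hl0 hβ0 hβ1 hK hF hκ hcN hcN1 hS hχ0 hχ
    hω0 hω hη0 hη hC1 hCr hC2 hZ0 hA0 ht hij hik hjk
  have Ca0 : 0 ≤ Ca := by
    have n0 : ∀ m, 0 ≤ nc N m := fun m => by
      unfold nc
      have := hN 0 m
      have := hN 1 m
      have := hN 2 m
      linarith
    have c0 : 0 ≤ cN := (n0 0).trans (hcN 0)
    have c1 := mul_nonneg (sub_nonneg.2 hκ1) c0
    exact (mul_nonneg hφ.le (by linarith)).trans hC1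
  have d1 := mul_le_mul_of_nonneg_left (add_le_add xj xk) Ca0
  have d2 := mul_le_mul_of_nonneg_left hν hCr
  have d3 := mul_le_mul_of_nonneg_left (add_le_add d1 d2) hA0
  have e := ETZ_body (σ := σ) (l := l) h v hz τ hA' hρ hMρ hNd (ζ := ζ) hφ hβ0 hβ1 hK hF
    hE hE1 hg hg1 hV0 hV hCer hC3 hZ1 hA1 ht hZ hij hik hjk
  have e1 := mul_le_mul_of_nonneg_left (add_le_add xj xk) (mul_nonneg hφ.le hg1)
  have e2 := mul_le_mul_of_nonneg_left hν hCer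
  have e3 := mul_le_mul_of_nonneg_left (add_le_add e1 e2) (sub_nonneg.2 hA1)
  have sp := PV_split A' N ζp lam φ θZ θA β
    (fun k => R k + PT N (fun k => S (τ k.succ)) k)
    (S (τ 0) - (ζ 0 * R 0 + ζ 1 * R 1 + ζ 2 * R 2))
    (fun l' => (aE σ a l (τ 0) (τ l'.succ) - dE l') - (MB σ a l τ l' 0 * R 0
      + MB σ a l τ l' 1 * R 1 + MB σ a l τ l' 2 * R 2))
    (fun l' => (aE σ a l (τ 0) (τ l'.succ) - dE l') + (MB σ a l τ l' 0 * S (τ 1)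
      + MB σ a l τ l' 1 * S (τ 2) + MB σ a l τ l' 2 * S (τ 3))) t
  rw [GM_PV]
  beta_reduce
  beta_reduce at sp e
  rw [u1, u2, u3, ← hw, sp]
  -- the load
  have key : (-(T3 t 0 * S (τ 1) + T3 t 1 * S (τ 2) + T3 t 2 * S (τ 3))
      + PV A' N ζp lam φ β (fun k => R k + PT N (fun k => S (τ k.succ)) k)
        (θZ * (S (τ 0) - (ζ 0 * R 0 + ζ 1 * R 1 + ζ 2 * R 2)))
        (fun p => θA * ((aE σ a l (τ 0) (τ p.succ) - dE p) - (MB σ a l τ p 0 * R 0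
          + MB σ a l τ p 1 * R 1 + MB σ a l τ p 2 * R 2)))
        (fun p => θA * ((aE σ a l (τ 0) (τ p.succ) - dE p) + (MB σ a l τ p 0 * S (τ 1)
          + MB σ a l τ p 1 * S (τ 2) + MB σ a l τ p 2 * S (τ 3)))) t)
      + (1 - (κ * (min (vv t j + vv t k) (nc N i) + nc N j * vv t j + nc N k * vv t k)
        + θA * (Ca * (xx N (vv t) j + xx N (vv t) k) + Cr * (rr N (vv t) j + rr N (vv t) k))
        + θZ * (lam / 2 * (bet (Zd (2 / 3 * cN) (-bar (fun i => a (τ i)) 0 x)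
            (b3 (fun i => a (τ i)) x))
            (b3 (fun i => a (τ i)) x j) (b3 (fun i => a (τ i)) x k) *
          (alP N ζp t * (pp (b3 (fun i => a (τ i)) x j) + pp (b3 (fun i => a (τ i)) x k))))))) * w
      - hh * (V / 6) * (xx N (vv t) 0 * nc N 0 + xx N (vv t) 1 * nc N 1
        + xx N (vv t) 2 * nc N 2) ≤ Yt (fun i => a (τ i)) t q := by
    rcases hxs with hxs | ⟨hs0, hRz⟩
    · have k1 := inst_L h v hz τ hA' hl hδ hdE hdm hdd hρ hMρ hx hNd hRd hζd hζp hζ hφ hl0 hl1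
        hβ0 hβ1 hK hF hZ0 hZ1 hA0 hA1 hV0 hV ht hq hκ
      rw [hxs, ← hw] at k1
      have k2 := mul_le_mul_of_nonneg_right d hw0
      linarith
    · have k1 := inst_L h v hz τ hA' hl hδ hdE hdm hdd hρ hMρ hx hNd hRd hζd hζp hζ hφ hl0 hl1
        hβ0 hβ1 hK hF (θZ := 0) le_rfl zero_le_one hA0 hA1 hV0 hV ht hq hκ
      have d' := DT2 h v hz τ hA' hl hρ hMρ hx hNd hζd hζp hφ hl0 hβ0 hβ1 hK hF hκ hcN hcN1 hS
        hχ0 hχ hω0 hω hη0 hη hC1 hCr hC2 (θZ := 0) le_rfl hA0 ht hij hik hjk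
      have z1 : θZ * (S (τ 0) - (ζ 0 * R 0 + ζ 1 * R 1 + ζ 2 * R 2)) =
          0 * (Qv a (τ 0) x - (ζ 0 * R 0 + ζ 1 * R 1 + ζ 2 * R 2)) := by
        rw [hs0, hRz 0, hRz 1, hRz 2]
        ring
      rw [z1]
      rw [← hw] at k1
      have k2 := mul_le_mul_of_nonneg_right d' hw0
      have k3 : 0 ≤ θZ * (lam / 2 * (bet (Zd (2 / 3 * cN) (-bar (fun i => a (τ i)) 0 x)
            (b3 (fun i => a (τ i)) x))
            (b3 (fun i => a (τ i)) x j) (b3 (fun i => a (τ i)) x k) *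
          (alP N ζp t * (pp (b3 (fun i => a (τ i)) x j) + pp (b3 (fun i => a (τ i)) x k))))) :=
        mul_nonneg hZ0 (mul_nonneg (by linarith) (mul_nonneg (bet_nonneg _ _ _)
          (mul_nonneg (alP_nonneg hζp t) (add_nonneg (pp_nonneg _) (pp_nonneg _)))))
      have k4 := mul_nonneg k3 hw0
      linarith
  have k5 := mul_le_mul_of_nonneg_right d3 hw0
  linarith

/-- **the dropped apex on the body**: tent and decay for a class of the apex -/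
theorem Z_tent [IsFiniteMeasure σ] (h : CN K σ a c) (v : Viol K a S) (hz : CV a K z)
    (τ : Equiv.Perm (Fin 4)) {x : E3} {N : Fin 3 → Fin 3 → ℝ}
    (hNd : N = NM (fun i => a (τ i)) (fun i j => z (τ i) (τ j)))
    {ζ ζp : Fin 3 → ℝ} (hζd : ζ = zc (fun i => a (τ i)) N x) (hζp : ∀ k, 0 < ζp k)
    (hζ : ∀ k, ζ k ≤ ζp k) (hs : 1 ≤ ζp 0 + ζp 1 + ζp 2) {lam g e : ℝ} (hl0 : 0 ≤ lam)
    (he0 : 0 ≤ e) (hg : g ≤ e) {p0 p1 ax ay B0 th : ℝ} {j k : Fin 3} (hB0 : 0 < B0)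
    (hB : B0 ≤ pp (b3 (fun i => a (τ i)) x j) + pp (b3 (fun i => a (τ i)) x k))
    (hp0 : p0 ≤ prt (b3 (fun i => a (τ i)) x j) (b3 (fun i => a (τ i)) x k))
    (hp1 : prt (b3 (fun i => a (τ i)) x j) (b3 (fun i => a (τ i)) x k) ≤ p1)
    (ha0 : 0 ≤ ax) (hb0 : 0 ≤ ay)
    (h1 : 1 ≤ ax * p0 + ay * (1 - p0)) (h2 : 1 ≤ ax * p1 + ay * (1 - p1))
    (ht0 : 0 ≤ th) (ht1 : th ≤ 1) {t : ℝ × ℝ} (ht : t ∈ Sim) :
    lam * alP N ζp t * g ≤
      lam * e * (th + (1 - th) * ((ax * vv t j + ay * vv t k) / B0)) := by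
  have h' := h.perm τ
  have v' := viol_perm v τ
  have hz' := hz.perm τ
  have hN : ∀ k m, 0 ≤ N k m := fun k m => by
    rw [hNd]
    exact NM_nonneg h' v' hz' k m
  have hd : ∀ k, N k k = 0 := fun k => by
    rw [hNd]
    exact NM_diag k
  have hcol : ∀ m, nc N m ≤ 9 / 10 := fun m => by
    rw [hNd]
    exact nc_le h' v' hz' m
  have hc : (9 / 10 : ℝ) < 1 := by norm_num
  obtain ⟨-, -, k3, k4⟩ := AB_body h v hz τ hNd hζd hζp hζ ht j k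
  exact apex_dec (alP_nonneg (N := N) hζp t) (alP_one hN hd hc hcol hζp hs ht) hl0 he0 hg hB0 hB
    k3 k4 hp0 hp1 ha0 hb0 h1 h2 ht0 ht1

end body

end Helper53.MEI.TentR
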