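import Pool.Agent.Helper21.MEI.Mom

/-!
# Project MEI (M2): weighted flux of a constant vector through an edge cell

The weighted flux is a difference of weighted integrals over the two walls of the cell; upper and
lower bounds of these integrals for a body.
-/

namespace Helper53.MEI

open Set MeasureTheory Filter Topology Metric
open Helper80.CW Helper22.Wedge Helper22.Sig
open Helper21.Sec Helper21.Mom
open scoped RealInnerProductSpace ContDiff

/-! ### weighted wall integrals -/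

theorem int_layer_w {M : ℝ} (hM : 0 < M) (Ω : Set (ℝ × ℝ)) (H : ℝ × ℝ → ℝ) :
    ∫ p in Ω ×ˢ Ioo (0 : ℝ) (1 / M), H p.1 *
      (fun l : ℝ => M * deriv Real.smoothTransition (l * M)) p.2 = ∫ r in Ω, H r := by
  have h := setIntegral_prod_mul (μ := (volume : Measure (ℝ × ℝ))) (ν := (volume : Measure ℝ))
    H (fun l : ℝ => M * deriv Real.smoothTransition (l * M)) Ω
    (Ioo (0 : ℝ) (1 / M))
  have h2 : (volume : Measure (ℝ × ℝ)).prod (volume : Measure ℝ) = volume := rfl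
  rw [h2] at h
  rw [h, int_g hM, mul_one]

/-- upper bound of a weighted wall integral -/
theorem wall_upper_w {M : ℝ} (hM : 0 < M) {B : Set ((ℝ × ℝ) × ℝ)} (hB : IsCompact B)
    {Ω : Set (ℝ × ℝ)} (hΩ : MeasurableSet Ω) (hΩb : Bornology.IsBounded Ω)
    {g : (ℝ × ℝ) × ℝ → ℝ} (hg : Continuous g) {H : ℝ × ℝ → ℝ} (hH : Continuous H)
    (hH0 : ∀ r ∈ Ω, 0 ≤ H r)
    (h : ∀ r : ℝ × ℝ, ∀ l ∈ Ioo (0 : ℝ) (1 / M), (r, l) ∈ B → 0 < √2 * r.2 - l →
      r ∈ Ω ∧ g (r, l) ≤ H r) :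
    ∫ p in B, g p * jk M p ≤ ∫ r in Ω, H r := by
  set S : Set ((ℝ × ℝ) × ℝ) := Ω ×ˢ Ioo (0 : ℝ) (1 / M) with hS
  have hSm : MeasurableSet S := hΩ.prod measurableSet_Ioo
  have hSb : Bornology.IsBounded S := hΩb.prod (isBounded_Ioo _ _)
  have hc : Continuous (fun p : (ℝ × ℝ) × ℝ => H p.1 *
      (fun l : ℝ => M * deriv Real.smoothTransition (l * M)) p.2) := by
    refine (hH.comp continuous_fst).mul ?_
    exact continuous_const.mul (st_deriv_cont.comp (continuous_snd.mul continuous_const))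
  have hintS : IntegrableOn (fun p : (ℝ × ℝ) × ℝ => H p.1 *
      (fun l : ℝ => M * deriv Real.smoothTransition (l * M)) p.2) S :=
    (hc.continuousOn.integrableOn_compact hSb.isCompact_closure).mono_set subset_closure
  have hint : IntegrableOn (fun p => g p * jk M p) B :=
    (hg.mul (jk_cont M)).continuousOn.integrableOn_compact hB
  have h1 : ∫ p in B, g p * jk M p = ∫ p in B ∩ S, g p * jk M p := by
    rw [← setIntegral_indicator hSm]
    refine integral_congr_ae ?_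
    filter_upwards [ae_restrict_mem hB.measurableSet] with p hp
    by_cases hpS : p ∈ S
    · rw [indicator_of_mem hpS]
    · rw [indicator_of_notMem hpS]
      rw [jk_zero hM fun hcon => hpS ⟨(h p.1 p.2 hcon.1 hp hcon.2).1, hcon.1⟩, mul_zero]
  rw [h1, ← int_layer_w hM Ω H]
  have h2 : ∫ p in B ∩ S, g p * jk M p ≤ ∫ p in B ∩ S, H p.1 *
      (fun l : ℝ => M * deriv Real.smoothTransition (l * M)) p.2 := by
    refine setIntegral_mono_on (hint.mono_set inter_subset_left)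
      (hintS.mono_set inter_subset_right) (hB.measurableSet.inter hSm) fun p hp => ?_
    have hH1 := hH0 p.1 hp.2.1
    have hk0 : 0 ≤ M * deriv Real.smoothTransition (p.2 * M) :=
      mul_nonneg hM.le (st_deriv_nonneg _)
    by_cases h3 : 0 < √2 * p.1.2 - p.2
    · have h4 := (h p.1 p.2 hp.2.2 hp.1 h3).2
      have h5 := jk_le hM p
      rw [one_mul] at h5
      calc g p * jk M p ≤ H p.1 * jk M p := mul_le_mul_of_nonneg_right h4 (jk_nonneg hM p)
        _ ≤ H p.1 * (M * deriv Real.smoothTransition (p.2 * M)) :=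
          mul_le_mul_of_nonneg_left h5 hH1
    · rw [jk_zero hM fun hcon => h3 hcon.2, mul_zero]
      exact mul_nonneg hH1 hk0
  refine h2.trans (setIntegral_mono_set hintS ?_ inter_subset_right.eventuallyLE)
  refine (ae_restrict_iff' hSm).2 (ae_of_all _ fun p hp => ?_)
  exact mul_nonneg (hH0 p.1 hp.1) (mul_nonneg hM.le (st_deriv_nonneg _))

/-- lower bound of a weighted wall integral -/
theorem wall_lower_w {M : ℝ} (hM : 0 < M) {B : Set ((ℝ × ℝ) × ℝ)} (hB : IsCompact B)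
    {Ω : Set (ℝ × ℝ)} (hΩ : MeasurableSet Ω) (hΩb : Bornology.IsBounded Ω)
    {g : (ℝ × ℝ) × ℝ → ℝ} (hg : Continuous g) (hg0 : ∀ p ∈ B, 0 ≤ g p) {H : ℝ × ℝ → ℝ}
    (hH : Continuous H)
    (h : ∀ r ∈ Ω, ∀ l ∈ Ioo (0 : ℝ) (1 / M), (r, l) ∈ B ∧ 1 / M ≤ √2 * r.2 - l ∧ H r ≤ g (r, l)) :
    ∫ r in Ω, H r ≤ ∫ p in B, g p * jk M p := by
  set S : Set ((ℝ × ℝ) × ℝ) := Ω ×ˢ Ioo (0 : ℝ) (1 / M) with hS
  have hSm : MeasurableSet S := hΩ.prod measurableSet_Ioo
  have hSb : Bornology.IsBounded S := hΩb.prod (isBounded_Ioo _ _)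
  have hc : Continuous (fun p : (ℝ × ℝ) × ℝ => H p.1 *
      (fun l : ℝ => M * deriv Real.smoothTransition (l * M)) p.2) := by
    refine (hH.comp continuous_fst).mul ?_
    exact continuous_const.mul (st_deriv_cont.comp (continuous_snd.mul continuous_const))
  have hintS : IntegrableOn (fun p : (ℝ × ℝ) × ℝ => H p.1 *
      (fun l : ℝ => M * deriv Real.smoothTransition (l * M)) p.2) S :=
    (hc.continuousOn.integrableOn_compact hSb.isCompact_closure).mono_set subset_closure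
  have hsub : S ⊆ B := by
    rintro ⟨r, l⟩ ⟨h1, h2⟩
    exact (h r h1 l h2).1
  have hint : IntegrableOn (fun p => g p * jk M p) B :=
    (hg.mul (jk_cont M)).continuousOn.integrableOn_compact hB
  have h1 : ∫ p in S, g p * jk M p ≤ ∫ p in B, g p * jk M p := by
    refine setIntegral_mono_set hint ?_ hsub.eventuallyLE
    exact (ae_restrict_iff' hB.measurableSet).2 (ae_of_all _ fun p hp =>
      mul_nonneg (hg0 p hp) (jk_nonneg hM p))
  refine le_trans ?_ h1
  rw [← int_layer_w hM Ω H]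
  refine setIntegral_mono_on hintS (hint.mono_set hsub) hSm ?_
  rintro ⟨r, l⟩ ⟨h2, h3⟩
  obtain ⟨_, h4, h6⟩ := h r h2 l h3
  have h5 : (1 : ℝ) ≤ (√2 * r.2 - l) * M := by
    have h6 := mul_le_mul_of_nonneg_right h4 hM.le
    rwa [one_div, inv_mul_cancel₀ hM.ne'] at h6
  simp only [jk]
  rw [Real.smoothTransition.one_of_one_le h5, mul_one]
  exact mul_le_mul_of_nonneg_right h6 (mul_nonneg hM.le (st_deriv_nonneg _))

/-- iterated integral over the region between two graphs -/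
theorem int_reg {f g : ℝ → ℝ} {s : Set ℝ} (hf : Continuous f) (hg : Continuous g)
    (hs : MeasurableSet s) {H : ℝ × ℝ → ℝ} (hH : Continuous H)
    (hb : Bornology.IsBounded (regionBetween f g s)) :
    IntegrableOn (fun x => ∫ y in Ioo (f x) (g x), H (x, y)) s ∧
    ∫ p in regionBetween f g s, H p = ∫ x in s, ∫ y in Ioo (f x) (g x), H (x, y) := by
  have hm : MeasurableSet (regionBetween f g s) :=
    measurableSet_regionBetween hf.measurable hg.measurable hs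
  have hi : IntegrableOn H (regionBetween f g s) :=
    (hH.continuousOn.integrableOn_compact hb.isCompact_closure).mono_set subset_closure
  have hi2 := (integrable_indicator_iff hm).2 hi
  have hv : (volume : Measure (ℝ × ℝ)) = (volume : Measure ℝ).prod (volume : Measure ℝ) := rfl
  have key : ∀ x : ℝ, ∫ y, (regionBetween f g s).indicator H (x, y) =
      s.indicator (fun x => ∫ y in Ioo (f x) (g x), H (x, y)) x := by
    intro x
    by_cases hx : x ∈ s
    · rw [indicator_of_mem hx, ← integral_indicator measurableSet_Ioo]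
      refine integral_congr_ae (Eventually.of_forall fun y => ?_)
      simp only [indicator, regionBetween, mem_ofPred_eq, hx, true_and]
    · rw [indicator_of_notMem hx]
      have : ∀ y, (regionBetween f g s).indicator H (x, y) = 0 := fun y =>
        indicator_of_notMem (fun h => hx h.1) _
      simp only [this, integral_zero]
  have h3 : ∫ p in regionBetween f g s, H p = ∫ x in s, ∫ y in Ioo (f x) (g x), H (x, y) := by
    rw [← integral_indicator hm, hv]
    rw [hv] at hi2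
    rw [integral_prod _ hi2, ← integral_indicator hs]
    exact integral_congr_ae (Eventually.of_forall key)
  refine ⟨?_, h3⟩
  rw [hv] at hi2
  have h4 := hi2.integral_prod_left
  rw [← integrable_indicator_iff hs]
  exact (integrable_congr (Eventually.of_forall key)).1 h4


/-! ### the integrand -/

/-- numerator of the weight -/
noncomputable def nn (η X : ℝ) : ℝ := 1 / 2 + η * (7 / 16) * X

theorem nn_bd {η : ℝ} (hη : |η| ≤ 1) {X : ℝ} (hX : |X| ≤ 1 / 2) :
    0 ≤ nn η X ∧ nn η X ≤ 0.72 := by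
  have h1 : |η * X| ≤ |X| := by
    rw [abs_mul]; exact mul_le_of_le_one_left (abs_nonneg _) hη
  obtain ⟨h2, h3⟩ := abs_le.1 h1
  unfold nn
  constructor <;> linarith

/-- the weight on the wall -/
noncomputable def f2 (η : ℝ) (r : ℝ × ℝ) : ℝ := nn η r.1 / (1 + r.1 ^ 2 / 2 + 6 * r.2 ^ 2)

theorem f2_cont (η : ℝ) : Continuous (f2 η) := by
  unfold f2 nn
  refine Continuous.div (by fun_prop) (by fun_prop) fun q => ?_
  positivity

theorem omh_eq (η X W l : ℝ) : omh η ((X, W), l) =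
    nn η X / (1 + X ^ 2 / 2 + 4 * ((√2 / 2 * W - l) ^ 2 + W ^ 2)) := by
  unfold omh nn
  simp only
  congr 1
  ring

theorem omh_up {η : ℝ} (hη : |η| ≤ 1) {X W l : ℝ} (hX : |X| ≤ 1 / 2) (hW0 : 0 ≤ W)
    (hW : √2 * W ≤ 1 / 2) (hl : 0 ≤ l) : omh η ((X, W), l) ≤ f2 η (X, W) + 2 * l := by
  obtain ⟨n0, n1⟩ := nn_bd hη hX
  rw [omh_eq]
  unfold f2
  simp only
  have hD : (1 : ℝ) ≤ 1 + X ^ 2 / 2 + 4 * ((√2 / 2 * W - l) ^ 2 + W ^ 2) := by
    have : 0 ≤ X ^ 2 / 2 + 4 * ((√2 / 2 * W - l) ^ 2 + W ^ 2) := by positivity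
    linarith
  have hE : (1 : ℝ) ≤ 1 + X ^ 2 / 2 + 6 * W ^ 2 := by
    have : 0 ≤ X ^ 2 / 2 + 6 * W ^ 2 := by positivity
    linarith
  have h2 := r2
  have hDE : 1 + X ^ 2 / 2 + 4 * ((√2 / 2 * W - l) ^ 2 + W ^ 2) =
      1 + X ^ 2 / 2 + 6 * W ^ 2 - 4 * (√2 * W) * l + 4 * l ^ 2 := by
    linear_combination W ^ 2 * h2
  set D := 1 + X ^ 2 / 2 + 4 * ((√2 / 2 * W - l) ^ 2 + W ^ 2)
  set E := 1 + X ^ 2 / 2 + 6 * W ^ 2
  rw [div_le_iff₀ (by linarith)]
  have hq : nn η X / E * E = nn η X := div_mul_cancel₀ _ (by linarith)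
  have hq0 : 0 ≤ nn η X / E := div_nonneg n0 (by linarith)
  have hq1 : nn η X / E ≤ 0.72 := (div_le_self n0 hE).trans n1
  set q := nn η X / E
  have h3 : 0 ≤ √2 * W := by positivity
  have h4 : q * (4 * (√2 * W) * l) ≤ 0.72 * (4 * (1 / 2) * l) := by
    refine mul_le_mul hq1 ?_ (by positivity) (by norm_num)
    have := mul_le_mul_of_nonneg_right hW hl
    linarith
  have h5 : 2 * l * 1 ≤ 2 * l * D := mul_le_mul_of_nonneg_left hD (by linarith)
  have h6 : 0 ≤ q * (4 * l ^ 2) := by positivity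
  have h7 : (q + 2 * l) * D = q * E - q * (4 * (√2 * W) * l) + q * (4 * l ^ 2) + 2 * l * D := by
    rw [hDE]; ring
  rw [h7, hq]
  linarith

theorem omh_lo {η : ℝ} (hη : |η| ≤ 1) {X W l : ℝ} (hX : |X| ≤ 1 / 2) (hW0 : 0 ≤ W)
    (hl : 0 ≤ l) (hl1 : l ≤ 1) : f2 η (X, W) - 3 * l ≤ omh η ((X, W), l) := by
  obtain ⟨n0, n1⟩ := nn_bd hη hX
  rw [omh_eq]
  unfold f2
  simp only
  have hD : (1 : ℝ) ≤ 1 + X ^ 2 / 2 + 4 * ((√2 / 2 * W - l) ^ 2 + W ^ 2) := by
    have : 0 ≤ X ^ 2 / 2 + 4 * ((√2 / 2 * W - l) ^ 2 + W ^ 2) := by positivity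
    linarith
  have hE : (1 : ℝ) ≤ 1 + X ^ 2 / 2 + 6 * W ^ 2 := by
    have : 0 ≤ X ^ 2 / 2 + 6 * W ^ 2 := by positivity
    linarith
  have h2 := r2
  have hDE : 1 + X ^ 2 / 2 + 4 * ((√2 / 2 * W - l) ^ 2 + W ^ 2) =
      1 + X ^ 2 / 2 + 6 * W ^ 2 - 4 * (√2 * W) * l + 4 * l ^ 2 := by
    linear_combination W ^ 2 * h2
  set D := 1 + X ^ 2 / 2 + 4 * ((√2 / 2 * W - l) ^ 2 + W ^ 2)
  set E := 1 + X ^ 2 / 2 + 6 * W ^ 2
  rw [le_div_iff₀ (by linarith)]
  have hq : nn η X / E * E = nn η X := div_mul_cancel₀ _ (by linarith)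
  have hq0 : 0 ≤ nn η X / E := div_nonneg n0 (by linarith)
  have hq1 : nn η X / E ≤ 0.72 := (div_le_self n0 hE).trans n1
  set q := nn η X / E
  have h3 : 0 ≤ √2 * W := by positivity
  have h4 : 0 ≤ q * (4 * (√2 * W) * l) := by positivity
  have h5 : 3 * l * 1 ≤ 3 * l * D := mul_le_mul_of_nonneg_left hD (by linarith)
  have h6 : q * (4 * l ^ 2) ≤ 0.72 * (4 * l) := by
    refine mul_le_mul hq1 ?_ (by positivity) (by norm_num)
    nlinarith
  have h7 : (q - 3 * l) * D = q * E - q * (4 * (√2 * W) * l) + q * (4 * l ^ 2) - 3 * l * D := by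
    rw [hDE]; ring
  rw [h7, hq]
  linarith

/-! ### the section -/

/-- transversal coordinate of the end of the section -/
theorem y0_bd {X : ℝ} (hX : |X| ≤ 1 / 2) : ∃ y : ℝ, W0 X = √2 * y ∧
    (1 / 4 - X ^ 2 - 1 / 3 * (1 / 4 - X ^ 2) ^ 2 + 0.18 * (1 / 4 - X ^ 2) ^ 3) / 3 ≤ y ∧
    y ≤ (1 / 4 - X ^ 2 - 0.286 * (1 / 4 - X ^ 2) ^ 2) / 3 := by
  obtain ⟨h1, h2⟩ := qw_W0 hX
  have hr := r2
  have hX2 : X ^ 2 ≤ 1 / 4 := by
    have := sq_abs X
    have h0 := abs_nonneg X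
    nlinarith
  refine ⟨√2 / 2 * W0 X, by linear_combination (-(W0 X) / 2) * hr, ?_⟩
  set y := √2 / 2 * W0 X with hy
  have hy0 : 0 ≤ y := by positivity
  have hW2 : W0 X ^ 2 = 2 * y ^ 2 := by
    rw [hy]; linear_combination (-(W0 X ^ 2) / 2) * hr
  have hq : 3 * y ^ 2 + 3 * y = 1 / 4 - X ^ 2 := by
    unfold qw at h2
    rw [hW2] at h2
    have : 3 * (√2 / 2) * W0 X = 3 * y := by rw [hy]; ring
    linarith
  have hhx : 0 ≤ 1 / 4 - X ^ 2 := by linarith
  have hh1 : 1 / 4 - X ^ 2 ≤ 1 / 4 := by nlinarith [sq_nonneg X]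
  set h := 1 / 4 - X ^ 2
  have hmono : ∀ u : ℝ, 0 ≤ u → (y - u) * (3 * (y + u) + 3) = (3 * y ^ 2 + 3 * y) -
      (3 * u ^ 2 + 3 * u) := fun u _ => by ring
  constructor
  · set u := (h - 1 / 3 * h ^ 2 + 0.18 * h ^ 3) / 3 with hu
    have hu0 : 0 ≤ u := by
      have : 0 ≤ h * (1 - 1 / 3 * h + 0.18 * h ^ 2) := by
        refine mul_nonneg hhx ?_
        nlinarith [sq_nonneg h]
      rw [hu]
      have e : h - 1 / 3 * h ^ 2 + 0.18 * h ^ 3 = h * (1 - 1 / 3 * h + 0.18 * h ^ 2) := by ring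
      rw [e]; linarith
    have h3 : 3 * u ^ 2 + 3 * u ≤ h := by
      have e : 3 * u ^ 2 + 3 * u - h = h ^ 3 * (-(2 / 9) + 0.18 + (1 / 27 + 0.12) * h
          - 0.04 * h ^ 2 + 0.0108 * h ^ 3) := by
        rw [hu]; ring
      have : h ^ 3 * (-(2 / 9) + 0.18 + (1 / 27 + 0.12) * h
          - 0.04 * h ^ 2 + 0.0108 * h ^ 3) ≤ 0 := by
        refine mul_nonpos_of_nonneg_of_nonpos (by positivity) ?_
        have h4 : h ^ 3 ≤ 1 / 4 * h ^ 2 := by nlinarith [sq_nonneg h]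
        nlinarith [sq_nonneg h]
      linarith
    have h4 := hmono u hu0
    by_contra hcon
    rw [not_le] at hcon
    have : (y - u) * (3 * (y + u) + 3) < 0 := mul_neg_of_neg_of_pos (by linarith) (by linarith)
    linarith
  · set u := (h - 0.286 * h ^ 2) / 3 with hu
    have hu0 : 0 ≤ u := by
      have : 0 ≤ h * (1 - 0.286 * h) := mul_nonneg hhx (by linarith)
      rw [hu]
      have e : h - 0.286 * h ^ 2 = h * (1 - 0.286 * h) := by ring
      rw [e]; linarith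
    have h3 : h ≤ 3 * u ^ 2 + 3 * u := by
      have e : 3 * u ^ 2 + 3 * u - h = h ^ 2 * (1 / 3 * (1 - 0.286 * h) ^ 2 - 0.286) := by
        rw [hu]; ring
      have : 0 ≤ h ^ 2 * (1 / 3 * (1 - 0.286 * h) ^ 2 - 0.286) := by
        refine mul_nonneg (by positivity) ?_
        nlinarith
      linarith
    have h4 := hmono u hu0
    by_contra hcon
    rw [not_le] at hcon
    have : 0 < (y - u) * (3 * (y + u) + 3) := mul_pos (by linarith) (by linarith)
    linarith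


/-! ### the inner integrals -/

/-- polynomial of the upper bound -/
noncomputable def Pu (X : ℝ) : ℝ :=
  (1 / 4 - X ^ 2 - 0.286 * (1 / 4 - X ^ 2) ^ 2) / 3 * (1 - X ^ 2 / 2 + X ^ 4 / 4) -
    (1 / 4 - X ^ 2) ^ 3 / 27 * (1 - (1 / 4 - X ^ 2)) * (3.8 - 4 * X ^ 2)

/-- polynomial of the slope -/
noncomputable def Zu (X : ℝ) : ℝ :=
  1 - (X ^ 2 / 2 + 10 / 9 * (1 / 4 - X ^ 2) ^ 2) + (X ^ 2 / 2 + 10 / 9 * (1 / 4 - X ^ 2) ^ 2) ^ 2

/-- polynomial of the lower bound -/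
noncomputable def Plo (X : ℝ) : ℝ :=
  (1 - X ^ 2 / 2) * ((1 / 4 - X ^ 2 - 1 / 3 * (1 / 4 - X ^ 2) ^ 2 +
    0.18 * (1 / 4 - X ^ 2) ^ 3) / 3) - 4 / 27 * (1 / 4 - X ^ 2) ^ 3

theorem sq_le_of_abs {X : ℝ} (hX : |X| ≤ 1 / 2) : X ^ 2 ≤ 1 / 4 := by
  have := sq_abs X
  have h0 := abs_nonneg X
  nlinarith

theorem inner_up {η : ℝ} (hη : |η| ≤ 1) {X δ : ℝ} (hX : |X| ≤ 1 / 2) (hδ : 0 ≤ δ) :
    ∫ W in Ioo (0 : ℝ) (W0 X + δ), f2 η (X, W) ≤ nn η X * (√2 * Pu X + δ * Zu X) := by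
  obtain ⟨n0, n1⟩ := nn_bd hη hX
  obtain ⟨y, hy, hyl, hyu⟩ := y0_bd hX
  obtain ⟨hW0, _⟩ := qw_W0 hX
  have hX2 := sq_le_of_abs hX
  have hr := r2
  have hc : Continuous fun W : ℝ => f2 η (X, W) := (f2_cont η).comp (by fun_prop)
  rw [← integral_Ioc_eq_integral_Ioo, ← intervalIntegral.integral_of_le (by linarith),
    ← intervalIntegral.integral_add_adjacent_intervals (b := W0 X)
      (hc.intervalIntegrable _ _) (hc.intervalIntegrable _ _)]
  set h := 1 / 4 - X ^ 2 with hh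
  have hh0 : 0 ≤ h := by linarith
  have hh1 : h ≤ 1 / 4 := by nlinarith [sq_nonneg X]
  have hs2 : (0 : ℝ) < √2 := by positivity
  have hy0 : 0 ≤ y := by
    rw [hy] at hW0
    by_contra hcon
    rw [not_le] at hcon
    have := mul_neg_of_pos_of_neg hs2 hcon
    linarith
  -- first part
  have h1 : ∫ W in (0 : ℝ)..W0 X, f2 η (X, W) ≤ nn η X * (√2 * Pu X) := by
    have h2 : ∫ W in (0 : ℝ)..W0 X, f2 η (X, W) ≤
        ∫ W in (0 : ℝ)..W0 X, nn η X * (1 - (X ^ 2 / 2 + 6 * W ^ 2) +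
          (X ^ 2 / 2 + 6 * W ^ 2) ^ 2) := by
      refine intervalIntegral.integral_mono_on hW0 (hc.intervalIntegrable _ _)
        ((by fun_prop : Continuous fun W : ℝ => nn η X * (1 - (X ^ 2 / 2 + 6 * W ^ 2) +
          (X ^ 2 / 2 + 6 * W ^ 2) ^ 2)).intervalIntegrable _ _) fun W hW => ?_
      unfold f2
      simp only
      have hz : 0 ≤ X ^ 2 / 2 + 6 * W ^ 2 := by positivity
      rw [div_le_iff₀ (by linarith), mul_assoc]
      refine le_mul_of_one_le_right n0 ?_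
      have e : (1 - (X ^ 2 / 2 + 6 * W ^ 2) + (X ^ 2 / 2 + 6 * W ^ 2) ^ 2) *
          (1 + X ^ 2 / 2 + 6 * W ^ 2) = 1 + (X ^ 2 / 2 + 6 * W ^ 2) ^ 3 := by ring
      rw [e]
      have : 0 ≤ (X ^ 2 / 2 + 6 * W ^ 2) ^ 3 := by positivity
      linarith
    have h3 : ∫ W in (0 : ℝ)..W0 X, nn η X * (1 - (X ^ 2 / 2 + 6 * W ^ 2) +
          (X ^ 2 / 2 + 6 * W ^ 2) ^ 2) = nn η X * (W0 X * (1 - X ^ 2 / 2 + X ^ 4 / 4) -
            2 * W0 X ^ 3 * (1 - X ^ 2) + 36 / 5 * W0 X ^ 5) := by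
      rw [intervalIntegral.integral_const_mul]
      congr 1
      have hd : ∀ W ∈ uIcc (0 : ℝ) (W0 X), HasDerivAt (fun W : ℝ =>
          (1 - X ^ 2 / 2 + X ^ 4 / 4) * W - 2 * (1 - X ^ 2) * W ^ 3 + 36 / 5 * W ^ 5)
          (1 - (X ^ 2 / 2 + 6 * W ^ 2) + (X ^ 2 / 2 + 6 * W ^ 2) ^ 2) W := by
        intro W _
        have k1 := (hasDerivAt_id W).const_mul (1 - X ^ 2 / 2 + X ^ 4 / 4)
        have k3 : HasDerivAt (fun W : ℝ => W ^ 3) (3 * W ^ 2) W := by
          simpa using hasDerivAt_pow 3 W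
        have k5 : HasDerivAt (fun W : ℝ => W ^ 5) (5 * W ^ 4) W := by
          simpa using hasDerivAt_pow 5 W
        have k := (k1.sub (k3.const_mul (2 * (1 - X ^ 2)))).add (k5.const_mul (36 / 5))
        exact k.congr_deriv (by ring)
      rw [intervalIntegral.integral_eq_sub_of_hasDerivAt hd
        ((by fun_prop : Continuous fun W : ℝ => (1 - (X ^ 2 / 2 + 6 * W ^ 2) +
          (X ^ 2 / 2 + 6 * W ^ 2) ^ 2)).intervalIntegrable _ _)]
      ring
    refine h2.trans ?_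
    rw [h3]
    refine mul_le_mul_of_nonneg_left ?_ n0
    have e : W0 X * (1 - X ^ 2 / 2 + X ^ 4 / 4) - 2 * W0 X ^ 3 * (1 - X ^ 2) +
        36 / 5 * W0 X ^ 5 = √2 * (y * (1 - X ^ 2 / 2 + X ^ 4 / 4) - 4 * y ^ 3 * (1 - X ^ 2) +
          144 / 5 * y ^ 5) := by
      rw [hy]
      linear_combination (-(2 * (√2 * y ^ 3) * (1 - X ^ 2)) +
        36 / 5 * √2 * y ^ 5 * (√2 * √2 + 2)) * hr
    rw [e]
    refine mul_le_mul_of_nonneg_left ?_ hs2.le
    unfold Pu
    rw [← hh]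
    have hA : 0 ≤ 1 - X ^ 2 / 2 + X ^ 4 / 4 := by nlinarith [sq_nonneg (X ^ 2)]
    have k1 := mul_le_mul_of_nonneg_right hyu hA
    have hyh : y ≤ h / 3 := by nlinarith [sq_nonneg h]
    have hy12 : y ≤ 1 / 12 := by linarith
    have hl : h / 3 * (1 - h / 3) ≤ y := by
      have : h / 3 * (1 - h / 3) ≤ (h - 1 / 3 * h ^ 2 + 0.18 * h ^ 3) / 3 := by
        have : 0 ≤ h ^ 3 := by positivity
        nlinarith
      linarith
    have hl0 : 0 ≤ h / 3 * (1 - h / 3) := mul_nonneg (by linarith) (by linarith)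
    have hl3 : (h / 3 * (1 - h / 3)) ^ 3 ≤ y ^ 3 := pow_le_pow_left₀ hl0 hl 3
    have hl4 : h ^ 3 / 27 * (1 - h) ≤ (h / 3 * (1 - h / 3)) ^ 3 := by
      have e1 : (h / 3 * (1 - h / 3)) ^ 3 = h ^ 3 / 27 * (1 - h / 3) ^ 3 := by ring
      rw [e1]
      refine mul_le_mul_of_nonneg_left ?_ (by positivity)
      have e2 : (1 - h / 3) ^ 3 - (1 - h) = h ^ 2 * (1 / 3 - h / 27) := by ring
      have : 0 ≤ h ^ 2 * (1 / 3 - h / 27) := mul_nonneg (by positivity) (by linarith)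
      linarith
    have hB : 0 ≤ 3.8 - 4 * X ^ 2 := by linarith
    have k2 := mul_le_mul_of_nonneg_right (hl4.trans hl3) hB
    have k3 : 144 / 5 * y ^ 5 ≤ 0.2 * y ^ 3 := by
      have e1 : 144 / 5 * y ^ 5 = y ^ 3 * (144 / 5 * y ^ 2) := by ring
      rw [e1]
      have : y ^ 2 ≤ 1 / 144 := by nlinarith
      have h5 : y ^ 3 * (144 / 5 * y ^ 2) ≤ y ^ 3 * 0.2 :=
        mul_le_mul_of_nonneg_left (by linarith) (by positivity)
      linarith
    linarith
  -- second part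
  have h2 : ∫ W in W0 X..W0 X + δ, f2 η (X, W) ≤ nn η X * (δ * Zu X) := by
    have h3 : ∫ W in W0 X..W0 X + δ, f2 η (X, W) ≤ ∫ W in W0 X..W0 X + δ, nn η X * Zu X := by
      refine intervalIntegral.integral_mono_on (by linarith) (hc.intervalIntegrable _ _)
        intervalIntegrable_const fun W hW => ?_
      unfold f2
      simp only
      have hWW : 2 * y ^ 2 ≤ W ^ 2 := by
        have h4 : W0 X ^ 2 ≤ W ^ 2 := pow_le_pow_left₀ hW0 hW.1 2
        have h5 : W0 X ^ 2 = 2 * y ^ 2 := by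
          rw [hy]; linear_combination y ^ 2 * hr
        linarith
      have hyz : 10 / 9 * h ^ 2 ≤ 12 * y ^ 2 := by
        have hl : h / 3 * (1 - h / 3) ≤ y := by
          have : h / 3 * (1 - h / 3) ≤ (h - 1 / 3 * h ^ 2 + 0.18 * h ^ 3) / 3 := by
            have : 0 ≤ h ^ 3 := by positivity
            nlinarith
          linarith
        have hl0 : 0 ≤ h / 3 * (1 - h / 3) := mul_nonneg (by linarith) (by linarith)
        have hl2 : (h / 3 * (1 - h / 3)) ^ 2 ≤ y ^ 2 := pow_le_pow_left₀ hl0 hl 2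
        have e1 : (h / 3 * (1 - h / 3)) ^ 2 = h ^ 2 * ((1 - h / 3) ^ 2 / 9) := by ring
        have h6 : h ^ 2 * (5 / 54) ≤ h ^ 2 * ((1 - h / 3) ^ 2 / 9) := by
          refine mul_le_mul_of_nonneg_left ?_ (by positivity)
          nlinarith
        linarith
      set z := X ^ 2 / 2 + 10 / 9 * h ^ 2 with hz
      have hz0 : 0 ≤ z := by positivity
      have hZ : Zu X = 1 - z + z ^ 2 := by unfold Zu; rfl
      have hZ0 : 0 ≤ 1 - z + z ^ 2 := by nlinarith [sq_nonneg (z - 1 / 2)]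
      have hD : 1 + z ≤ 1 + X ^ 2 / 2 + 6 * W ^ 2 := by rw [hz]; linarith
      rw [hZ, div_le_iff₀ (by linarith), mul_assoc]
      refine le_mul_of_one_le_right n0 ?_
      have h7 : (1 - z + z ^ 2) * (1 + z) ≤ (1 - z + z ^ 2) * (1 + X ^ 2 / 2 + 6 * W ^ 2) :=
        mul_le_mul_of_nonneg_left hD hZ0
      have h8 : (1 - z + z ^ 2) * (1 + z) = 1 + z ^ 3 := by ring
      have h9 : 0 ≤ z ^ 3 := by positivity
      linarith
    refine h3.trans (le_of_eq ?_)
    rw [intervalIntegral.integral_const]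
    simp only [smul_eq_mul]
    ring
  have e : nn η X * (√2 * Pu X + δ * Zu X) = nn η X * (√2 * Pu X) + nn η X * (δ * Zu X) := by ring
  rw [e]
  linarith

theorem inner_lo {η : ℝ} (hη : |η| ≤ 1) {X δ w : ℝ} (hX : |X| ≤ 1 / 2) (hδ : 0 ≤ δ)
    (hw : 0 ≤ w) : nn η X * (√2 * Plo X - δ * (1 - X ^ 2 / 2) - w) ≤
      ∫ W in Ioo w (W0 X - δ), f2 η (X, W) := by
  obtain ⟨n0, n1⟩ := nn_bd hη hX
  obtain ⟨y, hy, hyl, hyu⟩ := y0_bd hX
  obtain ⟨hW0, _⟩ := qw_W0 hX
  have hX2 := sq_le_of_abs hX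
  have hr := r2
  have hc : Continuous fun W : ℝ => f2 η (X, W) := (f2_cont η).comp (by fun_prop)
  set h := 1 / 4 - X ^ 2 with hh
  have hh0 : 0 ≤ h := by linarith
  have hh1 : h ≤ 1 / 4 := by nlinarith [sq_nonneg X]
  have hs2 : (0 : ℝ) < √2 := by positivity
  have hy0 : 0 ≤ y := by
    rw [hy] at hW0
    by_contra hcon
    rw [not_le] at hcon
    have := mul_neg_of_pos_of_neg hs2 hcon
    linarith
  have hyh : y ≤ h / 3 := by nlinarith [sq_nonneg h]
  have hW3 : W0 X ^ 3 = 2 * √2 * y ^ 3 := by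
    rw [hy]; linear_combination (√2 * y ^ 3) * hr
  have hy3 : y ^ 3 ≤ h ^ 3 / 27 := by
    have := pow_le_pow_left₀ hy0 hyh 3
    have e : (h / 3) ^ 3 = h ^ 3 / 27 := by ring
    linarith
  have hP : √2 * Plo X ≤ (1 - X ^ 2 / 2) * W0 X - 2 * W0 X ^ 3 := by
    have e : (1 - X ^ 2 / 2) * W0 X - 2 * W0 X ^ 3 = √2 * ((1 - X ^ 2 / 2) * y - 4 * y ^ 3) := by
      rw [hW3, hy]; ring
    rw [e]
    refine mul_le_mul_of_nonneg_left ?_ hs2.le
    unfold Plo
    rw [← hh]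
    have k1 := mul_le_mul_of_nonneg_left hyl (show 0 ≤ 1 - X ^ 2 / 2 by linarith)
    linarith
  rcases le_or_gt (W0 X - δ) w with hle | hlt
  · rw [Ioo_eq_empty (not_lt.2 hle), setIntegral_empty]
    refine mul_nonpos_of_nonneg_of_nonpos n0 ?_
    have h3 : 0 ≤ W0 X ^ 3 := by positivity
    have h4 : (1 - X ^ 2 / 2) * (W0 X - δ) ≤ (1 - X ^ 2 / 2) * w :=
      mul_le_mul_of_nonneg_left hle (by linarith)
    have h5 : (1 - X ^ 2 / 2) * w ≤ 1 * w :=
      mul_le_mul_of_nonneg_right (by nlinarith [sq_nonneg X]) hw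
    linarith
  · rw [← integral_Ioc_eq_integral_Ioo, ← intervalIntegral.integral_of_le hlt.le]
    have h2 : ∫ W in w..W0 X - δ, nn η X * (1 - (X ^ 2 / 2 + 6 * W ^ 2)) ≤
        ∫ W in w..W0 X - δ, f2 η (X, W) := by
      refine intervalIntegral.integral_mono_on hlt.le
        ((by fun_prop : Continuous fun W : ℝ => nn η X * (1 - (X ^ 2 / 2 + 6 * W ^ 2))
          ).intervalIntegrable _ _) (hc.intervalIntegrable _ _) fun W hW => ?_
      unfold f2
      simp only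
      have hz : 0 ≤ X ^ 2 / 2 + 6 * W ^ 2 := by positivity
      rw [le_div_iff₀ (by linarith), mul_assoc]
      refine mul_le_of_le_one_right n0 ?_
      have e : (1 - (X ^ 2 / 2 + 6 * W ^ 2)) * (1 + X ^ 2 / 2 + 6 * W ^ 2) =
        1 - (X ^ 2 / 2 + 6 * W ^ 2) ^ 2 := by ring
      rw [e]
      have : 0 ≤ (X ^ 2 / 2 + 6 * W ^ 2) ^ 2 := by positivity
      linarith
    have h3 : ∫ W in w..W0 X - δ, nn η X * (1 - (X ^ 2 / 2 + 6 * W ^ 2)) =
        nn η X * (((1 - X ^ 2 / 2) * (W0 X - δ) - 2 * (W0 X - δ) ^ 3) -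
          ((1 - X ^ 2 / 2) * w - 2 * w ^ 3)) := by
      rw [intervalIntegral.integral_const_mul]
      congr 1
      have hd : ∀ W ∈ uIcc w (W0 X - δ), HasDerivAt (fun W : ℝ =>
          (1 - X ^ 2 / 2) * W - 2 * W ^ 3) (1 - (X ^ 2 / 2 + 6 * W ^ 2)) W := by
        intro W _
        have k1 := (hasDerivAt_id W).const_mul (1 - X ^ 2 / 2)
        have k3 : HasDerivAt (fun W : ℝ => W ^ 3) (3 * W ^ 2) W := by
          simpa using hasDerivAt_pow 3 W
        have k := k1.sub (k3.const_mul 2)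
        exact k.congr_deriv (by ring)
      rw [intervalIntegral.integral_eq_sub_of_hasDerivAt hd
        ((by fun_prop : Continuous fun W : ℝ => (1 - (X ^ 2 / 2 + 6 * W ^ 2))
          ).intervalIntegrable _ _)]
    refine le_trans ?_ h2
    rw [h3]
    refine mul_le_mul_of_nonneg_left ?_ n0
    have h4 : (W0 X - δ) ^ 3 ≤ W0 X ^ 3 :=
      pow_le_pow_left₀ (by linarith) (by linarith) 3
    have h5 : (1 - X ^ 2 / 2) * w ≤ 1 * w :=
      mul_le_mul_of_nonneg_right (by nlinarith [sq_nonneg X]) hw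
    have h6 : 0 ≤ w ^ 3 := by positivity
    linarith


/-! ### the outer integrals -/

theorem hpow (k : ℕ) (c x : ℝ) : HasDerivAt (fun x : ℝ => c * x ^ (k + 1))
    (c * ((k + 1) * x ^ k)) x := by
  have h := (hasDerivAt_pow (k + 1) x).const_mul c
  simpa using h

theorem int_Pu (η : ℝ) : ∫ x in (-(1 / 2) : ℝ)..(1 / 2), nn η x * Pu x = 301530503 / 11975040000 := by
  have hd : ∀ x ∈ uIcc (-(1 / 2) : ℝ) (1 / 2), HasDerivAt (fun x : ℝ =>
      (21809 / 576000) * x ^ 1 + 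
      ((-(131771 / 2592000))) * x ^ 3 + 
      ((-(3847 / 8640000))) * x ^ 5 + 
      (229 / 100800) * x ^ 7 + 
      (6313 / 972000) * x ^ 9 + 
      ((-(2 / 297))) * x ^ 11 + 
      η * (152663 / 9216000) * x ^ 2 + 
      η * ((-(922397 / 27648000))) * x ^ 4 + 
      η * ((-(26929 / 82944000))) * x ^ 6 + 
      η * (1603 / 921600) * x ^ 8 + 
      η * (44191 / 8640000) * x ^ 10 + 
      η * ((-(7 / 1296))) * x ^ 12) (nn η x * Pu x) x := by
    intro x _
    have k := ((((((((((((hpow 0 ((21809 / 576000)) x)).add (hpow 2 (((-(131771 / 2592000)))) x)).add (hpow 4 (((-(3847 / 8640000)))) x)).add (hpow 6 ((229 / 100800)) x)).add (hpow 8 ((6313 / 972000)) x)).add (hpow 10 (((-(2 / 297)))) x)).add (hpow 1 (η * (152663 / 9216000)) x)).add (hpow 3 (η * ((-(922397 / 27648000)))) x)).add (hpow 5 (η * ((-(26929 / 82944000)))) x)).add (hpow 7 (η * (1603 / 921600)) x)).add (hpow 9 (η * (44191 / 8640000)) x)).add (hpow 11 (η * ((-(7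 / 1296)))) x)
    refine k.congr_deriv ?_
    unfold nn Pu
    push_cast
    ring
  rw [intervalIntegral.integral_eq_sub_of_hasDerivAt hd
    ((by unfold nn Pu; fun_prop : Continuous fun x : ℝ => nn η x * Pu x).intervalIntegrable _ _)]
  ring

theorem int_Zu (η : ℝ) : ∫ x in (-(1 / 2) : ℝ)..(1 / 2), nn η x * Zu x = 1514903 / 3265920 := by
  have hd : ∀ x ∈ uIcc (-(1 / 2) : ℝ) (1 / 2), HasDerivAt (fun x : ℝ =>
      (4849 / 10368) * x ^ 1 + 
      (31 / 3888) * x ^ 3 + 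
      ((-(103 / 1080))) * x ^ 5 + 
      ((-(5 / 567))) * x ^ 7 + 
      (50 / 729) * x ^ 9 + 
      η * (33943 / 165888) * x ^ 2 + 
      η * (217 / 41472) * x ^ 4 + 
      η * ((-(721 / 10368))) * x ^ 6 + 
      η * ((-(35 / 5184))) * x ^ 8 + 
      η * (35 / 648) * x ^ 10) (nn η x * Zu x) x := by
    intro x _
    have k := ((((((((((hpow 0 ((4849 / 10368)) x)).add (hpow 2 ((31 / 3888)) x)).add (hpow 4 (((-(103 / 1080)))) x)).add (hpow 6 (((-(5 / 567)))) x)).add (hpow 8 ((50 / 729)) x)).add (hpow 1 (η * (33943 / 165888)) x)).add (hpow 3 (η * (217 / 41472)) x)).add (hpow 5 (η * ((-(721 / 10368)))) x)).add (hpow 7 (η * ((-(35 / 5184)))) x)).add (hpow 9 (η * (35 / 648)) x)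
    refine k.congr_deriv ?_
    unfold nn Zu
    push_cast
    ring
  rw [intervalIntegral.integral_eq_sub_of_hasDerivAt hd
    ((by unfold nn Zu; fun_prop : Continuous fun x : ℝ => nn η x * Zu x).intervalIntegrable _ _)]
  ring

theorem int_Pl (η : ℝ) : ∫ x in (-(1 / 2) : ℝ)..(1 / 2), nn η x * Plo x = 10777 / 432000 := by
  have hd : ∀ x ∈ uIcc (-(1 / 2) : ℝ) (1 / 2), HasDerivAt (fun x : ℝ =>
      (6481 / 172800) * x ^ 1 + 
      ((-(691 / 13824))) * x ^ 3 + 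
      ((-(157 / 48000))) * x ^ 5 + 
      (187 / 21600) * x ^ 7 + 
      (1 / 600) * x ^ 9 + 
      η * (45367 / 2764800) * x ^ 2 + 
      η * ((-(4837 / 147456))) * x ^ 4 + 
      η * ((-(1099 / 460800))) * x ^ 6 + 
      η * (9163 / 1382400) * x ^ 8 + 
      η * (21 / 16000) * x ^ 10) (nn η x * Plo x) x := by
    intro x _
    have k := ((((((((((hpow 0 ((6481 / 172800)) x)).add (hpow 2 (((-(691 / 13824)))) x)).add (hpow 4 (((-(157 / 48000)))) x)).add (hpow 6 ((187 / 21600)) x)).add (hpow 8 ((1 / 600)) x)).add (hpow 1 (η * (45367 / 2764800)) x)).add (hpow 3 (η * ((-(4837 / 147456)))) x)).add (hpow 5 (η * ((-(1099 / 460800)))) x)).add (hpow 7 (η * (9163 / 1382400)) x)).add (hpow 9 (η * (21 / 16000)) x)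
    refine k.congr_deriv ?_
    unfold nn Plo
    push_cast
    ring
  rw [intervalIntegral.integral_eq_sub_of_hasDerivAt hd
    ((by unfold nn Plo; fun_prop : Continuous fun x : ℝ => nn η x * Plo x).intervalIntegrable _ _)]
  ring


theorem Wlow_bdd {e d w : ℝ} (hw : 0 ≤ w) (hδ : ∀ X : ℝ, |X| ≤ 1 / 2 → 0 ≤ e + d * X) :
    Bornology.IsBounded (Wlow e d w) := by
  have h : Wlow e d w ⊆ Icc (-(1 / 2)) (1 / 2) ×ˢ Icc 0 1 := by
    rintro ⟨X, W⟩ hp
    unfold Wlow regionBetween at hp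
    simp only [mem_ofPred_eq, mem_Ioo] at hp
    obtain ⟨h1, h2, h3⟩ := hp
    refine ⟨⟨h1.1.le, h1.2⟩, by simp only; linarith, ?_⟩
    have h4 := W0_le X
    have h5 : 0 ≤ √2 / 3 * (e + d * X) :=
      mul_nonneg (by positivity) (hδ X (abs_le.2 ⟨h1.1.le, h1.2⟩))
    simp only
    linarith
  exact ((isBounded_Icc _ _).prod (isBounded_Icc _ _)).subset h

/-- **upper wall integral** -/
theorem Wup_int {η : ℝ} (hη : |η| ≤ 1) {e C : ℝ} (he : 0 ≤ e) (hC : 0 ≤ C) :
    ∫ r in Wup e, (f2 η r + C) ≤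
      √2 * (301530503 / 11975040000 + 1514903 / 9797760 * e) + C * (1 + √2 / 3 * e) := by
  have hδ : 0 ≤ √2 / 3 * e := by positivity
  have hH : Continuous (fun r : ℝ × ℝ => f2 η r + C) := (f2_cont η).add continuous_const
  obtain ⟨hi, hint⟩ := int_reg (f := fun _ => (0 : ℝ)) (g := fun X => W0 X + √2 / 3 * e)
    (s := Icc (-(1 / 2)) (1 / 2)) continuous_const (W0_cont.add continuous_const)
    measurableSet_Icc hH (Wup_bdd e)
  have hW : Wup e = regionBetween (fun _ => (0 : ℝ)) (fun X => W0 X + √2 / 3 * e)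
    (Icc (-(1 / 2)) (1 / 2)) := rfl
  rw [hW, hint]
  have hG : Continuous (fun x : ℝ => √2 * (nn η x * Pu x) + √2 / 3 * e * (nn η x * Zu x) +
      C * (1 + √2 / 3 * e)) := by
    unfold nn Pu Zu
    fun_prop
  have h1 : ∫ x in Icc (-(1 / 2) : ℝ) (1 / 2), ∫ y in Ioo 0 (W0 x + √2 / 3 * e),
      (f2 η (x, y) + C) ≤ ∫ x in Icc (-(1 / 2) : ℝ) (1 / 2),
      (√2 * (nn η x * Pu x) + √2 / 3 * e * (nn η x * Zu x) + C * (1 + √2 / 3 * e)) := by
    refine setIntegral_mono_on hi (hG.continuousOn.integrableOn_compact isCompact_Icc)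
      measurableSet_Icc fun x hx => ?_
    have hX : |x| ≤ 1 / 2 := abs_le.2 hx
    have hc : Continuous fun y : ℝ => f2 η (x, y) := (f2_cont η).comp (by fun_prop)
    have hi1 : IntegrableOn (fun y : ℝ => f2 η (x, y)) (Ioo 0 (W0 x + √2 / 3 * e)) :=
      (hc.continuousOn.integrableOn_compact isCompact_Icc).mono_set Ioo_subset_Icc_self
    have hi2 : IntegrableOn (fun _ : ℝ => C) (Ioo 0 (W0 x + √2 / 3 * e)) :=
      (continuous_const.continuousOn.integrableOn_compact isCompact_Icc).mono_set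
        Ioo_subset_Icc_self
    rw [integral_add hi1 hi2, setIntegral_const, Real.volume_real_Ioo, smul_eq_mul]
    have h2 := inner_up hη hX hδ
    have h3 : max (W0 x + √2 / 3 * e - 0) 0 * C ≤ (1 + √2 / 3 * e) * C := by
      refine mul_le_mul_of_nonneg_right (max_le ?_ ?_) hC
      · have := W0_le x
        linarith
      · linarith
    linarith
  refine h1.trans (le_of_eq ?_)
  rw [integral_Icc_eq_integral_Ioc, ← intervalIntegral.integral_of_le (by norm_num)]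
  have c1 : Continuous fun x : ℝ => nn η x * Pu x := by unfold nn Pu; fun_prop
  have c2 : Continuous fun x : ℝ => nn η x * Zu x := by unfold nn Zu; fun_prop
  have d1 : Continuous fun x : ℝ => √2 * (nn η x * Pu x) := continuous_const.mul c1
  have d2 : Continuous fun x : ℝ => √2 / 3 * e * (nn η x * Zu x) := continuous_const.mul c2
  have d3 : Continuous fun x : ℝ => √2 * (nn η x * Pu x) + √2 / 3 * e * (nn η x * Zu x) :=
    d1.add d2
  rw [intervalIntegral.integral_add (d3.intervalIntegrable _ _) (by simp),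
    intervalIntegral.integral_add (d1.intervalIntegrable _ _) (d2.intervalIntegrable _ _),
    intervalIntegral.integral_const_mul, intervalIntegral.integral_const_mul, int_Pu, int_Zu,
    intervalIntegral.integral_const]
  simp only [smul_eq_mul]
  ring

theorem int_lin (η e d : ℝ) : ∫ x in (-(1 / 2) : ℝ)..(1 / 2),
    nn η x * ((e + d * x) * (1 - x ^ 2 / 2)) = 23 / 48 * e + 259 / 7680 * (η * d) := by
  have hd : ∀ x ∈ uIcc (-(1 / 2) : ℝ) (1 / 2), HasDerivAt (fun x : ℝ =>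
      (1 / 2 * e) * x ^ 1 + (1 / 2 * (1 / 2 * d + η * (7 / 16) * e)) * x ^ 2 +
      (1 / 3 * (η * (7 / 16) * d - 1 / 4 * e)) * x ^ 3 +
      (1 / 4 * (-(1 / 2) * (1 / 2 * d + η * (7 / 16) * e))) * x ^ 4 +
      (1 / 5 * (-(1 / 2) * (η * (7 / 16) * d))) * x ^ 5)
      (nn η x * ((e + d * x) * (1 - x ^ 2 / 2))) x := by
    intro x _
    have k := ((((hpow 0 (1 / 2 * e) x).add
      (hpow 1 (1 / 2 * (1 / 2 * d + η * (7 / 16) * e)) x)).add
      (hpow 2 (1 / 3 * (η * (7 / 16) * d - 1 / 4 * e)) x)).add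
      (hpow 3 (1 / 4 * (-(1 / 2) * (1 / 2 * d + η * (7 / 16) * e))) x)).add
      (hpow 4 (1 / 5 * (-(1 / 2) * (η * (7 / 16) * d))) x)
    refine k.congr_deriv ?_
    unfold nn
    push_cast
    ring
  rw [intervalIntegral.integral_eq_sub_of_hasDerivAt hd
    ((by unfold nn; fun_prop : Continuous fun x : ℝ =>
      nn η x * ((e + d * x) * (1 - x ^ 2 / 2))).intervalIntegrable _ _)]
  ring

theorem int_nn (η : ℝ) : ∫ x in (-(1 / 2) : ℝ)..(1 / 2), nn η x = 1 / 2 := by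
  have hd : ∀ x ∈ uIcc (-(1 / 2) : ℝ) (1 / 2), HasDerivAt (fun x : ℝ =>
      (1 / 2) * x ^ 1 + (1 / 2 * (η * (7 / 16))) * x ^ 2) (nn η x) x := by
    intro x _
    have k := (hpow 0 (1 / 2) x).add (hpow 1 (1 / 2 * (η * (7 / 16))) x)
    refine k.congr_deriv ?_
    unfold nn
    push_cast
    ring
  rw [intervalIntegral.integral_eq_sub_of_hasDerivAt hd
    ((by unfold nn; fun_prop : Continuous fun x : ℝ => nn η x).intervalIntegrable _ _)]
  ring

/-- **lower wall integral** -/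
theorem Wlow_int {η : ℝ} (hη : |η| ≤ 1) {e d w C : ℝ} (hw : 0 ≤ w) (hC : 0 ≤ C)
    (hδ : ∀ X : ℝ, |X| ≤ 1 / 2 → 0 ≤ e + d * X) :
    √2 * (10777 / 432000 - 23 / 144 * e - 259 / 23040 * (η * d)) - w / 2 - C ≤
      ∫ r in Wlow e d w, (f2 η r - C) := by
  have hH : Continuous (fun r : ℝ × ℝ => f2 η r - C) := (f2_cont η).sub continuous_const
  obtain ⟨hi, hint⟩ := int_reg (f := fun _ => w) (g := fun X => W0 X - √2 / 3 * (e + d * X))
    (s := Ioc (-(1 / 2)) (1 / 2)) continuous_const (W0_cont.sub (by fun_prop))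
    measurableSet_Ioc hH (Wlow_bdd hw hδ)
  have hW : Wlow e d w = regionBetween (fun _ => w) (fun X => W0 X - √2 / 3 * (e + d * X))
    (Ioc (-(1 / 2)) (1 / 2)) := rfl
  rw [hW, hint]
  have c1 : Continuous fun x : ℝ => nn η x * Plo x := by unfold nn Plo; fun_prop
  have c2 : Continuous fun x : ℝ => nn η x * ((e + d * x) * (1 - x ^ 2 / 2)) := by
    unfold nn; fun_prop
  have c3 : Continuous fun x : ℝ => nn η x := by unfold nn; fun_prop
  have hG : Continuous (fun x : ℝ => √2 * (nn η x * Plo x) -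
      √2 / 3 * (nn η x * ((e + d * x) * (1 - x ^ 2 / 2))) - w * nn η x - C) :=
    (((c1.const_mul _).sub (c2.const_mul _)).sub (c3.const_mul _)).sub continuous_const
  have h1 : ∫ x in Ioc (-(1 / 2) : ℝ) (1 / 2), (√2 * (nn η x * Plo x) -
      √2 / 3 * (nn η x * ((e + d * x) * (1 - x ^ 2 / 2))) - w * nn η x - C) ≤
      ∫ x in Ioc (-(1 / 2) : ℝ) (1 / 2), ∫ y in Ioo w (W0 x - √2 / 3 * (e + d * x)),
      (f2 η (x, y) - C) := by
    refine setIntegral_mono_on
      ((hG.continuousOn.integrableOn_compact isCompact_Icc).mono_set Ioc_subset_Icc_self) hi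
      measurableSet_Ioc fun x hx => ?_
    have hX : |x| ≤ 1 / 2 := abs_le.2 ⟨hx.1.le, hx.2⟩
    have hδ0 : 0 ≤ √2 / 3 * (e + d * x) := mul_nonneg (by positivity) (hδ x hX)
    have hc : Continuous fun y : ℝ => f2 η (x, y) := (f2_cont η).comp (by fun_prop)
    have hi1 : IntegrableOn (fun y : ℝ => f2 η (x, y)) (Ioo w (W0 x - √2 / 3 * (e + d * x))) :=
      (hc.continuousOn.integrableOn_compact isCompact_Icc).mono_set Ioo_subset_Icc_self
    have hi2 : IntegrableOn (fun _ : ℝ => C) (Ioo w (W0 x - √2 / 3 * (e + d * x))) :=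
      (continuous_const.continuousOn.integrableOn_compact isCompact_Icc).mono_set
        Ioo_subset_Icc_self
    rw [integral_sub hi1 hi2, setIntegral_const, Real.volume_real_Ioo, smul_eq_mul]
    have h2 := inner_lo hη hX hδ0 hw
    have h3 : max (W0 x - √2 / 3 * (e + d * x) - w) 0 * C ≤ 1 * C := by
      refine mul_le_mul_of_nonneg_right (max_le ?_ zero_le_one) hC
      have := W0_le x
      linarith
    linarith
  refine le_trans (le_of_eq ?_) h1
  rw [← intervalIntegral.integral_of_le (by norm_num)]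
  have d1 : Continuous fun x : ℝ => √2 * (nn η x * Plo x) := continuous_const.mul c1
  have d2 : Continuous fun x : ℝ => √2 / 3 * (nn η x * ((e + d * x) * (1 - x ^ 2 / 2))) :=
    continuous_const.mul c2
  have d3 : Continuous fun x : ℝ => w * nn η x := continuous_const.mul c3
  have d4 : Continuous fun x : ℝ => √2 * (nn η x * Plo x) -
    √2 / 3 * (nn η x * ((e + d * x) * (1 - x ^ 2 / 2))) := d1.sub d2
  have d5 : Continuous fun x : ℝ => √2 * (nn η x * Plo x) -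
    √2 / 3 * (nn η x * ((e + d * x) * (1 - x ^ 2 / 2))) - w * nn η x := d4.sub d3
  rw [intervalIntegral.integral_sub (d5.intervalIntegrable _ _) (by simp),
    intervalIntegral.integral_sub (d4.intervalIntegrable _ _) (d3.intervalIntegrable _ _),
    intervalIntegral.integral_sub (d1.intervalIntegrable _ _) (d2.intervalIntegrable _ _),
    intervalIntegral.integral_const_mul,
    intervalIntegral.integral_const_mul, intervalIntegral.integral_const_mul, int_Pl, int_lin,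
    int_nn, intervalIntegral.integral_const]
  simp only [smul_eq_mul]
  ring


variable (b : OrthonormalBasis (Fin 3) ℝ E3) (c : E3)

/-! ### the weighted wall integrals of a body -/

variable {b c} in
theorem Jw_up {K : Set E3} {s1 s2 s3 s4 s' : ℝ} (hK : IsCompact K)
    (h : Bod b c K s1 s2 s3 s4) (hs' : 0 ≤ s') {η : ℝ} (hη : |η| ≤ 1) {ε : ℝ}
    (hε : ε = 1 ∧ s4 ≤ s' ∨ ε = -1 ∧ s3 ≤ s') (m : ℕ) :
    Jw b c η K ε m ≤ √2 * (301530503 / 11975040000 + 1514903 / 9797760 *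
      (s' + 2 * (1 / ((m : ℝ) + 1)))) + 2 * (1 / ((m : ℝ) + 1)) *
        (1 + √2 / 3 * (s' + 2 * (1 / ((m : ℝ) + 1)))) := by
  have hM : (0 : ℝ) < m + 1 := by positivity
  have he' : 0 ≤ s' + 2 * (1 / ((m : ℝ) + 1)) := by positivity
  have hC : (0 : ℝ) ≤ 2 * (1 / ((m : ℝ) + 1)) := by positivity
  refine le_trans ?_ (Wup_int hη he' hC)
  unfold Jw
  refine wall_upper_w hM (hK.image (Tw_cont b c ε)) (Wup_meas _) (Wup_bdd _) (omh_cont η)
    ((f2_cont η).add continuous_const) (fun r hr => ?_) ?_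
  · have hX : |r.1| ≤ 1 / 2 := abs_le.2 hr.1
    have h1 := (nn_bd hη hX).1
    have h2 : 0 ≤ f2 η r := by
      unfold f2
      exact div_nonneg h1 (by positivity)
    exact add_nonneg h2 hC
  rintro ⟨X, W⟩ l ⟨hl0, hl1⟩ ⟨x, hxK, hx⟩ hlW
  have h2 := r2
  simp only at hlW
  have hεε : ε * ε = 1 := by rcases hε with h | h <;> rw [h.1] <;> norm_num
  have e1 : (co b c x).1 = X := congrArg (fun q : (ℝ × ℝ) × ℝ => q.1.1) hx
  have e2 : (co b c x).2.2 - √2 / 4 = W := congrArg (fun q : (ℝ × ℝ) × ℝ => q.1.2) hx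
  have e3 : √2 / 2 * ((co b c x).2.2 - √2 / 4) - ε * (co b c x).2.1 = l :=
    congrArg (fun q : (ℝ × ℝ) × ℝ => q.2) hx
  rw [e2] at e3
  have hX := h.X_le x hxK
  have hW := h.W_le x hxK
  have hQ : (co b c x).1 ^ 2 + (co b c x).2.1 ^ 2 + ((co b c x).2.2 - √2 / 4) ^ 2
    + ε * (co b c x).2.1 + √2 * ((co b c x).2.2 - √2 / 4) - 1 / 4 ≤ s' := by
    rcases hε with ⟨h3, h4⟩ | ⟨h3, h4⟩
    · have := h.Q4 x hxK
      rw [h3]; linarith
    · have := h.Q3 x hxK
      rw [h3]; linarith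
  rw [e1] at hX hQ
  rw [e2] at hW hQ
  set Y := (co b c x).2.1 with hY
  have hYl : ε * Y = √2 / 2 * W - l := by linarith
  have hY2 : Y ^ 2 = (√2 / 2 * W - l) ^ 2 := by
    rw [← hYl]; linear_combination -(Y ^ 2) * hεε
  rw [hY2, hYl] at hQ
  have hlM : l * (1 + √2 * W) ≤ 3 / 2 * l := by
    have : l * (1 + √2 * W) ≤ l * (1 + 1 / 2) := mul_le_mul_of_nonneg_left (by linarith) hl0.le
    linarith
  have hqw : qw X W ≤ 1 / 4 + (s' + 3 / 2 * (1 / ((m : ℝ) + 1))) := by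
    have h5 : qw X W = (X ^ 2 + (√2 / 2 * W - l) ^ 2 + W ^ 2 + (√2 / 2 * W - l) + √2 * W - 1 / 4)
        + 1 / 4 + l * (1 + √2 * W) - l ^ 2 := by
      unfold qw
      linear_combination -(W ^ 2) / 4 * h2
    have h6 : 0 ≤ l ^ 2 := sq_nonneg l
    have h7 : 3 / 2 * l ≤ 3 / 2 * (1 / ((m : ℝ) + 1)) := by linarith
    linarith
  have hpos : (0 : ℝ) < 1 / ((m : ℝ) + 1) := by positivity
  have hup := up_in (e' := s' + 2 * (1 / ((m : ℝ) + 1))) hX (by positivity)
    (by linarith) hqw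
  have hW0 : 0 < W := by
    by_contra hcon
    rw [not_lt] at hcon
    have : √2 * W ≤ 0 := mul_nonpos_of_nonneg_of_nonpos (by positivity) hcon
    linarith
  refine ⟨?_, ?_⟩
  · unfold Wup regionBetween
    simp only [mem_ofPred_eq, mem_Ioo]
    exact ⟨abs_le.1 hX, hW0, hup⟩
  · have h8 := omh_up hη hX hW0.le hW hl0.le
    linarith

variable {b c} in
theorem Jw_lo {K : Set E3} {s1 s2 s3 s4 : ℝ} (hK : IsCompact K)
    (h : Bod b c K s1 s2 s3 s4) {η : ℝ} (hη : |η| ≤ 1) {ε : ℝ} (hε : ε = 1 ∨ ε = -1) (m : ℕ) :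
    √2 * (10777 / 432000 - 23 / 144 * (0.5774 * (s1 + s2) + 2 * (1 / ((m : ℝ) + 1)))
      - 259 / 23040 * (η * (s1 - s2))) - √2 * (1 / ((m : ℝ) + 1)) / 2 -
        3 * (1 / ((m : ℝ) + 1)) ≤ Jw b c η K ε m := by
  have hM : (0 : ℝ) < m + 1 := by positivity
  have hM1 : (1 : ℝ) / (m + 1) ≤ 1 := by
    rw [div_le_one hM]
    have : (0 : ℝ) ≤ m := Nat.cast_nonneg m
    linarith
  have hs1 := h.s1_nn
  have hs2 := h.s2_nn
  have hpos : (0 : ℝ) < 1 / ((m : ℝ) + 1) := by positivity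
  have hδ : ∀ X : ℝ, |X| ≤ 1 / 2 →
      0 ≤ (0.5774 * (s1 + s2) + 2 * (1 / ((m : ℝ) + 1))) + (s1 - s2) * X := by
    intro X hX
    obtain ⟨hXl, hXu⟩ := abs_le.1 hX
    have h4 : 0 ≤ s1 * (0.5774 + X) := mul_nonneg hs1 (by linarith)
    have h5 : 0 ≤ s2 * (0.5774 - X) := mul_nonneg hs2 (by linarith)
    have h6 : s1 * (0.5774 + X) + s2 * (0.5774 - X) =
      0.5774 * (s1 + s2) + (s1 - s2) * X := by ring
    linarith
  have hw : 0 ≤ √2 * (1 / ((m : ℝ) + 1)) := by positivity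
  have h1 := Wlow_int hη hw (C := 3 * (1 / ((m : ℝ) + 1))) (by positivity) hδ
  refine h1.trans ?_
  unfold Jw
  refine wall_lower_w hM (hK.image (Tw_cont b c ε)) (Wlow_meas _ _ _) (Wlow_bdd hw hδ)
    (omh_cont η) ?_ ((f2_cont η).sub continuous_const) ?_
  · rintro p ⟨x, hx, rfl⟩
    exact (omh_bd hη (h.X_le x hx)).1
  intro r hr l hl
  have e1 : 2 * (1 / ((m : ℝ) + 1)) = 2 / (m + 1) := by ring
  have e2 : √2 * (1 / ((m : ℝ) + 1)) = √2 / (m + 1) := by ring
  rw [e1, e2] at hr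
  obtain ⟨h2, h3⟩ := low_mem h hε m hr hl
  refine ⟨h2, h3, ?_⟩
  obtain ⟨X, W⟩ := r
  unfold Wlow regionBetween at hr
  simp only [mem_ofPred_eq, mem_Ioo, mem_Ioc] at hr
  obtain ⟨⟨hXl, hXu⟩, hWl, hWu⟩ := hr
  have hW0 : 0 ≤ W := (lt_trans (by positivity) hWl).le
  have h4 := omh_lo hη (abs_le.2 ⟨hXl.le, hXu⟩) hW0 hl.1.le (hl.2.le.trans hM1)
  have h5 := hl.2.le
  linarith


/-! ### the flux -/

/-- **the weighted flux of a constant vector** through the cell -/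
theorem fluxg_lim {σ : Measure (E3 × E3)} [IsFiniteMeasure σ] {K : Set E3} (hK : IsCompact K)
    (hσ : ∀ᵐ z ∂σ, z.1 ∈ K ∧ z.2 ∈ K)
    (hU : ∀ G : E3 → E3, ContDiff ℝ ∞ G → ∫ z, ⟪G z.1, z.1 - z.2⟫ ∂σ = ∫ x in K, dvg G x)
    {g : E3 → ℝ} (hg : ContDiff ℝ ∞ g) (v : E3) :
    Tendsto (fun m : ℕ => ⟪nuw b 0, v⟫ * (∫ x in K, g x * jk (m + 1) (Tw b c 1 x)) +
        ⟪nuw b 1, v⟫ * (∫ x in K, g x * jk (m + 1) (Tw b c (-1) x))) atTop
      (𝓝 ((∫ z in {z | z.1 ∈ Cel (nuw b) (cw b c)}, g z.1 * ⟪v, z.1 - z.2⟫ ∂σ) -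
        ∫ x in K ∩ Cel (nuw b) (cw b c), fderiv ℝ g x v)) := by
  classical
  have hCo := Cel_open (nuw b) (cw b c)
  have hKm : MeasurableSet K := hK.isClosed.measurableSet
  have hoc : Continuous g := hg.continuous
  have hyc : Continuous (fun x => fderiv ℝ g x v) :=
    (hg.continuous_fderiv (by simp)).clm_apply continuous_const
  have hc1 : Continuous (fun z : E3 × E3 => g z.1 * ⟪v, z.1 - z.2⟫) :=
    (hoc.comp continuous_fst).mul (by fun_prop)
  obtain ⟨B1, hB1⟩ := (hK.prod hK).bddAbove_image (hc1.abs).continuousOn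
  obtain ⟨B2, hB2⟩ := hK.bddAbove_image (hyc.abs).continuousOn
  have hb1 : ∀ᵐ z ∂σ, |g z.1 * ⟪v, z.1 - z.2⟫| ≤ B1 := by
    filter_upwards [hσ] with z hz
    exact hB1 ⟨z, ⟨hz.1, hz.2⟩, rfl⟩
  -- the identity with the cut-off
  have hid : ∀ m : ℕ, (∫ z, Wf (nuw b) (cw b c) m z.1 * (g z.1 * ⟪v, z.1 - z.2⟫) ∂σ) -
      (∫ x in K, Wf (nuw b) (cw b c) m x * fderiv ℝ g x v)
      = ⟪nuw b 0, v⟫ * (∫ x in K, g x * jk (m + 1) (Tw b c 1 x)) +
        ⟪nuw b 1, v⟫ * (∫ x in K, g x * jk (m + 1) (Tw b c (-1) x)) := by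
    intro m
    have hWc : Continuous (Wf (nuw b) (cw b c) m) :=
      (Wf_cd (nuw b) (cw b c) m (n := 1)).continuous
    have h1 := hU (fun y => Wf (nuw b) (cw b c) m y • (g y • v))
      ((Wf_cd (nuw b) (cw b c) m).smul (hg.smul contDiff_const))
    have h2 : ∀ z : E3 × E3, ⟪Wf (nuw b) (cw b c) m z.1 • (g z.1 • v), z.1 - z.2⟫
        = Wf (nuw b) (cw b c) m z.1 * (g z.1 * ⟪v, z.1 - z.2⟫) := fun z => by
      rw [real_inner_smul_left, real_inner_smul_left]
    simp only [h2] at h1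
    rw [h1]
    have h3 : ∀ x : E3, dvg (fun y => Wf (nuw b) (cw b c) m y • (g y • v)) x =
        Wf (nuw b) (cw b c) m x * fderiv ℝ g x v +
          (⟪nuw b 0, v⟫ * (g x * jk (m + 1) (Tw b c 1 x)) +
            ⟪nuw b 1, v⟫ * (g x * jk (m + 1) (Tw b c (-1) x))) := by
      intro x
      have hd : DifferentiableAt ℝ g x := (hg.differentiable (by simp)) x
      have h4 := dvg_smul (W := Wf (nuw b) (cw b c) m) (G := fun y => g y • v)
        (x := x) ((Wf_cd (nuw b) (cw b c) m (n := 1)).differentiable one_ne_zero x)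
        (hd.smul_const v)
      have h4' := dvg_smul (W := g) (G := fun _ : E3 => v)
        (x := x) hd (differentiableAt_const v)
      have h5 : dvg (fun _ : E3 => v) x = 0 := by
        unfold dvg
        rw [fderiv_fun_const]
        simp
      rw [h5, mul_zero, zero_add] at h4'
      have h6 : fderiv ℝ (Wf (nuw b) (cw b c) m) x (g x • v) =
          g x * (⟪nuw b 0, v⟫ * jk (m + 1) (Tw b c 1 x) +
            ⟪nuw b 1, v⟫ * jk (m + 1) (Tw b c (-1) x)) := by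
        rw [map_smul, Wf_dir, smul_eq_mul]
      rw [h4, h4', h6]
      ring
    have h6 : (fun x : E3 => dvg (fun y => Wf (nuw b) (cw b c) m y • (g y • v)) x) =
        fun x => Wf (nuw b) (cw b c) m x * fderiv ℝ g x v +
          (⟪nuw b 0, v⟫ * (g x * jk (m + 1) (Tw b c 1 x)) +
            ⟪nuw b 1, v⟫ * (g x * jk (m + 1) (Tw b c (-1) x))) := funext h3
    rw [h6]
    have hi0 : IntegrableOn (fun x => Wf (nuw b) (cw b c) m x * fderiv ℝ g x v) K :=
      (hWc.mul hyc).continuousOn.integrableOn_compact hK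
    have hi : ∀ ε : ℝ, IntegrableOn (fun x => g x * jk (m + 1) (Tw b c ε x)) K := by
      intro ε
      refine ContinuousOn.integrableOn_compact hK (Continuous.continuousOn ?_)
      exact hoc.mul ((jk_cont _).comp (Tw_cont b c ε))
    have hj : ∀ (ε : ℝ) (A : ℝ), IntegrableOn (fun x => A * (g x * jk (m + 1) (Tw b c ε x))) K :=
      fun ε A => (hi ε).const_mul A
    have hj2 : IntegrableOn (fun x => ⟪nuw b 0, v⟫ * (g x * jk (m + 1) (Tw b c 1 x)) +
        ⟪nuw b 1, v⟫ * (g x * jk (m + 1) (Tw b c (-1) x))) K := (hj 1 _).add (hj (-1) _)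
    rw [integral_add hi0 hj2, integral_add (hj 1 _) (hj (-1) _), integral_const_mul,
      integral_const_mul]
    ring
  -- limit of the left side
  have hl1 : Tendsto (fun m : ℕ => ∫ z, Wf (nuw b) (cw b c) m z.1 *
      (g z.1 * ⟪v, z.1 - z.2⟫) ∂σ) atTop
      (𝓝 (∫ z, (if z.1 ∈ Cel (nuw b) (cw b c) then 1 else 0) *
        (g z.1 * ⟪v, z.1 - z.2⟫) ∂σ)) := by
    refine tendsto_integral_of_dominated_convergence (fun _ => B1) (fun m => ?_)
      (integrable_const _) (fun m => ?_) (Eventually.of_forall fun z => ?_)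
    · have h3 : Continuous (Wf (nuw b) (cw b c) m) :=
        (Wf_cd (nuw b) (cw b c) m (n := 1)).continuous
      exact ((h3.comp continuous_fst).mul hc1).aestronglyMeasurable
    · filter_upwards [hb1] with z hz
      rw [Real.norm_eq_abs, abs_mul, abs_of_nonneg (Wf_nonneg _ _ _ _)]
      exact (mul_le_of_le_one_left (abs_nonneg _) (Wf_le _ _ _ _)).trans hz
    · exact (Wf_lim (nuw b) (cw b c) z.1).mul_const _
  have e1 : ∫ z, (if z.1 ∈ Cel (nuw b) (cw b c) then (1 : ℝ) else 0) *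
      (g z.1 * ⟪v, z.1 - z.2⟫) ∂σ
      = ∫ z in {z | z.1 ∈ Cel (nuw b) (cw b c)}, g z.1 * ⟪v, z.1 - z.2⟫ ∂σ := by
    have hm : MeasurableSet {z : E3 × E3 | z.1 ∈ Cel (nuw b) (cw b c)} :=
      (hCo.preimage continuous_fst).measurableSet
    rw [← integral_indicator hm]
    refine integral_congr_ae (Eventually.of_forall fun z => ?_)
    by_cases h : z.1 ∈ Cel (nuw b) (cw b c)
    · rw [indicator_of_mem (show z ∈ {z : E3 × E3 | z.1 ∈ Cel (nuw b) (cw b c)} from h)]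
      simp only [if_pos h, one_mul]
    · rw [indicator_of_notMem (show z ∉ {z : E3 × E3 | z.1 ∈ Cel (nuw b) (cw b c)} from h)]
      simp only [if_neg h, zero_mul]
  rw [e1] at hl1
  -- limit of the volume part
  have hvK : volume K < ⊤ := hK.measure_lt_top
  have hl2 : Tendsto (fun m : ℕ => ∫ x in K, Wf (nuw b) (cw b c) m x * fderiv ℝ g x v) atTop
      (𝓝 (∫ x in K, (if x ∈ Cel (nuw b) (cw b c) then 1 else 0) * fderiv ℝ g x v)) := by
    have : IsFiniteMeasure (volume.restrict K) := ⟨by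
      rw [Measure.restrict_apply_univ]; exact hvK⟩
    refine tendsto_integral_of_dominated_convergence (fun _ => B2) (fun m => ?_)
      (integrable_const _) (fun m => ?_) (Eventually.of_forall fun x => ?_)
    · have h3 : Continuous (Wf (nuw b) (cw b c) m) :=
        (Wf_cd (nuw b) (cw b c) m (n := 1)).continuous
      exact (h3.mul hyc).aestronglyMeasurable
    · filter_upwards [ae_restrict_mem hKm] with x hx
      rw [Real.norm_eq_abs, abs_mul, abs_of_nonneg (Wf_nonneg _ _ _ _)]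
      exact (mul_le_of_le_one_left (abs_nonneg _) (Wf_le _ _ _ _)).trans (hB2 ⟨x, hx, rfl⟩)
    · exact (Wf_lim (nuw b) (cw b c) x).mul_const _
  have e2 : ∫ x in K, (if x ∈ Cel (nuw b) (cw b c) then (1 : ℝ) else 0) * fderiv ℝ g x v
      = ∫ x in K ∩ Cel (nuw b) (cw b c), fderiv ℝ g x v := by
    rw [← setIntegral_indicator hCo.measurableSet]
    refine integral_congr_ae (Eventually.of_forall fun x => ?_)
    by_cases h : x ∈ Cel (nuw b) (cw b c)
    · simp only [indicator_of_mem h, if_pos h, one_mul]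
    · simp only [indicator_of_notMem h, if_neg h, zero_mul]
  rw [e2] at hl2
  exact (hl1.sub hl2).congr hid

end Helper53.MEI
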