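import Pool.Agent.Helper53.MEI.Mom3

/-!
# Project MEI (M2): sharper weighted wall integrals

The section of the body by a wall is also cut by the slabs of the width.
-/

namespace Helper53.MEI

open Set MeasureTheory Filter Topology Metric
open Helper80.CW Helper22.Wedge Helper22.Sig
open Helper21.Sec Helper21.Mom
open scoped RealInnerProductSpace ContDiff

/-- factor of the slope -/
noncomputable def rr (X : ℝ) : ℝ := 1 - 0.61 * (1 / 4 - X ^ 2) + 0.3721 * (1 / 4 - X ^ 2) ^ 2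

/-- transversal coordinate of the end of the section, sharper -/
theorem y0_bd2 {X : ℝ} (hX : |X| ≤ 1 / 2) : ∃ y : ℝ, W0 X = √2 * y ∧ 0 ≤ y ∧
    3 * y ^ 2 + 3 * y = 1 / 4 - X ^ 2 ∧
    (1 / 4 - X ^ 2 - 1 / 3 * (1 / 4 - X ^ 2) ^ 2 + 0.18 * (1 / 4 - X ^ 2) ^ 3) / 3 ≤ y ∧
    y ≤ (1 / 4 - X ^ 2 - 1 / 3 * (1 / 4 - X ^ 2) ^ 2 + 2 / 9 * (1 / 4 - X ^ 2) ^ 3
      - 0.13 * (1 / 4 - X ^ 2) ^ 4) / 3 := by
  obtain ⟨h1, h2⟩ := qw_W0 hX
  have hr := r2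
  obtain ⟨y, hy, hyl, -⟩ := y0_bd hX
  have hX2 := sq_le_of_abs hX
  have hs2 : (0 : ℝ) < √2 := by positivity
  have hy0 : 0 ≤ y := by
    rw [hy] at h1
    by_contra hcon
    rw [not_le] at hcon
    have := mul_neg_of_pos_of_neg hs2 hcon
    linarith
  have hq : 3 * y ^ 2 + 3 * y = 1 / 4 - X ^ 2 := by
    unfold qw at h2
    rw [hy] at h2
    linear_combination h2 - (3 / 2 * y ^ 2 + 3 / 2 * y) * hr
  refine ⟨y, hy, hy0, hq, hyl, ?_⟩
  have hhx : 0 ≤ 1 / 4 - X ^ 2 := by linarith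
  have hh1 : 1 / 4 - X ^ 2 ≤ 1 / 4 := by nlinarith [sq_nonneg X]
  set h := 1 / 4 - X ^ 2
  set u := (h - 1 / 3 * h ^ 2 + 2 / 9 * h ^ 3 - 0.13 * h ^ 4) / 3 with hu
  have hh2 : h ^ 2 ≤ 1 / 4 * h := by nlinarith
  have hh3 : 0 ≤ h ^ 3 := by positivity
  have hh4 : h ^ 4 ≤ 1 / 4 * h ^ 3 := by nlinarith
  have hu0 : 0 ≤ u := by rw [hu]; linarith
  have h3 : h ≤ 3 * u ^ 2 + 3 * u := by
    have e : 3 * u ^ 2 + 3 * u - h = h ^ 4 * (5 / 27 - 0.13 - (4 / 81 + 0.26 / 3) * h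
        + (4 / 243 + 0.26 / 9) * h ^ 2 - 1.04 / 54 * h ^ 3 + 0.0169 / 3 * h ^ 4) := by
      rw [hu]; ring
    have : 0 ≤ h ^ 4 * (5 / 27 - 0.13 - (4 / 81 + 0.26 / 3) * h
        + (4 / 243 + 0.26 / 9) * h ^ 2 - 1.04 / 54 * h ^ 3 + 0.0169 / 3 * h ^ 4) := by
      refine mul_nonneg (by positivity) ?_
      have h5 : h ^ 3 ≤ 1 / 4 * h ^ 2 := by nlinarith [sq_nonneg h]
      have h6 : 0 ≤ h ^ 4 := by positivity
      nlinarith [sq_nonneg h]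
    linarith
  have h4 : (y - u) * (3 * (y + u) + 3) = (3 * y ^ 2 + 3 * y) - (3 * u ^ 2 + 3 * u) := by ring
  by_contra hcon
  rw [not_le] at hcon
  have : 0 < (y - u) * (3 * (y + u) + 3) := mul_pos (by linarith) (by linarith)
  linarith

/-- polynomial of the upper bound -/
noncomputable def Pu2 (X : ℝ) : ℝ :=
  (1 / 4 - X ^ 2 - 1 / 3 * (1 / 4 - X ^ 2) ^ 2 + 2 / 9 * (1 / 4 - X ^ 2) ^ 3
      - 0.13 * (1 / 4 - X ^ 2) ^ 4) / 3 * (1 - X ^ 2 / 2 + X ^ 4 / 4) -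
    (1 / 4 - X ^ 2) ^ 3 / 27 * (1 - (1 / 4 - X ^ 2) + 0.7 * (1 / 4 - X ^ 2) ^ 2) *
      (3.8 - 4 * X ^ 2)

/-- polynomial of the lower bound -/
noncomputable def Plo2 (X : ℝ) : ℝ :=
  (1 - X ^ 2 / 2) * ((1 / 4 - X ^ 2 - 1 / 3 * (1 / 4 - X ^ 2) ^ 2 +
    0.18 * (1 / 4 - X ^ 2) ^ 3) / 3) -
    4 / 27 * (1 / 4 - X ^ 2) ^ 3 * (1 - 0.79 * (1 / 4 - X ^ 2))

theorem int_Pu2 (η : ℝ) : ∫ x in (-(1 / 2) : ℝ)..(1 / 2), nn η x * Pu2 x = 782457293 / 31135104000 := by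
  have hd : ∀ x ∈ uIcc (-(1 / 2) : ℝ) (1 / 2), HasDerivAt (fun x : ℝ =>
      (11617 / 307200) * x ^ 1 + 
      ((-(423419 / 8294400))) * x ^ 3 + 
      (9131 / 27648000) * x ^ 5 + 
      (11449 / 2419200) * x ^ 7 + 
      ((-(8047 / 1555200))) * x ^ 9 + 
      (203 / 47520) * x ^ 11 + 
      ((-(1237 / 280800))) * x ^ 13 + 
      η * (81319 / 4915200) * x ^ 2 + 
      η * ((-(2963933 / 88473600))) * x ^ 4 + 
      η * (63917 / 265420800) * x ^ 6 + 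
      η * (80143 / 22118400) * x ^ 8 + 
      η * ((-(56329 / 13824000))) * x ^ 10 + 
      η * (1421 / 414720) * x ^ 12 + 
      η * ((-(1237 / 345600))) * x ^ 14) (nn η x * Pu2 x) x := by
    intro x _
    have k := ((((((((((((((hpow 0 ((11617 / 307200)) x)).add (hpow 2 (((-(423419 / 8294400)))) x)).add (hpow 4 ((9131 / 27648000)) x)).add (hpow 6 ((11449 / 2419200)) x)).add (hpow 8 (((-(8047 / 1555200)))) x)).add (hpow 10 ((203 / 47520)) x)).add (hpow 12 (((-(1237 / 280800)))) x)).add (hpow 1 (η * (81319 / 4915200)) x)).add (hpow 3 (η * ((-(2963933 / 88473600)))) x)).add (hpow 5 (η * (63917 / 265420800)) x)).add (hpow 7 (η * (80143 / 22118400)) x)).add (hpow 9 (η * ((-(56329 / 13824000)))) x)).add (hpow 11 (η * (1421 / 414720)) x)).add (hpow 13 (η * ((-(1237 / 345600)))) x)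
    refine k.congr_deriv ?_
    unfold nn Pu2
    push_cast
    ring
  rw [intervalIntegral.integral_eq_sub_of_hasDerivAt hd
    ((by unfold nn Pu2; fun_prop : Continuous fun x : ℝ => nn η x * Pu2 x).intervalIntegrable _ _)]
  ring

theorem int_Plo2 (η : ℝ) : ∫ x in (-(1 / 2) : ℝ)..(1 / 2), nn η x * Plo2 x = 681479 / 27216000 := by
  have hd : ∀ x ∈ uIcc (-(1 / 2) : ℝ) (1 / 2), HasDerivAt (fun x : ℝ =>
      (483 / 12800) * x ^ 1 + 
      ((-(53089 / 1036800))) * x ^ 3 + 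
      (161 / 144000) * x ^ 5 + 
      (1 / 3360) * x ^ 7 + 
      (397 / 48600) * x ^ 9 + 
      η * (3381 / 204800) * x ^ 2 + 
      η * ((-(371623 / 11059200))) * x ^ 4 + 
      η * (1127 / 1382400) * x ^ 6 + 
      η * (7 / 30720) * x ^ 8 + 
      η * (2779 / 432000) * x ^ 10) (nn η x * Plo2 x) x := by
    intro x _
    have k := ((((((((((hpow 0 ((483 / 12800)) x)).add (hpow 2 (((-(53089 / 1036800)))) x)).add (hpow 4 ((161 / 144000)) x)).add (hpow 6 ((1 / 3360)) x)).add (hpow 8 ((397 / 48600)) x)).add (hpow 1 (η * (3381 / 204800)) x)).add (hpow 3 (η * ((-(371623 / 11059200)))) x)).add (hpow 5 (η * (1127 / 1382400)) x)).add (hpow 7 (η * (7 / 30720)) x)).add (hpow 9 (η * (2779 / 432000)) x)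
    refine k.congr_deriv ?_
    unfold nn Plo2
    push_cast
    ring
  rw [intervalIntegral.integral_eq_sub_of_hasDerivAt hd
    ((by unfold nn Plo2; fun_prop : Continuous fun x : ℝ => nn η x * Plo2 x).intervalIntegrable _ _)]
  ring

theorem int_ZR : ∫ x in (0 : ℝ)..(1 / 2), Zu x * rr x = 3943878660643 / 9340531200000 := by
  have hd : ∀ x ∈ uIcc (0 : ℝ) (1 / 2), HasDerivAt (fun x : ℝ =>
      (675567529 / 829440000) * x ^ 1 + 
      (22716811 / 155520000) * x ^ 3 + 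
      ((-(1497229 / 16200000))) * x ^ 5 + 
      ((-(640253 / 9072000))) * x ^ 7 + 
      (270457 / 3645000) * x ^ 9 + 
      (19337 / 445500) * x ^ 11 + 
      (3721 / 105300) * x ^ 13) (Zu x * rr x) x := by
    intro x _
    have k := (((((((hpow 0 (675567529 / 829440000) x)).add (hpow 2 (22716811 / 155520000) x)).add (hpow 4 ((-(1497229 / 16200000))) x)).add (hpow 6 ((-(640253 / 9072000))) x)).add (hpow 8 (270457 / 3645000) x)).add (hpow 10 (19337 / 445500) x)).add (hpow 12 (3721 / 105300) x)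
    refine k.congr_deriv ?_
    unfold Zu rr
    push_cast
    ring
  rw [intervalIntegral.integral_eq_sub_of_hasDerivAt hd
    ((by unfold Zu rr; fun_prop : Continuous fun x : ℝ => Zu x * rr x).intervalIntegrable _ _)]
  ring


/-! ### general weights -/

/-- the weight `φ(x)/(4 D)` on the wall -/
noncomputable def fG (φ : ℝ → ℝ) (r : ℝ × ℝ) : ℝ := φ r.1 / (1 + r.1 ^ 2 / 2 + 6 * r.2 ^ 2)

theorem fG_cont {φ : ℝ → ℝ} (cφ : Continuous φ) : Continuous (fG φ) := by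
  unfold fG
  refine Continuous.div (by fun_prop) (by fun_prop) fun q => ?_
  positivity

/-- the weight in wall coordinates -/
noncomputable def omG (φ : ℝ → ℝ) (p : (ℝ × ℝ) × ℝ) : ℝ :=
  φ p.1.1 / (1 + p.1.1 ^ 2 / 2 + 4 * ((√2 / 2 * p.1.2 - p.2) ^ 2 + p.1.2 ^ 2))

theorem omG_cont {φ : ℝ → ℝ} (cφ : Continuous φ) : Continuous (omG φ) := by
  unfold omG
  refine Continuous.div (by fun_prop) (by fun_prop) fun q => ?_
  positivity

theorem omG_up {φ : ℝ → ℝ} (hφ : ∀ X : ℝ, |X| ≤ 1 / 2 → 0 ≤ φ X ∧ φ X ≤ 1)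
    {X W l : ℝ} (hX : |X| ≤ 1 / 2) (hW0 : 0 ≤ W)
    (hW : √2 * W ≤ 1 / 2) (hl : 0 ≤ l) : omG φ ((X, W), l) ≤ fG φ (X, W) + 2 * l := by
  obtain ⟨n0, n1⟩ := hφ X hX
  unfold omG fG
  simp only
  have hD : (1 : ℝ) ≤ 1 + X ^ 2 / 2 + 4 * ((√2 / 2 * W - l) ^ 2 + W ^ 2) := by
    have : 0 ≤ X ^ 2 / 2 + 4 * ((√2 / 2 * W - l) ^ 2 + W ^ 2) := by positivity
    linarith
  have hE : (1 : ℝ) ≤ 1 + X ^ 2 / 2 + 6 * W ^ 2 := by
    have : 0 ≤ X ^ 2 / 2 + 6 * W ^ 2 := by positivity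
    linarith
  have h2 := r2
  have hDE : 1 + X ^ 2 / 2 + 4 * ((√2 / 2 * W - l) ^ 2 + W ^ 2) =
      1 + X ^ 2 / 2 + 6 * W ^ 2 - 4 * (√2 * W) * l + 4 * l ^ 2 := by
    linear_combination W ^ 2 * h2
  set D := 1 + X ^ 2 / 2 + 4 * ((√2 / 2 * W - l) ^ 2 + W ^ 2)
  set E := 1 + X ^ 2 / 2 + 6 * W ^ 2
  rw [div_le_iff₀ (by linarith)]
  have hq : φ X / E * E = φ X := div_mul_cancel₀ _ (by linarith)
  have hq0 : 0 ≤ φ X / E := div_nonneg n0 (by linarith)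
  have hq1 : φ X / E ≤ 1 := (div_le_self n0 hE).trans n1
  set q := φ X / E
  have h3 : 0 ≤ √2 * W := by positivity
  have h4 : q * (4 * (√2 * W) * l) ≤ 1 * (4 * (1 / 2) * l) := by
    refine mul_le_mul hq1 ?_ (by positivity) (by norm_num)
    have := mul_le_mul_of_nonneg_right hW hl
    linarith
  have h5 : 2 * l * 1 ≤ 2 * l * D := mul_le_mul_of_nonneg_left hD (by linarith)
  have h6 : 0 ≤ q * (4 * l ^ 2) := by positivity
  have h7 : (q + 2 * l) * D = q * E - q * (4 * (√2 * W) * l) + q * (4 * l ^ 2) + 2 * l * D := by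
    rw [hDE]; ring
  rw [h7, hq]
  linarith

theorem omG_lo {φ : ℝ → ℝ} (hφ : ∀ X : ℝ, |X| ≤ 1 / 2 → 0 ≤ φ X ∧ φ X ≤ 1)
    {X W l : ℝ} (hX : |X| ≤ 1 / 2) (hW0 : 0 ≤ W)
    (hl : 0 ≤ l) (hl1 : l ≤ 1) : fG φ (X, W) - 4 * l ≤ omG φ ((X, W), l) := by
  obtain ⟨n0, n1⟩ := hφ X hX
  unfold omG fG
  simp only
  have hD : (1 : ℝ) ≤ 1 + X ^ 2 / 2 + 4 * ((√2 / 2 * W - l) ^ 2 + W ^ 2) := by
    have : 0 ≤ X ^ 2 / 2 + 4 * ((√2 / 2 * W - l) ^ 2 + W ^ 2) := by positivity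
    linarith
  have hE : (1 : ℝ) ≤ 1 + X ^ 2 / 2 + 6 * W ^ 2 := by
    have : 0 ≤ X ^ 2 / 2 + 6 * W ^ 2 := by positivity
    linarith
  have h2 := r2
  have hDE : 1 + X ^ 2 / 2 + 4 * ((√2 / 2 * W - l) ^ 2 + W ^ 2) =
      1 + X ^ 2 / 2 + 6 * W ^ 2 - 4 * (√2 * W) * l + 4 * l ^ 2 := by
    linear_combination W ^ 2 * h2
  set D := 1 + X ^ 2 / 2 + 4 * ((√2 / 2 * W - l) ^ 2 + W ^ 2)
  set E := 1 + X ^ 2 / 2 + 6 * W ^ 2
  rw [le_div_iff₀ (by linarith)]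
  have hq : φ X / E * E = φ X := div_mul_cancel₀ _ (by linarith)
  have hq0 : 0 ≤ φ X / E := div_nonneg n0 (by linarith)
  have hq1 : φ X / E ≤ 1 := (div_le_self n0 hE).trans n1
  set q := φ X / E
  have h3 : 0 ≤ √2 * W := by positivity
  have h4 : 0 ≤ q * (4 * (√2 * W) * l) := by positivity
  have h5 : 4 * l * 1 ≤ 4 * l * D := mul_le_mul_of_nonneg_left hD (by linarith)
  have h6 : q * (4 * l ^ 2) ≤ 1 * (4 * l) := by
    refine mul_le_mul hq1 ?_ (by positivity) (by norm_num)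
    nlinarith
  have h7 : (q - 4 * l) * D = q * E - q * (4 * (√2 * W) * l) + q * (4 * l ^ 2) - 4 * l * D := by
    rw [hDE]; ring
  rw [h7, hq]
  linarith


theorem h_bd {X : ℝ} (hX : |X| ≤ 1 / 2) : 0 ≤ 1 / 4 - X ^ 2 ∧ 1 / 4 - X ^ 2 ≤ 1 / 4 := by
  have := sq_le_of_abs hX
  constructor <;> nlinarith [sq_nonneg X]

theorem y_low {X y : ℝ} (hX : |X| ≤ 1 / 2)
    (hyl : (1 / 4 - X ^ 2 - 1 / 3 * (1 / 4 - X ^ 2) ^ 2 + 0.18 * (1 / 4 - X ^ 2) ^ 3) / 3 ≤ y) :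
    (1 / 4 - X ^ 2) / 3 * (1 - (1 / 4 - X ^ 2) / 3) ≤ y := by
  obtain ⟨h0, h1⟩ := h_bd hX
  set h := 1 / 4 - X ^ 2
  have : 0 ≤ h ^ 3 := by positivity
  nlinarith

theorem Zu_eq (X : ℝ) : Zu X = 1 - (X ^ 2 / 2 + 10 / 9 * (1 / 4 - X ^ 2) ^ 2) +
    (X ^ 2 / 2 + 10 / 9 * (1 / 4 - X ^ 2) ^ 2) ^ 2 := rfl

theorem Zu_bd {X : ℝ} (hX : |X| ≤ 1 / 2) : 0 ≤ Zu X ∧ Zu X ≤ 0.936 := by
  obtain ⟨h0, h1⟩ := h_bd hX
  have e : X ^ 2 = 1 / 4 - (1 / 4 - X ^ 2) := by ring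
  rw [Zu_eq]
  set z := X ^ 2 / 2 + 10 / 9 * (1 / 4 - X ^ 2) ^ 2 with hz
  have hz1 : 0.06875 ≤ z := by
    rw [hz]
    nlinarith [sq_nonneg ((1 / 4 - X ^ 2) - 0.225)]
  have hz2 : z ≤ 0.126 := by
    rw [hz]
    nlinarith
  constructor
  · nlinarith [sq_nonneg z]
  · nlinarith [mul_nonneg (sub_nonneg.2 hz1) (sub_nonneg.2 hz2)]

/-- the part beyond the reference section -/
theorem inner_ext {φ : ℝ → ℝ} (cφ : Continuous φ)
    (hφ : ∀ X : ℝ, |X| ≤ 1 / 2 → 0 ≤ φ X ∧ φ X ≤ 1) {X δ : ℝ} (hX : |X| ≤ 1 / 2) (hδ : 0 ≤ δ) :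
    ∫ W in W0 X..W0 X + δ, fG φ (X, W) ≤ φ X * (δ * Zu X) := by
  obtain ⟨n0, n1⟩ := hφ X hX
  obtain ⟨y, hy, hy0, hq, hyl, hyu⟩ := y0_bd2 hX
  obtain ⟨hW0, _⟩ := qw_W0 hX
  obtain ⟨hh0, hh1⟩ := h_bd hX
  have hr := r2
  have hc : Continuous fun W : ℝ => fG φ (X, W) := (fG_cont cφ).comp (by fun_prop)
  have hl := y_low hX hyl
  set h := 1 / 4 - X ^ 2 with hh
  have h3 : ∫ W in W0 X..W0 X + δ, fG φ (X, W) ≤ ∫ W in W0 X..W0 X + δ, φ X * Zu X := by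
    refine intervalIntegral.integral_mono_on (by linarith) (hc.intervalIntegrable _ _)
      intervalIntegrable_const fun W hW => ?_
    unfold fG
    simp only
    have hWW : 2 * y ^ 2 ≤ W ^ 2 := by
      have h4 : W0 X ^ 2 ≤ W ^ 2 := pow_le_pow_left₀ hW0 hW.1 2
      have h5 : W0 X ^ 2 = 2 * y ^ 2 := by
        rw [hy]; linear_combination y ^ 2 * hr
      linarith
    have hyz : 10 / 9 * h ^ 2 ≤ 12 * y ^ 2 := by
      have hl0 : 0 ≤ h / 3 * (1 - h / 3) := mul_nonneg (by linarith) (by linarith)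
      have hl2 : (h / 3 * (1 - h / 3)) ^ 2 ≤ y ^ 2 := pow_le_pow_left₀ hl0 hl 2
      have e1 : (h / 3 * (1 - h / 3)) ^ 2 = h ^ 2 * ((1 - h / 3) ^ 2 / 9) := by ring
      have h6 : h ^ 2 * (5 / 54) ≤ h ^ 2 * ((1 - h / 3) ^ 2 / 9) := by
        refine mul_le_mul_of_nonneg_left ?_ (by positivity)
        nlinarith
      linarith
    set z := X ^ 2 / 2 + 10 / 9 * h ^ 2 with hz
    have hz0 : 0 ≤ z := by positivity
    have hZ : Zu X = 1 - z + z ^ 2 := by unfold Zu; rfl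
    have hZ0 : 0 ≤ 1 - z + z ^ 2 := by nlinarith [sq_nonneg (z - 1 / 2)]
    have hD : 1 + z ≤ 1 + X ^ 2 / 2 + 6 * W ^ 2 := by rw [hz]; linarith
    rw [hZ, div_le_iff₀ (by linarith), mul_assoc]
    refine le_mul_of_one_le_right n0 ?_
    have h7 : (1 - z + z ^ 2) * (1 + z) ≤ (1 - z + z ^ 2) * (1 + X ^ 2 / 2 + 6 * W ^ 2) :=
      mul_le_mul_of_nonneg_left hD hZ0
    have h8 : (1 - z + z ^ 2) * (1 + z) = 1 + z ^ 3 := by ring
    have h9 : 0 ≤ z ^ 3 := by positivity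
    linarith
  refine h3.trans (le_of_eq ?_)
  rw [intervalIntegral.integral_const]
  simp only [smul_eq_mul]
  ring

/-- the reference section, upper bound -/
theorem inner_ref {φ : ℝ → ℝ} (cφ : Continuous φ)
    (hφ : ∀ X : ℝ, |X| ≤ 1 / 2 → 0 ≤ φ X ∧ φ X ≤ 1) {X : ℝ} (hX : |X| ≤ 1 / 2) :
    ∫ W in (0 : ℝ)..W0 X, fG φ (X, W) ≤ φ X * (√2 * Pu2 X) := by
  obtain ⟨n0, n1⟩ := hφ X hX
  obtain ⟨y, hy, hy0, hq, hyl, hyu⟩ := y0_bd2 hX
  obtain ⟨hW0, _⟩ := qw_W0 hX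
  obtain ⟨hh0, hh1⟩ := h_bd hX
  have hr := r2
  have hX2 := sq_le_of_abs hX
  have hs2 : (0 : ℝ) < √2 := by positivity
  have hc : Continuous fun W : ℝ => fG φ (X, W) := (fG_cont cφ).comp (by fun_prop)
  set h := 1 / 4 - X ^ 2 with hh
  have h2 : ∫ W in (0 : ℝ)..W0 X, fG φ (X, W) ≤
      ∫ W in (0 : ℝ)..W0 X, φ X * (1 - (X ^ 2 / 2 + 6 * W ^ 2) +
        (X ^ 2 / 2 + 6 * W ^ 2) ^ 2) := by
    refine intervalIntegral.integral_mono_on hW0 (hc.intervalIntegrable _ _)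
      ((by fun_prop : Continuous fun W : ℝ => φ X * (1 - (X ^ 2 / 2 + 6 * W ^ 2) +
        (X ^ 2 / 2 + 6 * W ^ 2) ^ 2)).intervalIntegrable _ _) fun W hW => ?_
    unfold fG
    simp only
    have hz : 0 ≤ X ^ 2 / 2 + 6 * W ^ 2 := by positivity
    rw [div_le_iff₀ (by linarith), mul_assoc]
    refine le_mul_of_one_le_right n0 ?_
    have e : (1 - (X ^ 2 / 2 + 6 * W ^ 2) + (X ^ 2 / 2 + 6 * W ^ 2) ^ 2) *
        (1 + X ^ 2 / 2 + 6 * W ^ 2) = 1 + (X ^ 2 / 2 + 6 * W ^ 2) ^ 3 := by ring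
    rw [e]
    have : 0 ≤ (X ^ 2 / 2 + 6 * W ^ 2) ^ 3 := by positivity
    linarith
  have h3 : ∫ W in (0 : ℝ)..W0 X, φ X * (1 - (X ^ 2 / 2 + 6 * W ^ 2) +
        (X ^ 2 / 2 + 6 * W ^ 2) ^ 2) = φ X * (W0 X * (1 - X ^ 2 / 2 + X ^ 4 / 4) -
          2 * W0 X ^ 3 * (1 - X ^ 2) + 36 / 5 * W0 X ^ 5) := by
    rw [intervalIntegral.integral_const_mul]
    congr 1
    have hd : ∀ W ∈ uIcc (0 : ℝ) (W0 X), HasDerivAt (fun W : ℝ =>
        (1 - X ^ 2 / 2 + X ^ 4 / 4) * W - 2 * (1 - X ^ 2) * W ^ 3 + 36 / 5 * W ^ 5)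
        (1 - (X ^ 2 / 2 + 6 * W ^ 2) + (X ^ 2 / 2 + 6 * W ^ 2) ^ 2) W := by
      intro W _
      have k1 := (hasDerivAt_id W).const_mul (1 - X ^ 2 / 2 + X ^ 4 / 4)
      have k3 : HasDerivAt (fun W : ℝ => W ^ 3) (3 * W ^ 2) W := by
        simpa using hasDerivAt_pow 3 W
      have k5 : HasDerivAt (fun W : ℝ => W ^ 5) (5 * W ^ 4) W := by
        simpa using hasDerivAt_pow 5 W
      have k := (k1.sub (k3.const_mul (2 * (1 - X ^ 2)))).add (k5.const_mul (36 / 5))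
      exact k.congr_deriv (by ring)
    rw [intervalIntegral.integral_eq_sub_of_hasDerivAt hd
      ((by fun_prop : Continuous fun W : ℝ => (1 - (X ^ 2 / 2 + 6 * W ^ 2) +
        (X ^ 2 / 2 + 6 * W ^ 2) ^ 2)).intervalIntegrable _ _)]
    ring
  refine h2.trans ?_
  rw [h3]
  refine mul_le_mul_of_nonneg_left ?_ n0
  have e : W0 X * (1 - X ^ 2 / 2 + X ^ 4 / 4) - 2 * W0 X ^ 3 * (1 - X ^ 2) +
      36 / 5 * W0 X ^ 5 = √2 * (y * (1 - X ^ 2 / 2 + X ^ 4 / 4) - 4 * y ^ 3 * (1 - X ^ 2) +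
        144 / 5 * y ^ 5) := by
    rw [hy]
    linear_combination (-(2 * (√2 * y ^ 3) * (1 - X ^ 2)) +
      36 / 5 * √2 * y ^ 5 * (√2 * √2 + 2)) * hr
  rw [e]
  refine mul_le_mul_of_nonneg_left ?_ hs2.le
  unfold Pu2
  rw [← hh]
  have hA : 0 ≤ 1 - X ^ 2 / 2 + X ^ 4 / 4 := by nlinarith [sq_nonneg (X ^ 2)]
  have k1 := mul_le_mul_of_nonneg_right hyu hA
  have hyh : y ≤ h / 3 := by nlinarith [sq_nonneg y]
  have hy12 : y ≤ 1 / 12 := by linarith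
  have hl : h / 3 * (1 - h / 3 + 0.18 * h ^ 2) ≤ y := by
    have : h / 3 * (1 - h / 3 + 0.18 * h ^ 2) = (h - 1 / 3 * h ^ 2 + 0.18 * h ^ 3) / 3 := by ring
    linarith
  have hc0 : 0 ≤ 1 - h / 3 + 0.18 * h ^ 2 := by nlinarith [sq_nonneg h]
  have hl0 : 0 ≤ h / 3 * (1 - h / 3 + 0.18 * h ^ 2) := mul_nonneg (by linarith) hc0
  have hl3 : (h / 3 * (1 - h / 3 + 0.18 * h ^ 2)) ^ 3 ≤ y ^ 3 := pow_le_pow_left₀ hl0 hl 3
  have hl4 : h ^ 3 / 27 * (1 - h + 0.7 * h ^ 2) ≤ (h / 3 * (1 - h / 3 + 0.18 * h ^ 2)) ^ 3 := by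
    have e1 : (h / 3 * (1 - h / 3 + 0.18 * h ^ 2)) ^ 3 =
      h ^ 3 / 27 * (1 - h / 3 + 0.18 * h ^ 2) ^ 3 := by ring
    rw [e1]
    refine mul_le_mul_of_nonneg_left ?_ (by positivity)
    have e2 : (1 - h / 3 + 0.18 * h ^ 2) ^ 3 - (1 - h + 0.7 * h ^ 2) =
        h ^ 2 * (1 / 3 + 0.54 - 0.7 - (1 / 27 + 0.36) * h + (0.06 + 0.0972) * h ^ 2
          - 0.0324 * h ^ 3 + 0.005832 * h ^ 4) := by ring
    have : 0 ≤ h ^ 2 * (1 / 3 + 0.54 - 0.7 - (1 / 27 + 0.36) * h + (0.06 + 0.0972) * h ^ 2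
          - 0.0324 * h ^ 3 + 0.005832 * h ^ 4) := by
      refine mul_nonneg (by positivity) ?_
      have h5 : h ^ 3 ≤ 1 / 4 * h ^ 2 := by nlinarith [sq_nonneg h]
      have h6 : 0 ≤ h ^ 4 := by positivity
      nlinarith [sq_nonneg h]
    linarith
  have hB : 0 ≤ 3.8 - 4 * X ^ 2 := by linarith
  have k2 := mul_le_mul_of_nonneg_right (hl4.trans hl3) hB
  have k3 : 144 / 5 * y ^ 5 ≤ 0.2 * y ^ 3 := by
    have e1 : 144 / 5 * y ^ 5 = y ^ 3 * (144 / 5 * y ^ 2) := by ring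
    rw [e1]
    have : y ^ 2 ≤ 1 / 144 := by nlinarith
    have h5 : y ^ 3 * (144 / 5 * y ^ 2) ≤ y ^ 3 * 0.2 :=
      mul_le_mul_of_nonneg_left (by linarith) (by positivity)
    linarith
  linarith

theorem inner_up2 {φ : ℝ → ℝ} (cφ : Continuous φ)
    (hφ : ∀ X : ℝ, |X| ≤ 1 / 2 → 0 ≤ φ X ∧ φ X ≤ 1) {X V : ℝ} (hX : |X| ≤ 1 / 2) (hV : W0 X ≤ V) :
    ∫ W in Ioo (0 : ℝ) V, fG φ (X, W) ≤ φ X * (√2 * Pu2 X + (V - W0 X) * Zu X) := by
  obtain ⟨hW0, _⟩ := qw_W0 hX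
  have hc : Continuous fun W : ℝ => fG φ (X, W) := (fG_cont cφ).comp (by fun_prop)
  rw [← integral_Ioc_eq_integral_Ioo, ← intervalIntegral.integral_of_le (by linarith),
    ← intervalIntegral.integral_add_adjacent_intervals (b := W0 X)
      (hc.intervalIntegrable _ _) (hc.intervalIntegrable _ _)]
  have h1 := inner_ref cφ hφ hX
  have h2 := inner_ext cφ hφ hX (δ := V - W0 X) (by linarith)
  rw [add_sub_cancel] at h2
  have e : φ X * (√2 * Pu2 X + (V - W0 X) * Zu X) = φ X * (√2 * Pu2 X) +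
    φ X * ((V - W0 X) * Zu X) := by ring
  rw [e]
  linarith

theorem inner_lo2 {φ : ℝ → ℝ} (cφ : Continuous φ)
    (hφ : ∀ X : ℝ, |X| ≤ 1 / 2 → 0 ≤ φ X ∧ φ X ≤ 1) {X δ w : ℝ} (hX : |X| ≤ 1 / 2) (hδ : 0 ≤ δ)
    (hw : 0 ≤ w) : φ X * (√2 * Plo2 X - δ * (1 - X ^ 2 / 2) - w) ≤
      ∫ W in Ioo w (W0 X - δ), fG φ (X, W) := by
  obtain ⟨n0, n1⟩ := hφ X hX
  obtain ⟨y, hy, hy0, hq, hyl, hyu⟩ := y0_bd2 hX
  obtain ⟨hW0, _⟩ := qw_W0 hX
  obtain ⟨hh0, hh1⟩ := h_bd hX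
  have hX2 := sq_le_of_abs hX
  have hr := r2
  have hc : Continuous fun W : ℝ => fG φ (X, W) := (fG_cont cφ).comp (by fun_prop)
  have hs2 : (0 : ℝ) < √2 := by positivity
  obtain ⟨y', hy', -, hyu'⟩ := y0_bd hX
  have hyy : y = y' := by
    have : √2 * y = √2 * y' := by rw [← hy, ← hy']
    exact mul_left_cancel₀ hs2.ne' this
  rw [← hyy] at hyu'
  set h := 1 / 4 - X ^ 2 with hh
  have hW3 : W0 X ^ 3 = 2 * √2 * y ^ 3 := by
    rw [hy]; linear_combination (√2 * y ^ 3) * hr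
  have hy3 : y ^ 3 ≤ h ^ 3 / 27 * (1 - 0.79 * h) := by
    have h1 := pow_le_pow_left₀ hy0 hyu' 3
    have e : ((h - 0.286 * h ^ 2) / 3) ^ 3 = h ^ 3 / 27 * (1 - 0.286 * h) ^ 3 := by ring
    rw [e] at h1
    refine h1.trans (mul_le_mul_of_nonneg_left ?_ (by positivity))
    nlinarith [sq_nonneg h]
  have hP : √2 * Plo2 X ≤ (1 - X ^ 2 / 2) * W0 X - 2 * W0 X ^ 3 := by
    have e : (1 - X ^ 2 / 2) * W0 X - 2 * W0 X ^ 3 = √2 * ((1 - X ^ 2 / 2) * y - 4 * y ^ 3) := by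
      rw [hW3, hy]; ring
    rw [e]
    refine mul_le_mul_of_nonneg_left ?_ hs2.le
    unfold Plo2
    rw [← hh]
    have k1 := mul_le_mul_of_nonneg_left hyl (show 0 ≤ 1 - X ^ 2 / 2 by linarith)
    linarith
  rcases le_or_gt (W0 X - δ) w with hle | hlt
  · rw [Ioo_eq_empty (not_lt.2 hle), setIntegral_empty]
    refine mul_nonpos_of_nonneg_of_nonpos n0 ?_
    have h3 : 0 ≤ W0 X ^ 3 := by positivity
    have h4 : (1 - X ^ 2 / 2) * (W0 X - δ) ≤ (1 - X ^ 2 / 2) * w :=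
      mul_le_mul_of_nonneg_left hle (by linarith)
    have h5 : (1 - X ^ 2 / 2) * w ≤ 1 * w :=
      mul_le_mul_of_nonneg_right (by nlinarith [sq_nonneg X]) hw
    linarith
  · rw [← integral_Ioc_eq_integral_Ioo, ← intervalIntegral.integral_of_le hlt.le]
    have h2 : ∫ W in w..W0 X - δ, φ X * (1 - (X ^ 2 / 2 + 6 * W ^ 2)) ≤
        ∫ W in w..W0 X - δ, fG φ (X, W) := by
      refine intervalIntegral.integral_mono_on hlt.le
        ((by fun_prop : Continuous fun W : ℝ => φ X * (1 - (X ^ 2 / 2 + 6 * W ^ 2))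
          ).intervalIntegrable _ _) (hc.intervalIntegrable _ _) fun W hW => ?_
      unfold fG
      simp only
      have hz : 0 ≤ X ^ 2 / 2 + 6 * W ^ 2 := by positivity
      rw [le_div_iff₀ (by linarith), mul_assoc]
      refine mul_le_of_le_one_right n0 ?_
      have e : (1 - (X ^ 2 / 2 + 6 * W ^ 2)) * (1 + X ^ 2 / 2 + 6 * W ^ 2) =
        1 - (X ^ 2 / 2 + 6 * W ^ 2) ^ 2 := by ring
      rw [e]
      have : 0 ≤ (X ^ 2 / 2 + 6 * W ^ 2) ^ 2 := by positivity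
      linarith
    have h3 : ∫ W in w..W0 X - δ, φ X * (1 - (X ^ 2 / 2 + 6 * W ^ 2)) =
        φ X * (((1 - X ^ 2 / 2) * (W0 X - δ) - 2 * (W0 X - δ) ^ 3) -
          ((1 - X ^ 2 / 2) * w - 2 * w ^ 3)) := by
      rw [intervalIntegral.integral_const_mul]
      congr 1
      have hd : ∀ W ∈ uIcc w (W0 X - δ), HasDerivAt (fun W : ℝ =>
          (1 - X ^ 2 / 2) * W - 2 * W ^ 3) (1 - (X ^ 2 / 2 + 6 * W ^ 2)) W := by
        intro W _
        have k1 := (hasDerivAt_id W).const_mul (1 - X ^ 2 / 2)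
        have k3 : HasDerivAt (fun W : ℝ => W ^ 3) (3 * W ^ 2) W := by
          simpa using hasDerivAt_pow 3 W
        have k := k1.sub (k3.const_mul 2)
        exact k.congr_deriv (by ring)
      rw [intervalIntegral.integral_eq_sub_of_hasDerivAt hd
        ((by fun_prop : Continuous fun W : ℝ => (1 - (X ^ 2 / 2 + 6 * W ^ 2))
          ).intervalIntegrable _ _)]
    refine le_trans ?_ h2
    rw [h3]
    refine mul_le_mul_of_nonneg_left ?_ n0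
    have h4 : (W0 X - δ) ^ 3 ≤ W0 X ^ 3 :=
      pow_le_pow_left₀ (by linarith) (by linarith) 3
    have h5 : (1 - X ^ 2 / 2) * w ≤ 1 * w :=
      mul_le_mul_of_nonneg_right (by nlinarith [sq_nonneg X]) hw
    have h6 : 0 ≤ w ^ 3 := by positivity
    linarith

/-! ### the upper region with the slab -/

/-- the end of the upper section -/
noncomputable def VV (e κ X : ℝ) : ℝ :=
  min (W0 X + √2 / 3 * (e * rr X)) (√2 / 3 * (1 / 2 - |X| + κ))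

theorem VV_cont (e κ : ℝ) : Continuous (VV e κ) := by
  have := W0_cont
  unfold VV rr
  fun_prop

theorem rr_bd {X : ℝ} (hX : |X| ≤ 1 / 2) : 0 ≤ rr X ∧ rr X ≤ 1 := by
  obtain ⟨h0, h1⟩ := h_bd hX
  unfold rr
  constructor <;> nlinarith

/-- the upper region, sharper -/
noncomputable def Wup2 (e κ : ℝ) : Set (ℝ × ℝ) :=
  regionBetween (fun _ => (0 : ℝ)) (VV e κ) (Icc (-(1 / 2)) (1 / 2))

theorem Wup2_meas (e κ : ℝ) : MeasurableSet (Wup2 e κ) :=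
  measurableSet_regionBetween measurable_const (VV_cont e κ).measurable measurableSet_Icc

theorem s2_lt : √2 < 1.4143 := by
  rw [Real.sqrt_lt' (by norm_num)]; norm_num

theorem VV_le {e κ : ℝ} (hκ : 0 ≤ κ) (X : ℝ) : VV e κ X ≤ 1 + κ := by
  unfold VV
  refine (min_le_right _ _).trans ?_
  have h1 := abs_nonneg X
  have h2 : √2 / 3 ≤ 1 := by linarith [s2_lt]
  have h3 : √2 / 3 * (1 / 2 - |X| + κ) ≤ √2 / 3 * (1 + κ) :=
    mul_le_mul_of_nonneg_left (by linarith) (by positivity)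
  have h4 : √2 / 3 * (1 + κ) ≤ 1 * (1 + κ) := mul_le_mul_of_nonneg_right h2 (by linarith)
  linarith

theorem Wup2_bdd (e : ℝ) {κ : ℝ} (hκ : 0 ≤ κ) : Bornology.IsBounded (Wup2 e κ) := by
  have h : Wup2 e κ ⊆ Icc (-(1 / 2)) (1 / 2) ×ˢ Icc 0 (1 + κ) := by
    rintro ⟨X, W⟩ hp
    unfold Wup2 regionBetween at hp
    simp only [mem_ofPred_eq, mem_Ioo] at hp
    obtain ⟨h1, h2, h3⟩ := hp
    exact ⟨h1, h2.le, h3.le.trans (VV_le hκ X)⟩
  exact ((isBounded_Icc _ _).prod (isBounded_Icc _ _)).subset h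

/-- gap between the slab and the reference section -/
noncomputable def gg (X : ℝ) : ℝ :=
  (1 / 2 - |X|) ^ 2 + 1 / 3 * (1 / 4 - X ^ 2) ^ 2 - 0.18 * (1 / 4 - X ^ 2) ^ 3

theorem u_eq (X : ℝ) : 1 / 4 - X ^ 2 = (1 / 2 - |X|) * (1 / 2 + |X|) := by
  have := sq_abs X
  linear_combination this

theorem VV_bd {e κ : ℝ} (he : 0 ≤ e) (hκ : 0 ≤ κ) {X : ℝ} (hX : |X| ≤ 1 / 2) :
    W0 X ≤ VV e κ X ∧ VV e κ X - W0 X ≤ √2 / 3 * min (e * rr X) (gg X + κ) := by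
  obtain ⟨y, hy, hy0, hq, hyl, hyu⟩ := y0_bd2 hX
  obtain ⟨r0, r1⟩ := rr_bd hX
  have hu := u_eq X
  have ha := abs_nonneg X
  have hs : (0 : ℝ) ≤ √2 / 3 := by positivity
  constructor
  · unfold VV
    refine le_min ?_ ?_
    · have : 0 ≤ √2 / 3 * (e * rr X) := by positivity
      linarith
    · have h3 : 3 * y ≤ 1 / 2 - |X| := by
        have h4 : 3 * y ≤ 1 / 4 - X ^ 2 := by nlinarith [sq_nonneg y]
        have h5 : (1 / 2 - |X|) * (1 / 2 + |X|) ≤ (1 / 2 - |X|) * 1 :=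
          mul_le_mul_of_nonneg_left (by linarith) (by linarith)
        linarith
      rw [hy]
      have h6 := mul_le_mul_of_nonneg_left (show 3 * y ≤ 1 / 2 - |X| + κ by linarith) hs
      linarith
  · rw [mul_min_of_nonneg _ _ hs]
    refine le_min ?_ ?_
    · have hm : VV e κ X ≤ W0 X + √2 / 3 * (e * rr X) := min_le_left _ _
      linarith
    · have hm : VV e κ X ≤ √2 / 3 * (1 / 2 - |X| + κ) := min_le_right _ _
      have h4 := mul_le_mul_of_nonneg_left hyl (show 0 ≤ √2 by positivity)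
      have h5 : √2 / 3 * (1 / 2 - |X| + κ) - √2 / 3 * (1 / 4 - X ^ 2 - 1 / 3 * (1 / 4 - X ^ 2) ^ 2
        + 0.18 * (1 / 4 - X ^ 2) ^ 3) = √2 / 3 * (gg X + κ) := by
        unfold gg
        have e1 : (1 / 2 - |X|) - (1 / 4 - X ^ 2) = (1 / 2 - |X|) ^ 2 := by
          rw [hu]; ring
        linear_combination √2 / 3 * e1
      have h6 : √2 * ((1 / 4 - X ^ 2 - 1 / 3 * (1 / 4 - X ^ 2) ^ 2 +
        0.18 * (1 / 4 - X ^ 2) ^ 3) / 3) = √2 / 3 * (1 / 4 - X ^ 2 - 1 / 3 * (1 / 4 - X ^ 2) ^ 2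
        + 0.18 * (1 / 4 - X ^ 2) ^ 3) := by ring
      rw [← h5, hy]
      linarith

/-- **the upper constraint** -/
theorem up_in2 {X W e e' : ℝ} (hX : |X| ≤ 1 / 2) (he : 0 ≤ e) (hee : e < e')
    (h : qw X W ≤ 1 / 4 + e) : W < W0 X + √2 / 3 * (e' * rr X) := by
  by_contra hcon
  rw [not_lt] at hcon
  obtain ⟨y, hy, hy0, hq, hyl, hyu⟩ := y0_bd2 hX
  obtain ⟨r0, r1⟩ := rr_bd hX
  obtain ⟨h0, h1⟩ := h_bd hX
  have hr := r2
  have hs2 : (0 : ℝ) < √2 := by positivity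
  have hl := y_low hX hyl
  have hru : 1 ≤ rr X * (1 + 2 * y) := by
    have h5 : 1 + 0.61 * (1 / 4 - X ^ 2) ≤ 1 + 2 * y := by nlinarith
    have h6 := mul_le_mul_of_nonneg_left h5 r0
    have h7 : rr X * (1 + 0.61 * (1 / 4 - X ^ 2)) = 1 + (0.61 * (1 / 4 - X ^ 2)) ^ 3 := by
      unfold rr; ring
    have h8 : 0 ≤ (0.61 * (1 / 4 - X ^ 2)) ^ 3 := by positivity
    linarith
  have he' : 0 ≤ e' := he.trans hee.le
  set v := y + e' * rr X / 3 with hv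
  have hv0 : 0 ≤ v := by positivity
  have hW : √2 * v ≤ W := by
    have : √2 * v = W0 X + √2 / 3 * (e' * rr X) := by rw [hv, hy]; ring
    linarith
  have hvq : 1 / 4 - X ^ 2 + e' ≤ 3 * v ^ 2 + 3 * v := by
    have e1 : 3 * v ^ 2 + 3 * v = (3 * y ^ 2 + 3 * y) + e' * (rr X * (1 + 2 * y)) +
      3 * (e' * rr X / 3) ^ 2 := by rw [hv]; ring
    have h9 := mul_le_mul_of_nonneg_left hru he'
    have h10 : 0 ≤ 3 * (e' * rr X / 3) ^ 2 := by positivity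
    linarith
  have h11 : X ^ 2 + 3 * v ^ 2 + 3 * v ≤ qw X W := by
    unfold qw
    have h12 : (√2 * v) ^ 2 ≤ W ^ 2 := pow_le_pow_left₀ (by positivity) hW 2
    have h13 : (√2 * v) ^ 2 = 2 * v ^ 2 := by linear_combination v ^ 2 * hr
    have h14 : 3 * (√2 / 2) * (√2 * v) ≤ 3 * (√2 / 2) * W :=
      mul_le_mul_of_nonneg_left hW (by positivity)
    have h15 : 3 * (√2 / 2) * (√2 * v) = 3 * v := by linear_combination 3 / 2 * v * hr
    linarith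
  linarith

/-- integral against the weight of an even function -/
theorem int_even {E : ℝ → ℝ} (hE : Continuous E) (hev : ∀ x, E (-x) = E x) (η : ℝ) :
    ∫ x in (-(1 / 2) : ℝ)..(1 / 2), nn η x * E x = ∫ x in (0 : ℝ)..(1 / 2), E x := by
  have hn : Continuous (nn η) := by unfold nn; fun_prop
  have hc : Continuous fun x => nn η x * E x := hn.mul hE
  have hc' : Continuous fun x => nn η (-x) * E (-x) := hc.comp continuous_neg
  rw [← intervalIntegral.integral_add_adjacent_intervals (b := 0) (hc.intervalIntegrable _ _)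
    (hc.intervalIntegrable _ _)]
  have h1 : ∫ x in (-(1 / 2) : ℝ)..0, nn η x * E x =
      ∫ x in (0 : ℝ)..(1 / 2), nn η (-x) * E (-x) := by
    rw [intervalIntegral.integral_comp_neg (fun x => nn η x * E x), neg_zero]
  rw [h1, ← intervalIntegral.integral_add (hc'.intervalIntegrable _ _) (hc.intervalIntegrable _ _)]
  refine intervalIntegral.integral_congr fun x _ => ?_
  show nn η (-x) * E (-x) + nn η x * E x = E x
  rw [hev]
  unfold nn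
  ring

theorem ZR_low {X : ℝ} (hX : |X| ≤ 1 / 2) (hX2 : 1 / 5 ≤ |X|) : 0.82 ≤ Zu X * rr X := by
  obtain ⟨h0, h1⟩ := h_bd hX
  have h2 : 1 / 4 - X ^ 2 ≤ 0.21 := by
    have := sq_abs X
    nlinarith
  obtain ⟨r0, r1⟩ := rr_bd hX
  have e : X ^ 2 = 1 / 4 - (1 / 4 - X ^ 2) := by ring
  have hz : 1 - (X ^ 2 / 2 + 10 / 9 * (1 / 4 - X ^ 2) ^ 2) ≤ Zu X := by
    rw [Zu_eq]
    have := sq_nonneg (X ^ 2 / 2 + 10 / 9 * (1 / 4 - X ^ 2) ^ 2)
    linarith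
  have h3 := mul_le_mul_of_nonneg_right hz r0
  refine le_trans ?_ h3
  unfold rr
  set h := 1 / 4 - X ^ 2 with hh
  have e2 : X ^ 2 = 1 / 4 - h := by rw [hh]; ring
  rw [e2]
  nlinarith [mul_nonneg h0 (sub_nonneg.2 h2), mul_nonneg (mul_nonneg h0 h0) (sub_nonneg.2 h2),
    sq_nonneg h, mul_nonneg (mul_nonneg h0 h0) h0]

end Helper53.MEI
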