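import Pool.Agent.Helper53.MEI.Wall2

/-!
# Project MEI (M2): weighted flux of a coordinate through an edge cell, general weight

The weight is `φ(x)/(4 D)` with any continuous `φ`; upper and lower bounds of the flux of the
coordinates `b₃`, `b₄` by wall integrals with slabs.
-/

namespace Helper53.MEI

open Set MeasureTheory Filter Topology Metric
open Helper80.CW Helper22.Wedge Helper22.Sig
open Helper21.Sec Helper21.Mom
open Helper22.MEI (s t FD FD_pos)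
open scoped RealInnerProductSpace ContDiff

theorem rr_cont : Continuous rr := by unfold rr; fun_prop
theorem gg_cont : Continuous gg := by unfold gg; fun_prop
theorem Zu_cont : Continuous Zu := by unfold Zu; fun_prop
theorem Pu2_cont : Continuous Pu2 := by unfold Pu2; fun_prop
theorem Plo2_cont : Continuous Plo2 := by unfold Plo2; fun_prop

theorem gg_nonneg {x : ℝ} (hX : |x| ≤ 1 / 2) : 0 ≤ gg x := by
  obtain ⟨k0, k1⟩ := h_bd hX
  unfold gg
  have h5 : 0 ≤ (1 / 4 - x ^ 2) ^ 2 := by positivity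
  have h6 : (1 / 4 - x ^ 2) ^ 3 ≤ 1 / 4 * (1 / 4 - x ^ 2) ^ 2 := by
    have : (1 / 4 - x ^ 2) ^ 3 = (1 / 4 - x ^ 2) * (1 / 4 - x ^ 2) ^ 2 := by ring
    rw [this]
    exact mul_le_mul_of_nonneg_right k1 h5
  have h7 : 0 ≤ (1 / 2 - |x|) ^ 2 := by positivity
  linarith

/-- **upper wall integral** -/
noncomputable def JGu (φ : ℝ → ℝ) (s' : ℝ) : ℝ :=
  √2 * (∫ x in (-(1 / 2) : ℝ)..(1 / 2), φ x * Pu2 x) +
    √2 / 3 * ∫ x in (-(1 / 2) : ℝ)..(1 / 2), φ x * (Zu x * min (s' * rr x) (gg x))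

/-- **lower wall integral** -/
noncomputable def JGl (φ : ℝ → ℝ) (s1 s2 : ℝ) : ℝ :=
  √2 * (∫ x in (-(1 / 2) : ℝ)..(1 / 2), φ x * Plo2 x) -
    √2 / 3 * ∫ x in (-(1 / 2) : ℝ)..(1 / 2),
      φ x * ((0.5774 * (s1 + s2) + (s1 - s2) * x) * (1 - x ^ 2 / 2))

section
variable {φ : ℝ → ℝ} (cφ : Continuous φ) (hφ : ∀ X : ℝ, |X| ≤ 1 / 2 → 0 ≤ φ X ∧ φ X ≤ 1)

include cφ hφ in
theorem Wup2_int {s' u C : ℝ} (hs : 0 ≤ s') (hu : 0 ≤ u) (hC : 0 ≤ C) :
    ∫ r in Wup2 (s' + 2 * u) u, (fG φ r + C) ≤ JGu φ s' + √2 * u + C * (1 + u) := by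
  have he : 0 ≤ s' + 2 * u := by positivity
  have hH : Continuous (fun r : ℝ × ℝ => fG φ r + C) := (fG_cont cφ).add continuous_const
  obtain ⟨hi, hint⟩ := int_reg (f := fun _ => (0 : ℝ)) (g := VV (s' + 2 * u) u)
    (s := Icc (-(1 / 2)) (1 / 2)) continuous_const (VV_cont _ _)
    measurableSet_Icc hH (Wup2_bdd _ hu)
  have hW : Wup2 (s' + 2 * u) u = regionBetween (fun _ => (0 : ℝ)) (VV (s' + 2 * u) u)
    (Icc (-(1 / 2)) (1 / 2)) := rfl
  rw [hW, hint]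
  have cZ := Zu_cont
  have cr := rr_cont
  have cg := gg_cont
  have cE : Continuous fun x => Zu x * min (s' * rr x) (gg x) := by fun_prop
  have c1 : Continuous fun x : ℝ => √2 * (φ x * Pu2 x) := continuous_const.mul (cφ.mul Pu2_cont)
  have c2 : Continuous fun x : ℝ => √2 / 3 * (φ x * (Zu x * min (s' * rr x) (gg x))) :=
    continuous_const.mul (cφ.mul cE)
  have c3 : Continuous fun x : ℝ => √2 * (φ x * Pu2 x) +
    √2 / 3 * (φ x * (Zu x * min (s' * rr x) (gg x))) := c1.add c2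
  have h2 : ∫ x in Icc (-(1 / 2) : ℝ) (1 / 2), ∫ y in Ioo 0 (VV (s' + 2 * u) u x),
      (fG φ (x, y) + C) ≤ ∫ x in Icc (-(1 / 2) : ℝ) (1 / 2),
      (√2 * (φ x * Pu2 x) + √2 / 3 * (φ x * (Zu x * min (s' * rr x) (gg x))) +
        (√2 * u + C * (1 + u))) := by
    refine setIntegral_mono_on hi
      ((c3.add continuous_const).continuousOn.integrableOn_compact isCompact_Icc)
      measurableSet_Icc fun x hx => ?_
    have hX : |x| ≤ 1 / 2 := abs_le.2 hx
    have hc : Continuous fun y : ℝ => fG φ (x, y) := (fG_cont cφ).comp (by fun_prop)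
    have hi1 : IntegrableOn (fun y : ℝ => fG φ (x, y)) (Ioo 0 (VV (s' + 2 * u) u x)) :=
      (hc.continuousOn.integrableOn_compact isCompact_Icc).mono_set Ioo_subset_Icc_self
    have hi2 : IntegrableOn (fun _ : ℝ => C) (Ioo 0 (VV (s' + 2 * u) u x)) :=
      (continuous_const.continuousOn.integrableOn_compact isCompact_Icc).mono_set
        Ioo_subset_Icc_self
    rw [integral_add hi1 hi2, setIntegral_const, Real.volume_real_Ioo, smul_eq_mul]
    obtain ⟨v0, v1⟩ := VV_bd he hu hX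
    have h2 := inner_up2 cφ hφ hX v0
    have h3 : max (VV (s' + 2 * u) u x - 0) 0 * C ≤ (1 + u) * C := by
      refine mul_le_mul_of_nonneg_right (max_le ?_ ?_) hC
      · have := VV_le (e := s' + 2 * u) hu x
        linarith
      · linarith
    obtain ⟨n0, n1⟩ := hφ x hX
    obtain ⟨z0, z1⟩ := Zu_bd hX
    obtain ⟨r0, r1⟩ := rr_bd hX
    have hmin : min ((s' + 2 * u) * rr x) (gg x + u) ≤ min (s' * rr x) (gg x) + 3 * u := by
      rw [← min_add_add_right]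
      refine min_le_min ?_ (by linarith)
      have := mul_le_mul_of_nonneg_left r1 (show 0 ≤ 2 * u by linarith)
      linarith
    have h4 : φ x * ((VV (s' + 2 * u) u x - W0 x) * Zu x) ≤
        √2 / 3 * (φ x * (Zu x * min (s' * rr x) (gg x))) + √2 * u := by
      have h5 := mul_le_mul_of_nonneg_left (mul_le_mul_of_nonneg_right
        (v1.trans (mul_le_mul_of_nonneg_left hmin (show 0 ≤ √2 / 3 by positivity))) z0) n0
      have e1 : φ x * (√2 / 3 * (min (s' * rr x) (gg x) + 3 * u) * Zu x) =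
        √2 / 3 * (φ x * (Zu x * min (s' * rr x) (gg x))) + (φ x * Zu x) * (√2 * u) := by ring
      rw [e1] at h5
      have h6 : φ x * Zu x ≤ 1 * 1 := mul_le_mul n1 (z1.trans (by norm_num)) z0 zero_le_one
      have h7 : φ x * Zu x * (√2 * u) ≤ 1 * 1 * (√2 * u) :=
        mul_le_mul_of_nonneg_right h6 (by positivity)
      linarith
    have e2 : φ x * (√2 * Pu2 x + (VV (s' + 2 * u) u x - W0 x) * Zu x) = √2 * (φ x * Pu2 x) +
      φ x * ((VV (s' + 2 * u) u x - W0 x) * Zu x) := by ring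
    rw [e2] at h2
    linarith
  refine h2.trans (le_of_eq ?_)
  rw [integral_Icc_eq_integral_Ioc, ← intervalIntegral.integral_of_le (by norm_num)]
  rw [intervalIntegral.integral_add (c3.intervalIntegrable _ _) (by simp),
    intervalIntegral.integral_add (c1.intervalIntegrable _ _) (c2.intervalIntegrable _ _),
    intervalIntegral.integral_const_mul, intervalIntegral.integral_const_mul,
    intervalIntegral.integral_const]
  unfold JGu
  simp only [smul_eq_mul]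
  ring

include cφ hφ in
theorem Wlow2_int {s1 s2 u w C : ℝ} (hs1 : 0 ≤ s1) (hs2 : 0 ≤ s2) (hu : 0 ≤ u) (hw : 0 ≤ w)
    (hC : 0 ≤ C) : JGl φ s1 s2 - √2 * u - w - C ≤
      ∫ r in Wlow (0.5774 * (s1 + s2) + 2 * u) (s1 - s2) w, (fG φ r - C) := by
  have hδ : ∀ X : ℝ, |X| ≤ 1 / 2 → 0 ≤ 0.5774 * (s1 + s2) + (s1 - s2) * X := by
    intro X hX
    obtain ⟨hXl, hXu⟩ := abs_le.1 hX
    have h4 : 0 ≤ s1 * (0.5774 + X) := mul_nonneg hs1 (by linarith)
    have h5 : 0 ≤ s2 * (0.5774 - X) := mul_nonneg hs2 (by linarith)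
    have h6 : s1 * (0.5774 + X) + s2 * (0.5774 - X) =
      0.5774 * (s1 + s2) + (s1 - s2) * X := by ring
    linarith
  have hδ' : ∀ X : ℝ, |X| ≤ 1 / 2 → 0 ≤ (0.5774 * (s1 + s2) + 2 * u) + (s1 - s2) * X := by
    intro X hX
    have := hδ X hX
    linarith
  have hH : Continuous (fun r : ℝ × ℝ => fG φ r - C) := (fG_cont cφ).sub continuous_const
  obtain ⟨hi, hint⟩ := int_reg (f := fun _ => w)
    (g := fun X => W0 X - √2 / 3 * ((0.5774 * (s1 + s2) + 2 * u) + (s1 - s2) * X))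
    (s := Ioc (-(1 / 2)) (1 / 2)) continuous_const (W0_cont.sub (by fun_prop))
    measurableSet_Ioc hH (Wlow_bdd hw hδ')
  have hW : Wlow (0.5774 * (s1 + s2) + 2 * u) (s1 - s2) w = regionBetween (fun _ => w)
    (fun X => W0 X - √2 / 3 * ((0.5774 * (s1 + s2) + 2 * u) + (s1 - s2) * X))
    (Ioc (-(1 / 2)) (1 / 2)) := rfl
  rw [hW, hint]
  have c1 : Continuous fun x : ℝ => √2 * (φ x * Plo2 x) :=
    continuous_const.mul (cφ.mul Plo2_cont)
  have c2 : Continuous fun x : ℝ => √2 / 3 * (φ x * ((0.5774 * (s1 + s2) + (s1 - s2) * x) *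
    (1 - x ^ 2 / 2))) := continuous_const.mul (cφ.mul (by fun_prop))
  have c3 : Continuous fun x : ℝ => √2 * (φ x * Plo2 x) - √2 / 3 * (φ x *
    ((0.5774 * (s1 + s2) + (s1 - s2) * x) * (1 - x ^ 2 / 2))) := c1.sub c2
  have h1 : ∫ x in Ioc (-(1 / 2) : ℝ) (1 / 2), (√2 * (φ x * Plo2 x) - √2 / 3 * (φ x *
      ((0.5774 * (s1 + s2) + (s1 - s2) * x) * (1 - x ^ 2 / 2))) - (√2 * u + w + C)) ≤
      ∫ x in Ioc (-(1 / 2) : ℝ) (1 / 2), ∫ y in
      Ioo w (W0 x - √2 / 3 * ((0.5774 * (s1 + s2) + 2 * u) + (s1 - s2) * x)),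
      (fG φ (x, y) - C) := by
    refine setIntegral_mono_on
      (((c3.sub continuous_const).continuousOn.integrableOn_compact isCompact_Icc).mono_set
        Ioc_subset_Icc_self) hi measurableSet_Ioc fun x hx => ?_
    have hX : |x| ≤ 1 / 2 := abs_le.2 ⟨hx.1.le, hx.2⟩
    have hδ0 : 0 ≤ √2 / 3 * ((0.5774 * (s1 + s2) + 2 * u) + (s1 - s2) * x) :=
      mul_nonneg (by positivity) (hδ' x hX)
    have hc : Continuous fun y : ℝ => fG φ (x, y) := (fG_cont cφ).comp (by fun_prop)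
    have hi1 : IntegrableOn (fun y : ℝ => fG φ (x, y))
        (Ioo w (W0 x - √2 / 3 * ((0.5774 * (s1 + s2) + 2 * u) + (s1 - s2) * x))) :=
      (hc.continuousOn.integrableOn_compact isCompact_Icc).mono_set Ioo_subset_Icc_self
    have hi2 : IntegrableOn (fun _ : ℝ => C)
        (Ioo w (W0 x - √2 / 3 * ((0.5774 * (s1 + s2) + 2 * u) + (s1 - s2) * x))) :=
      (continuous_const.continuousOn.integrableOn_compact isCompact_Icc).mono_set
        Ioo_subset_Icc_self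
    rw [integral_sub hi1 hi2, setIntegral_const, Real.volume_real_Ioo, smul_eq_mul]
    have h2 := inner_lo2 cφ hφ hX hδ0 hw
    have h3 : max (W0 x - √2 / 3 * ((0.5774 * (s1 + s2) + 2 * u) + (s1 - s2) * x) - w) 0 * C ≤
        1 * C := by
      refine mul_le_mul_of_nonneg_right (max_le ?_ zero_le_one) hC
      have := W0_le x
      linarith
    obtain ⟨n0, n1⟩ := hφ x hX
    have hX2 := sq_le_of_abs hX
    have hk0 : 0 ≤ 1 - x ^ 2 / 2 := by linarith
    have hk1 : 1 - x ^ 2 / 2 ≤ 1 := by nlinarith [sq_nonneg x]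
    have h4 : φ x * (1 - x ^ 2 / 2) * (√2 / 3 * (2 * u)) ≤ √2 * u := by
      have h5 : φ x * (1 - x ^ 2 / 2) ≤ 1 * 1 := mul_le_mul n1 hk1 hk0 zero_le_one
      have h6 := mul_le_mul_of_nonneg_right h5 (show 0 ≤ √2 / 3 * (2 * u) by positivity)
      have h7 : 0 ≤ √2 * u := by positivity
      linarith
    have h5 : φ x * w ≤ w := mul_le_of_le_one_left hw n1
    have e1 : φ x * (√2 * Plo2 x - √2 / 3 * ((0.5774 * (s1 + s2) + 2 * u) + (s1 - s2) * x) *
        (1 - x ^ 2 / 2) - w) = √2 * (φ x * Plo2 x) - √2 / 3 * (φ x *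
        ((0.5774 * (s1 + s2) + (s1 - s2) * x) * (1 - x ^ 2 / 2))) -
        φ x * (1 - x ^ 2 / 2) * (√2 / 3 * (2 * u)) - φ x * w := by ring
    rw [e1] at h2
    linarith
  refine le_trans (le_of_eq ?_) h1
  rw [← intervalIntegral.integral_of_le (by norm_num)]
  rw [intervalIntegral.integral_sub (c3.intervalIntegrable _ _) (by simp),
    intervalIntegral.integral_sub (c1.intervalIntegrable _ _) (c2.intervalIntegrable _ _),
    intervalIntegral.integral_const_mul, intervalIntegral.integral_const_mul,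
    intervalIntegral.integral_const]
  unfold JGl
  simp only [smul_eq_mul]
  ring

end

/-! ### the weighted wall integrals of a body -/

/-- weighted wall integral -/
noncomputable def JG (b : OrthonormalBasis (Fin 3) ℝ E3) (c : E3) (φ : ℝ → ℝ) (K : Set E3)
    (ε : ℝ) (m : ℕ) : ℝ := ∫ p in Tw b c ε '' K, omG φ p * jk (m + 1) p

section
variable {b : OrthonormalBasis (Fin 3) ℝ E3} {c : E3} {φ : ℝ → ℝ} (cφ : Continuous φ)
  (hφ : ∀ X : ℝ, |X| ≤ 1 / 2 → 0 ≤ φ X ∧ φ X ≤ 1) {K : Set E3} (hK : IsCompact K)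
  {s1 s2 s3 s4 : ℝ} (h : Bod b c K s1 s2 s3 s4)

include cφ hφ hK h in
theorem JG_up {s' : ℝ} (hs' : 0 ≤ s')
    (hSl : ∀ x ∈ K, |(co b c x).1| + |(co b c x).2.1| + √2 * ((co b c x).2.2 - √2 / 4) ≤ 1 / 2)
    {ε : ℝ} (hε : ε = 1 ∧ s4 ≤ s' ∨ ε = -1 ∧ s3 ≤ s') (m : ℕ) :
    JG b c φ K ε m ≤ JGu φ s' + √2 * (1 / ((m : ℝ) + 1)) + 2 * (1 / ((m : ℝ) + 1)) *
      (1 + 1 / ((m : ℝ) + 1)) := by
  have hM : (0 : ℝ) < m + 1 := by positivity
  have hu : (0 : ℝ) ≤ 1 / ((m : ℝ) + 1) := by positivity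
  have hC : (0 : ℝ) ≤ 2 * (1 / ((m : ℝ) + 1)) := by positivity
  refine le_trans ?_ (Wup2_int cφ hφ hs' hu hC)
  unfold JG
  refine wall_upper_w hM (hK.image (Tw_cont b c ε)) (Wup2_meas _ _) (Wup2_bdd _ hu)
    (omG_cont cφ) ((fG_cont cφ).add continuous_const) (fun r hr => ?_) ?_
  · have hX : |r.1| ≤ 1 / 2 := abs_le.2 hr.1
    have h1 := (hφ _ hX).1
    have h2 : 0 ≤ fG φ r := by
      unfold fG
      exact div_nonneg h1 (by positivity)
    exact add_nonneg h2 hC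
  rintro ⟨X, W⟩ l ⟨hl0, hl1⟩ ⟨x, hxK, hx⟩ hlW
  have h2 := r2
  simp only at hlW
  have hεε : ε * ε = 1 := by rcases hε with h | h <;> rw [h.1] <;> norm_num
  have hεa : |ε| = 1 := by rcases hε with h | h <;> rw [h.1] <;> simp
  have e1 : (co b c x).1 = X := congrArg (fun q : (ℝ × ℝ) × ℝ => q.1.1) hx
  have e2 : (co b c x).2.2 - √2 / 4 = W := congrArg (fun q : (ℝ × ℝ) × ℝ => q.1.2) hx
  have e3 : √2 / 2 * ((co b c x).2.2 - √2 / 4) - ε * (co b c x).2.1 = l :=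
    congrArg (fun q : (ℝ × ℝ) × ℝ => q.2) hx
  rw [e2] at e3
  have hX := h.X_le x hxK
  have hW := h.W_le x hxK
  have hSx := hSl x hxK
  have hQ : (co b c x).1 ^ 2 + (co b c x).2.1 ^ 2 + ((co b c x).2.2 - √2 / 4) ^ 2
    + ε * (co b c x).2.1 + √2 * ((co b c x).2.2 - √2 / 4) - 1 / 4 ≤ s' := by
    rcases hε with ⟨h3, h4⟩ | ⟨h3, h4⟩
    · have := h.Q4 x hxK
      rw [h3]; linarith
    · have := h.Q3 x hxK
      rw [h3]; linarith
  rw [e1] at hX hQ hSx
  rw [e2] at hW hQ hSx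
  set Y := (co b c x).2.1 with hY
  have hYl : ε * Y = √2 / 2 * W - l := by linarith
  have hYa : √2 / 2 * W - l ≤ |Y| := by
    have h5 := le_abs_self (ε * Y)
    rw [abs_mul, hεa, one_mul, hYl] at h5
    exact h5
  have hY2 : Y ^ 2 = (√2 / 2 * W - l) ^ 2 := by
    rw [← hYl]; linear_combination -(Y ^ 2) * hεε
  rw [hY2, hYl] at hQ
  have hlM : l * (1 + √2 * W) ≤ 3 / 2 * l := by
    have : l * (1 + √2 * W) ≤ l * (1 + 1 / 2) := mul_le_mul_of_nonneg_left (by linarith) hl0.le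
    linarith
  have hqw : qw X W ≤ 1 / 4 + (s' + 3 / 2 * (1 / ((m : ℝ) + 1))) := by
    have h5 : qw X W = (X ^ 2 + (√2 / 2 * W - l) ^ 2 + W ^ 2 + (√2 / 2 * W - l) + √2 * W - 1 / 4)
        + 1 / 4 + l * (1 + √2 * W) - l ^ 2 := by
      unfold qw
      linear_combination -(W ^ 2) / 4 * h2
    have h6 : 0 ≤ l ^ 2 := sq_nonneg l
    have h7 : 3 / 2 * l ≤ 3 / 2 * (1 / ((m : ℝ) + 1)) := by linarith
    linarith
  have hpos : (0 : ℝ) < 1 / ((m : ℝ) + 1) := by positivity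
  have hup := up_in2 (e' := s' + 2 * (1 / ((m : ℝ) + 1))) hX (by positivity)
    (by linarith) hqw
  have hW0 : 0 < W := by
    by_contra hcon
    rw [not_lt] at hcon
    have : √2 * W ≤ 0 := mul_nonpos_of_nonneg_of_nonpos (by positivity) hcon
    linarith
  have hup2 : W < √2 / 3 * (1 / 2 - |X| + 1 / ((m : ℝ) + 1)) := by
    have h8 : 3 * (√2 / 2) * W < 1 / 2 - |X| + 1 / ((m : ℝ) + 1) := by linarith
    have h9 := mul_lt_mul_of_pos_left h8 (show 0 < √2 / 3 by positivity)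
    have e4 : √2 / 3 * (3 * (√2 / 2) * W) = W := by linear_combination W / 2 * h2
    rwa [e4] at h9
  refine ⟨?_, ?_⟩
  · unfold Wup2 regionBetween VV
    simp only [mem_ofPred_eq, mem_Ioo]
    exact ⟨abs_le.1 hX, hW0, lt_min hup hup2⟩
  · have h8 := omG_up hφ hX hW0.le hW hl0.le
    linarith

include cφ hφ hK h in
theorem JG_lo {ε : ℝ} (hε : ε = 1 ∨ ε = -1) (m : ℕ) :
    JGl φ s1 s2 - √2 * (1 / ((m : ℝ) + 1)) - √2 * (1 / ((m : ℝ) + 1)) -
      4 * (1 / ((m : ℝ) + 1)) ≤ JG b c φ K ε m := by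
  have hM : (0 : ℝ) < m + 1 := by positivity
  have hM1 : (1 : ℝ) / (m + 1) ≤ 1 := by
    rw [div_le_one hM]
    have : (0 : ℝ) ≤ m := Nat.cast_nonneg m
    linarith
  have hpos : (0 : ℝ) ≤ 1 / ((m : ℝ) + 1) := by positivity
  have hw : 0 ≤ √2 * (1 / ((m : ℝ) + 1)) := by positivity
  have h1 := Wlow2_int cφ hφ h.s1_nn h.s2_nn hpos hw (C := 4 * (1 / ((m : ℝ) + 1)))
    (by positivity)
  refine h1.trans ?_
  have hδ' : ∀ X : ℝ, |X| ≤ 1 / 2 →
      0 ≤ (0.5774 * (s1 + s2) + 2 * (1 / ((m : ℝ) + 1))) + (s1 - s2) * X := by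
    intro X hX
    obtain ⟨hXl, hXu⟩ := abs_le.1 hX
    have h4 : 0 ≤ s1 * (0.5774 + X) := mul_nonneg h.s1_nn (by linarith)
    have h5 : 0 ≤ s2 * (0.5774 - X) := mul_nonneg h.s2_nn (by linarith)
    have h6 : s1 * (0.5774 + X) + s2 * (0.5774 - X) =
      0.5774 * (s1 + s2) + (s1 - s2) * X := by ring
    linarith
  unfold JG
  refine wall_lower_w hM (hK.image (Tw_cont b c ε)) (Wlow_meas _ _ _) (Wlow_bdd hw hδ')
    (omG_cont cφ) ?_ ((fG_cont cφ).sub continuous_const) ?_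
  · rintro p ⟨x, hx, rfl⟩
    unfold omG
    exact div_nonneg (hφ _ (h.X_le x hx)).1 (by positivity)
  intro r hr l hl
  have e1 : 2 * (1 / ((m : ℝ) + 1)) = 2 / (m + 1) := by ring
  have e2 : √2 * (1 / ((m : ℝ) + 1)) = √2 / (m + 1) := by ring
  rw [e1, e2] at hr
  obtain ⟨h2, h3⟩ := low_mem h hε m hr hl
  refine ⟨h2, h3, ?_⟩
  obtain ⟨X, W⟩ := r
  unfold Wlow regionBetween at hr
  simp only [mem_ofPred_eq, mem_Ioo, mem_Ioc] at hr
  obtain ⟨⟨hXl, hXu⟩, hWl, hWu⟩ := hr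
  have hW0 : 0 ≤ W := (lt_trans (by positivity) hWl).le
  have h4 := omG_lo hφ (abs_le.2 ⟨hXl.le, hXu⟩) hW0 hl.1.le (hl.2.le.trans hM1)
  have h5 := hl.2.le
  linarith

end

end Helper53.MEI
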